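import Pool.Agent.DeckB.Lam

/-!
# The minimum at a crossing of two rates (helper31)
-/

set_option autoImplicit false

namespace Pool.Agent.DeckB

theorem rate_tangent {x y : ℝ} (hx : 0 < x) (hy : 0 < y) (k : ℕ) :
    Real.log (vv x k) / ((3 * k + 4 : ℕ) : ℝ) +
      dd x k / vv x k / ((3 * k + 4 : ℕ) : ℝ) * (Real.log y - Real.log x) ≤ Lam y := by
  refine le_trans ?_ (le_Lam hy k)
  have h := div_le_div_of_nonneg_right (log_vv_tangent hx hy k) (cast_pos' k).le
  calc Real.log (vv x k) / ((3 * k + 4 : ℕ) : ℝ) +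
      dd x k / vv x k / ((3 * k + 4 : ℕ) : ℝ) * (Real.log y - Real.log x) =
      (Real.log (vv x k) + dd x k / vv x k * (Real.log y - Real.log x)) /
        ((3 * k + 4 : ℕ) : ℝ) := by ring
    _ ≤ _ := h

/-- If `u` lies between the slopes of two rates that are both equal to `Lam z`, then `z` is a
minimum of `Lam y - u * log y`. -/
theorem affine_min {z u : ℝ} {j k : ℕ} (hz : 0 < z)
    (hj : Real.log (vv z j) / ((3 * j + 4 : ℕ) : ℝ) = Lam z)
    (hk : Real.log (vv z k) / ((3 * k + 4 : ℕ) : ℝ) = Lam z)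
    (h1 : dd z j / vv z j / ((3 * j + 4 : ℕ) : ℝ) ≤ u)
    (h2 : u ≤ dd z k / vv z k / ((3 * k + 4 : ℕ) : ℝ)) :
    ∀ y : ℝ, 0 < y → Lam z - u * Real.log z ≤ Lam y - u * Real.log y := by
  intro y hy
  rcases le_total (Real.log z) (Real.log y) with h | h
  · have h3 := rate_tangent hz hy k
    have h4 := mul_le_mul_of_nonneg_right h2 (show 0 ≤ Real.log y - Real.log z by linarith)
    rw [hk] at h3
    linarith
  · have h3 := rate_tangent hz hy j
    have h4 := mul_le_mul_of_nonneg_right h1 (show 0 ≤ Real.log z - Real.log y by linarith)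
    rw [hj] at h3
    linarith

end Pool.Agent.DeckB
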