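import Pool.Agent.DeckB.Struct

/-!
# An upper bound for the weight of the alternating trees (package T3, helper30)
-/

set_option autoImplicit false

namespace Pool.Agent.DeckB

section altUp

variable {z : ℝ}

/-- a single leaf and a cherry on top of a tree without large classes -/
theorem V_alt_step (hz : 0 ≤ z) {v : BT} (hv : 2 ≤ v.size) (hb : bigD v = ∅) :
    V z (.node .leaf (.node cherry v)) ≤ (z ^ 3 + 2 * z ^ 2) * V z v + (z + z ^ 2) := by
  have h1 := V_leaf_node hz (.node cherry v)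
  have h2 := V_cherry_node hz hv
  have h3 := N_cherry_node hz v
  have h4 : B z v = 0 := by
    unfold B
    rw [hb]
    exact Finset.sum_empty
  have h5 : 0 ≤ z ^ 3 := pow_nonneg hz 3
  have h6 : mass z (N (.node cherry v)) ≤ z ^ 2 * V z v + z := by linarith
  have h7 : z * V z (.node cherry v) ≤ z * (z * V z v + mass z (N (.node cherry v))) :=
    mul_le_mul_of_nonneg_left h2 hz
  have h8 : z * mass z (N (.node cherry v)) ≤ z * (z ^ 2 * V z v + z) :=
    mul_le_mul_of_nonneg_left h6 hz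
  nlinarith

theorem two_le_sp_alt {v : BT} (hv : 2 ≤ v.size) (m : ℕ) : 2 ≤ (sp (alt m) v).size := by
  cases m with
  | zero => exact hv
  | succ m =>
    show 2 ≤ 1 + (2 + (sp (alt m) v).size)
    omega

theorem bigD_sp_alt {v : BT} (hb : bigD v = ∅) (m : ℕ) : bigD (sp (alt m) v) = ∅ := by
  induction m with
  | zero => exact hb
  | succ m ih =>
    rw [← Finset.subset_empty, ← ih]
    exact (bigD_leaf_node _).trans (bigD_cherry_node _)

theorem V_sp_alt (hz : 0 ≤ z) (h1 : 1 ≤ z ^ 3 + 2 * z ^ 2) {v : BT} (hv : 2 ≤ v.size)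
    (hb : bigD v = ∅) (m : ℕ) :
    V z (sp (alt m) v) ≤ (z ^ 3 + 2 * z ^ 2) ^ m * (V z v + m * (z + z ^ 2)) := by
  induction m with
  | zero =>
    rw [pow_zero, one_mul, Nat.cast_zero, zero_mul, add_zero]
    exact le_rfl
  | succ m ih =>
    have h2 := V_alt_step hz (two_le_sp_alt hv m) (bigD_sp_alt hb m)
    have h3 : (z ^ 3 + 2 * z ^ 2) * V z (sp (alt m) v) ≤
        (z ^ 3 + 2 * z ^ 2) * ((z ^ 3 + 2 * z ^ 2) ^ m * (V z v + m * (z + z ^ 2))) :=
      mul_le_mul_of_nonneg_left ih (by linarith)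
    have h4 : z + z ^ 2 ≤ (z ^ 3 + 2 * z ^ 2) ^ (m + 1) * (z + z ^ 2) :=
      le_mul_of_one_le_left (by positivity) (one_le_pow₀ h1)
    calc V z (sp (alt (m + 1)) v) ≤ (z ^ 3 + 2 * z ^ 2) * V z (sp (alt m) v) + (z + z ^ 2) := h2
      _ ≤ (z ^ 3 + 2 * z ^ 2) * ((z ^ 3 + 2 * z ^ 2) ^ m * (V z v + m * (z + z ^ 2))) +
          (z ^ 3 + 2 * z ^ 2) ^ (m + 1) * (z + z ^ 2) := add_le_add h3 h4
      _ = _ := by push_cast; ring

theorem mass_N_leaf : mass z (N .leaf) ≤ z ^ 1 := by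
  have h : N .leaf = {lam} := by
    ext q
    rw [mem_N, mem_D_leaf, Finset.mem_singleton]
    exact ⟨fun h => h.1, fun h => ⟨h, fun x => h ▸ lam_ne_join _ _⟩⟩
  rw [h, mass_singleton, ssize_lam]

theorem V_chain_leaf_succ (hz : 0 ≤ z) (k : ℕ) :
    V z (chain (k + 1) .leaf) ≤ z * V z (chain k .leaf) + z := by
  have h1 := V_leaf_node hz (chain k .leaf)
  have h2 := mass_mono hz (N_chain k .leaf)
  have h3 := mass_N_leaf (z := z)
  rw [pow_one] at h3
  exact h1.trans (by linarith)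

theorem V_chain_leaf_le (hz : 0 ≤ z) {k : ℕ} (hk : k ≤ 4) :
    V z (chain k .leaf) ≤ z + z ^ 2 + z ^ 3 + z ^ 4 + z ^ 5 := by
  have h0 : V z (chain 0 .leaf) ≤ z := by
    show mass z {lam} ≤ z
    rw [mass_singleton, ssize_lam, pow_one]
  have s (k : ℕ) {c : ℝ} (h : V z (chain k .leaf) ≤ c) :
      V z (chain (k + 1) .leaf) ≤ z * c + z := by
    have h1 := V_chain_leaf_succ hz k
    have h2 := mul_le_mul_of_nonneg_left h hz
    linarith
  have h1 := s 0 h0
  have h2 := s 1 h1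
  have h3 := s 2 h2
  have h4 := s 3 h3
  have p2 := pow_nonneg hz 2
  have p3 := pow_nonneg hz 3
  have p4 := pow_nonneg hz 4
  have p5 := pow_nonneg hz 5
  rcases (by omega : k = 0 ∨ k = 1 ∨ k = 2 ∨ k = 3 ∨ k = 4) with rfl | rfl | rfl | rfl | rfl
  · linarith
  · nlinarith
  · nlinarith
  · nlinarith
  · nlinarith

theorem altTree_V (hz : 0 ≤ z) (h1 : 1 ≤ z ^ 3 + 2 * z ^ 2) {n : ℕ} (hn : 3 ≤ n) :
    V z (altTree n) ≤ (z ^ 3 + 2 * z ^ 2) ^ (n / 3) *
      (n * (z + z ^ 2) + (z + z ^ 2 + z ^ 3 + z ^ 4 + z ^ 5)) := by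
  have hb : bigD (chain (n % 3 + 2) .leaf) = ∅ := by
    rw [← Finset.subset_empty, ← bigD_leaf]
    exact bigD_chain _ _
  have hv : 2 ≤ (chain (n % 3 + 2) .leaf).size := by
    rw [chain_size]
    omega
  have h2 := V_sp_alt hz h1 hv hb (n / 3 - 1)
  have h3 := V_chain_leaf_le hz (show n % 3 + 2 ≤ 4 by omega)
  have h4 : ((n / 3 - 1 : ℕ) : ℝ) ≤ n := by
    have : n / 3 - 1 ≤ n := by omega
    exact_mod_cast this
  have h5 : ((n / 3 - 1 : ℕ) : ℝ) * (z + z ^ 2) ≤ n * (z + z ^ 2) :=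
    mul_le_mul_of_nonneg_right h4 (by positivity)
  have h6 : (z ^ 3 + 2 * z ^ 2) ^ (n / 3 - 1) ≤ (z ^ 3 + 2 * z ^ 2) ^ (n / 3) :=
    pow_le_pow_right₀ h1 (by omega)
  refine h2.trans (mul_le_mul h6 (by linarith) ?_ (by positivity))
  have := V_nonneg hz (chain (n % 3 + 2) .leaf)
  positivity

end altUp

end Pool.Agent.DeckB
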