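import Pool.Agent.DeckB.Lower

/-!
# The asymptotic form of the two bounds
-/

set_option autoImplicit false

namespace Pool.Agent.DeckB

open Filter Topology

theorem main_le {n d : ℕ} (hn : 3 ≤ n) (hd : 10 * d ≤ n) :
    (M n (n - d) : ℝ) ≤ Real.exp (3 / 2 * (d ^ 2 / n)) * ((2 * n / 3) ^ d / d.factorial) := by
  have hn0 : (0 : ℝ) < n := by
    have : 0 < n := by omega
    exact_mod_cast this
  have h1 := M_le (n := n) (j := n - d) (by omega) (by omega)
  rw [show n - (n - d) = d by omega, Nat.multichoose_eq] at h1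
  have h2 : (M n (n - d) : ℝ) ≤ (((2 * n - 1) / 3 + d - 1 : ℕ) : ℝ) ^ d / d.factorial :=
    le_trans (by exact_mod_cast h1) (Nat.choose_le_pow_div (α := ℝ) d ((2 * n - 1) / 3 + d - 1))
  refine h2.trans ?_
  have h3 : (((2 * n - 1) / 3 + d - 1 : ℕ) : ℝ) ≤ 2 * n / 3 * Real.exp (3 / 2 * (d / n)) := by
    have h4 : (((2 * n - 1) / 3 + d - 1 : ℕ) : ℝ) ≤ 2 * n / 3 + d := by
      have h5 : 3 * ((2 * n - 1) / 3 + d - 1) ≤ 2 * n + 3 * d := by omega
      have h6 : (3 : ℝ) * (((2 * n - 1) / 3 + d - 1 : ℕ) : ℝ) ≤ 2 * n + 3 * d := by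
        exact_mod_cast h5
      linarith
    have h7 := Real.add_one_le_exp (3 / 2 * ((d : ℝ) / n))
    have h8 : 2 * (n : ℝ) / 3 + d = 2 * n / 3 * (3 / 2 * ((d : ℝ) / n) + 1) := by
      field_simp
      ring
    rw [h8] at h4
    exact h4.trans (mul_le_mul_of_nonneg_left h7 (by positivity))
  have h9 : Real.exp (3 / 2 * ((d : ℝ) ^ 2 / n)) = Real.exp (3 / 2 * (d / n)) ^ d := by
    rw [← Real.exp_nat_mul]
    congr 1
    field_simp
  rw [h9, ← mul_div_assoc, ← mul_pow, mul_comm (Real.exp _)]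
  gcongr

theorem le_main {n d : ℕ} (hn : 3 ≤ n) (hd : 10 * d ≤ n) :
    Real.exp (-(10 * (d ^ 2 / n))) * ((2 * n / 3) ^ d / d.factorial) ≤
      ((deck (n - d) (altTree n)).ncard : ℝ) := by
  have hn0 : (0 : ℝ) < n := by
    have : 0 < n := by omega
    exact_mod_cast this
  rcases Nat.eq_zero_or_pos d with h0 | h0
  · subst h0
    have h1 := le_altTree hn 0
    rw [pow_zero, Nat.choose_zero_right, one_mul] at h1
    have h2 : (1 : ℝ) ≤ ((deck (n - 0) (altTree n)).ncard : ℝ) := by exact_mod_cast h1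
    simpa using h2
  have h1 := le_altTree hn d
  have hd1 : (1 : ℝ) ≤ d := by exact_mod_cast h0
  have hd2 : (10 : ℝ) * d ≤ n := by exact_mod_cast hd
  have h2 : (2 : ℝ) ^ d * (((n / 3 - 1 + 1 - d : ℕ) : ℝ) ^ d / d.factorial) ≤
      (deck (n - d) (altTree n)).ncard := by
    refine le_trans (mul_le_mul_of_nonneg_left
      (Nat.pow_le_choose (α := ℝ) d (n / 3 - 1)) (by positivity)) ?_
    exact_mod_cast h1
  refine le_trans ?_ h2
  have h3 : 2 * (n : ℝ) / 3 * Real.exp (-(10 * (d / n))) ≤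
      2 * ((n / 3 - 1 + 1 - d : ℕ) : ℝ) := by
    have h5 : n ≤ 3 * (n / 3 - 1 + 1 - d) + (3 * d + 2) := by omega
    have h6 : (n : ℝ) ≤ 3 * ((n / 3 - 1 + 1 - d : ℕ) : ℝ) + (3 * d + 2) := by
      exact_mod_cast h5
    have h7 : Real.exp (-(10 * ((d : ℝ) / n))) * (1 + 10 * ((d : ℝ) / n)) ≤ 1 := by
      have h8 := Real.add_one_le_exp (10 * ((d : ℝ) / n))
      have h9 : Real.exp (-(10 * ((d : ℝ) / n))) * Real.exp (10 * ((d : ℝ) / n)) = 1 := by
        rw [← Real.exp_add]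
        simp
      rw [← h9]
      exact mul_le_mul_of_nonneg_left (by linarith) (Real.exp_nonneg _)
    have h10 : (1 : ℝ) ≤ (1 - 5 * ((d : ℝ) / n)) * (1 + 10 * ((d : ℝ) / n)) := by
      have h11 : 0 ≤ (d : ℝ) / n := by positivity
      have h12 : 10 * ((d : ℝ) / n) ≤ 1 := by
        rw [← mul_div_assoc, div_le_one hn0]
        exact hd2
      nlinarith
    have h13 : Real.exp (-(10 * ((d : ℝ) / n))) ≤ 1 - 5 * ((d : ℝ) / n) := by
      have h14 : 0 < 1 + 10 * ((d : ℝ) / n) := by positivity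
      exact le_of_mul_le_mul_right (h7.trans h10) h14
    have h15 : 2 * (n : ℝ) / 3 * (1 - 5 * ((d : ℝ) / n)) = 2 / 3 * (n - 5 * d) := by
      field_simp
    calc 2 * (n : ℝ) / 3 * Real.exp (-(10 * (d / n)))
        ≤ 2 * (n : ℝ) / 3 * (1 - 5 * ((d : ℝ) / n)) :=
          mul_le_mul_of_nonneg_left h13 (by positivity)
      _ = 2 / 3 * (n - 5 * d) := h15
      _ ≤ 2 * ((n / 3 - 1 + 1 - d : ℕ) : ℝ) := by linarith
  have h9 : Real.exp (-(10 * ((d : ℝ) ^ 2 / n))) = Real.exp (-(10 * (d / n))) ^ d := by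
    rw [← Real.exp_nat_mul]
    congr 1
    field_simp
  have h16 : Real.exp (-(10 * ((d : ℝ) / n))) ^ d * ((2 * n / 3) ^ d / d.factorial) =
      (2 * (n : ℝ) / 3 * Real.exp (-(10 * (d / n)))) ^ d / d.factorial := by
    rw [mul_pow (2 * (n : ℝ) / 3)]
    ring
  have h17 : (2 : ℝ) ^ d * (((n / 3 - 1 + 1 - d : ℕ) : ℝ) ^ d / d.factorial) =
      (2 * ((n / 3 - 1 + 1 - d : ℕ) : ℝ)) ^ d / d.factorial := by
    rw [mul_pow]
    ring
  rw [h9, h16, h17]
  exact div_le_div_of_nonneg_right (pow_le_pow_left₀ (by positivity) h3 d) (by positivity)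

theorem main_tendsto {d : ℕ → ℕ} (hd : Tendsto (fun n => (d n : ℝ) ^ 2 / n) atTop (𝓝 0)) :
    Tendsto (fun n : ℕ => (M n (n - d n) : ℝ) / ((2 * n / 3) ^ d n / (d n).factorial))
      atTop (𝓝 1) ∧
    Tendsto (fun n : ℕ => ((deck (n - d n) (altTree n)).ncard : ℝ) /
      ((2 * n / 3) ^ d n / (d n).factorial)) atTop (𝓝 1) := by
  have h1 : ∀ᶠ n : ℕ in atTop, 10 * d n ≤ n := by
    filter_upwards [hd.eventually (gt_mem_nhds (show (0 : ℝ) < 1 / 10 by norm_num)),
      eventually_gt_atTop 0] with n hn h0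
    have hn0 : (0 : ℝ) < n := by exact_mod_cast h0
    rw [div_lt_div_iff₀ hn0 (by norm_num)] at hn
    have h2 : 10 * d n ^ 2 < n := by
      have : (10 : ℝ) * (d n : ℝ) ^ 2 < n := by linarith
      exact_mod_cast this
    nlinarith [Nat.le_self_pow (two_ne_zero) (d n)]
  have h2 : Tendsto (fun n : ℕ => Real.exp (-(10 * ((d n : ℝ) ^ 2 / n)))) atTop (𝓝 1) := by
    have := (Real.continuous_exp.tendsto _).comp ((hd.const_mul 10).neg)
    simpa [Function.comp_def] using this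
  have h3 : Tendsto (fun n : ℕ => Real.exp (3 / 2 * ((d n : ℝ) ^ 2 / n))) atTop (𝓝 1) := by
    have := (Real.continuous_exp.tendsto _).comp (hd.const_mul (3 / 2))
    simpa [Function.comp_def] using this
  have h4 : ∀ᶠ n : ℕ in atTop, Real.exp (-(10 * ((d n : ℝ) ^ 2 / n))) ≤
      ((deck (n - d n) (altTree n)).ncard : ℝ) / ((2 * n / 3) ^ d n / (d n).factorial) := by
    filter_upwards [h1, eventually_ge_atTop 3] with n hn h0
    have hn0 : (0 : ℝ) < n := by
      have : 0 < n := by omega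
      exact_mod_cast this
    rw [le_div_iff₀ (by positivity)]
    exact le_main h0 hn
  have h5 : ∀ᶠ n : ℕ in atTop,
      (M n (n - d n) : ℝ) / ((2 * n / 3) ^ d n / (d n).factorial) ≤
        Real.exp (3 / 2 * ((d n : ℝ) ^ 2 / n)) := by
    filter_upwards [h1, eventually_ge_atTop 3] with n hn h0
    have hn0 : (0 : ℝ) < n := by
      have : 0 < n := by omega
      exact_mod_cast this
    rw [div_le_iff₀ (by positivity)]
    exact main_le h0 hn
  have h6 : ∀ᶠ n : ℕ in atTop,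
      ((deck (n - d n) (altTree n)).ncard : ℝ) / ((2 * n / 3) ^ d n / (d n).factorial) ≤
        (M n (n - d n) : ℝ) / ((2 * n / 3) ^ d n / (d n).factorial) := by
    filter_upwards [eventually_ge_atTop 3] with n h0
    have h7 : ((deck (n - d n) (altTree n)).ncard : ℝ) ≤ (M n (n - d n) : ℝ) := by
      exact_mod_cast altTree_le_M h0 (Nat.sub_le _ _)
    gcongr
  refine ⟨tendsto_of_tendsto_of_tendsto_of_le_of_le' h2 h3 ?_ h5,
    tendsto_of_tendsto_of_tendsto_of_le_of_le' h2 h3 h4 ?_⟩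
  · filter_upwards [h4, h6] with n h7 h8
    exact h7.trans h8
  · filter_upwards [h5, h6] with n h7 h8
    exact h8.trans h7

end Pool.Agent.DeckB
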