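import Mathlib

/-!
# The threshold of the alternating tree
-/

set_option autoImplicit false

namespace Pool.Agent.DeckB

/-- The polynomial whose root `β` gives the threshold. -/
noncomputable def Gb (z : ℝ) : ℝ :=
  (z ^ 4 + 3 * z ^ 3 + 3 * z ^ 2 + z - 2) ^ 3 - z ^ 2 * (z + 2) ^ 4 * (z ^ 2 + z - 1) ^ 3

theorem Gb_shift (t : ℝ) : Gb (7 / 3 + t) = 691819921/177147 - (6410253655/59049) * t ^ 1 -
    (8080829705/19683) * t ^ 2 - (1435602248/2187) * t ^ 3 - (441688969/729) * t ^ 4 -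
    (87529439/243) * t ^ 5 - (11709944/81) * t ^ 6 - (1073035/27) * t ^ 7 -
    (66593/9) * t ^ 8 - (8045/9) * t ^ 9 - (190/3) * t ^ 10 - (2) * t ^ 11 := by
  unfold Gb
  ring

theorem Gb_anti {x y : ℝ} (hx : 7 / 3 ≤ x) (hxy : x < y) : Gb y < Gb x := by
  obtain ⟨a, rfl⟩ : ∃ a, x = 7 / 3 + a := ⟨x - 7 / 3, by ring⟩
  obtain ⟨b, rfl⟩ : ∃ b, y = 7 / 3 + b := ⟨y - 7 / 3, by ring⟩
  have ha : 0 ≤ a := by linarith
  have hab : a < b := by linarith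
  have h : ∀ k : ℕ, a ^ k ≤ b ^ k := fun k => pow_le_pow_left₀ ha hab.le k
  rw [Gb_shift, Gb_shift]
  have h2 := h 2
  have h3 := h 3
  have h4 := h 4
  have h5 := h 5
  have h6 := h 6
  have h7 := h 7
  have h8 := h 8
  have h9 := h 9
  have h10 := h 10
  have h11 := h 11
  linarith

theorem Gb_continuous : Continuous Gb := by
  unfold Gb
  fun_prop

theorem exists_beta : ∃ β : ℝ, 59 / 25 < β ∧ β < 71 / 30 ∧ Gb β = 0 ∧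
    (∀ z : ℝ, 7 / 3 ≤ z → z < β → 0 < Gb z) ∧ (∀ z : ℝ, β < z → Gb z < 0) := by
  have h1 : 0 < Gb (59 / 25) := by unfold Gb; norm_num
  have h2 : Gb (71 / 30) < 0 := by unfold Gb; norm_num
  obtain ⟨β, hβ, h0⟩ := intermediate_value_Icc' (show (59 / 25 : ℝ) ≤ 71 / 30 by norm_num)
    Gb_continuous.continuousOn ⟨h2.le, h1.le⟩
  have h3 : 59 / 25 < β := by
    rcases hβ.1.lt_or_eq with h | h
    · exact h
    · rw [← h] at h0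
      exact absurd h0 h1.ne'
  have h4 : β < 71 / 30 := by
    rcases hβ.2.lt_or_eq with h | h
    · exact h
    · rw [h] at h0
      exact absurd h0 h2.ne
  refine ⟨β, h3, h4, h0, fun z hz hzβ => ?_, fun z hz => ?_⟩
  · rw [← h0]
    exact Gb_anti hz hzβ
  · rw [← h0]
    exact Gb_anti (by linarith) hz

theorem A1_eq {z κ : ℝ} (hκ : κ * (z ^ 2 + z - 1) = 1) :
    z ^ 4 + 2 * z ^ 3 + 2 * z ^ 2 + κ * z ^ 3 =
      κ * z ^ 2 * (z ^ 4 + 3 * z ^ 3 + 3 * z ^ 2 + z - 2) := by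
  linear_combination (-(z ^ 4 + 2 * z ^ 3 + 2 * z ^ 2)) * hκ

theorem A1_cube {z ω κ : ℝ} (hω : ω ^ 3 = z ^ 3 + 2 * z ^ 2)
    (hκ : κ * (z ^ 2 + z - 1) = 1) :
    (z ^ 4 + 2 * z ^ 3 + 2 * z ^ 2 + κ * z ^ 3) ^ 3 - (ω ^ 4) ^ 3 = κ ^ 3 * z ^ 6 * Gb z := by
  have h1 : (ω ^ 4) ^ 3 = (z ^ 3 + 2 * z ^ 2) ^ 4 := by
    rw [← hω]; ring
  have h2 : κ ^ 3 * (z ^ 2 + z - 1) ^ 3 = 1 := by
    rw [← mul_pow, hκ, one_pow]
  rw [A1_eq hκ, h1]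
  unfold Gb
  linear_combination (z ^ 8 * (z + 2) ^ 4) * h2

theorem kappa_posB {z κ : ℝ} (hz : 7 / 3 ≤ z) (hκ : κ * (z ^ 2 + z - 1) = 1) : 0 < κ := by
  have h1 : 0 < z ^ 2 + z - 1 := by nlinarith
  by_contra h
  push Not at h
  nlinarith [mul_nonneg (neg_nonneg.2 h) h1.le]

theorem A1_le {z ω κ : ℝ} (hz : 7 / 3 ≤ z) (_h0 : 0 ≤ ω) (hω : ω ^ 3 = z ^ 3 + 2 * z ^ 2)
    (hκ : κ * (z ^ 2 + z - 1) = 1) (h : Gb z ≤ 0) :
    z ^ 4 + 2 * z ^ 3 + 2 * z ^ 2 + κ * z ^ 3 ≤ ω ^ 4 := by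
  have h1 := A1_cube hω hκ
  have hk := kappa_posB hz hκ
  have hz0 : 0 < z := by linarith
  have h2 : κ ^ 3 * z ^ 6 * Gb z ≤ 0 := mul_nonpos_of_nonneg_of_nonpos (by positivity) h
  exact le_of_pow_le_pow_left₀ (n := 3) (by norm_num) (by positivity) (by linarith)

theorem lt_A1 {z ω κ : ℝ} (hz : 7 / 3 ≤ z) (_h0 : 0 ≤ ω) (hω : ω ^ 3 = z ^ 3 + 2 * z ^ 2)
    (hκ : κ * (z ^ 2 + z - 1) = 1) (h : 0 < Gb z) :
    ω ^ 4 < z ^ 4 + 2 * z ^ 3 + 2 * z ^ 2 + κ * z ^ 3 := by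
  have h1 := A1_cube hω hκ
  have hk := kappa_posB hz hκ
  have hz0 : 0 < z := by linarith
  have h2 : 0 < κ ^ 3 * z ^ 6 * Gb z := by positivity
  exact lt_of_pow_lt_pow_left₀ 3 (by positivity) (by linarith)

end Pool.Agent.DeckB
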