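import Pool.Agent.DeckB.HSer

/-! # Comparison of coefficients (helper30, package C of helper51's plan) -/

set_option autoImplicit false

namespace Pool.Agent.DeckB

open PowerSeries

namespace Cmp

/-! ## basic facts -/

theorem coeff_mul_le {F G K : ℕ⟦X⟧} {d : ℕ} (h : ∀ j ≤ d, coeff j F ≤ coeff j G) :
    coeff d (F * K) ≤ coeff d (G * K) := by
  rw [coeff_mul, coeff_mul]
  refine Finset.sum_le_sum fun p hp => Nat.mul_le_mul_right _ (h _ ?_)
  have := Finset.HasAntidiagonal.mem_antidiagonal.1 hp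
  omega

theorem coeff_zero_H : coeff 0 H = 1 := by
  simp [H]

theorem coeff_zero_H_pow (s : ℕ) : coeff 0 (H ^ s) = 1 := by
  rw [coeff_zero_eq_constantCoeff, map_pow, ← coeff_zero_eq_constantCoeff, coeff_zero_H, one_pow]

theorem le_coeff_mul (F K : ℕ⟦X⟧) (j : ℕ) : coeff j F * coeff 0 K ≤ coeff j (F * K) := by
  rw [coeff_mul]
  exact Finset.single_le_sum (f := fun p : ℕ × ℕ => coeff p.1 F * coeff p.2 K)
    (fun _ _ => Nat.zero_le _) (Finset.HasAntidiagonal.mem_antidiagonal.2 (by simp : (j, 0).1 + (j, 0).2 = j))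

theorem le_coeff_mul_H_pow (F : ℕ⟦X⟧) (s j : ℕ) : coeff j F ≤ coeff j (F * H ^ s) := by
  have := le_coeff_mul F (H ^ s) j
  rwa [coeff_zero_H_pow, mul_one] at this

theorem coeff_mul_H_pow_mono (F : ℕ⟦X⟧) {s t : ℕ} (h : s ≤ t) (j : ℕ) :
    coeff j (F * H ^ s) ≤ coeff j (F * H ^ t) := by
  obtain ⟨u, rfl⟩ := Nat.exists_eq_add_of_le h
  rw [pow_add, ← mul_assoc]
  exact le_coeff_mul_H_pow _ _ _

theorem coeff_succ_two (F : ℕ⟦X⟧) (j : ℕ) :
    coeff (j + 1) (F * (1 + 2 * X)) = coeff (j + 1) F + 2 * coeff j F := by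
  have : F * (1 + 2 * X) = F + (F * X + F * X) := by ring
  rw [this, map_add, map_add, coeff_succ_mul_X]
  ring

theorem coeff_zero_two (F : ℕ⟦X⟧) : coeff 0 (F * (1 + 2 * X)) = coeff 0 F := by
  have : F * (1 + 2 * X) = F + (F * X + F * X) := by ring
  rw [this, map_add, map_add, coeff_zero_mul_X]
  ring

theorem coeff_succ_one (F : ℕ⟦X⟧) (j : ℕ) :
    coeff (j + 1) (F * (1 + X)) = coeff (j + 1) F + coeff j F := by
  have : F * (1 + X) = F + F * X := by ring
  rw [this, map_add, coeff_succ_mul_X]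

theorem coeff_zero_one (F : ℕ⟦X⟧) : coeff 0 (F * (1 + X)) = coeff 0 F := by
  have : F * (1 + X) = F + F * X := by ring
  rw [this, map_add, coeff_zero_mul_X, add_zero]

theorem coeff_L (m j : ℕ) : coeff j ((1 + 2 * X) ^ m : ℕ⟦X⟧) = 2 ^ j * m.choose j := by
  induction m generalizing j with
  | zero =>
    rw [pow_zero, coeff_one]
    cases j <;> simp
  | succ m ih =>
    rw [pow_succ]
    cases j with
    | zero => rw [coeff_zero_two, ih]; simp
    | succ j =>
      rw [coeff_succ_two, ih, ih, Nat.choose_succ_succ]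
      ring

/-! ## Part I -/

/-- growth of the coefficients -/
def Gr (d : ℕ) (F : ℕ⟦X⟧) : Prop := ∀ j, j + 2 ≤ d → 20 * coeff j F ≤ coeff (j + 1) F

theorem Gr.mul {d : ℕ} {F : ℕ⟦X⟧} (h : Gr d F) (K : ℕ⟦X⟧) : Gr d (F * K) := by
  intro j hj
  rw [coeff_mul, coeff_mul, Finset.Nat.antidiagonal_succ, Finset.sum_cons, Finset.sum_map,
    Finset.mul_sum]
  refine le_trans (Finset.sum_le_sum fun p hp => ?_) (Nat.le_add_left _ _)
  have hp' := Finset.HasAntidiagonal.mem_antidiagonal.1 hp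
  rw [← mul_assoc]
  exact Nat.mul_le_mul_right _ (h _ (by omega))

theorem gr_L {m d : ℕ} (h : 11 * d ≤ m) : Gr d ((1 + 2 * X) ^ m : ℕ⟦X⟧) := by
  intro j hj
  rw [coeff_L, coeff_L]
  have h1 := Nat.choose_succ_right_eq m j
  have h2 : 10 * (j + 1) ≤ m - j := by omega
  have h3 : 10 * m.choose j * (j + 1) ≤ m.choose (j + 1) * (j + 1) := by
    rw [h1]
    calc 10 * m.choose j * (j + 1) = m.choose j * (10 * (j + 1)) := by ring
      _ ≤ _ := Nat.mul_le_mul_left _ h2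
  have h4 : 10 * m.choose j ≤ m.choose (j + 1) := Nat.le_of_mul_le_mul_right h3 (Nat.succ_pos j)
  calc 20 * (2 ^ j * m.choose j) = 2 ^ (j + 1) * (10 * m.choose j) := by ring
    _ ≤ _ := Nat.mul_le_mul_left _ h4

theorem sum_le {d : ℕ} {F : ℕ⟦X⟧} (h : Gr d F) (j : ℕ) (hj : j + 1 ≤ d) :
    19 * ∑ i ∈ Finset.range j, coeff i F ≤ coeff j F := by
  induction j with
  | zero => simp
  | succ j ih =>
    rw [Finset.sum_range_succ, mul_add]
    have h1 := ih (by omega)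
    have h2 := h j (by omega)
    omega

theorem coeff_E_mul (F : ℕ⟦X⟧) (j : ℕ) :
    coeff j (E * F) = ∑ i ∈ Finset.range (j + 1), coeff i F := by
  rw [mul_comm, coeff_mul, Finset.Nat.sum_antidiagonal_eq_sum_range_succ_mk]
  refine Finset.sum_congr rfl fun i _ => ?_
  simp [E]

theorem mul_H (F : ℕ⟦X⟧) : F * H = F + X ^ 2 * (E * F) := by
  unfold H; ring

theorem coeff_zero_mul_H (F : ℕ⟦X⟧) : coeff 0 (F * H) = coeff 0 F := by
  rw [mul_H, map_add, pow_two, mul_assoc, coeff_zero_X_mul, add_zero]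

theorem coeff_mul_H_le {d : ℕ} {F : ℕ⟦X⟧} (h : Gr d F) (j : ℕ) (hj : j + 1 ≤ d) :
    19 * coeff (j + 1) (F * H) ≤ 19 * coeff (j + 1) F + coeff j F := by
  rw [mul_H, map_add, pow_two, mul_assoc, coeff_succ_X_mul, mul_add]
  refine Nat.add_le_add_left ?_ _
  cases j with
  | zero => rw [coeff_zero_X_mul]; simp
  | succ j =>
    rw [coeff_succ_X_mul, coeff_E_mul]
    exact sum_le h _ hj

theorem iterate {d : ℕ} {F : ℕ⟦X⟧} (h : Gr d F) (k : ℕ) (hk : k ≤ 16) :
    coeff 0 (F * H ^ k) = coeff 0 F ∧ ∀ j, j + 1 ≤ d →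
      200 * coeff (j + 1) (F * H ^ k) ≤ 200 * coeff (j + 1) F + 11 * k * coeff j F := by
  induction k with
  | zero => simp
  | succ k ih =>
    obtain ⟨h0, h1⟩ := ih (by omega)
    have hgr : Gr d (F * H ^ k) := h.mul _
    refine ⟨by rw [pow_succ, ← mul_assoc, coeff_zero_mul_H, h0], fun j hj => ?_⟩
    rw [pow_succ, ← mul_assoc]
    have h2 := coeff_mul_H_le hgr j hj
    have h3 := h1 j hj
    cases j with
    | zero =>
      rw [h0] at h2
      have h4 : 11 * (k + 1) * coeff 0 F = 11 * k * coeff 0 F + 11 * coeff 0 F := by ring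
      rw [h4]
      omega
    | succ j =>
      have h4 := h1 j (by omega)
      have h5 := h j (by omega)
      have h6 : 11 * k * coeff j F * 20 ≤ 11 * k * coeff (j + 1) F := by
        calc 11 * k * coeff j F * 20 = 11 * k * (20 * coeff j F) := by ring
          _ ≤ _ := Nat.mul_le_mul_left _ h5
      have h7 : 11 * k * coeff (j + 1) F ≤ 165 * coeff (j + 1) F :=
        Nat.mul_le_mul_right _ (by omega)
      have h8 : 11 * (k + 1) * coeff (j + 1) F =
          11 * k * coeff (j + 1) F + 11 * coeff (j + 1) F := by ring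
      rw [h8]
      omega

/-- one step -/
theorem step {d m e s : ℕ} (hd : 1 ≤ d) (hm : 11 * d ≤ m) (he : e ≤ 1) :
    coeff d ((1 + 2 * X) ^ m * (1 + X) ^ e * H ^ (s + 16) : ℕ⟦X⟧) <
      coeff d ((1 + 2 * X) ^ m * (1 + X) ^ e * H ^ s + X * ((1 + 2 * X) ^ m * H ^ s) : ℕ⟦X⟧) := by
  set L : ℕ⟦X⟧ := (1 + 2 * X) ^ m with hL
  set A : ℕ⟦X⟧ := L * H ^ s with hA
  set A' : ℕ⟦X⟧ := L * (1 + X) ^ e * H ^ s with hA'
  have hgL : Gr d L := gr_L hm
  have hgA : Gr d A := hgL.mul _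
  have hgA' : Gr d A' := (hgL.mul _).mul _
  obtain ⟨d, rfl⟩ : ∃ d', d = d' + 1 := ⟨d - 1, by omega⟩
  have h1 := (iterate hgA' 16 le_rfl).2 d le_rfl
  rw [map_add, coeff_succ_X_mul]
  have h2 : L * (1 + X) ^ e * H ^ (s + 16) = A' * H ^ 16 := by rw [hA', pow_add]; ring
  rw [h2]
  have h3 : 20 * coeff d A' ≤ 21 * coeff d A := by
    have hAA : A' = A * (1 + X) ^ e := by rw [hA', hA]; ring
    rw [hAA]
    rcases Nat.le_one_iff_eq_zero_or_eq_one.1 he with rfl | rfl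
    · rw [pow_zero, mul_one]; omega
    · rw [pow_one]
      cases d with
      | zero => rw [coeff_zero_one]; omega
      | succ d =>
        rw [coeff_succ_one]
        have := hgA d le_rfl
        omega
  have h4 : 0 < coeff d A := by
    refine lt_of_lt_of_le ?_ (le_coeff_mul_H_pow L s d)
    rw [hL, coeff_L]
    exact Nat.mul_pos (by positivity) (Nat.choose_pos (by omega))
  omega

/-- `(1 + 2 X) ^ (w / 2) (1 + X) ^ (w % 2)` -/
noncomputable def Q (w : ℕ) : ℕ⟦X⟧ := (1 + 2 * X) ^ (w / 2) * (1 + X) ^ (w % 2)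

theorem Q_succ (w : ℕ) : Q (w + 1) = Q w + X * (1 + 2 * X) ^ (w / 2) := by
  unfold Q
  rcases Nat.even_or_odd' w with ⟨c, rfl | rfl⟩
  · rw [show (2 * c + 1) / 2 = c by omega, show (2 * c + 1) % 2 = 1 by omega,
      show (2 * c) / 2 = c by omega, show (2 * c) % 2 = 0 by omega]
    ring
  · rw [show (2 * c + 1 + 1) / 2 = c + 1 by omega, show (2 * c + 1 + 1) % 2 = 0 by omega,
      show (2 * c + 1) / 2 = c by omega, show (2 * c + 1) % 2 = 1 by omega]
    ring

theorem step' {d w s : ℕ} (hd : 1 ≤ d) (hm : 11 * d ≤ w / 2) :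
    coeff d (Q w * H ^ (s + 16)) < coeff d (Q (w + 1) * H ^ s) := by
  have h := step (s := s) hd hm (e := w % 2) (by omega)
  have h2 : Q (w + 1) * H ^ s = (1 + 2 * X) ^ (w / 2) * (1 + X) ^ (w % 2) * H ^ s +
      X * ((1 + 2 * X) ^ (w / 2) * H ^ s) := by
    rw [Q_succ]; unfold Q; ring
  rw [h2]
  exact h

theorem partI {d w : ℕ} (hd : 1 ≤ d) (hm : 11 * d ≤ w / 2) (u : ℕ) (hu : 1 ≤ u) :
    coeff d (Q w * H ^ (16 * u)) < coeff d (Q (w + u)) := by
  suffices H : ∀ t ≤ u, 1 ≤ t → coeff d (Q (w + (u - t)) * H ^ (16 * t)) < coeff d (Q (w + u)) by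
    have := H u le_rfl hu
    rwa [Nat.sub_self, add_zero] at this
  intro t
  induction t with
  | zero => intro _ h; omega
  | succ t ih =>
    intro ht _
    have h1 := step' (s := 16 * t) hd (show 11 * d ≤ (w + (u - (t + 1))) / 2 by omega)
    rw [show w + (u - (t + 1)) + 1 = w + (u - t) by omega,
      show 16 * t + 16 = 16 * (t + 1) by ring] at h1
    rcases Nat.eq_zero_or_pos t with rfl | ht'
    · rw [mul_zero, pow_zero, mul_one, Nat.sub_zero] at h1
      exact h1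
    · exact h1.trans (ih (by omega) ht')

/-! ## Part II -/

/-- a truncated value -/
noncomputable def S (d : ℕ) (x : ℝ) (F : ℕ⟦X⟧) : ℝ :=
  ∑ j ∈ Finset.range (d + 1), ((coeff j F : ℕ) : ℝ) * x ^ j

theorem S_add (d : ℕ) (x : ℝ) (F G : ℕ⟦X⟧) : S d x (F + G) = S d x F + S d x G := by
  unfold S
  rw [← Finset.sum_add_distrib]
  refine Finset.sum_congr rfl fun j _ => ?_
  rw [map_add]; push_cast; ring

theorem S_nonneg {d : ℕ} {x : ℝ} (hx : 0 ≤ x) (F : ℕ⟦X⟧) : 0 ≤ S d x F :=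
  Finset.sum_nonneg fun j _ => by positivity

theorem S_X_mul {d : ℕ} {x : ℝ} (hx : 0 ≤ x) (F : ℕ⟦X⟧) : S d x (X * F) ≤ x * S d x F := by
  unfold S
  rw [Finset.sum_range_succ', coeff_zero_X_mul, Finset.sum_range_succ, mul_add, Finset.mul_sum]
  have h : 0 ≤ x * (((coeff d F : ℕ) : ℝ) * x ^ d) := by positivity
  have h2 : ∑ k ∈ Finset.range d, ((coeff (k + 1) (X * F) : ℕ) : ℝ) * x ^ (k + 1) =
      ∑ i ∈ Finset.range d, x * (((coeff i F : ℕ) : ℝ) * x ^ i) := by
    refine Finset.sum_congr rfl fun j _ => ?_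
    rw [coeff_succ_X_mul]; ring
  rw [h2]
  simp only [Nat.cast_zero, zero_mul, add_zero]
  linarith

theorem S_two {d : ℕ} {x : ℝ} (hx : 0 ≤ x) (F : ℕ⟦X⟧) :
    S d x (F * (1 + 2 * X)) ≤ (1 + 2 * x) * S d x F := by
  have : F * (1 + 2 * X) = F + (X * F + X * F) := by ring
  rw [this, S_add, S_add]
  have := S_X_mul (d := d) hx F
  linarith

theorem S_one {d : ℕ} {x : ℝ} (hx : 0 ≤ x) (F : ℕ⟦X⟧) :
    S d x (F * (1 + X)) ≤ (1 + x) * S d x F := by
  have : F * (1 + X) = F + X * F := by ring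
  rw [this, S_add]
  have := S_X_mul (d := d) hx F
  linarith

theorem E_eq : E = 1 + X * E := by
  ext n
  rw [map_add]
  cases n with
  | zero => rw [coeff_zero_X_mul]; simp [E]
  | succ n => rw [coeff_succ_X_mul, coeff_one]; simp [E]

theorem S_H {d : ℕ} {x : ℝ} (hx : 0 ≤ x) (hx1 : x < 1) (F : ℕ⟦X⟧) :
    S d x (F * H) ≤ (1 + x ^ 2 / (1 - x)) * S d x F := by
  have h1 : E * F = F + X * (E * F) := by
    conv_lhs => rw [E_eq]
    ring
  have h2 : (1 - x) * S d x (E * F) ≤ S d x F := by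
    have h3 : S d x (E * F) = S d x F + S d x (X * (E * F)) := by
      conv_lhs => rw [h1, S_add]
    have h4 := S_X_mul (d := d) hx (E * F)
    linarith
  have h5 : S d x (E * F) ≤ S d x F / (1 - x) := by
    rw [le_div_iff₀ (by linarith)]
    linarith
  have h6 : S d x (X ^ 2 * (E * F)) ≤ x ^ 2 * S d x (E * F) := by
    rw [pow_two, mul_assoc]
    refine (S_X_mul hx _).trans ?_
    have := S_X_mul (d := d) hx (E * F)
    calc x * S d x (X * (E * F)) ≤ x * (x * S d x (E * F)) := by gcongr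
      _ = _ := by ring
  rw [mul_H, S_add]
  calc S d x F + S d x (X ^ 2 * (E * F)) ≤ S d x F + x ^ 2 * (S d x F / (1 - x)) := by
        have : x ^ 2 * S d x (E * F) ≤ x ^ 2 * (S d x F / (1 - x)) := by gcongr
        linarith
    _ = _ := by ring

theorem S_pow {d : ℕ} {x a : ℝ} (K : ℕ⟦X⟧) (ha : 0 ≤ a)
    (h : ∀ F, S d x (F * K) ≤ a * S d x F) (n : ℕ) (F : ℕ⟦X⟧) :
    S d x (F * K ^ n) ≤ a ^ n * S d x F := by
  induction n with
  | zero => simp
  | succ n ih =>
    rw [pow_succ, ← mul_assoc]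
    refine (h _).trans ?_
    calc a * S d x (F * K ^ n) ≤ a * (a ^ n * S d x F) := by gcongr
      _ = _ := by ring

theorem S_one_eq (d : ℕ) (x : ℝ) : S d x 1 = 1 := by
  unfold S
  rw [Finset.sum_eq_single 0]
  · simp
  · intro j _ hj
    rw [coeff_one, if_neg hj]; simp
  · intro h; exact absurd (Finset.mem_range.2 (Nat.succ_pos d)) h

theorem coeff_le_S {d : ℕ} {x : ℝ} (hx : 0 ≤ x) (F : ℕ⟦X⟧) :
    ((coeff d F : ℕ) : ℝ) * x ^ d ≤ S d x F :=
  Finset.single_le_sum (f := fun j => ((coeff j F : ℕ) : ℝ) * x ^ j) (fun j _ => by positivity)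
    (Finset.mem_range.2 (Nat.lt_succ_self d))

theorem pow_le_choose_mul (m d : ℕ) (h : d ≤ m) : m ^ d ≤ m.choose d * d ^ d := by
  induction d generalizing m with
  | zero => simp
  | succ d ih =>
    obtain ⟨m, rfl⟩ : ∃ m', m = m' + 1 := ⟨m - 1, by omega⟩
    have hdm : d ≤ m := by omega
    have h1 := ih m hdm
    have h2 := Nat.add_one_mul_choose_eq m d
    rcases Nat.eq_zero_or_pos d with rfl | hd
    · simp
    · have h3 : (m + 1) ^ d * d ^ d ≤ m ^ d * (d + 1) ^ d := by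
        rw [← mul_pow, ← mul_pow]
        refine Nat.pow_le_pow_left ?_ d
        ring_nf
        omega
      have h4 : (m + 1) ^ d ≤ m.choose d * (d + 1) ^ d := by
        have h5 : (m + 1) ^ d * d ^ d ≤ m.choose d * (d + 1) ^ d * d ^ d := by
          calc (m + 1) ^ d * d ^ d ≤ m ^ d * (d + 1) ^ d := h3
            _ ≤ (m.choose d * d ^ d) * (d + 1) ^ d := Nat.mul_le_mul_right _ h1
            _ = _ := by ring
        exact Nat.le_of_mul_le_mul_right h5 (by positivity)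
      calc (m + 1) ^ (d + 1) = (m + 1) * (m + 1) ^ d := by ring
        _ ≤ (m + 1) * (m.choose d * (d + 1) ^ d) := Nat.mul_le_mul_left _ h4
        _ = ((m + 1) * m.choose d) * (d + 1) ^ d := by ring
        _ = ((m + 1).choose (d + 1) * (d + 1)) * (d + 1) ^ d := by rw [h2]
        _ = _ := by ring

theorem partII {N d mu nu sg u : ℕ} (hd : 1 ≤ d) (hN : 180 * d ≤ N)
    (hmu : mu < 11 * d) (hnu : nu ≤ 1) (h : 2 * mu + nu + u = N) (hs : sg ≤ 16 * u) :
    coeff d ((1 + 2 * X) ^ mu * (1 + X) ^ nu * H ^ sg : ℕ⟦X⟧) < coeff d (Q N) := by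
  have hdR : (1 : ℝ) ≤ d := by exact_mod_cast hd
  have hNR : (180 : ℝ) * d ≤ N := by exact_mod_cast hN
  have hN0 : (0 : ℝ) < N := by linarith
  set x : ℝ := 2 * d / N with hx
  have hx0 : 0 < x := by positivity
  have hx1 : x ≤ 1 / 90 := by
    rw [hx, div_le_div_iff₀ hN0 (by norm_num)]
    linarith
  -- the left side
  have hS : S d x ((1 + 2 * X) ^ mu * (1 + X) ^ nu * H ^ sg) ≤
      (1 + x ^ 2 / (1 - x)) ^ sg * ((1 + x) ^ nu * ((1 + 2 * x) ^ mu * 1)) := by
    have hb : 0 ≤ 1 + x ^ 2 / (1 - x) := by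
      have : 0 < 1 - x := by linarith
      positivity
    refine (S_pow H hb (fun F => S_H hx0.le (by linarith) F) sg _).trans ?_
    refine mul_le_mul_of_nonneg_left ?_ (by positivity)
    refine (S_pow (1 + X) (by linarith) (fun F => S_one hx0.le F) nu _).trans ?_
    refine mul_le_mul_of_nonneg_left ?_ (by positivity)
    have := S_pow (d := d) (1 + 2 * X) (by linarith) (fun F => S_two hx0.le F) mu 1
    rwa [one_mul, S_one_eq] at this
  have hexp : (1 + x ^ 2 / (1 - x)) ^ sg * ((1 + x) ^ nu * ((1 + 2 * x) ^ mu * 1)) ≤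
      Real.exp (0.605 * d) := by
    have e1 : (1 + x ^ 2 / (1 - x)) ^ sg ≤ Real.exp (sg * (90 / 89 * x ^ 2)) := by
      have h1 : 1 + x ^ 2 / (1 - x) ≤ Real.exp (90 / 89 * x ^ 2) := by
        have h2 : x ^ 2 / (1 - x) ≤ 90 / 89 * x ^ 2 := by
          rw [div_le_iff₀ (by linarith)]
          nlinarith [sq_nonneg x]
        have h3 := Real.add_one_le_exp (90 / 89 * x ^ 2)
        linarith
      have hb : 0 ≤ 1 + x ^ 2 / (1 - x) := by
        have : 0 < 1 - x := by linarith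
        positivity
      rw [Real.exp_nat_mul]
      exact pow_le_pow_left₀ hb h1 sg
    have e2 : (1 + x) ^ nu ≤ Real.exp (nu * x) := by
      rw [Real.exp_nat_mul]
      refine pow_le_pow_left₀ (by linarith) ?_ nu
      linarith [Real.add_one_le_exp x]
    have e3 : (1 + 2 * x) ^ mu ≤ Real.exp (mu * (2 * x)) := by
      rw [Real.exp_nat_mul]
      refine pow_le_pow_left₀ (by linarith) ?_ mu
      linarith [Real.add_one_le_exp (2 * x)]
    have e4 : (sg : ℝ) * (90 / 89 * x ^ 2) + (nu * x + mu * (2 * x)) ≤ 0.605 * d := by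
      have h1 : (sg : ℝ) ≤ 16 * N := by
        have : sg ≤ 16 * N := by omega
        exact_mod_cast this
      have h2 : (nu : ℝ) + 2 * mu ≤ 22 * d := by
        have : nu + 2 * mu ≤ 22 * d := by omega
        exact_mod_cast this
      have h3 : (sg : ℝ) * (90 / 89 * x ^ 2) ≤ 16 * N * (90 / 89 * x ^ 2) := by gcongr
      have h4 : (nu : ℝ) * x + mu * (2 * x) ≤ 22 * d * x := by
        calc (nu : ℝ) * x + mu * (2 * x) = (nu + 2 * mu) * x := by ring
          _ ≤ _ := by gcongr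
      have h5 : (N : ℝ) * x = 2 * d := by rw [hx]; field_simp
      have h6 : 16 * N * (90 / 89 * x ^ 2) = 16 * (90 / 89) * (2 * d) * x := by
        rw [← h5]; ring
      have h7 : (16 * (90 / 89) * (2 * d) * x + 22 * d * x : ℝ) ≤
          (16 * (90 / 89) * 2 + 22) * d * (1 / 90) := by
        calc (16 * (90 / 89) * (2 * d) * x + 22 * d * x : ℝ) =
            (16 * (90 / 89) * 2 + 22) * d * x := by ring
          _ ≤ _ := by gcongr
      have h8 : ((16 * (90 / 89) * 2 + 22) * d * (1 / 90) : ℝ) ≤ 0.605 * d := by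
        have : ((16 * (90 / 89) * 2 + 22) * (1 / 90) : ℝ) ≤ 0.605 := by norm_num
        nlinarith
      linarith
    calc (1 + x ^ 2 / (1 - x)) ^ sg * ((1 + x) ^ nu * ((1 + 2 * x) ^ mu * 1)) ≤
        Real.exp (sg * (90 / 89 * x ^ 2)) * (Real.exp (nu * x) * Real.exp (mu * (2 * x))) := by
          rw [mul_one]
          gcongr
      _ = Real.exp (sg * (90 / 89 * x ^ 2) + (nu * x + mu * (2 * x))) := by
          rw [Real.exp_add, Real.exp_add]
      _ ≤ _ := Real.exp_le_exp.2 e4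
  have hexp2 : Real.exp (0.605 * d) ≤ 1.84 ^ d := by
    have h1 : Real.exp 0.605 ≤ 1.84 := by
      have h2 : (0.605 : ℝ) ≤ Real.log 2 + -0.088 := by
        have := Real.log_two_gt_d9
        linarith
      have h3 : Real.exp (-0.088) ≤ 1 / 1.088 := by
        rw [Real.exp_neg, inv_eq_one_div]
        have := Real.add_one_le_exp 0.088
        exact one_div_le_one_div_of_le (by norm_num) (by linarith)
      calc Real.exp 0.605 ≤ Real.exp (Real.log 2 + -0.088) := Real.exp_le_exp.2 h2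
        _ = 2 * Real.exp (-0.088) := by rw [Real.exp_add, Real.exp_log (by norm_num)]
        _ ≤ 2 * (1 / 1.088) := by gcongr
        _ ≤ 1.84 := by norm_num
    rw [mul_comm, Real.exp_nat_mul]
    exact pow_le_pow_left₀ (Real.exp_pos _).le h1 d
  have hleft : ((coeff d ((1 + 2 * X) ^ mu * (1 + X) ^ nu * H ^ sg : ℕ⟦X⟧) : ℕ) : ℝ) * x ^ d ≤
      1.84 ^ d := (coeff_le_S hx0.le _).trans (hS.trans (hexp.trans hexp2))
  -- the right side
  have hright : (N - 1 : ℝ) ^ d ≤ ((coeff d (Q N) : ℕ) : ℝ) * d ^ d := by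
    have h1 : coeff d ((1 + 2 * X) ^ (N / 2) : ℕ⟦X⟧) ≤ coeff d (Q N) := by
      unfold Q
      refine le_trans ?_ (le_coeff_mul _ _ d)
      have : coeff 0 ((1 + X) ^ (N % 2) : ℕ⟦X⟧) = 1 := by
        rw [coeff_zero_eq_constantCoeff, map_pow]; simp
      rw [this, mul_one]
    rw [coeff_L] at h1
    have h2 := pow_le_choose_mul (N / 2) d (by omega)
    have h3 : (2 * (N / 2)) ^ d ≤ coeff d (Q N) * d ^ d := by
      calc (2 * (N / 2)) ^ d = 2 ^ d * (N / 2) ^ d := by rw [mul_pow]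
        _ ≤ 2 ^ d * ((N / 2).choose d * d ^ d) := Nat.mul_le_mul_left _ h2
        _ = 2 ^ d * (N / 2).choose d * d ^ d := by ring
        _ ≤ _ := Nat.mul_le_mul_right _ h1
    have h4 : (N - 1 : ℝ) ≤ ((2 * (N / 2) : ℕ) : ℝ) := by
      have : N ≤ 2 * (N / 2) + 1 := by omega
      have : (N : ℝ) ≤ ((2 * (N / 2) : ℕ) : ℝ) + 1 := by exact_mod_cast this
      linarith
    calc (N - 1 : ℝ) ^ d ≤ ((2 * (N / 2) : ℕ) : ℝ) ^ d :=
          pow_le_pow_left₀ (by linarith) h4 d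
      _ ≤ _ := by exact_mod_cast h3
  -- comparison
  by_contra hcon
  push Not at hcon
  have h1 : ((coeff d (Q N) : ℕ) : ℝ) ≤
      ((coeff d ((1 + 2 * X) ^ mu * (1 + X) ^ nu * H ^ sg : ℕ⟦X⟧) : ℕ) : ℝ) := by exact_mod_cast hcon
  have h2 : (N - 1 : ℝ) ^ d * x ^ d ≤ 1.84 ^ d * d ^ d := by
    calc (N - 1 : ℝ) ^ d * x ^ d ≤ (((coeff d (Q N) : ℕ) : ℝ) * d ^ d) * x ^ d := by gcongr
      _ ≤ (((coeff d ((1 + 2 * X) ^ mu * (1 + X) ^ nu * H ^ sg : ℕ⟦X⟧) : ℕ) : ℝ) * d ^ d) *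
          x ^ d := by
          gcongr
      _ = (((coeff d ((1 + 2 * X) ^ mu * (1 + X) ^ nu * H ^ sg : ℕ⟦X⟧) : ℕ) : ℝ) * x ^ d) *
          d ^ d := by
          ring
      _ ≤ _ := by gcongr
  rw [← mul_pow, ← mul_pow] at h2
  have h3 : (1.84 * d : ℝ) < (N - 1) * x := by
    rw [hx, ← mul_div_assoc, lt_div_iff₀ hN0]
    nlinarith
  exact absurd h2 (not_le.2 (pow_lt_pow_left₀ h3 (by positivity) (by omega)))

end Cmp

theorem compare {N d mu nu sg u : ℕ} (hd : 1 ≤ d) (hN : 180 * d ≤ N) (hnu : nu ≤ 1)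
    (hu : 1 ≤ u) (h : 2 * mu + nu + u = N) (hs : sg ≤ 16 * u) :
    coeff d ((1 + 2 * X) ^ mu * (1 + X) ^ nu * H ^ sg : ℕ⟦X⟧) <
      coeff d ((1 + 2 * X) ^ (N / 2) * (1 + X) ^ (N % 2) : ℕ⟦X⟧) := by
  rcases lt_or_ge mu (11 * d) with hmu | hmu
  · exact Cmp.partII hd hN hmu hnu h hs
  · refine lt_of_le_of_lt (Cmp.coeff_mul_H_pow_mono _ hs d) ?_
    have hq : (1 + 2 * X) ^ mu * (1 + X) ^ nu = Cmp.Q (2 * mu + nu) := by
      unfold Cmp.Q
      rw [show (2 * mu + nu) / 2 = mu by omega, show (2 * mu + nu) % 2 = nu by omega]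
    have h1 := Cmp.partI (w := 2 * mu + nu) hd (by omega) u hu
    rw [h] at h1
    rw [hq]
    exact h1

end Pool.Agent.DeckB
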