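import Pool.Agent.DeckB.Lam

/-!
# Crossings of the rates of the patterns (helper30)
-/

set_option autoImplicit false

namespace Pool.Agent.DeckB

open Filter Topology

/-- The rate of a pattern. -/
noncomputable def pr (z : ℝ) (k : ℕ) : ℝ := Real.log (vv z k) / ((3 * k + 4 : ℕ) : ℝ)

theorem vv_cont (k : ℕ) : Continuous fun z : ℝ => vv z k := by
  induction k with
  | zero =>
    show Continuous fun z : ℝ => z ^ 4 + 2 * z ^ 3 + 2 * z ^ 2
    fun_prop
  | succ k ih =>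
    show Continuous fun z : ℝ => (z ^ 3 + 2 * z ^ 2) * vv z k + (z + 1) * z ^ 3
    fun_prop

theorem pr_cont {z : ℝ} (hz : 0 < z) (k : ℕ) : ContinuousAt (fun y => pr y k) z :=
  ((vv_cont k).continuousAt.log (vv_pos hz k).ne').div_const _

/-- The rate of the alternating trees. -/
noncomputable def lr (z : ℝ) : ℝ := Real.log (z ^ 3 + 2 * z ^ 2) / 3

theorem lr_cont {z : ℝ} (hz : 0 < z) : ContinuousAt lr z := by
  have h : ContinuousAt (fun y : ℝ => y ^ 3 + 2 * y ^ 2) z := by fun_prop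
  exact (h.log (by positivity)).div_const _

theorem pr_tail {z : ℝ} (h1 : 7 / 3 ≤ z) (h2 : z ≤ 3) (k : ℕ) :
    pr z k ≤ lr z + 180 / ((3 * k + 4 : ℕ) : ℝ) := by
  obtain ⟨ω, κ, hω0, hκ0, hω, hκ, hlog⟩ := exists_omega h1
  have hz : 0 < z := by linarith
  have h3 := vv_le_A hz hκ0 hω hκ k
  have hk1 : κ ≤ 1 := by nlinarith
  have hA0 : 0 < z ^ 4 + 2 * z ^ 3 + 2 * z ^ 2 + κ * z ^ 3 := by positivity
  have hA : z ^ 4 + 2 * z ^ 3 + 2 * z ^ 2 + κ * z ^ 3 ≤ 180 := by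
    have e2 : z ^ 2 ≤ 3 ^ 2 := pow_le_pow_left₀ hz.le h2 2
    have e3 : z ^ 3 ≤ 3 ^ 3 := pow_le_pow_left₀ hz.le h2 3
    have e4 : z ^ 4 ≤ 3 ^ 4 := pow_le_pow_left₀ hz.le h2 4
    have e5 : κ * z ^ 3 ≤ 1 * z ^ 3 := mul_le_mul_of_nonneg_right hk1 (by positivity)
    linarith
  have hlA : Real.log (z ^ 4 + 2 * z ^ 3 + 2 * z ^ 2 + κ * z ^ 3) ≤ 180 := by
    have := Real.log_le_sub_one_of_pos hA0
    linarith
  have h4 := Real.log_le_log (vv_pos hz k) h3
  rw [Real.log_mul (by positivity) hA0.ne', Real.log_pow, hω] at h4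
  have hl0 : 0 ≤ Real.log (z ^ 3 + 2 * z ^ 2) := by
    refine Real.log_nonneg ?_
    nlinarith [pow_pos hz 3]
  have h5 : (0 : ℝ) < ((3 * k + 4 : ℕ) : ℝ) := by positivity
  unfold pr lr
  rw [div_le_iff₀ h5, add_mul, div_mul_cancel₀ _ h5.ne']
  push_cast
  nlinarith

theorem pr_le_Lam {z : ℝ} (hz : 0 < z) (k : ℕ) : pr z k ≤ Lam z := le_Lam hz k

theorem pr_max {z : ℝ} (hz : 0 < z) {i : ℕ} (h : ∀ k, pr z k ≤ pr z i) : pr z i = Lam z :=
  le_antisymm (pr_le_Lam hz i) (ciSup_le h)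

theorem pr_beta {β : ℝ} (hβ : 7 / 3 < β) (h0 : Gb β = 0) (i : ℕ) : pr β i < lr β := by
  obtain ⟨ω, κ, hω0, hκ0, hω, hκ, hlog⟩ := exists_omega hβ.le
  have hz : 0 < β := by linarith
  have h1 := A1_le hβ.le hω0.le hω hκ h0.le
  have h2 : vv β i < ω ^ (3 * i + 4) := by
    rw [vv_eq hω hκ i, pow_add, pow_mul]
    have h3 : (ω ^ 3) ^ i * (β ^ 4 + 2 * β ^ 3 + 2 * β ^ 2 + κ * β ^ 3) ≤ (ω ^ 3) ^ i * ω ^ 4 :=
      mul_le_mul_of_nonneg_left h1 (by positivity)
    have h4 : 0 < κ * β ^ 3 := by positivity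
    linarith
  have h3 := Real.log_lt_log (vv_pos hz i) h2
  rw [Real.log_pow, hlog] at h3
  have h5 : (0 : ℝ) < ((3 * i + 4 : ℕ) : ℝ) := by positivity
  unfold pr lr
  rw [div_lt_iff₀ h5]
  linarith

theorem pr_local {β z₀ : ℝ} (hβ' : β ≤ 71 / 30) (hG : ∀ z : ℝ, 7 / 3 ≤ z → z < β → 0 < Gb z)
    (h1 : 7 / 3 < z₀) (h2 : z₀ < β) :
    ∃ K m : ℕ, ∀ᶠ z in 𝓝 z₀, ∀ k, K ≤ k → pr z k < pr z m := by
  have hz : 0 < z₀ := by linarith
  obtain ⟨m, hm⟩ := rate_lt' h1.le (hG z₀ h1.le h2)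
  have hm' : 0 < pr z₀ m - lr z₀ := sub_pos.2 hm
  set η := (pr z₀ m - lr z₀) / 2 with hη
  have hη0 : 0 < η := by positivity
  obtain ⟨K, hK⟩ := exists_nat_gt (180 / η)
  rw [div_lt_iff₀ hη0] at hK
  refine ⟨K, m, ?_⟩
  have h3 : ContinuousAt (fun z => pr z m - lr z) z₀ := (pr_cont hz m).sub (lr_cont hz)
  have h4 : ∀ᶠ z in 𝓝 z₀, η < pr z m - lr z :=
    h3.eventually (lt_mem_nhds (by show η < pr z₀ m - lr z₀; linarith))
  have h5 : ∀ᶠ z in 𝓝 z₀, 7 / 3 < z := lt_mem_nhds h1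
  have h6 : ∀ᶠ z in 𝓝 z₀, z < 3 := gt_mem_nhds (by linarith)
  filter_upwards [h4, h5, h6] with z h4 h5 h6 k hk
  have h7 := pr_tail h5.le h6.le k
  have h8 : 180 / ((3 * k + 4 : ℕ) : ℝ) < η := by
    rw [div_lt_iff₀ (by positivity)]
    have h9 : (K : ℝ) ≤ k := by exact_mod_cast hk
    push_cast
    nlinarith
  linarith

theorem pr_attained {β z : ℝ} (hβ' : β ≤ 71 / 30)
    (hG : ∀ z : ℝ, 7 / 3 ≤ z → z < β → 0 < Gb z) (h1 : 7 / 3 < z) (h2 : z < β) :
    ∃ i, ∀ k, pr z k ≤ pr z i := by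
  obtain ⟨K, m, h⟩ := pr_local hβ' hG h1 h2
  have h3 := h.self_of_nhds
  obtain ⟨i, -, hi⟩ := Finset.exists_max_image (Finset.range (max K (m + 1))) (fun k => pr z k)
    ⟨m, Finset.mem_range.2 (by omega)⟩
  refine ⟨i, fun k => ?_⟩
  by_cases hk : k < max K (m + 1)
  · exact hi k (Finset.mem_range.2 hk)
  · exact (h3 k (by omega)).le.trans (hi m (Finset.mem_range.2 (by omega)))

theorem pr_small {β : ℝ} (hβ : 7 / 3 < β) (h0 : Gb β = 0) (K : ℕ) :
    ∀ᶠ z in 𝓝 β, ∀ i, i < K → pr z i < lr z := by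
  have hz : 0 < β := by linarith
  have h1 : ∀ i : ℕ, ∀ᶠ z in 𝓝 β, pr z i < lr z := by
    intro i
    have h2 : ContinuousAt (fun z => lr z - pr z i) β := (lr_cont hz).sub (pr_cont hz i)
    have h3 : ∀ᶠ z in 𝓝 β, 0 < lr z - pr z i :=
      h2.eventually (lt_mem_nhds (sub_pos.2 (pr_beta hβ h0 i)))
    filter_upwards [h3] with z h3
    linarith
  induction K with
  | zero => exact Eventually.of_forall fun z i hi => absurd hi (Nat.not_lt_zero i)
  | succ K ih =>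
    filter_upwards [ih, h1 K] with z ih hK i hi
    rcases Nat.lt_succ_iff_lt_or_eq.1 hi with h | rfl
    · exact ih i h
    · exact hK

theorem exists_crossing {β : ℝ} (hβ : 7 / 3 < β) (hβ' : β ≤ 71 / 30) (h0 : Gb β = 0)
    (hG : ∀ z : ℝ, 7 / 3 ≤ z → z < β → 0 < Gb z) (K : ℕ) {ε : ℝ} (hε : 0 < ε) :
    ∃ (z : ℝ) (j k : ℕ), 7 / 3 < z ∧ z < β ∧ β - ε < z ∧ K ≤ j ∧ j < k ∧
      Real.log (vv z j) / ((3 * j + 4 : ℕ) : ℝ) = Lam z ∧
      Real.log (vv z k) / ((3 * k + 4 : ℕ) : ℝ) = Lam z := by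
  -- near `β` no index below `K'` is maximal
  have hnear : ∀ K' : ℕ, ∃ q : ℝ, 7 / 3 < q ∧ β - ε < q ∧ q < β ∧
      ∀ z, q ≤ z → z < β → ∀ i, i < K' → pr z i < Lam z := by
    intro K'
    obtain ⟨δ, hδ, h1⟩ := Metric.eventually_nhds_iff.1 (pr_small hβ h0 K')
    refine ⟨max (max (β - δ / 2) (β - ε / 2)) ((7 / 3 + β) / 2), ?_, ?_, ?_, ?_⟩
    · exact lt_max_of_lt_right (by linarith)
    · exact lt_max_of_lt_left (lt_max_of_lt_right (by linarith))
    · exact max_lt (max_lt (by linarith) (by linarith)) (by linarith)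
    · intro z hz hzβ i hi
      have hz1 : β - δ / 2 ≤ z := (le_max_left _ _).trans ((le_max_left _ _).trans hz)
      have hz2 : (7 / 3 + β) / 2 ≤ z := (le_max_right _ _).trans hz
      have h2 := h1 (y := z) (by
        rw [Real.dist_eq, abs_lt]
        constructor <;> linarith) i hi
      exact h2.trans_le (lam_ge (by linarith))
  obtain ⟨p, hp1, hp2, hp3, hp⟩ := hnear K
  obtain ⟨j₀, hj₀⟩ := pr_attained hβ' hG hp1 hp3
  obtain ⟨q', hq1, hq2, hq3, hq⟩ := hnear (j₀ + 1)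
  set q := max p q' with hqdef
  have hqβ : q < β := max_lt hp3 hq3
  have hpq : p ≤ q := le_max_left _ _
  set T : Set ℝ := ⋃ i ∈ Finset.range (j₀ + 1), ⋂ k, {z ∈ Set.Icc p q | pr z k ≤ pr z i} with hT
  have hcont : ∀ k, ContinuousOn (fun z => pr z k) (Set.Icc p q) := fun k z hz =>
    (pr_cont (by linarith [hz.1]) k).continuousWithinAt
  have hTc : IsClosed T := by
    refine isClosed_biUnion_finset fun i _ => isClosed_iInter fun k => ?_
    exact isClosed_Icc.isClosed_le (hcont k) (hcont i)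
  have hmem : ∀ z, z ∈ T ↔ z ∈ Set.Icc p q ∧ ∃ i, i ≤ j₀ ∧ ∀ k, pr z k ≤ pr z i := by
    intro z
    simp only [hT, Set.mem_iUnion, Set.mem_iInter, Set.mem_ofPred_eq, Finset.mem_range]
    constructor
    · rintro ⟨i, hi, h⟩
      exact ⟨(h 0).1, i, by omega, fun k => (h k).2⟩
    · rintro ⟨h1, i, hi, h⟩
      exact ⟨i, by omega, fun k => ⟨h1, h k⟩⟩
  have hTsub : T ⊆ Set.Icc p q := fun z hz => ((hmem z).1 hz).1
  have hTk : IsCompact T := isCompact_Icc.of_isClosed_subset hTc hTsub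
  have hpT : p ∈ T := (hmem p).2 ⟨⟨le_rfl, hpq⟩, j₀, le_rfl, hj₀⟩
  obtain ⟨z, hzT, hzmax⟩ := hTk.exists_isGreatest ⟨p, hpT⟩
  obtain ⟨⟨hpz, hzq⟩, j, hj, hjmax⟩ := (hmem z).1 hzT
  have hz1 : 7 / 3 < z := by linarith
  have hzβ : z < β := lt_of_le_of_lt hzq hqβ
  have hz0 : 0 < z := by linarith
  have hjL : pr z j = Lam z := pr_max hz0 hjmax
  have hzq' : z < q := by
    rcases hzq.lt_or_eq with h | h
    · exact h
    · exfalso
      have h2 := hq z (by rw [h]; exact le_max_right _ _) hzβ j (by omega)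
      linarith
  have hKj : K ≤ j := by
    by_contra h
    have h2 := hp z hpz hzβ j (by omega)
    linarith
  -- some index above `j₀` is maximal
  have hk : ∃ k, j₀ < k ∧ pr z k = Lam z := by
    by_contra hno
    push Not at hno
    have hlt : ∀ k, j₀ < k → pr z k < pr z j := by
      intro k hk
      exact lt_of_le_of_ne (hjmax k) (fun h => hno k hk (h.trans hjL))
    obtain ⟨K', m, hloc⟩ := pr_local hβ' hG hz1 hzβ
    have hfin : ∀ n : ℕ, ∀ᶠ y in 𝓝 z, ∀ k, j₀ < k → k < n → pr y k < pr y j := by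
      intro n
      induction n with
      | zero => exact Eventually.of_forall fun y k _ hk => absurd hk (Nat.not_lt_zero k)
      | succ n ih =>
        by_cases hn : j₀ < n
        · have h2 : ContinuousAt (fun y => pr y j - pr y n) z :=
            (pr_cont hz0 j).sub (pr_cont hz0 n)
          have h3 : ∀ᶠ y in 𝓝 z, 0 < pr y j - pr y n :=
            h2.eventually (lt_mem_nhds (sub_pos.2 (hlt n hn)))
          filter_upwards [ih, h3] with y ih h3 k hk1 hk2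
          rcases Nat.lt_succ_iff_lt_or_eq.1 hk2 with h | rfl
          · exact ih k hk1 h
          · linarith
        · filter_upwards [ih] with y ih k hk1 hk2
          exact ih k hk1 (by omega)
    have hall : ∀ᶠ y in 𝓝 z, ∀ k, j₀ < k → pr y k < pr y j ∨ pr y k < pr y m := by
      filter_upwards [hfin K', hloc] with y h3 h4 k hk
      by_cases h5 : k < K'
      · exact Or.inl (h3 k hk h5)
      · exact Or.inr (h4 k (by omega))
    obtain ⟨δ, hδ, hall⟩ := Metric.eventually_nhds_iff.1 hall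
    set y := min q (z + δ / 2) with hy
    have hzy : z < y := lt_min hzq' (by linarith)
    have hyq : y ≤ q := min_le_left _ _
    have hyβ : y < β := lt_of_le_of_lt hyq hqβ
    have hdist : dist y z < δ := by
      rw [Real.dist_eq, abs_lt]
      have : y ≤ z + δ / 2 := min_le_right _ _
      constructor <;> linarith
    obtain ⟨i, hi⟩ := pr_attained hβ' hG (show 7 / 3 < y by linarith) hyβ
    have hij : i ≤ j₀ := by
      by_contra h
      rcases hall hdist i (by omega) with h2 | h2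
      · exact absurd (hi j) (not_le.2 h2)
      · exact absurd (hi m) (not_le.2 h2)
    have hyT : y ∈ T := (hmem y).2 ⟨⟨by linarith, hyq⟩, i, hij, hi⟩
    exact absurd (hzmax hyT) (not_le.2 hzy)
  obtain ⟨k, hjk, hkL⟩ := hk
  exact ⟨z, j, k, hz1, hzβ, by linarith, hKj, by omega, hjL, hkL⟩

end Pool.Agent.DeckB
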