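import Mathlib

/-!
# Decks of leaf-induced subtrees of rooted binary trees: definitions
-/

set_option autoImplicit false

namespace Pool.Agent.DeckB

/-- Rooted binary trees (every vertex which is not a leaf has two children), with an order of
the children, which is forgotten in `Iso`. -/
inductive BT : Type
  | leaf : BT
  | node (l r : BT) : BT

/-- The number of leaves. -/
def BT.size : BT → ℕ
  | .leaf => 1
  | .node l r => l.size + r.size

/-- Isomorphic rooted trees: equal up to the order of the children. -/
inductive Iso : BT → BT → Prop
  | leaf : Iso .leaf .leaf
  | node {l r l' r' : BT} (h : Iso l l') (h' : Iso r r') : Iso (.node l r) (.node l' r')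
  | swap {l r l' r' : BT} (h : Iso l r') (h' : Iso r l') : Iso (.node l r) (.node l' r')

/-- The set of the leaves. -/
def Leaf : BT → Type
  | .leaf => Unit
  | .node l r => Leaf l ⊕ Leaf r

/-- Trees which may be empty: two trees are put below a new root, an empty tree leaves the
other one as it is (so a vertex with one child is suppressed). -/
def glue : Option BT → Option BT → Option BT
  | none, t => t
  | some s, none => some s
  | some s, some t => some (.node s t)

/-- The restriction of a tree to the set of the leaves with value `true` (`none` if there are no
such leaves). -/
def restrict : (T : BT) → (Leaf T → Bool) → Option BT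
  | .leaf, S => if S () then some .leaf else none
  | .node l r, S => glue (restrict l fun x => S (Sum.inl x)) (restrict r fun x => S (Sum.inr x))

theorem Iso.refl (T : BT) : Iso T T := by
  induction T with
  | leaf => exact .leaf
  | node l r h h' => exact .node h h'

theorem Iso.symm {S T : BT} (h : Iso S T) : Iso T S := by
  induction h with
  | leaf => exact .leaf
  | node _ _ h h' => exact .node h h'
  | swap _ _ h h' => exact .swap h' h

theorem Iso.trans {S T U : BT} (h : Iso S T) (h' : Iso T U) : Iso S U := by
  induction h generalizing U with
  | leaf => exact h'
  | node _ _ h1 h2 =>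
    cases h' with
    | node h3 h4 => exact .node (h1 h3) (h2 h4)
    | swap h3 h4 => exact .swap (h1 h3) (h2 h4)
  | swap _ _ h1 h2 =>
    cases h' with
    | node h3 h4 => exact .swap (h1 h4) (h2 h3)
    | swap h3 h4 => exact .node (h1 h4) (h2 h3)

/-- Isomorphism of rooted trees. -/
instance isoSetoid : Setoid BT := ⟨Iso, Iso.refl, Iso.symm, Iso.trans⟩

/-- Unlabelled rooted binary trees: isomorphism classes. -/
def Shape : Type := Quotient isoSetoid

/-- The isomorphism class of a tree. -/
def BT.shape (T : BT) : Shape := Quotient.mk isoSetoid T

/-- There are finitely many leaves. -/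
noncomputable instance leafFintype : (T : BT) → Fintype (Leaf T)
  | .leaf => inferInstanceAs (Fintype Unit)
  | .node l r => @instFintypeSum _ _ (leafFintype l) (leafFintype r)

/-- The size `j` deck of `T`: the isomorphism classes of the restrictions of `T` to the sets of
`j` leaves. -/
def deck (j : ℕ) (T : BT) : Set Shape :=
  {q | ∃ S : Leaf T → Bool, Nat.card {x // S x = true} = j ∧
    ∃ t, restrict T S = some t ∧ t.shape = q}

/-- `r` leaves on a path above `T`. -/
def chain : ℕ → BT → BT
  | 0, T => T
  | r + 1, T => .node .leaf (chain r T)

/-- Two leaves. -/
def cherry : BT := .node .leaf .leaf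

/-- A path which ends in `Z`, with single leaves (`false`) and cherries (`true`) attached. -/
def sp : List Bool → BT → BT
  | [], Z => Z
  | false :: w, Z => .node .leaf (sp w Z)
  | true :: w, Z => .node cherry (sp w Z)

/-- `m` pairs: single leaf, cherry. -/
def alt : ℕ → List Bool
  | 0 => []
  | m + 1 => false :: true :: alt m

/-- The alternating tree with `n` leaves: a path to which single leaves and cherries are
attached in turn (`n / 3 - 1` of each kind), above a path with single leaves. -/
def altTree (n : ℕ) : BT := sp (alt (n / 3 - 1)) (chain (n % 3 + 2) .leaf)

/-- `M(n, j)`: the largest number of members of the size `j` deck of a tree with `n` leaves. -/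
noncomputable def M (n j : ℕ) : ℕ := sSup {x | ∃ T : BT, T.size = n ∧ (deck j T).ncard = x}

end Pool.Agent.DeckB
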