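import Pool.Agent.DeckB.Defs

/-!
# Decks of leaf-induced subtrees of rooted binary trees: further definitions
-/

set_option autoImplicit false

namespace Pool.Agent.DeckB

/-- The classes of the trees with `k` leaves. -/
def shapes (k : ℕ) : Set Shape := {q | ∃ T : BT, T.size = k ∧ T.shape = q}

/-- `W k`: the number of trees with `k` leaves up to isomorphism. -/
noncomputable def W (k : ℕ) : ℕ := (shapes k).ncard

/-- `q` copies of `P`, attached to a path above `Z`. -/
def rep (P : BT) : ℕ → BT → BT
  | 0, Z => Z
  | q + 1, Z => .node P (rep P q Z)

/-- Trees which are built from trees with at most three leaves by `s` joins (two trees are put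
below a new root) and an arbitrary number of steps in which a leaf and a cherry are attached to
a path above the root. -/
inductive Alt : ℕ → BT → Prop
  | small (T : BT) (h : T.size ≤ 3) : Alt 0 T
  | step (s : ℕ) (T : BT) (h : Alt s T) : Alt s (.node .leaf (.node cherry T))
  | join (s t : ℕ) (l r : BT) (hl : Alt s l) (hr : Alt t r) : Alt (s + t + 1) (.node l r)
  | iso (s : ℕ) (T U : BT) (e : Iso T U) (h : Alt s T) : Alt s U

end Pool.Agent.DeckB
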