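import Mathlib

/-!
# The rate of the largest decks near the diagonal

`vv z k` is the weight of `k + 1` blocks on a path, `Lam z` the largest exponential rate.
-/

set_option autoImplicit false

namespace Pool.Agent.DeckB

/-- The polynomials `v_k` in `z`. -/
noncomputable def vv (z : ℝ) : ℕ → ℝ
  | 0 => z ^ 4 + 2 * z ^ 3 + 2 * z ^ 2
  | k + 1 => (z ^ 3 + 2 * z ^ 2) * vv z k + (z + 1) * z ^ 3

/-- The supremum of the rates `log v_k / (3 k + 4)`. -/
noncomputable def Lam (z : ℝ) : ℝ := ⨆ k : ℕ, Real.log (vv z k) / ((3 * k + 4 : ℕ) : ℝ)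

end Pool.Agent.DeckB
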