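import Pool.Agent.DeckB.GrowthNear

/-!
# Binomial lower bounds for the deck of the alternating spine tree
-/

set_option autoImplicit false

namespace Pool.Agent.DeckB

open Filter Topology

theorem factorial_le_stirling {d : ℕ} (hd : 1 ≤ d) :
    (d.factorial : ℝ) ≤ Real.exp 1 * √d * (d / Real.exp 1) ^ d := by
  obtain ⟨m, rfl⟩ : ∃ m, d = m + 1 := ⟨d - 1, by omega⟩
  have h1 := Stirling.stirlingSeq'_antitone (Nat.zero_le m)
  simp only [Function.comp_apply, Nat.succ_eq_add_one, zero_add] at h1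
  rw [Stirling.stirlingSeq_one] at h1
  unfold Stirling.stirlingSeq at h1
  have hm : (0 : ℝ) < ((m + 1 : ℕ) : ℝ) := by positivity
  have hE : 0 < Real.exp 1 := Real.exp_pos 1
  have h2 : (0 : ℝ) < √2 := by positivity
  have h3 : (0 : ℝ) < √(((m + 1 : ℕ) : ℝ)) := Real.sqrt_pos.2 hm
  have h4 : √(2 * ((m + 1 : ℕ) : ℝ)) = √2 * √(((m + 1 : ℕ) : ℝ)) :=
    Real.sqrt_mul (by norm_num) _
  have h5 : (0 : ℝ) < (((m + 1 : ℕ) : ℝ) / Real.exp 1) ^ (m + 1) := by positivity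
  rw [h4, div_le_div_iff₀ (by positivity) h2] at h1
  have h6 : ((m + 1).factorial : ℝ) * √2 ≤
      (Real.exp 1 * √(((m + 1 : ℕ) : ℝ)) * (((m + 1 : ℕ) : ℝ) / Real.exp 1) ^ (m + 1)) * √2 := by
    linarith
  exact le_of_mul_le_mul_right h6 h2

theorem exp_sq_le : Real.exp 1 ^ 2 ≤ 3 * √(2 * Real.pi) := by
  have h1 : Real.exp 1 < 2.7182818286 := Real.exp_one_lt_d9
  have h2 : (0 : ℝ) < Real.exp 1 := Real.exp_pos 1
  have h3 : (2.5 : ℝ) ≤ √(2 * Real.pi) := by
    apply Real.le_sqrt_of_sq_le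
    have := Real.pi_gt_d2
    norm_num at this ⊢
    linarith
  have h4 : Real.exp 1 ^ 2 ≤ 2.7182818286 ^ 2 := pow_le_pow_left₀ h2.le h1.le 2
  norm_num at h4 h3 ⊢
  linarith

/-- (E1) Stirling's bound for a binomial coefficient. -/
theorem le_choose {m d : ℕ} {y : ℝ} (hd : 1 ≤ d) (hdm : d < m)
    (hy : y = d / (2 * (m - d))) :
    1 / 3 * (1 + 2 * y) ^ m ≤ √d * (m.choose d * (2 * y) ^ d) := by
  obtain ⟨k, rfl⟩ : ∃ k, m = d + k := ⟨m - d, by omega⟩
  have hk : 1 ≤ k := by omega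
  have hd0 : (0 : ℝ) < d := by exact_mod_cast hd
  have hk0 : (0 : ℝ) < k := by exact_mod_cast hk
  have hE : 0 < Real.exp 1 := Real.exp_pos 1
  have hc : (((d + k : ℕ) : ℝ) - d) = k := by push_cast; ring
  rw [hc] at hy
  have hy2 : 2 * y = d / k := by rw [hy]; field_simp
  have hy1 : 1 + 2 * y = ((d + k : ℕ) : ℝ) / k := by
    rw [hy2]; push_cast; field_simp; ring
  rw [hy1, hy2]
  set m : ℕ := d + k with hm
  have hm0 : (0 : ℝ) < m := by
    have : 0 < m := by omega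
    exact_mod_cast this
  have h1 := Stirling.le_factorial_stirling m
  have h2 : ((m.choose d : ℕ) : ℝ) * d.factorial * k.factorial = m.factorial := by
    have := Nat.choose_mul_factorial_mul_factorial (n := m) (k := d) (by omega)
    have h3 : m - d = k := by omega
    rw [h3] at this
    exact_mod_cast this
  have h3 := factorial_le_stirling hd
  have h4 := factorial_le_stirling hk
  have h5 : √(2 * Real.pi * m) = √(2 * Real.pi) * √m := Real.sqrt_mul (by positivity) _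
  have h6 : √(k : ℝ) ≤ √m := by
    apply Real.sqrt_le_sqrt
    rw [hm]; push_cast; linarith
  have hsm : 0 < √(m : ℝ) := Real.sqrt_pos.2 hm0
  set C : ℝ := ((m.choose d : ℕ) : ℝ) with hC
  have hC0 : 0 ≤ C := Nat.cast_nonneg _
  -- the powers
  have p1 : ((m : ℝ) / Real.exp 1) ^ m = (m / k) ^ m * (k / Real.exp 1) ^ m := by
    rw [← mul_pow]; congr 1; field_simp
  have p2 : ((d : ℝ) / Real.exp 1) ^ d * ((k : ℝ) / Real.exp 1) ^ k =
      (d / k) ^ d * (k / Real.exp 1) ^ m := by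
    rw [hm, pow_add, ← mul_assoc, ← mul_pow]; congr 2; field_simp
  have h7 : (m.factorial : ℝ) ≤ C * (Real.exp 1 * √d * (d / Real.exp 1) ^ d) *
      (Real.exp 1 * √m * (k / Real.exp 1) ^ k) := by
    rw [← h2]
    have h8 : (k.factorial : ℝ) ≤ Real.exp 1 * √m * (k / Real.exp 1) ^ k := by
      refine h4.trans ?_
      gcongr
    gcongr
  have h8 : √(2 * Real.pi) * √m * ((m / k) ^ m * (k / Real.exp 1) ^ m) ≤
      C * Real.exp 1 ^ 2 * √d * √m * ((d / k) ^ d * (k / Real.exp 1) ^ m) := by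
    rw [← p1, ← p2, ← h5]
    refine (h1.trans h7).trans (le_of_eq ?_)
    ring
  have hK : 0 < √(m : ℝ) * ((k : ℝ) / Real.exp 1) ^ m := by positivity
  have h9 : √(2 * Real.pi) * ((m : ℝ) / k) ^ m ≤ C * Real.exp 1 ^ 2 * √d * (d / k) ^ d := by
    refine le_of_mul_le_mul_right ?_ hK
    calc √(2 * Real.pi) * ((m : ℝ) / k) ^ m * (√m * (k / Real.exp 1) ^ m)
        = √(2 * Real.pi) * √m * ((m / k) ^ m * (k / Real.exp 1) ^ m) := by ring
      _ ≤ _ := h8
      _ = _ := by ring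
  have h10 : C * Real.exp 1 ^ 2 * √d * ((d : ℝ) / k) ^ d ≤
      C * (3 * √(2 * Real.pi)) * √d * (d / k) ^ d := by
    have := exp_sq_le
    gcongr
  have hpi : 0 < √(2 * Real.pi) := Real.sqrt_pos.2 (by positivity)
  have h11 : √(2 * Real.pi) * (1 / 3 * ((m : ℝ) / k) ^ m) ≤
      √(2 * Real.pi) * (√d * (C * (d / k) ^ d)) := by
    have := h9.trans h10
    nlinarith [this]
  exact le_of_mul_le_mul_left h11 hpi

/-- A lower bound for the number of leaves of the deck, in logarithmic form. -/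
theorem le_log_M_choose {n d : ℕ} (hn : 3 ≤ n) (hd : 1 ≤ d) (hdm : d < n / 3 - 1) :
    (((n / 3 - 1 : ℕ) : ℝ) / n) *
        Real.log (1 + 2 * ((d : ℝ) / (2 * (((n / 3 - 1 : ℕ) : ℝ) - d)))) -
      ((d : ℝ) / n) * Real.log ((d : ℝ) / (2 * (((n / 3 - 1 : ℕ) : ℝ) - d))) -
      2 * ((1 + Real.log n) / n) ≤ Real.log (M n (n - d)) / n := by
  set m : ℕ := n / 3 - 1 with hm
  have hn0 : (0 : ℝ) < n := by
    have : 0 < n := by omega
    exact_mod_cast this
  have hd0 : (0 : ℝ) < d := by exact_mod_cast hd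
  have hk : (0 : ℝ) < (m : ℝ) - d := by
    have : (d : ℝ) < m := by exact_mod_cast hdm
    linarith
  set y : ℝ := (d : ℝ) / (2 * ((m : ℝ) - d)) with hy
  have hy0 : 0 < y := by positivity
  have h1 : ((2 ^ d * m.choose d : ℕ) : ℝ) ≤ (M n (n - d) : ℝ) := by
    exact_mod_cast (le_altTree hn d).trans (altTree_le_M hn (Nat.sub_le _ _))
  have h2 := le_choose hd hdm hy
  have hC : (0 : ℝ) < (m.choose d : ℝ) := by
    exact_mod_cast Nat.choose_pos hdm.le
  have hs : 0 < √(d : ℝ) := Real.sqrt_pos.2 hd0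
  -- logarithms
  have h3 : Real.log (1 / 3 * (1 + 2 * y) ^ m) ≤ Real.log (√d * (m.choose d * (2 * y) ^ d)) :=
    Real.log_le_log (by positivity) h2
  have h4 : Real.log (1 / 3 * (1 + 2 * y) ^ m) = -Real.log 3 + m * Real.log (1 + 2 * y) := by
    rw [Real.log_mul (by norm_num) (by positivity), Real.log_pow, one_div, Real.log_inv]
  have h5 : √(d : ℝ) * (m.choose d * (2 * y) ^ d) =
      √d * (y ^ d * ((2 ^ d * m.choose d : ℕ) : ℝ)) := by
    push_cast; rw [mul_pow]; ring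
  have hpos : (0 : ℝ) < ((2 ^ d * m.choose d : ℕ) : ℝ) := by push_cast; positivity
  have h6 : Real.log (√d * (m.choose d * (2 * y) ^ d)) =
      Real.log d / 2 + (d * Real.log y + Real.log ((2 ^ d * m.choose d : ℕ) : ℝ)) := by
    rw [h5, Real.log_mul hs.ne' (by positivity), Real.log_mul (by positivity) hpos.ne',
      Real.log_pow, Real.log_sqrt hd0.le]
  have h7 : Real.log ((2 ^ d * m.choose d : ℕ) : ℝ) ≤ Real.log (M n (n - d)) :=
    Real.log_le_log hpos h1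
  have h8 : Real.log 3 ≤ 2 := by
    have := Real.log_le_sub_one_of_pos (show (0 : ℝ) < 3 by norm_num)
    linarith
  have h9 : Real.log d ≤ Real.log n := by
    apply Real.log_le_log hd0
    have : d ≤ n := by omega
    exact_mod_cast this
  have h10 : 0 ≤ Real.log n := Real.log_nonneg (by
    have : 1 ≤ n := by omega
    exact_mod_cast this)
  have h11 : m * Real.log (1 + 2 * y) - d * Real.log y - 2 * (1 + Real.log n) ≤
      Real.log (M n (n - d)) := by
    rw [h4, h6] at h3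
    linarith
  have h12 := div_le_div_of_nonneg_right h11 hn0.le
  refine le_trans (le_of_eq ?_) h12
  field_simp

theorem third_tendsto :
    Tendsto (fun n : ℕ => ((n / 3 - 1 : ℕ) : ℝ) / n) atTop (𝓝 (1 / 3)) := by
  have h1 : Tendsto (fun n : ℕ => (1 / 3 : ℝ) - (5 / 3) / n) atTop (𝓝 (1 / 3)) := by
    have h2 := (tendsto_const_div_atTop_nhds_zero_nat (5 / 3 : ℝ)).const_sub (1 / 3)
    rwa [sub_zero] at h2
  refine tendsto_of_tendsto_of_tendsto_of_le_of_le' h1 tendsto_const_nhds ?_ ?_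
  · filter_upwards [eventually_ge_atTop 3] with n hn
    have hn0 : (0 : ℝ) < n := by
      have : 0 < n := by omega
      exact_mod_cast this
    have h2 : n ≤ 3 * (n / 3 - 1) + 5 := by omega
    have h3 : (n : ℝ) ≤ 3 * ((n / 3 - 1 : ℕ) : ℝ) + 5 := by exact_mod_cast h2
    rw [le_div_iff₀ hn0, sub_mul, div_mul_cancel₀ _ hn0.ne']
    linarith
  · filter_upwards [eventually_ge_atTop 3] with n hn
    have hn0 : (0 : ℝ) < n := by
      have : 0 < n := by omega
      exact_mod_cast this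
    have h2 : 3 * (n / 3 - 1) ≤ n := by omega
    have h3 : 3 * ((n / 3 - 1 : ℕ) : ℝ) ≤ n := by exact_mod_cast h2
    rw [div_le_iff₀ hn0]
    linarith

/-- (E2) the rate of the alternating trees. -/
theorem alt_rate {δ ℓ : ℝ} (h0 : 0 < δ) (h1 : δ ≤ 1 / 8)
    (h : Tendsto (fun n : ℕ => Real.log (M n (n - ⌊δ * n⌋₊)) / n) atTop (𝓝 ℓ)) :
    δ * Real.log (2 / (3 * δ)) - (1 / 3 - δ) * Real.log (1 - 3 * δ) ≤ ℓ := by
  have hd := floor_div_tendsto h0
  have hm := third_tendsto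
  have hδ : 0 < 1 / 3 - δ := by linarith
  have hδ' : 0 < 1 - 3 * δ := by linarith
  have hy : Tendsto (fun n : ℕ => ((⌊δ * n⌋₊ : ℕ) : ℝ) /
      (2 * (((n / 3 - 1 : ℕ) : ℝ) - ((⌊δ * n⌋₊ : ℕ) : ℝ)))) atTop
      (𝓝 (δ / (2 * (1 / 3 - δ)))) := by
    have h2 := hd.div ((hm.sub hd).const_mul 2) (by positivity)
    refine h2.congr' ?_
    filter_upwards [eventually_ge_atTop 1] with n hn
    have hn0 : (n : ℝ) ≠ 0 := by
      have : n ≠ 0 := by omega
      exact_mod_cast this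
    simp only [Pi.div_apply]
    rw [← sub_div, ← mul_div_assoc, div_div_div_cancel_right₀ hn0]
  have hy0 : 0 < δ / (2 * (1 / 3 - δ)) := by positivity
  have h3 := ((hm.mul (((hy.const_mul 2).const_add 1).log (by positivity))).sub
    (hd.mul (hy.log hy0.ne'))).sub (log_div_tendsto.const_mul 2)
  have h4 : 1 / 3 * Real.log (1 + 2 * (δ / (2 * (1 / 3 - δ)))) -
      δ * Real.log (δ / (2 * (1 / 3 - δ))) - 2 * 0 =
      δ * Real.log (2 / (3 * δ)) - (1 / 3 - δ) * Real.log (1 - 3 * δ) := by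
    have h5 : 1 + 2 * (δ / (2 * (1 / 3 - δ))) = (1 - 3 * δ)⁻¹ := by
      apply eq_inv_of_mul_eq_one_left
      rw [show (1 : ℝ) - 3 * δ = 3 * (1 / 3 - δ) by ring]
      have h6 : ∀ k : ℝ, 0 < k → δ = 1 / 3 - k → (1 + 2 * (δ / (2 * k))) * (3 * k) = 1 := by
        intro k hk e
        field_simp
        linarith
      exact h6 _ hδ (by ring)
    have h6 : δ / (2 * (1 / 3 - δ)) = (2 / (3 * δ) * (1 - 3 * δ))⁻¹ := by
      field_simp
    rw [h5, h6, Real.log_inv, Real.log_inv, Real.log_mul (by positivity) hδ'.ne']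
    ring
  rw [h4] at h3
  refine le_of_tendsto_of_tendsto h3 h ?_
  have h5 : ∀ᶠ n : ℕ in atTop, 1 ≤ δ * n := by
    have h6 : Tendsto (fun n : ℕ => δ * (n : ℝ)) atTop atTop :=
      Tendsto.const_mul_atTop h0 tendsto_natCast_atTop_atTop
    exact h6.eventually (eventually_ge_atTop 1)
  have h6 : ∀ᶠ n : ℕ in atTop, ((⌊δ * n⌋₊ : ℕ) : ℝ) / n < ((n / 3 - 1 : ℕ) : ℝ) / n :=
    hd.eventually_lt hm (by linarith)
  filter_upwards [eventually_ge_atTop 3, h5, h6] with n hn h7 h8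
  have hn0 : (0 : ℝ) < n := by
    have : 0 < n := by omega
    exact_mod_cast this
  have h9 : ⌊δ * n⌋₊ < n / 3 - 1 := by
    rw [div_lt_div_iff_of_pos_right hn0] at h8
    exact_mod_cast h8
  exact le_log_M_choose hn (Nat.floor_pos.mpr h7) h9

/-- The comparison at the point `y = d / (2 (m - d))`, `m = n / 3 - 1`. -/
theorem compare_core {n d : ℕ} {y : ℝ} (hd : 1 ≤ d) (hdn : 8 * d + 5 ≤ n)
    (hy : y = d / (2 * (((n / 3 - 1 : ℕ) : ℝ) - d))) :
    0 < y ∧ y ≤ 3 / 10 ∧ (9 * d + 5 ≤ n → y ≤ 1 / 4) ∧ (d : ℝ) / (16 * n) ≤ y / 24 ∧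
      (1 / y) ^ d * (1 + 2 * y) ^ ((n : ℝ) / 3) ≤
        7 * √d * (2 ^ d * (n / 3 - 1).choose d) := by
  set m : ℕ := n / 3 - 1 with hm
  have hm3 : n ≤ 3 * m + 5 := by omega
  have hm4 : 3 * m ≤ n := by omega
  have hdm : d < m := by omega
  have hd0 : (0 : ℝ) < d := by exact_mod_cast hd
  have hm3' : (n : ℝ) ≤ 3 * m + 5 := by exact_mod_cast hm3
  have hm4' : 3 * (m : ℝ) ≤ n := by exact_mod_cast hm4
  have hdn' : 8 * (d : ℝ) + 5 ≤ n := by exact_mod_cast hdn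
  have hn0 : (0 : ℝ) < n := by linarith
  have hk : (0 : ℝ) < m - d := by
    have : (d : ℝ) < m := by exact_mod_cast hdm
    linarith
  have hy0 : 0 < y := by rw [hy]; positivity
  have hy1 : y ≤ 3 / 10 := by
    rw [hy, div_le_iff₀ (by positivity)]
    linarith
  have hy2 : 3 * (d : ℝ) / (2 * n) ≤ y := by
    rw [hy, div_le_div_iff₀ (by positivity) (by positivity)]
    nlinarith
  have hb : 0 < 1 + 2 * y := by linarith
  have hb1 : 1 ≤ 1 + 2 * y := by linarith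
  have hb2 : 1 + 2 * y ≤ 8 / 5 := by linarith
  have h2 := le_choose hd hdm hy
  have h3 : (1 + 2 * y) ^ ((n : ℝ) / 3) ≤ (1 + 2 * y) ^ m * (22 / 10) := by
    have h4 : (1 + 2 * y) ^ ((n : ℝ) / 3) ≤ (1 + 2 * y) ^ ((m : ℝ) + 5 / 3) :=
      Real.rpow_le_rpow_of_exponent_le hb1 (by linarith)
    rw [Real.rpow_add hb, Real.rpow_natCast] at h4
    refine h4.trans ?_
    have h5 : (1 + 2 * y) ^ ((5 : ℝ) / 3) ≤ 22 / 10 := by
      have h6 : (1 + 2 * y) ^ ((5 : ℝ) / 3) ≤ (8 / 5 : ℝ) ^ ((5 : ℝ) / 3) :=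
        Real.rpow_le_rpow hb.le hb2 (by norm_num)
      refine h6.trans ?_
      have h7 : ((8 / 5 : ℝ) ^ ((5 : ℝ) / 3)) ^ 3 ≤ (22 / 10) ^ 3 := by
        rw [← Real.rpow_natCast, ← Real.rpow_mul (by norm_num)]
        norm_num
      exact le_of_pow_le_pow_left₀ (by norm_num) (by norm_num) h7
    gcongr
  have hp : 0 < (1 / y) ^ d := by positivity
  have h4 : (1 / y) ^ d * (2 * y) ^ d = 2 ^ d := by
    rw [← mul_pow]; congr 1; field_simp
  have hC0 : (0 : ℝ) ≤ (m.choose d : ℝ) := Nat.cast_nonneg _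
  have hs0 : 0 ≤ √(d : ℝ) := Real.sqrt_nonneg _
  have h5 : (1 + 2 * y) ^ m ≤ 3 * (√d * (m.choose d * (2 * y) ^ d)) := by linarith
  refine ⟨hy0, hy1, fun h9 => ?_, ?_, ?_⟩
  · have h9' : 9 * (d : ℝ) + 5 ≤ n := by exact_mod_cast h9
    rw [hy, div_le_iff₀ (by positivity)]
    linarith
  · have h6 : 3 * (d : ℝ) / (2 * n) / 24 = d / (16 * n) := by
      field_simp
      norm_num
    rw [← h6]
    exact div_le_div_of_nonneg_right hy2 (by norm_num)
  · calc (1 / y) ^ d * (1 + 2 * y) ^ ((n : ℝ) / 3)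
        ≤ (1 / y) ^ d * ((1 + 2 * y) ^ m * (22 / 10)) := by gcongr
      _ ≤ (1 / y) ^ d * (3 * (√d * (m.choose d * (2 * y) ^ d)) * (22 / 10)) := by gcongr
      _ = 66 / 10 * √d * (((1 / y) ^ d * (2 * y) ^ d) * m.choose d) := by ring
      _ = 66 / 10 * √d * (2 ^ d * m.choose d) := by rw [h4]
      _ ≤ 7 * √d * (2 ^ d * m.choose d) := by
        have : (0 : ℝ) ≤ √d * (2 ^ d * m.choose d) := by positivity
        linarith

/-- (E3a) comparison of the upper bound with the deck of the alternating tree. -/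
theorem alt_compare' {n d : ℕ} {U : ℝ} (hd : 1 ≤ d) (hdn : 8 * d + 5 ≤ n)
    (hU : ∀ y : ℝ, 0 < y → y ≤ 3 / 10 → U ≤ (1 / y) ^ d * (1 + 2 * y) ^ ((n : ℝ) / 3)) :
    U ≤ 7 * √d * (2 ^ d * (n / 3 - 1).choose d) := by
  obtain ⟨h1, h2, -, -, h3⟩ := compare_core hd hdn rfl
  exact (hU _ h1 h2).trans h3

/-- (E3b) comparison with a structure factor. -/
theorem struct_compare {n d s : ℕ} {U : ℝ} (hd : 1 ≤ d) (hdn : 9 * d + 5 ≤ n)
    (hU : ∀ y : ℝ, 0 < y → y ≤ 1 / 4 →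
      U ≤ (1 / y) ^ d * (1 + 2 * y) ^ ((n : ℝ) / 3) * (1 - y / 24) ^ s) :
    U ≤ 7 * √d * Real.exp (-(s * d / (16 * n))) * (2 ^ d * (n / 3 - 1).choose d) := by
  obtain ⟨h1, h2, h4, h5, h3⟩ := compare_core (n := n) hd (by omega) rfl
  have h6 := hU _ h1 (h4 hdn)
  set y : ℝ := d / (2 * (((n / 3 - 1 : ℕ) : ℝ) - d)) with hy
  have h7 : (1 - y / 24) ^ s ≤ Real.exp (-(s * d / (16 * n))) := by
    have h8 : (1 - y / 24) ^ s ≤ (Real.exp (-(y / 24))) ^ s :=
      pow_le_pow_left₀ (by linarith) (Real.one_sub_le_exp_neg _) s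
    refine h8.trans ?_
    rw [← Real.exp_nat_mul]
    apply Real.exp_le_exp.2
    have h9 := mul_le_mul_of_nonneg_left h5 (Nat.cast_nonneg s : (0 : ℝ) ≤ s)
    have h10 : (s : ℝ) * (d / (16 * n)) = s * d / (16 * n) := by ring
    linarith
  have hy3 : 0 ≤ (1 - y / 24) ^ s := pow_nonneg (by linarith) s
  calc U ≤ (1 / y) ^ d * (1 + 2 * y) ^ ((n : ℝ) / 3) * (1 - y / 24) ^ s := h6
    _ ≤ 7 * √d * (2 ^ d * (n / 3 - 1).choose d) * Real.exp (-(s * d / (16 * n))) := by gcongr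
    _ = 7 * √d * Real.exp (-(s * d / (16 * n))) * (2 ^ d * (n / 3 - 1).choose d) := by ring

end Pool.Agent.DeckB
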