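import Pool.Agent.DeckB.Entropy

/-!
# Binomial lower bounds for the deck of the alternating spine tree, larger range
-/

set_option autoImplicit false

namespace Pool.Agent.DeckB

open Filter Topology

/-- The rate of the alternating trees, for all `δ < 1 / 3`. -/
theorem alt_rateB {δ ℓ : ℝ} (h0 : 0 < δ) (h1 : δ < 1 / 3)
    (h : Tendsto (fun n : ℕ => Real.log (M n (n - ⌊δ * n⌋₊)) / n) atTop (𝓝 ℓ)) :
    δ * Real.log (2 / (3 * δ)) - (1 / 3 - δ) * Real.log (1 - 3 * δ) ≤ ℓ := by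
  have hd := floor_div_tendsto h0
  have hm := third_tendsto
  have hδ : 0 < 1 / 3 - δ := by linarith
  have hδ' : 0 < 1 - 3 * δ := by linarith
  have hy : Tendsto (fun n : ℕ => ((⌊δ * n⌋₊ : ℕ) : ℝ) /
      (2 * (((n / 3 - 1 : ℕ) : ℝ) - ((⌊δ * n⌋₊ : ℕ) : ℝ)))) atTop
      (𝓝 (δ / (2 * (1 / 3 - δ)))) := by
    have h2 := hd.div ((hm.sub hd).const_mul 2) (by positivity)
    refine h2.congr' ?_
    filter_upwards [eventually_ge_atTop 1] with n hn
    have hn0 : (n : ℝ) ≠ 0 := by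
      have : n ≠ 0 := by omega
      exact_mod_cast this
    simp only [Pi.div_apply]
    rw [← sub_div, ← mul_div_assoc, div_div_div_cancel_right₀ hn0]
  have hy0 : 0 < δ / (2 * (1 / 3 - δ)) := by positivity
  have h3 := ((hm.mul (((hy.const_mul 2).const_add 1).log (by positivity))).sub
    (hd.mul (hy.log hy0.ne'))).sub (log_div_tendsto.const_mul 2)
  have h4 : 1 / 3 * Real.log (1 + 2 * (δ / (2 * (1 / 3 - δ)))) -
      δ * Real.log (δ / (2 * (1 / 3 - δ))) - 2 * 0 =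
      δ * Real.log (2 / (3 * δ)) - (1 / 3 - δ) * Real.log (1 - 3 * δ) := by
    have h5 : 1 + 2 * (δ / (2 * (1 / 3 - δ))) = (1 - 3 * δ)⁻¹ := by
      apply eq_inv_of_mul_eq_one_left
      rw [show (1 : ℝ) - 3 * δ = 3 * (1 / 3 - δ) by ring]
      have h6 : ∀ k : ℝ, 0 < k → δ = 1 / 3 - k → (1 + 2 * (δ / (2 * k))) * (3 * k) = 1 := by
        intro k hk e
        field_simp
        linarith
      exact h6 _ hδ (by ring)
    have h6 : δ / (2 * (1 / 3 - δ)) = (2 / (3 * δ) * (1 - 3 * δ))⁻¹ := by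
      field_simp
    rw [h5, h6, Real.log_inv, Real.log_inv, Real.log_mul (by positivity) hδ'.ne']
    ring
  rw [h4] at h3
  refine le_of_tendsto_of_tendsto h3 h ?_
  have h5 : ∀ᶠ n : ℕ in atTop, 1 ≤ δ * n := by
    have h6 : Tendsto (fun n : ℕ => δ * (n : ℝ)) atTop atTop :=
      Tendsto.const_mul_atTop h0 tendsto_natCast_atTop_atTop
    exact h6.eventually (eventually_ge_atTop 1)
  have h6 : ∀ᶠ n : ℕ in atTop, ((⌊δ * n⌋₊ : ℕ) : ℝ) / n < ((n / 3 - 1 : ℕ) : ℝ) / n :=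
    hd.eventually_lt hm (by linarith)
  filter_upwards [eventually_ge_atTop 3, h5, h6] with n hn h7 h8
  have hn0 : (0 : ℝ) < n := by
    have : 0 < n := by omega
    exact_mod_cast this
  have h9 : ⌊δ * n⌋₊ < n / 3 - 1 := by
    rw [div_lt_div_iff_of_pos_right hn0] at h8
    exact_mod_cast h8
  exact le_log_M_choose hn (Nat.floor_pos.mpr h7) h9

/-- The comparison at the point `y = d / (2 (m - d))`, `m = n / 3 - 1`, for `20 d + 20 ≤ 3 n`. -/
theorem compare_coreB {n d : ℕ} {y : ℝ} (hd : 1 ≤ d) (hdn : 20 * d + 20 ≤ 3 * n)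
    (hy : y = d / (2 * (((n / 3 - 1 : ℕ) : ℝ) - d))) :
    0 < y ∧ y ≤ 9 / 22 ∧ 3 * (d : ℝ) / (2 * n) ≤ y ∧
      (1 / y) ^ d * (1 + 2 * y) ^ ((n : ℝ) / 3) ≤
        9 * √d * (2 ^ d * (n / 3 - 1).choose d) := by
  set m : ℕ := n / 3 - 1 with hm
  have hm3 : n ≤ 3 * m + 5 := by omega
  have hm4 : 3 * m ≤ n := by omega
  have hdm : d < m := by omega
  have hd0 : (0 : ℝ) < d := by exact_mod_cast hd
  have hm3' : (n : ℝ) ≤ 3 * m + 5 := by exact_mod_cast hm3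
  have hm4' : 3 * (m : ℝ) ≤ n := by exact_mod_cast hm4
  have hdn' : 20 * (d : ℝ) + 20 ≤ 3 * n := by exact_mod_cast hdn
  have hn0 : (0 : ℝ) < n := by linarith
  have hk : (0 : ℝ) < m - d := by
    have : (d : ℝ) < m := by exact_mod_cast hdm
    linarith
  have hy0 : 0 < y := by rw [hy]; positivity
  have hy1 : y ≤ 9 / 22 := by
    rw [hy, div_le_iff₀ (by positivity)]
    linarith
  have hy2 : 3 * (d : ℝ) / (2 * n) ≤ y := by
    rw [hy, div_le_div_iff₀ (by positivity) (by positivity)]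
    nlinarith
  have hb : 0 < 1 + 2 * y := by linarith
  have hb1 : 1 ≤ 1 + 2 * y := by linarith
  have hb2 : 1 + 2 * y ≤ 20 / 11 := by linarith
  have h2 := le_choose hd hdm hy
  have h3 : (1 + 2 * y) ^ ((n : ℝ) / 3) ≤ (1 + 2 * y) ^ m * (271 / 100) := by
    have h4 : (1 + 2 * y) ^ ((n : ℝ) / 3) ≤ (1 + 2 * y) ^ ((m : ℝ) + 5 / 3) :=
      Real.rpow_le_rpow_of_exponent_le hb1 (by linarith)
    rw [Real.rpow_add hb, Real.rpow_natCast] at h4
    refine h4.trans ?_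
    have h5 : (1 + 2 * y) ^ ((5 : ℝ) / 3) ≤ 271 / 100 := by
      have h6 : (1 + 2 * y) ^ ((5 : ℝ) / 3) ≤ (20 / 11 : ℝ) ^ ((5 : ℝ) / 3) :=
        Real.rpow_le_rpow hb.le hb2 (by norm_num)
      refine h6.trans ?_
      have h7 : ((20 / 11 : ℝ) ^ ((5 : ℝ) / 3)) ^ 3 ≤ (271 / 100) ^ 3 := by
        rw [← Real.rpow_natCast, ← Real.rpow_mul (by norm_num)]
        norm_num
      exact le_of_pow_le_pow_left₀ (by norm_num) (by norm_num) h7
    gcongr
  have hp : 0 < (1 / y) ^ d := by positivity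
  have h4 : (1 / y) ^ d * (2 * y) ^ d = 2 ^ d := by
    rw [← mul_pow]; congr 1; field_simp
  have hC0 : (0 : ℝ) ≤ (m.choose d : ℝ) := Nat.cast_nonneg _
  have hs0 : 0 ≤ √(d : ℝ) := Real.sqrt_nonneg _
  have h5 : (1 + 2 * y) ^ m ≤ 3 * (√d * (m.choose d * (2 * y) ^ d)) := by linarith
  refine ⟨hy0, hy1, hy2, ?_⟩
  calc (1 / y) ^ d * (1 + 2 * y) ^ ((n : ℝ) / 3)
      ≤ (1 / y) ^ d * ((1 + 2 * y) ^ m * (271 / 100)) := by gcongr
    _ ≤ (1 / y) ^ d * (3 * (√d * (m.choose d * (2 * y) ^ d)) * (271 / 100)) := by gcongr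
    _ = 813 / 100 * √d * (((1 / y) ^ d * (2 * y) ^ d) * m.choose d) := by ring
    _ = 813 / 100 * √d * (2 ^ d * m.choose d) := by rw [h4]
    _ ≤ 9 * √d * (2 ^ d * m.choose d) := by
      have : (0 : ℝ) ≤ √d * (2 ^ d * m.choose d) := by positivity
      linarith

/-- Comparison of the upper bound with the deck of the alternating tree, `20 d + 20 ≤ 3 n`. -/
theorem alt_compareB {n d : ℕ} {U : ℝ} (hd : 1 ≤ d) (hdn : 20 * d + 20 ≤ 3 * n)
    (hU : ∀ y : ℝ, 0 < y → y ≤ 9 / 22 → U ≤ (1 / y) ^ d * (1 + 2 * y) ^ ((n : ℝ) / 3)) :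
    U ≤ 9 * √d * (2 ^ d * (n / 3 - 1).choose d) := by
  obtain ⟨h1, h2, -, h3⟩ := compare_coreB hd hdn rfl
  exact (hU _ h1 h2).trans h3

/-- The comparison at the point `y = d / (2 (m - d))`, `m = n / 3 - 1`, for
`3 (β + 2) d + 10 ≤ 2 n`, `59 / 25 ≤ β`. -/
theorem compare_coreC {n d : ℕ} {y β : ℝ} (hβ : 59 / 25 ≤ β) (hd : 1 ≤ d)
    (hdn : 3 * (β + 2) * d + 10 ≤ 2 * n) (hy : y = d / (2 * (((n / 3 - 1 : ℕ) : ℝ) - d))) :
    0 < y ∧ y * β ≤ 1 ∧ 3 * (d : ℝ) / (2 * n) ≤ y ∧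
      (1 / y) ^ d * (1 + 2 * y) ^ ((n : ℝ) / 3) ≤
        9 * √d * (2 ^ d * (n / 3 - 1).choose d) := by
  have hd0 : (1 : ℝ) ≤ d := by exact_mod_cast hd
  have hβd : 59 / 25 * (d : ℝ) ≤ β * d := mul_le_mul_of_nonneg_right hβ (by linarith)
  have hn23 : (23 : ℝ) < 2 * n := by nlinarith
  have hn12 : 11 < n := by
    have h : (23 : ℕ) < 2 * n := by exact_mod_cast hn23
    omega
  set m : ℕ := n / 3 - 1 with hm
  have hm3 : n ≤ 3 * m + 5 := by omega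
  have hm4 : 3 * m ≤ n := by omega
  have hm3' : (n : ℝ) ≤ 3 * m + 5 := by exact_mod_cast hm3
  have hm4' : 3 * (m : ℝ) ≤ n := by exact_mod_cast hm4
  have hdm2 : (β + 2) * d ≤ 2 * m := by linarith
  have hdm' : (d : ℝ) < m := by nlinarith
  have hdm : d < m := by exact_mod_cast hdm'
  have hn0 : (0 : ℝ) < n := by linarith
  have hk : (0 : ℝ) < m - d := by linarith
  have hy0 : 0 < y := by rw [hy]; positivity
  have hy1 : y * β ≤ 1 := by
    rw [hy, div_mul_eq_mul_div, div_le_one (by positivity)]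
    linarith
  have hy3 : y ≤ 25 / 59 := by
    have : y * (59 / 25) ≤ y * β := mul_le_mul_of_nonneg_left hβ hy0.le
    linarith
  have hy2 : 3 * (d : ℝ) / (2 * n) ≤ y := by
    rw [hy, div_le_div_iff₀ (by positivity) (by positivity)]
    nlinarith
  have hb : 0 < 1 + 2 * y := by linarith
  have hb1 : 1 ≤ 1 + 2 * y := by linarith
  have hb2 : 1 + 2 * y ≤ 109 / 59 := by linarith
  have h2 := le_choose hd hdm hy
  have h3 : (1 + 2 * y) ^ ((n : ℝ) / 3) ≤ (1 + 2 * y) ^ m * (279 / 100) := by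
    have h4 : (1 + 2 * y) ^ ((n : ℝ) / 3) ≤ (1 + 2 * y) ^ ((m : ℝ) + 5 / 3) :=
      Real.rpow_le_rpow_of_exponent_le hb1 (by linarith)
    rw [Real.rpow_add hb, Real.rpow_natCast] at h4
    refine h4.trans ?_
    have h5 : (1 + 2 * y) ^ ((5 : ℝ) / 3) ≤ 279 / 100 := by
      have h6 : (1 + 2 * y) ^ ((5 : ℝ) / 3) ≤ (109 / 59 : ℝ) ^ ((5 : ℝ) / 3) :=
        Real.rpow_le_rpow hb.le hb2 (by norm_num)
      refine h6.trans ?_
      have h7 : ((109 / 59 : ℝ) ^ ((5 : ℝ) / 3)) ^ 3 ≤ (279 / 100) ^ 3 := by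
        rw [← Real.rpow_natCast, ← Real.rpow_mul (by norm_num)]
        norm_num
      exact le_of_pow_le_pow_left₀ (by norm_num) (by norm_num) h7
    gcongr
  have hp : 0 < (1 / y) ^ d := by positivity
  have h4 : (1 / y) ^ d * (2 * y) ^ d = 2 ^ d := by
    rw [← mul_pow]; congr 1; field_simp
  have hC0 : (0 : ℝ) ≤ (m.choose d : ℝ) := Nat.cast_nonneg _
  have hs0 : 0 ≤ √(d : ℝ) := Real.sqrt_nonneg _
  have h5 : (1 + 2 * y) ^ m ≤ 3 * (√d * (m.choose d * (2 * y) ^ d)) := by linarith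
  refine ⟨hy0, hy1, hy2, ?_⟩
  calc (1 / y) ^ d * (1 + 2 * y) ^ ((n : ℝ) / 3)
      ≤ (1 / y) ^ d * ((1 + 2 * y) ^ m * (279 / 100)) := by gcongr
    _ ≤ (1 / y) ^ d * (3 * (√d * (m.choose d * (2 * y) ^ d)) * (279 / 100)) := by gcongr
    _ = 837 / 100 * √d * (((1 / y) ^ d * (2 * y) ^ d) * m.choose d) := by ring
    _ = 837 / 100 * √d * (2 ^ d * m.choose d) := by rw [h4]
    _ ≤ 9 * √d * (2 ^ d * m.choose d) := by
      have : (0 : ℝ) ≤ √d * (2 ^ d * m.choose d) := by positivity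
      linarith

/-- Comparison of the upper bound with the deck of the alternating tree,
`3 (β + 2) d + 10 ≤ 2 n`. -/
theorem alt_compareC {n d : ℕ} {U β : ℝ} (hβ : 59 / 25 ≤ β) (hd : 1 ≤ d)
    (hdn : 3 * (β + 2) * d + 10 ≤ 2 * n)
    (hU : ∀ y : ℝ, 0 < y → y * β ≤ 1 → U ≤ (1 / y) ^ d * (1 + 2 * y) ^ ((n : ℝ) / 3)) :
    U ≤ 9 * √d * (2 ^ d * (n / 3 - 1).choose d) := by
  obtain ⟨h1, h2, -, h3⟩ := compare_coreC hβ hd hdn rfl
  exact (hU _ h1 h2).trans h3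

end Pool.Agent.DeckB
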