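import Pool.Agent.DeckB.Nice

/-!
# Inequalities for the cube root of `z ^ 3 + 2 z ^ 2`, for `z ≥ 7 / 3` (helper30)
-/

set_option autoImplicit false

namespace Pool.Agent.DeckB

/-- the assumptions -/
structure Fair (z ω κ : ℝ) : Prop where
  hz : 7 / 3 ≤ z
  h0 : 0 ≤ ω
  hω : ω ^ 3 = z ^ 3 + 2 * z ^ 2
  hκ : κ * (z ^ 2 + z - 1) = 1

namespace Fair

variable {z ω κ : ℝ}

theorem z_pos (G : Fair z ω κ) : 0 < z := by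
  have := G.hz
  linarith

theorem q_pos (G : Fair z ω κ) : 0 < z ^ 2 + z - 1 := by
  have := G.hz
  nlinarith

theorem k_pos (G : Fair z ω κ) : 0 < κ := by
  have h1 := G.q_pos
  by_contra h
  have h2 : κ * (z ^ 2 + z - 1) ≤ 0 := mul_nonpos_of_nonpos_of_nonneg (not_lt.1 h) h1.le
  have h3 := G.hκ
  linarith

theorem w (G : Fair z ω κ) : z + 1 / 2 ≤ ω := by
  have hz := G.hz
  refine le_of_pow_le_pow_left₀ (n := 3) (by norm_num) G.h0 ?_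
  rw [G.hω]
  obtain ⟨t, ht, rfl⟩ : ∃ t, 0 ≤ t ∧ z = 7 / 3 + t := ⟨z - 7 / 3, by linarith, by ring⟩
  have h : 0 ≤ (7 / 3 + t) ^ 3 + 2 * (7 / 3 + t) ^ 2 - (7 / 3 + t + 1 / 2) ^ 3 := by
    ring_nf
    positivity
  linarith

theorem w' (G : Fair z ω κ) : (27 * z + 30) * ω ≤ 27 * z ^ 2 + 48 * z + 8 := by
  have hz := G.hz
  have hz0 := G.z_pos
  refine le_of_pow_le_pow_left₀ (n := 3) (by norm_num) (by positivity) ?_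
  rw [mul_pow, G.hω]
  obtain ⟨t, ht, rfl⟩ : ∃ t, 0 ≤ t ∧ z = 7 / 3 + t := ⟨z - 7 / 3, by linarith, by ring⟩
  have h : 0 ≤ (27 * (7 / 3 + t) ^ 2 + 48 * (7 / 3 + t) + 8) ^ 3 -
      (27 * (7 / 3 + t) + 30) ^ 3 * ((7 / 3 + t) ^ 3 + 2 * (7 / 3 + t) ^ 2) := by
    ring_nf
    positivity
  linarith

theorem sq (G : Fair z ω κ) : z ^ 2 + z ≤ ω ^ 2 := by
  have hz0 := G.z_pos
  have h0 := G.h0
  refine le_of_pow_le_pow_left₀ (n := 3) (by norm_num) (by positivity) ?_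
  rw [show (ω ^ 2) ^ 3 = (ω ^ 3) ^ 2 by ring, G.hω]
  have h1 : 0 ≤ z ^ 3 * (z ^ 2 + z - 1) := mul_nonneg (by positivity) G.q_pos.le
  nlinarith

theorem one_le (G : Fair z ω κ) : 1 ≤ (z + 2) * (ω - z) := by
  have h1 := G.w
  have h2 := G.hz
  nlinarith

theorem z_le (G : Fair z ω κ) : z ≤ ω := by
  have h1 := G.w
  linarith

theorem pow_ge (G : Fair z ω κ) {k m : ℕ} (h : k ≤ m) : z ^ k ≤ ω ^ m := by
  have h1 := G.z_le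
  have h2 := G.hz
  calc z ^ k ≤ ω ^ k := pow_le_pow_left₀ G.z_pos.le h1 k
    _ ≤ ω ^ m := pow_le_pow_right₀ (by linarith) h

theorem Fk_le (G : Fair z ω κ) (k : ℕ) : Fk z k ≤ ω ^ (k + 2) := by
  have h1 := G.w
  have hz := G.hz
  have hz0 := G.z_pos
  have h0 := G.h0
  induction k with
  | zero => exact G.sq
  | succ k ih =>
    show z * Fk z k + z ^ 2 ≤ _
    rcases Nat.eq_zero_or_pos k with rfl | hk
    · show z * (z ^ 2 + z) + z ^ 2 ≤ ω ^ 3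
      rw [G.hω]
      nlinarith
    · have h2 : z * Fk z k ≤ z * ω ^ (k + 2) := mul_le_mul_of_nonneg_left ih hz0.le
      have h3 : z ^ 3 ≤ ω ^ (k + 2) := G.pow_ge (by omega)
      have h4 : z ^ 2 ≤ ω ^ (k + 2) * (ω - z) := by
        have h5 : ω ^ (k + 2) * (1 / 2) ≤ ω ^ (k + 2) * (ω - z) :=
          mul_le_mul_of_nonneg_left (by linarith) (by positivity)
        nlinarith [sq_nonneg z]
      calc z * Fk z k + z ^ 2 ≤ z * ω ^ (k + 2) + ω ^ (k + 2) * (ω - z) := by linarith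
        _ = ω ^ (k + 1 + 2) := by ring

theorem Fk_eq (z : ℝ) (k : ℕ) : Fk z k = (z ^ 2 + z - 1) * sk z k + 1 := by
  induction k with
  | zero => show z ^ 2 + z = (z ^ 2 + z - 1) * 1 + 1; ring
  | succ k ih =>
    show z * Fk z k + z ^ 2 = (z ^ 2 + z - 1) * (z * sk z k + 1) + 1
    rw [ih]; ring

theorem sk_le (G : Fair z ω κ) (k : ℕ) : sk z k + κ ≤ κ * ω ^ (k + 2) := by
  have h1 : κ * Fk z k ≤ κ * ω ^ (k + 2) := mul_le_mul_of_nonneg_left (G.Fk_le k) G.k_pos.le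
  have h2 : κ * Fk z k = sk z k + κ := by
    rw [Fk_eq]
    linear_combination (sk z k) * G.hκ
  linarith

theorem s1 (G : Fair z ω κ) :
    κ * (z * (z ^ 2 - 1)) * (z - 1) + z ≤ κ * z ^ 2 * ω ^ 3 * (ω - z) := by
  have hz0 := G.z_pos
  refine le_of_mul_le_mul_left ?_ G.q_pos
  have e1 : (z ^ 2 + z - 1) * (κ * (z * (z ^ 2 - 1)) * (z - 1) + z) = z ^ 4 := by
    linear_combination (z * (z ^ 2 - 1) * (z - 1)) * G.hκ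
  have e2 : (z ^ 2 + z - 1) * (κ * z ^ 2 * ω ^ 3 * (ω - z)) = z ^ 4 * ((z + 2) * (ω - z)) := by
    rw [G.hω]
    linear_combination (z ^ 2 * (z ^ 3 + 2 * z ^ 2) * (ω - z)) * G.hκ
  rw [e1, e2]
  exact le_mul_of_one_le_right (by positivity) G.one_le

theorem s2 (G : Fair z ω κ) :
    z + z ^ 2 + z ^ 3 + 2 * z ^ 4 + z ^ 5 ≤ κ * z ^ 2 * ω ^ 5 + κ * (z * (z ^ 2 - 1)) := by
  have hz0 := G.z_pos
  refine le_of_mul_le_mul_left ?_ G.q_pos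
  have e2 : (z ^ 2 + z - 1) * (κ * z ^ 2 * ω ^ 5 + κ * (z * (z ^ 2 - 1))) =
      z ^ 4 * (z + 2) * ω ^ 2 + z ^ 3 - z := by
    have e3 : ω ^ 5 = (z ^ 3 + 2 * z ^ 2) * ω ^ 2 := by rw [← G.hω]; ring
    rw [e3]
    linear_combination (z ^ 2 * (z ^ 3 + 2 * z ^ 2) * ω ^ 2 + z * (z ^ 2 - 1)) * G.hκ
  rw [e2]
  have h1 : z ^ 4 * (z + 2) * (z ^ 2 + z) ≤ z ^ 4 * (z + 2) * ω ^ 2 :=
    mul_le_mul_of_nonneg_left G.sq (by positivity)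
  nlinarith

theorem s3 (G : Fair z ω κ) :
    κ * (z * (z ^ 2 - 1)) * (z - 1) + z + z ^ 4 ≤ κ * z ^ 2 * ω ^ 5 * (ω - z) := by
  have hz0 := G.z_pos
  refine le_of_mul_le_mul_left ?_ G.q_pos
  have e1 : (z ^ 2 + z - 1) * (κ * (z * (z ^ 2 - 1)) * (z - 1) + z + z ^ 4) =
      z ^ 4 * (z ^ 2 + z) := by
    linear_combination (z * (z ^ 2 - 1) * (z - 1)) * G.hκ
  have e2 : (z ^ 2 + z - 1) * (κ * z ^ 2 * ω ^ 5 * (ω - z)) =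
      z ^ 4 * (ω ^ 2 * ((z + 2) * (ω - z))) := by
    have e3 : ω ^ 5 = (z ^ 3 + 2 * z ^ 2) * ω ^ 2 := by rw [← G.hω]; ring
    rw [e3]
    linear_combination (z ^ 2 * (z ^ 3 + 2 * z ^ 2) * ω ^ 2 * (ω - z)) * G.hκ
  rw [e1, e2]
  refine mul_le_mul_of_nonneg_left ?_ (by positivity)
  exact G.sq.trans (le_mul_of_one_le_right (by positivity) G.one_le)

theorem s5 (G : Fair z ω κ) : z + z ^ 2 + z ^ 3 + κ * z ^ 3 ≤ ω ^ 3 := by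
  have hz := G.hz
  refine le_of_mul_le_mul_left ?_ G.q_pos
  have e1 : (z ^ 2 + z - 1) * (z + z ^ 2 + z ^ 3 + κ * z ^ 3) =
      (z ^ 2 + z - 1) * (z + z ^ 2 + z ^ 3) + z ^ 3 := by
    linear_combination (z ^ 3) * G.hκ
  rw [e1, G.hω]
  obtain ⟨t, ht, rfl⟩ : ∃ t, 0 ≤ t ∧ z = 7 / 3 + t := ⟨z - 7 / 3, by linarith, by ring⟩
  have h : 0 ≤ ((7 / 3 + t) ^ 2 + (7 / 3 + t) - 1) *
      ((7 / 3 + t) ^ 3 + 2 * (7 / 3 + t) ^ 2) - (((7 / 3 + t) ^ 2 + (7 / 3 + t) - 1) *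
        ((7 / 3 + t) + (7 / 3 + t) ^ 2 + (7 / 3 + t) ^ 3) + (7 / 3 + t) ^ 3) := by
    ring_nf
    positivity
  linarith

theorem s5c (G : Fair z ω κ) :
    (z + z ^ 2 + z ^ 3 + κ * z ^ 3) * (κ * (z * (z ^ 2 - 1))) +
      (z - z ^ 3 - z ^ 4 - z ^ 5 - κ * (z ^ 4 + z ^ 5)) ≤ κ * (z * (z ^ 2 - 1)) := by
  have hz := G.hz
  refine le_of_mul_le_mul_left ?_ G.q_pos
  refine le_of_mul_le_mul_left ?_ G.q_pos
  have e1 : (z ^ 2 + z - 1) * ((z ^ 2 + z - 1) *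
      ((z + z ^ 2 + z ^ 3 + κ * z ^ 3) * (κ * (z * (z ^ 2 - 1))) +
      (z - z ^ 3 - z ^ 4 - z ^ 5 - κ * (z ^ 4 + z ^ 5)))) =
      ((z ^ 2 + z - 1) * (z + z ^ 2 + z ^ 3) + z ^ 3) * (z * (z ^ 2 - 1)) +
        (z ^ 2 + z - 1) ^ 2 * (z - z ^ 3 - z ^ 4 - z ^ 5) -
          (z ^ 2 + z - 1) * (z ^ 4 + z ^ 5) := by
    linear_combination ((z ^ 2 + z - 1) * (z + z ^ 2 + z ^ 3) * (z * (z ^ 2 - 1)) +
      z ^ 3 * (z * (z ^ 2 - 1)) * (κ * (z ^ 2 + z - 1) + 1) -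
        (z ^ 2 + z - 1) * (z ^ 4 + z ^ 5)) * G.hκ
  have e2 : (z ^ 2 + z - 1) * ((z ^ 2 + z - 1) * (κ * (z * (z ^ 2 - 1)))) =
      (z ^ 2 + z - 1) * (z * (z ^ 2 - 1)) := by
    linear_combination ((z ^ 2 + z - 1) * (z * (z ^ 2 - 1))) * G.hκ
  rw [e1, e2]
  obtain ⟨t, ht, rfl⟩ : ∃ t, 0 ≤ t ∧ z = 7 / 3 + t := ⟨z - 7 / 3, by linarith, by ring⟩
  rw [← sub_nonneg]
  ring_nf
  positivity

theorem s6d (G : Fair z ω κ) :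
    (z ^ 4 + 2 * z ^ 3 + 2 * z ^ 2 + κ * z ^ 3) * (κ * (z * (z ^ 2 - 1))) +
      (z + 1) * (z - z ^ 3 - z ^ 4 - z ^ 5) ≤ κ * (z * (z ^ 2 - 1)) := by
  have hz := G.hz
  refine le_of_mul_le_mul_left ?_ G.q_pos
  refine le_of_mul_le_mul_left ?_ G.q_pos
  have e1 : (z ^ 2 + z - 1) * ((z ^ 2 + z - 1) *
      ((z ^ 4 + 2 * z ^ 3 + 2 * z ^ 2 + κ * z ^ 3) * (κ * (z * (z ^ 2 - 1))) +
      (z + 1) * (z - z ^ 3 - z ^ 4 - z ^ 5))) =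
      ((z ^ 2 + z - 1) * (z ^ 4 + 2 * z ^ 3 + 2 * z ^ 2) + z ^ 3) * (z * (z ^ 2 - 1)) +
        (z ^ 2 + z - 1) ^ 2 * ((z + 1) * (z - z ^ 3 - z ^ 4 - z ^ 5)) := by
    linear_combination ((z ^ 2 + z - 1) * (z ^ 4 + 2 * z ^ 3 + 2 * z ^ 2) * (z * (z ^ 2 - 1)) +
      z ^ 3 * (z * (z ^ 2 - 1)) * (κ * (z ^ 2 + z - 1) + 1)) * G.hκ
  have e2 : (z ^ 2 + z - 1) * ((z ^ 2 + z - 1) * (κ * (z * (z ^ 2 - 1)))) =
      (z ^ 2 + z - 1) * (z * (z ^ 2 - 1)) := by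
    linear_combination ((z ^ 2 + z - 1) * (z * (z ^ 2 - 1))) * G.hκ
  rw [e1, e2]
  obtain ⟨t, ht, rfl⟩ : ∃ t, 0 ≤ t ∧ z = 7 / 3 + t := ⟨z - 7 / 3, by linarith, by ring⟩
  rw [← sub_nonneg]
  ring_nf
  positivity

theorem s9 (G : Fair z ω κ) :
    ω ^ 3 * ((z ^ 2 + z ^ 3) * (κ * z ^ 2)) + ((z ^ 2 + z ^ 3) * (κ * (z * (z ^ 2 - 1))) + z +
      κ * (z * (z ^ 2 - 1)) * (z - 1)) ≤ κ * z ^ 2 * ω ^ 7 * (ω - z) := by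
  have hz := G.hz
  have hz0 := G.z_pos
  have h1 := G.w
  refine le_of_mul_le_mul_left ?_ G.q_pos
  have e1 : (z ^ 2 + z - 1) * (ω ^ 3 * ((z ^ 2 + z ^ 3) * (κ * z ^ 2)) +
      ((z ^ 2 + z ^ 3) * (κ * (z * (z ^ 2 - 1))) + z + κ * (z * (z ^ 2 - 1)) * (z - 1))) =
      (z ^ 3 + 2 * z ^ 2) * ((z ^ 2 + z ^ 3) * z ^ 2) + (z ^ 2 + z ^ 3) * (z * (z ^ 2 - 1)) +
        z ^ 4 := by
    rw [G.hω]
    linear_combination ((z ^ 3 + 2 * z ^ 2) * ((z ^ 2 + z ^ 3) * z ^ 2) +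
      (z ^ 2 + z ^ 3) * (z * (z ^ 2 - 1)) + z * (z ^ 2 - 1) * (z - 1)) * G.hκ
  have e2 : (z ^ 2 + z - 1) * (κ * z ^ 2 * ω ^ 7 * (ω - z)) =
      z ^ 2 * (z ^ 3 + 2 * z ^ 2) ^ 2 * (ω * (ω - z)) := by
    have e3 : ω ^ 7 = (z ^ 3 + 2 * z ^ 2) ^ 2 * ω := by rw [← G.hω]; ring
    rw [e3]
    linear_combination (z ^ 2 * (z ^ 3 + 2 * z ^ 2) ^ 2 * ω * (ω - z)) * G.hκ
  rw [e1, e2]
  have h2 : (z + 1 / 2) * (1 / 2) ≤ ω * (ω - z) :=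
    mul_le_mul h1 (by linarith) (by norm_num) G.h0
  have h3 : z ^ 2 * (z ^ 3 + 2 * z ^ 2) ^ 2 * ((z + 1 / 2) * (1 / 2)) ≤
      z ^ 2 * (z ^ 3 + 2 * z ^ 2) ^ 2 * (ω * (ω - z)) :=
    mul_le_mul_of_nonneg_left h2 (by positivity)
  refine le_trans ?_ h3
  obtain ⟨t, ht, rfl⟩ : ∃ t, 0 ≤ t ∧ z = 7 / 3 + t := ⟨z - 7 / 3, by linarith, by ring⟩
  rw [← sub_nonneg]
  ring_nf
  positivity

theorem s10 (G : Fair z ω κ) :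
    ω ^ 3 * ((z ^ 2 + 1) * (κ * z ^ 2)) + κ * (z * (z ^ 2 - 1)) ≤
      κ * z ^ 2 * ω ^ 6 * (ω - z) := by
  have hz := G.hz
  have hz0 := G.z_pos
  have h1 := G.w
  refine le_of_mul_le_mul_left ?_ G.q_pos
  have e1 : (z ^ 2 + z - 1) * (ω ^ 3 * ((z ^ 2 + 1) * (κ * z ^ 2)) + κ * (z * (z ^ 2 - 1))) =
      (z ^ 3 + 2 * z ^ 2) * ((z ^ 2 + 1) * z ^ 2) + z * (z ^ 2 - 1) := by
    rw [G.hω]
    linear_combination ((z ^ 3 + 2 * z ^ 2) * ((z ^ 2 + 1) * z ^ 2) + z * (z ^ 2 - 1)) * G.hκ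
  have e2 : (z ^ 2 + z - 1) * (κ * z ^ 2 * ω ^ 6 * (ω - z)) =
      z ^ 2 * (z ^ 3 + 2 * z ^ 2) ^ 2 * (ω - z) := by
    have e3 : ω ^ 6 = (z ^ 3 + 2 * z ^ 2) ^ 2 := by rw [← G.hω]; ring
    rw [e3]
    linear_combination (z ^ 2 * (z ^ 3 + 2 * z ^ 2) ^ 2 * (ω - z)) * G.hκ
  rw [e1, e2]
  have h3 : z ^ 2 * (z ^ 3 + 2 * z ^ 2) ^ 2 * (1 / 2) ≤
      z ^ 2 * (z ^ 3 + 2 * z ^ 2) ^ 2 * (ω - z) :=
    mul_le_mul_of_nonneg_left (by linarith) (by positivity)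
  refine le_trans ?_ h3
  obtain ⟨t, ht, rfl⟩ : ∃ t, 0 ≤ t ∧ z = 7 / 3 + t := ⟨z - 7 / 3, by linarith, by ring⟩
  rw [← sub_nonneg]
  ring_nf
  positivity

end Fair

end Pool.Agent.DeckB
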