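import Pool.Agent.DeckB.Omega

/-!
# Parameters for the weights
-/

set_option autoImplicit false

namespace Pool.Agent.DeckB

/-- The inequalities which are used in the induction; `ρ` is the price of a join. -/
structure Good (z ω κ ρ : ℝ) : Prop where
  hz : 10 / 3 ≤ z
  h0 : 0 ≤ ω
  hω : ω ^ 3 = z ^ 3 + 2 * z ^ 2
  hκ : κ * (z ^ 2 + z - 1) = 1
  r0 : 0 < ρ
  r0' : ρ ≤ 1
  r1 : z + 1 / 2 ≤ ρ * ω
  r2 : z ^ 2 + z ≤ ρ * ω ^ 2
  r3 : 1 + (z + z ^ 2 + z ^ 3) + κ * (1 + z ^ 3) ≤ ρ * ω ^ 3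
  r4 : (z + 1) * (1 + (z + z ^ 2 + z ^ 3)) + κ * (1 + z ^ 3) ≤ ρ ^ 2 * ω ^ 4
  r5 : ρ ^ 4 * ((z + z ^ 2 + z ^ 3) * ω) + 2 ≤ ρ ^ 6 * ((z ^ 2 + z - 1) * ω ^ 2)
  r6 : z ≤ ρ * (ρ * ω)

theorem good_one {z ω κ : ℝ} (hz : 10 / 3 ≤ z) (h0 : 0 ≤ ω) (hω : ω ^ 3 = z ^ 3 + 2 * z ^ 2)
    (hκ : κ * (z ^ 2 + z - 1) = 1) : Good z ω κ 1 where
  hz := hz
  h0 := h0
  hω := hω
  hκ := hκ
  r0 := one_pos
  r0' := le_rfl
  r1 := by rw [one_mul]; exact omega_ge hz h0 hω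
  r2 := by rw [one_mul]; exact omega_sq hz hω
  r3 := by
    have := three_le hz h0 hω hκ 0
    have h1 : sk z 0 = 1 := rfl
    rw [h1, one_mul] at this
    rw [one_mul]
    exact this
  r4 := by
    rw [one_pow, one_mul]
    exact tight hz h0 hω hκ
  r5 := by
    rw [one_pow, one_pow, one_mul, one_mul]
    exact four_le hz h0 hω
  r6 := by
    have := omega_ge hz h0 hω
    linarith

theorem omega_ge8 {z ω : ℝ} (hz : 4 ≤ z) (h0 : 0 ≤ ω) (hω : ω ^ 3 = z ^ 3 + 2 * z ^ 2) :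
    z + 14 / 25 ≤ ω := by
  refine le_of_pow_le_pow_left₀ (n := 3) (by norm_num) h0 ?_
  rw [hω]
  nlinarith

theorem good_rho {z ω κ : ℝ} (hz : 4 ≤ z) (h0 : 0 ≤ ω) (hω : ω ^ 3 = z ^ 3 + 2 * z ^ 2)
    (hκ : κ * (z ^ 2 + z - 1) = 1) : Good z ω κ (1 - 1 / z / 24) := by
  have hz' : 10 / 3 ≤ z := by linarith
  have hz0 : 0 < z := by linarith
  set e : ℝ := 1 / z / 24 with he
  have hez : e * z = 1 / 24 := by
    rw [he]
    field_simp
  have he0 : 0 < e := by positivity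
  have he1 : e ≤ 1 / 96 := by
    rw [he, div_div, div_le_div_iff₀ (by positivity) (by norm_num)]
    linarith
  have h8 := omega_ge8 hz h0 hω
  have hL := omega_ge' hz' h0 hω
  have hk := kappa_le hz' hκ
  have hr2 : 1 - 2 * e ≤ (1 - e) ^ 2 := by nlinarith
  have hρ : 0 < 1 - e := by linarith
  have h6 : z ≤ (1 - e) * ((1 - e) * ω) := by
    have h1 : (1 - 2 * e) * (z + 14 / 25) ≤ (1 - e) ^ 2 * ω :=
      mul_le_mul hr2 h8 (by linarith) (by positivity)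
    nlinarith
  refine ⟨hz', h0, hω, hκ, hρ, by linarith, ?_, ?_, ?_, ?_, ?_, h6⟩
  · -- r1
    have h1 : (1 - e) * (z + 14 / 25) ≤ (1 - e) * ω := mul_le_mul_of_nonneg_left h8 hρ.le
    nlinarith
  · -- r2
    have h1 : (z + 14 / 25) ^ 2 ≤ ω ^ 2 := pow_le_pow_left₀ (by linarith) h8 2
    have h2 : (1 - e) * (z + 14 / 25) ^ 2 ≤ (1 - e) * ω ^ 2 :=
      mul_le_mul_of_nonneg_left h1 hρ.le
    have h3 : e * z ^ 2 = z / 24 := by
      rw [pow_two, ← mul_assoc, hez]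
      ring
    nlinarith
  · -- r3
    rw [hω]
    have h3 : e * (z ^ 3 + 2 * z ^ 2) = z ^ 2 / 24 + z / 12 := by
      linear_combination (z ^ 2 + 2 * z) * hez
    nlinarith
  · -- r4
    have h3 : ω ^ 4 = (z + 2) * (z ^ 2 * ω) := by
      calc ω ^ 4 = ω ^ 3 * ω := by ring
        _ = (z + 2) * (z ^ 2 * ω) := by rw [hω]; ring
    have h4 : (z + 2) * (63 * z ^ 3 + 42 * z ^ 2 - 28 * z + 18) ≤ (z + 2) * (63 * z ^ 2 * ω) :=
      mul_le_mul_of_nonneg_left hL (by linarith)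
    have h5 : (1 - 2 * e) * ((z + 2) * (63 * z ^ 3 + 42 * z ^ 2 - 28 * z + 18)) ≤
        (1 - e) ^ 2 * ((z + 2) * (63 * z ^ 2 * ω)) := by
      have h6 : 0 ≤ (z + 2) * (63 * z ^ 3 + 42 * z ^ 2 - 28 * z + 18) := by
        have : 0 ≤ 63 * z ^ 3 + 42 * z ^ 2 - 28 * z + 18 := by nlinarith [pow_pos hz0 3]
        exact mul_nonneg (by linarith) this
      calc (1 - 2 * e) * ((z + 2) * (63 * z ^ 3 + 42 * z ^ 2 - 28 * z + 18))
          ≤ (1 - e) ^ 2 * ((z + 2) * (63 * z ^ 3 + 42 * z ^ 2 - 28 * z + 18)) :=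
            mul_le_mul_of_nonneg_right hr2 h6
        _ ≤ _ := mul_le_mul_of_nonneg_left h4 (by positivity)
    have h7 : e * ((z + 2) * (63 * z ^ 3 + 42 * z ^ 2 - 28 * z + 18)) =
        (63 * z ^ 3 + 168 * z ^ 2 + 56 * z - 38) / 24 + 36 * e := by
      linear_combination (63 * z ^ 3 + 168 * z ^ 2 + 56 * z - 38) * hez
    have h8 : 0 ≤ 42 * z ^ 3 - 70 * z ^ 2 - 227 * z - (63 * z ^ 3 + 168 * z ^ 2 + 56 * z) / 12 +
        7 := by
      have h9 : 0 ≤ z ^ 2 * (z - 4) := mul_nonneg (by positivity) (by linarith)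
      have h10 : 0 ≤ z * (z - 4) := mul_nonneg (by positivity) (by linarith)
      nlinarith
    rw [h3]
    nlinarith
  · -- r5
    have h1 : (1 - 2 * e) * ((z ^ 2 + z - 1) * (63 * z ^ 3 + 42 * z ^ 2 - 28 * z + 18)) ≤
        (1 - 2 * e) * ((z ^ 2 + z - 1) * (63 * z ^ 2 * ω)) := by
      refine mul_le_mul_of_nonneg_left (mul_le_mul_of_nonneg_left hL ?_) (by linarith)
      nlinarith
    have h2 : e * ((z ^ 2 + z - 1) * (63 * z ^ 3 + 42 * z ^ 2 - 28 * z + 18)) =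
        (63 * z ^ 4 + 105 * z ^ 3 - 49 * z ^ 2 - 52 * z + 46) / 24 - 18 * e := by
      linear_combination (63 * z ^ 4 + 105 * z ^ 3 - 49 * z ^ 2 - 52 * z + 46) * hez
    have h3 : 0 ≤ 42 * z ^ 4 - 112 * z ^ 3 - 52 * z ^ 2 + 46 * z - 18 -
        (63 * z ^ 4 + 105 * z ^ 3 - 49 * z ^ 2 - 52 * z + 46) / 12 - 63 * z ^ 2 * (1 / 2) := by
      have h9 : 0 ≤ z ^ 3 * (z - 4) := mul_nonneg (by positivity) (by linarith)
      have h10 : 0 ≤ z ^ 2 * (z - 4) := mul_nonneg (by positivity) (by linarith)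
      have h11 : 0 ≤ z * (z - 4) := mul_nonneg (by positivity) (by linarith)
      nlinarith
    have h4 : 63 * z ^ 2 * (z + z ^ 2 + z ^ 3 + 1 / 2) ≤
        63 * z ^ 2 * ((1 - 2 * e) * ((z ^ 2 + z - 1) * ω)) := by
      nlinarith
    have h5 := le_of_mul_le_mul_left h4 (by positivity)
    have h6 : (z + z ^ 2 + z ^ 3) * ω + 21 / 10 ≤ (1 - 2 * e) * ((z ^ 2 + z - 1) * ω ^ 2) := by
      have h7 : (z + z ^ 2 + z ^ 3 + 1 / 2) * ω ≤ (1 - 2 * e) * ((z ^ 2 + z - 1) * ω) * ω :=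
        mul_le_mul_of_nonneg_right h5 h0
      nlinarith
    have h7 : (1 - 2 * e) * ((z ^ 2 + z - 1) * ω ^ 2) ≤
        (1 - e) ^ 2 * ((z ^ 2 + z - 1) * ω ^ 2) := by
      refine mul_le_mul_of_nonneg_right hr2 (mul_nonneg ?_ (by positivity))
      nlinarith
    have h8 : (20 : ℝ) / 21 ≤ (1 - e) ^ 4 := by
      have h9 : 1 - 4 * e ≤ (1 - e) ^ 4 := by
        have h10 : (1 - 2 * e) ^ 2 ≤ ((1 - e) ^ 2) ^ 2 := pow_le_pow_left₀ (by linarith) hr2 2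
        nlinarith
      linarith
    calc (1 - e) ^ 4 * ((z + z ^ 2 + z ^ 3) * ω) + 2
        ≤ (1 - e) ^ 4 * ((z + z ^ 2 + z ^ 3) * ω) + (1 - e) ^ 4 * (21 / 10) := by linarith
      _ = (1 - e) ^ 4 * ((z + z ^ 2 + z ^ 3) * ω + 21 / 10) := by ring
      _ ≤ (1 - e) ^ 4 * ((1 - e) ^ 2 * ((z ^ 2 + z - 1) * ω ^ 2)) :=
          mul_le_mul_of_nonneg_left (h6.trans h7) (by positivity)
      _ = _ := by ring

section

variable {z ω κ ρ : ℝ}

theorem Good.z_pos (G : Good z ω κ ρ) : 0 < z := by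
  have := G.hz
  linarith

theorem Good.theta_pos (G : Good z ω κ ρ) : 1 ≤ ρ * ω := by
  have := G.hz
  have := G.r1
  linarith

theorem Good.theta_pow (G : Good z ω κ ρ) (k : ℕ) : 1 ≤ (ρ * ω) ^ k :=
  one_le_pow₀ G.theta_pos

theorem Good.k_pos (G : Good z ω κ ρ) : 0 < κ := kappa_pos G.hz G.hκ

theorem Good.Fk_le (G : Good z ω κ ρ) (k : ℕ) : Fk z (k + 1) ≤ ω ^ 3 * (ρ * ω) ^ k := by
  have hz0 := G.z_pos
  have hz := G.hz
  have h1 := G.r1
  induction k with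
  | zero =>
    show z * (z ^ 2 + z) + z ^ 2 ≤ ω ^ 3 * 1
    rw [G.hω]
    nlinarith
  | succ k ih =>
    have h2 := G.theta_pow k
    have h3 : z * Fk z (k + 1) ≤ z * (ω ^ 3 * (ρ * ω) ^ k) := mul_le_mul_of_nonneg_left ih hz0.le
    have h4 : z ^ 2 ≤ ω ^ 3 * (ρ * ω) ^ k * (ρ * ω - z) := by
      have h5 : ω ^ 3 * 1 ≤ ω ^ 3 * (ρ * ω) ^ k :=
        mul_le_mul_of_nonneg_left h2 (pow_nonneg G.h0 3)
      have h6 : ω ^ 3 * 1 * (1 / 2) ≤ ω ^ 3 * (ρ * ω) ^ k * (ρ * ω - z) :=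
        mul_le_mul h5 (by linarith) (by norm_num)
          ((mul_nonneg (pow_nonneg G.h0 3) (by norm_num)).trans h5)
      refine le_trans ?_ h6
      rw [G.hω]
      nlinarith [pow_pos hz0 3]
    show z * Fk z (k + 1) + z ^ 2 ≤ _
    calc z * Fk z (k + 1) + z ^ 2
        ≤ z * (ω ^ 3 * (ρ * ω) ^ k) + ω ^ 3 * (ρ * ω) ^ k * (ρ * ω - z) := by linarith
      _ = ω ^ 3 * (ρ * ω) ^ (k + 1) := by ring

theorem Good.three_le (G : Good z ω κ ρ) (k : ℕ) :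
    sk z k * (1 + (z + z ^ 2 + z ^ 3)) + κ * (1 + z ^ 3) ≤ ρ * ω ^ 3 * (ρ * ω) ^ k := by
  have hz0 := G.z_pos
  have hz := G.hz
  have h1 := G.r1
  have hk := G.k_pos
  induction k with
  | zero =>
    have := G.r3
    show 1 * (1 + (z + z ^ 2 + z ^ 3)) + κ * (1 + z ^ 3) ≤ ρ * ω ^ 3 * 1
    linarith
  | succ k ih =>
    rcases Nat.eq_zero_or_pos k with rfl | hk'
    · have := G.r4
      show (z * 1 + 1) * (1 + (z + z ^ 2 + z ^ 3)) + κ * (1 + z ^ 3) ≤ _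
      rw [mul_one]
      refine this.trans (le_of_eq ?_)
      ring
    · obtain ⟨m, rfl⟩ : ∃ m, k = m + 1 := ⟨k - 1, by omega⟩
      have h2 := G.theta_pow m
      have h3 : z ^ 3 * z ≤ ω ^ 3 * (ρ * (ρ * ω) ^ (m + 1)) := by
        have h4 : z ^ 3 ≤ ω ^ 3 := by
          rw [G.hω]
          nlinarith
        have h5 : z ≤ ρ * (ρ * ω) ^ (m + 1) := by
          have h6 := G.r6
          calc z ≤ ρ * (ρ * ω) := h6
            _ = ρ * (ρ * ω) * 1 := by ring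
            _ ≤ ρ * (ρ * ω) * (ρ * ω) ^ m := mul_le_mul_of_nonneg_left h2 (hz0.le.trans h6)
            _ = ρ * (ρ * ω) ^ (m + 1) := by ring
        exact mul_le_mul h4 h5 hz0.le (pow_nonneg G.h0 3)
      have h6 : 1 + (z + z ^ 2 + z ^ 3) ≤ z ^ 3 * z * (1 / 2) := by
        have h7 : 0 ≤ z ^ 3 * (z - 10 / 3) := mul_nonneg (by positivity) (by linarith)
        have h8 : 0 ≤ z ^ 2 * (z - 10 / 3) := mul_nonneg (by positivity) (by linarith)
        nlinarith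
      have h7 : z ^ 3 * z * (1 / 2) ≤
          ω ^ 3 * (ρ * (ρ * ω) ^ (m + 1)) * (ρ * ω - z) :=
        mul_le_mul h3 (by linarith) (by norm_num) ((by positivity : 0 ≤ z ^ 3 * z).trans h3)
      have h9 : 0 ≤ (z - 1) * (κ * (1 + z ^ 3)) := by
        have : 0 ≤ z - 1 := by linarith
        positivity
      have h10 : z * (sk z (m + 1) * (1 + (z + z ^ 2 + z ^ 3)) + κ * (1 + z ^ 3)) ≤
          z * (ρ * ω ^ 3 * (ρ * ω) ^ (m + 1)) := mul_le_mul_of_nonneg_left ih hz0.le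
      show (z * sk z (m + 1) + 1) * (1 + (z + z ^ 2 + z ^ 3)) + κ * (1 + z ^ 3) ≤ _
      calc (z * sk z (m + 1) + 1) * (1 + (z + z ^ 2 + z ^ 3)) + κ * (1 + z ^ 3)
          = z * (sk z (m + 1) * (1 + (z + z ^ 2 + z ^ 3)) + κ * (1 + z ^ 3)) +
            (1 + (z + z ^ 2 + z ^ 3)) - (z - 1) * (κ * (1 + z ^ 3)) := by ring
        _ ≤ z * (ρ * ω ^ 3 * (ρ * ω) ^ (m + 1)) +
            ω ^ 3 * (ρ * (ρ * ω) ^ (m + 1)) * (ρ * ω - z) := by linarith
        _ = ρ * ω ^ 3 * (ρ * ω) ^ (m + 1 + 1) := by ring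

theorem Good.sk_le (G : Good z ω κ ρ) (k : ℕ) :
    (sk z k + κ) * ρ ≤ κ * ω ^ 2 * (ρ * ω) ^ k := by
  have hz0 := G.z_pos
  have hz := G.hz
  have h1 := G.r1
  have hk := G.k_pos
  have hρ := G.r0
  have hρ' := G.r0'
  have h7 : κ * (z ^ 3 + 2 * z ^ 2) = z + 1 + κ := by
    linear_combination (z + 1) * G.hκ
  have h1k : 1 + κ = κ * (z ^ 2 + z) := by
    linear_combination -G.hκ
  have h2 : z ^ 2 + z ≤ ω ^ 2 := by
    refine G.r2.trans ?_
    have : 0 ≤ ω ^ 2 := by positivity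
    nlinarith
  induction k with
  | zero =>
    show (1 + κ) * ρ ≤ κ * ω ^ 2 * 1
    have h3 : κ * (z ^ 2 + z) ≤ κ * ω ^ 2 := mul_le_mul_of_nonneg_left h2 hk.le
    have h4 : (1 + κ) * ρ ≤ 1 + κ := mul_le_of_le_one_right (by linarith) hρ'
    linarith
  | succ k ih =>
    rcases Nat.eq_zero_or_pos k with rfl | hk'
    · show (z * 1 + 1 + κ) * ρ ≤ κ * ω ^ 2 * (ρ * ω) ^ (0 + 1)
      have h8 : κ * ω ^ 2 * (ρ * ω) ^ (0 + 1) = κ * ω ^ 3 * ρ := by ring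
      rw [h8, G.hω, h7, mul_one]
    · obtain ⟨m, rfl⟩ : ∃ m, k = m + 1 := ⟨k - 1, by omega⟩
      have h3 := G.theta_pow m
      have h5 : z * ((sk z (m + 1) + κ) * ρ) ≤ z * (κ * ω ^ 2 * (ρ * ω) ^ (m + 1)) :=
        mul_le_mul_of_nonneg_left ih hz0.le
      have h6 : 0 ≤ (z - 1) * κ * ρ := mul_nonneg (mul_nonneg (by linarith) hk.le) hρ.le
      have h9 : 4 * (1 / 2) ≤ κ * ω ^ 2 * (ρ * ω) ^ (m + 1) * (ρ * ω - z) := by
        have h10 : 4 ≤ κ * ω ^ 2 * (ρ * ω) ^ (m + 1) := by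
          have h11 : 4 ≤ κ * (z ^ 2 + z) * (ρ * ω) := by
            rw [← h1k]
            have : ρ * ω ≤ (1 + κ) * (ρ * ω) :=
              le_mul_of_one_le_left (by linarith [G.theta_pos]) (by linarith)
            by_cases hz4 : 4 ≤ ρ * ω
            · linarith
            · have h12 : κ * (ρ * ω) ≥ κ * (z + 1 / 2) := mul_le_mul_of_nonneg_left h1 hk.le
              have h13 : 1 / 6 ≤ κ * (z + 1 / 2) := by
                have h14 : κ * (z ^ 2 + z - 1) ≤ κ * (6 * (z + 1 / 2)) := by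
                  refine mul_le_mul_of_nonneg_left ?_ hk.le
                  nlinarith
                linarith [G.hκ]
              nlinarith
          calc (4 : ℝ) ≤ κ * (z ^ 2 + z) * (ρ * ω) := h11
            _ ≤ κ * ω ^ 2 * (ρ * ω) :=
                mul_le_mul_of_nonneg_right (mul_le_mul_of_nonneg_left h2 hk.le)
                  (by linarith [G.theta_pos])
            _ = κ * ω ^ 2 * (ρ * ω) * 1 := by ring
            _ ≤ κ * ω ^ 2 * (ρ * ω) * (ρ * ω) ^ m := by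
                refine mul_le_mul_of_nonneg_left h3 ?_
                have := G.theta_pos
                positivity
            _ = κ * ω ^ 2 * (ρ * ω) ^ (m + 1) := by ring
        exact mul_le_mul h10 (by linarith) (by norm_num) (by linarith)
      show (z * sk z (m + 1) + 1 + κ) * ρ ≤ _
      calc (z * sk z (m + 1) + 1 + κ) * ρ
          = z * ((sk z (m + 1) + κ) * ρ) + ρ - (z - 1) * κ * ρ := by ring
        _ ≤ z * (κ * ω ^ 2 * (ρ * ω) ^ (m + 1)) +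
            κ * ω ^ 2 * (ρ * ω) ^ (m + 1) * (ρ * ω - z) := by linarith
        _ = κ * ω ^ 2 * (ρ * ω) ^ (m + 1 + 1) := by ring

end

end Pool.Agent.DeckB
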