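import Pool.Agent.DeckB.Weight
import Pool.Agent.DeckB.Good

/-!
# The total weight of all decks of a tree
-/

set_option autoImplicit false

namespace Pool.Agent.DeckB

theorem chain_iso {x y : BT} (h : Iso x y) (k : ℕ) : Iso (chain k x) (chain k y) := by
  induction k with
  | zero => exact h
  | succ k ih => exact Iso.node (Iso.refl _) ih

theorem size_eq_two {T : BT} (h : T.size = 2) : T = cherry := by
  cases T with
  | leaf => exact absurd h (by decide)
  | node l r =>
    have h1 : l.size + r.size = 2 := h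
    have := size_pos l
    have := size_pos r
    cases l with
    | leaf =>
      cases r with
      | leaf => rfl
      | node a b =>
        have h2 : (BT.node a b).size = a.size + b.size := rfl
        have := size_pos a
        have := size_pos b
        omega
    | node a b =>
      have h2 : (BT.node a b).size = a.size + b.size := rfl
      have := size_pos a
      have := size_pos b
      omega

theorem two_le_size {T : BT} (h : T ≠ .leaf) : 2 ≤ T.size := by
  cases T with
  | leaf => exact absurd rfl h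
  | node l r =>
    have h2 : (BT.node l r).size = l.size + r.size := rfl
    have := size_pos l
    have := size_pos r
    omega

section

variable {z ω κ ρ : ℝ}

theorem bigD_leaf : bigD .leaf = ∅ := by
  rw [Finset.eq_empty_iff_forall_notMem]
  intro q hq
  obtain ⟨h1, a, b, rfl, -, -⟩ := mem_bigD.1 hq
  exact absurd (mem_D_leaf.1 h1).symm (lam_ne_join _ _)

theorem bigD_cherry : bigD cherry = ∅ := by
  rw [Finset.eq_empty_iff_forall_notMem]
  intro q hq
  obtain ⟨h1, a, b, rfl, h2, h3⟩ := mem_bigD.1 hq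
  have h4 := ssize_le h1
  rw [ssize_join] at h4
  have h5 : cherry.size = 2 := rfl
  omega

theorem V_leaf : V z .leaf = z := by
  unfold V D
  rw [mass_singleton, ssize_lam, pow_one]

theorem V_cherry_le (hz : 0 ≤ z) : V z cherry ≤ z + z ^ 2 := by
  have h1 : D cherry ⊆ {lam} ∪ {chi} := by
    intro q h
    have h1 := ssize_le h
    have h2 : cherry.size = 2 := rfl
    have h3 := ssize_pos q
    rw [Finset.mem_union, Finset.mem_singleton, Finset.mem_singleton]
    rcases (show ssize q = 1 ∨ ssize q = 2 by omega) with h4 | h4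
    · exact Or.inl (eq_lam h4)
    · exact Or.inr (eq_chi h4)
  have h2 := mass_mono hz h1
  have h3 := mass_union_le hz {lam} {chi}
  rw [mass_singleton, mass_singleton, ssize_lam, ssize_chi] at h3
  unfold V
  linarith

theorem B_chain (hz : 0 ≤ z) (k : ℕ) (u : BT) : B z (chain k u) ≤ B z u :=
  mass_mono hz (bigD_chain k u)

theorem V_chain_succ (hz : 0 ≤ z) (k : ℕ) (u : BT) :
    V z (chain (k + 1) u) ≤ z * V z (chain k u) + mass z (N u) := by
  have h1 := V_leaf_node hz (chain k u)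
  have h2 := mass_mono hz (N_chain k u)
  show V z (.node .leaf (chain k u)) ≤ _
  linarith

theorem Fk_nonneg (hz : 0 ≤ z) (k : ℕ) : 0 ≤ Fk z k := by
  induction k with
  | zero =>
    show 0 ≤ z ^ 2 + z
    positivity
  | succ k ih =>
    show 0 ≤ z * Fk z k + z ^ 2
    positivity

/-- Leaves and a cherry above `v`. -/
theorem case_a (hz : 10 / 3 ≤ z) (hκ : κ * (z ^ 2 + z - 1) = 1) {v : BT} (hv : 2 ≤ v.size)
    (k : ℕ) : V z (chain k (.node cherry v)) + κ * B z v ≤ Fk z k * (V z v + κ * B z v) := by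
  have hz0 : 0 ≤ z := by linarith
  have hk := kappa_pos hz hκ
  have hV := V_nonneg hz0 v
  have hB := B_nonneg hz0 v
  have hN := N_cherry_node hz0 v
  have hz3 : z ≤ z ^ 3 := by nlinarith
  have h1 : (1 + κ) * B z v = (z ^ 2 + z) * (κ * B z v) := by
    linear_combination (- B z v) * hκ
  induction k with
  | zero =>
    show V z (.node cherry v) + κ * B z v ≤ (z ^ 2 + z) * (V z v + κ * B z v)
    have h2 := V_cherry_node hz0 hv
    linarith
  | succ k ih =>
    show _ ≤ (z * Fk z k + z ^ 2) * (V z v + κ * B z v)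
    have h2 := V_chain_succ hz0 k (.node cherry v)
    have h3 : z * (V z (chain k (.node cherry v)) + κ * B z v) ≤
        z * (Fk z k * (V z v + κ * B z v)) := mul_le_mul_of_nonneg_left ih hz0
    nlinarith

theorem N_leaf_le (hz : 0 ≤ z) : mass z (N .leaf) ≤ z := by
  have h1 := mass_mono hz (N_subset .leaf)
  have h2 : mass z (D .leaf) = z := V_leaf
  linarith

/-- Caterpillars. -/
theorem case_b (G : Good z ω κ ρ) (k : ℕ) :
    V z (chain (k + 2) .leaf) ≤ (z + z ^ 2 + z ^ 3) * (ρ * ω) ^ k := by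
  have hz := G.hz
  have hz0 : 0 ≤ z := by linarith
  have hN := N_leaf_le hz0
  have h1 := G.r1
  induction k with
  | zero =>
    have h2 := V_chain_succ hz0 1 .leaf
    have h3 := V_chain_succ hz0 0 .leaf
    have h4 : V z (chain 0 .leaf) = z := V_leaf
    rw [h4] at h3
    have h5 : V z (chain (0 + 1) .leaf) ≤ z * z + z := by linarith
    have h6 : z * V z (chain 1 .leaf) ≤ z * (z * z + z) := mul_le_mul_of_nonneg_left h5 hz0
    have h7 : V z (chain (0 + 2) .leaf) ≤ z * V z (chain 1 .leaf) + mass z (N .leaf) := h2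
    rw [pow_zero]
    nlinarith
  | succ k ih =>
    have h2 : V z (chain (k + 1 + 2) .leaf) ≤ z * V z (chain (k + 2) .leaf) + mass z (N .leaf) :=
      V_chain_succ hz0 (k + 2) .leaf
    have h3 : z * V z (chain (k + 2) .leaf) ≤ z * ((z + z ^ 2 + z ^ 3) * (ρ * ω) ^ k) :=
      mul_le_mul_of_nonneg_left ih hz0
    have h5 : z ≤ (z + z ^ 2 + z ^ 3) * (ρ * ω) ^ k * (ρ * ω - z) := by
      have h6 : (z + z ^ 2 + z ^ 3) * 1 ≤ (z + z ^ 2 + z ^ 3) * (ρ * ω) ^ k :=
        mul_le_mul_of_nonneg_left (G.theta_pow k) (by positivity)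
      have h7 : (z + z ^ 2 + z ^ 3) * 1 * (1 / 2) ≤
          (z + z ^ 2 + z ^ 3) * (ρ * ω) ^ k * (ρ * ω - z) :=
        mul_le_mul h6 (by linarith) (by norm_num) ((by positivity :
          0 ≤ (z + z ^ 2 + z ^ 3) * 1).trans h6)
      nlinarith [pow_nonneg hz0 3]
    calc V z (chain (k + 1 + 2) .leaf) ≤ z * ((z + z ^ 2 + z ^ 3) * (ρ * ω) ^ k) +
          (z + z ^ 2 + z ^ 3) * (ρ * ω) ^ k * (ρ * ω - z) := by linarith
      _ = (z + z ^ 2 + z ^ 3) * (ρ * ω) ^ (k + 1) := by ring

theorem cherry_facts (hz : 10 / 3 ≤ z) :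
    mass z (N (.node cherry cherry)) ≤ z + z ^ 4 ∧
      V z (.node cherry cherry) ≤ z + z ^ 2 + z ^ 3 + z ^ 4 := by
  have hz0 : 0 ≤ z := by linarith
  have hV := V_cherry_le hz0
  have hB : B z cherry = 0 := by
    unfold B
    rw [bigD_cherry]
    rfl
  have hN : mass z (N (.node cherry cherry)) ≤ z + z ^ 4 := by
    have h2 := N_cherry_node hz0 cherry
    rw [hB] at h2
    have h3 : z ^ 2 * V z cherry ≤ z ^ 2 * (z + z ^ 2) :=
      mul_le_mul_of_nonneg_left hV (by positivity)
    nlinarith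
  refine ⟨hN, ?_⟩
  have h2 := V_cherry_node hz0 (v := cherry) le_rfl
  have h3 : z * V z cherry ≤ z * (z + z ^ 2) := mul_le_mul_of_nonneg_left hV hz0
  nlinarith

/-- Two cherries at the end. -/
theorem case_c0 (G : Good z ω κ ρ) :
    V z (.node cherry cherry) ≤ (z + z ^ 2 + z ^ 3) * (ρ * ω) := by
  have hz := G.hz
  have hz0 : 0 ≤ z := by linarith
  have h1 := G.r1
  obtain ⟨-, hV0⟩ := cherry_facts hz
  have h3 : (z + z ^ 2 + z ^ 3) * (z + 1 / 2) ≤ (z + z ^ 2 + z ^ 3) * (ρ * ω) :=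
    mul_le_mul_of_nonneg_left h1 (by positivity)
  nlinarith [pow_nonneg hz0 3]

/-- Two cherries at the end, with leaves above them. -/
theorem case_c (G : Good z ω κ ρ) (k : ℕ) :
    V z (chain (k + 1) (.node cherry cherry)) ≤
      (z + z ^ 2 + z ^ 3) * (ω ^ 2 * (ρ * ω) ^ k) := by
  have hz := G.hz
  have hz0 : 0 ≤ z := by linarith
  have h1 := G.r1
  have hsq := omega_sq hz G.hω
  obtain ⟨hN, hV0⟩ := cherry_facts hz
  have hz3 : z ≤ z ^ 3 := by nlinarith
  induction k with
  | zero =>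
    have h2 := V_chain_succ hz0 0 (.node cherry cherry)
    have h3 : z * V z (chain 0 (.node cherry cherry)) ≤ z * (z + z ^ 2 + z ^ 3 + z ^ 4) :=
      mul_le_mul_of_nonneg_left hV0 hz0
    have h4 : (z + z ^ 2 + z ^ 3) * (z ^ 2 + z) ≤ (z + z ^ 2 + z ^ 3) * ω ^ 2 :=
      mul_le_mul_of_nonneg_left hsq (by positivity)
    rw [pow_zero, mul_one]
    nlinarith
  | succ k ih =>
    have h2 := V_chain_succ hz0 (k + 1) (.node cherry cherry)
    have h3 : z * V z (chain (k + 1) (.node cherry cherry)) ≤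
        z * ((z + z ^ 2 + z ^ 3) * (ω ^ 2 * (ρ * ω) ^ k)) := mul_le_mul_of_nonneg_left ih hz0
    have h6 : z + z ^ 4 ≤ (z + z ^ 2 + z ^ 3) * (z ^ 2 + z) * (1 / 2) := by
      have h7 : 0 ≤ z ^ 4 * (z - 10 / 3) := mul_nonneg (by positivity) (by linarith)
      nlinarith
    have h8 : (z + z ^ 2 + z ^ 3) * (z ^ 2 + z) ≤
        (z + z ^ 2 + z ^ 3) * (ω ^ 2 * (ρ * ω) ^ k) := by
      refine mul_le_mul_of_nonneg_left ?_ (by positivity)
      calc z ^ 2 + z ≤ ω ^ 2 * 1 := by linarith
        _ ≤ ω ^ 2 * (ρ * ω) ^ k := mul_le_mul_of_nonneg_left (G.theta_pow k) (by positivity)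
    have h9 : (z + z ^ 2 + z ^ 3) * (z ^ 2 + z) * (1 / 2) ≤
        (z + z ^ 2 + z ^ 3) * (ω ^ 2 * (ρ * ω) ^ k) * (ρ * ω - z) :=
      mul_le_mul h8 (by linarith) (by norm_num) ((by positivity :
        0 ≤ (z + z ^ 2 + z ^ 3) * (z ^ 2 + z)).trans h8)
    calc V z (chain (k + 1 + 1) (.node cherry cherry))
        ≤ z * ((z + z ^ 2 + z ^ 3) * (ω ^ 2 * (ρ * ω) ^ k)) +
          (z + z ^ 2 + z ^ 3) * (ω ^ 2 * (ρ * ω) ^ k) * (ρ * ω - z) := by linarith
      _ = (z + z ^ 2 + z ^ 3) * (ω ^ 2 * (ρ * ω) ^ (k + 1)) := by ring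

/-- Leaves above an arbitrary tree. -/
theorem V_chain_le (hz : 0 ≤ z) (k : ℕ) (u : BT) : V z (chain k u) ≤ sk z k * V z u := by
  induction k with
  | zero =>
    show V z u ≤ 1 * V z u
    rw [one_mul]
  | succ k ih =>
    have h1 := V_chain_succ hz k u
    have h2 : mass z (N u) ≤ V z u := mass_mono hz (N_subset u)
    have h3 : z * V z (chain k u) ≤ z * (sk z k * V z u) := mul_le_mul_of_nonneg_left ih hz
    show _ ≤ (z * sk z k + 1) * V z u
    linarith

/-- Two large root subtrees. -/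
theorem case_d (G : Good z ω κ ρ) {l r : BT} {s t : ℕ} (hl : 4 ≤ l.size) (hr : 4 ≤ r.size)
    (hs : s + 3 ≤ l.size) (ht : t + 3 ≤ r.size)
    (hVl : ω ^ 3 * V z l ≤ (z + z ^ 2 + z ^ 3) * ω ^ l.size * ρ ^ s)
    (hVr : ω ^ 3 * V z r ≤ (z + z ^ 2 + z ^ 3) * ω ^ r.size * ρ ^ t) (k : ℕ) :
    ω ^ 3 * (V z (chain k (.node l r)) + κ * B z (chain k (.node l r))) ≤
      (z + z ^ 2 + z ^ 3) * ω ^ (k + (l.size + r.size)) * ρ ^ (s + t + 1 + k) := by
  have hz := G.hz
  have hz0 : 0 ≤ z := by linarith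
  have hk := G.k_pos
  have hρ := G.r0
  have hρ' := G.r0'
  have h4 := V_node_le hz0 l r
  have h5 := B_le_V hz0 (.node l r)
  have h6 := V_chain_le hz0 k (.node l r)
  have h7 := B_chain hz0 k (.node l r)
  have h8 := G.sk_le k
  have hVl0 := V_nonneg hz0 l
  have hVr0 := V_nonneg hz0 r
  have hV0 := V_nonneg hz0 (.node l r)
  have hω0 : 0 < ω := by
    have := G.r1
    by_contra h11
    have h12 : ω = 0 := le_antisymm (not_lt.1 h11) G.h0
    rw [h12] at this
    linarith
  have hω1 : 1 ≤ ω := by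
    have h1 := G.theta_pos
    nlinarith
  have h9 : (V z (chain k (.node l r)) + κ * B z (chain k (.node l r))) * ρ ≤
      κ * ω ^ 2 * (ρ * ω) ^ k * (V z l + V z r + V z l * V z r) := by
    have h10 : κ * B z (chain k (.node l r)) ≤ κ * V z (.node l r) :=
      mul_le_mul_of_nonneg_left (h7.trans h5) hk.le
    have h11 : (sk z k + κ) * ρ * V z (.node l r) ≤
        κ * ω ^ 2 * (ρ * ω) ^ k * V z (.node l r) := mul_le_mul_of_nonneg_right h8 hV0
    have h12 : κ * ω ^ 2 * (ρ * ω) ^ k * V z (.node l r) ≤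
        κ * ω ^ 2 * (ρ * ω) ^ k * (V z l + V z r + V z l * V z r) :=
      mul_le_mul_of_nonneg_left h4 (by positivity)
    have h13 : (V z (chain k (.node l r)) + κ * B z (chain k (.node l r))) * ρ ≤
        (sk z k + κ) * V z (.node l r) * ρ := mul_le_mul_of_nonneg_right (by linarith) hρ.le
    linarith
  have hpow : ∀ m u : ℕ, 4 ≤ m → u + 3 ≤ m → (ρ * ω) ^ 4 ≤ ω ^ m * ρ ^ u := by
    intro m u hm hu
    calc (ρ * ω) ^ 4 ≤ (ρ * ω) ^ m := pow_le_pow_right₀ G.theta_pos hm
      _ = ω ^ m * ρ ^ m := by ring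
      _ ≤ ω ^ m * ρ ^ u := mul_le_mul_of_nonneg_left
          (pow_le_pow_of_le_one hρ.le hρ' (by omega)) (by positivity)
  have ha := hpow _ s hl hs
  have hb := hpow _ t hr ht
  set a := ω ^ l.size * ρ ^ s with hadef
  set b := ω ^ r.size * ρ ^ t with hbdef
  set g := z + z ^ 2 + z ^ 3 with hgdef
  have hg0 : 0 < g := by
    have : 0 < z := by linarith
    positivity
  have ha0 : 0 < a := by positivity
  have hb0 : 0 < b := by positivity
  have hVl' : ω ^ 3 * V z l ≤ g * a := by
    rw [hadef, ← mul_assoc]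
    exact hVl
  have hVr' : ω ^ 3 * V z r ≤ g * b := by
    rw [hbdef, ← mul_assoc]
    exact hVr
  have h13 : ω ^ 6 * (V z l * V z r) ≤ g ^ 2 * (a * b) := by
    calc ω ^ 6 * (V z l * V z r) = (ω ^ 3 * V z l) * (ω ^ 3 * V z r) := by ring
      _ ≤ (g * a) * (g * b) := mul_le_mul hVl' hVr' (by positivity) (by positivity)
      _ = _ := by ring
  have h14 : (ρ * ω) ^ 4 * (a + b) ≤ 2 * (a * b) := by
    have h15 : (ρ * ω) ^ 4 * a ≤ b * a := mul_le_mul_of_nonneg_right hb ha0.le
    have h16 : (ρ * ω) ^ 4 * b ≤ a * b := mul_le_mul_of_nonneg_right ha hb0.le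
    nlinarith
  have h17 : ρ ^ 4 * (ω ^ 10 * (V z l + V z r + V z l * V z r)) ≤
      (2 + ρ ^ 4 * (g * ω)) * (ω ^ 3 * (g * (a * b))) := by
    have h18 : ρ ^ 4 * (ω ^ 10 * (V z l + V z r)) ≤ 2 * (ω ^ 3 * (g * (a * b))) := by
      calc ρ ^ 4 * (ω ^ 10 * (V z l + V z r))
          = ρ ^ 4 * (ω ^ 7 * (ω ^ 3 * V z l + ω ^ 3 * V z r)) := by ring
        _ ≤ ρ ^ 4 * (ω ^ 7 * (g * a + g * b)) :=
            mul_le_mul_of_nonneg_left (mul_le_mul_of_nonneg_left (add_le_add hVl' hVr')
              (by positivity)) (by positivity)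
        _ = ω ^ 3 * g * ((ρ * ω) ^ 4 * (a + b)) := by ring
        _ ≤ ω ^ 3 * g * (2 * (a * b)) := mul_le_mul_of_nonneg_left h14 (by positivity)
        _ = _ := by ring
    have h19 : ρ ^ 4 * (ω ^ 10 * (V z l * V z r)) ≤
        ρ ^ 4 * (g * ω) * (ω ^ 3 * (g * (a * b))) := by
      calc ρ ^ 4 * (ω ^ 10 * (V z l * V z r)) = ρ ^ 4 * ω ^ 4 * (ω ^ 6 * (V z l * V z r)) := by
            ring
        _ ≤ ρ ^ 4 * ω ^ 4 * (g ^ 2 * (a * b)) := mul_le_mul_of_nonneg_left h13 (by positivity)
        _ = _ := by ring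
    linarith
  have h21 : κ * (2 + ρ ^ 4 * (g * ω)) ≤ ρ ^ 6 * ω ^ 2 := by
    have h22 : κ * (ρ ^ 4 * (g * ω) + 2) ≤ κ * (ρ ^ 6 * ((z ^ 2 + z - 1) * ω ^ 2)) :=
      mul_le_mul_of_nonneg_left G.r5 hk.le
    calc κ * (2 + ρ ^ 4 * (g * ω)) = κ * (ρ ^ 4 * (g * ω) + 2) := by ring
      _ ≤ κ * (ρ ^ 6 * ((z ^ 2 + z - 1) * ω ^ 2)) := h22
      _ = κ * (z ^ 2 + z - 1) * (ρ ^ 6 * ω ^ 2) := by ring
      _ = ρ ^ 6 * ω ^ 2 := by rw [G.hκ, one_mul]
  have h23 : ρ ^ 5 * ω ^ 5 *
      (ω ^ 3 * (V z (chain k (.node l r)) + κ * B z (chain k (.node l r)))) ≤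
      ρ ^ 5 * ω ^ 5 * (g * (ω ^ k * (a * b)) * ρ ^ (k + 1)) := by
    calc ρ ^ 5 * ω ^ 5 *
          (ω ^ 3 * (V z (chain k (.node l r)) + κ * B z (chain k (.node l r))))
        = ρ ^ 4 * ω ^ 8 *
          ((V z (chain k (.node l r)) + κ * B z (chain k (.node l r))) * ρ) := by ring
      _ ≤ ρ ^ 4 * ω ^ 8 * (κ * ω ^ 2 * (ρ * ω) ^ k * (V z l + V z r + V z l * V z r)) :=
          mul_le_mul_of_nonneg_left h9 (by positivity)
      _ = κ * (ρ * ω) ^ k * (ρ ^ 4 * (ω ^ 10 * (V z l + V z r + V z l * V z r))) := by ring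
      _ ≤ κ * (ρ * ω) ^ k * ((2 + ρ ^ 4 * (g * ω)) * (ω ^ 3 * (g * (a * b)))) :=
          mul_le_mul_of_nonneg_left h17 (by positivity)
      _ = κ * (2 + ρ ^ 4 * (g * ω)) * ((ρ * ω) ^ k * (ω ^ 3 * (g * (a * b)))) := by ring
      _ ≤ ρ ^ 6 * ω ^ 2 * ((ρ * ω) ^ k * (ω ^ 3 * (g * (a * b)))) :=
          mul_le_mul_of_nonneg_right h21 (by positivity)
      _ = _ := by ring
  have h24 := le_of_mul_le_mul_left h23 (by positivity)
  refine h24.trans (le_of_eq ?_)
  rw [hadef, hbdef]
  ring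

end

theorem Alt.chain {s : ℕ} {T : BT} (h : Alt s T) (k : ℕ) : Alt (s + k) (chain k T) := by
  induction k with
  | zero => exact h
  | succ k ih =>
    have h1 := Alt.join 0 (s + k) .leaf (DeckB.chain k T) (Alt.small _ (by decide)) ih
    rw [show 0 + (s + k) + 1 = s + (k + 1) by ring] at h1
    exact h1

theorem chain_succ' (k : ℕ) (T : BT) : chain (k + 1) T = chain k (.node .leaf T) := by
  induction k with
  | zero => rfl
  | succ k ih =>
    show BT.node .leaf (chain (k + 1) T) = _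
    rw [ih]
    rfl

/-- **The total weight.** -/
theorem total (n : ℕ) : ∀ T : BT, T.size ≤ n → 3 ≤ T.size → ∃ s : ℕ, Alt s T ∧ s + 3 ≤ T.size ∧
    ∀ z ω κ ρ : ℝ, Good z ω κ ρ →
      ω ^ 3 * (V z T + κ * B z T) ≤ (z + z ^ 2 + z ^ 3) * ω ^ T.size * ρ ^ s := by
  induction n with
  | zero =>
    intro T h2 h3
    omega
  | succ n ih =>
    intro T hTn hT3
    -- the case of a node
    have main : ∀ (k : ℕ) (l r : BT), Iso T (chain k (.node l r)) → l ≠ .leaf → r ≠ .leaf →
        l.size ≤ r.size → ∃ s : ℕ, Alt s T ∧ s + 3 ≤ T.size ∧ ∀ z ω κ ρ : ℝ, Good z ω κ ρ →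
          ω ^ 3 * (V z T + κ * B z T) ≤ (z + z ^ 2 + z ^ 3) * ω ^ T.size * ρ ^ s := by
      intro k l r hi hl hr hlr
      have hs : T.size = k + (l.size + r.size) := by
        rw [hi.size_eq, chain_size]
        rfl
      have hl2 := two_le_size hl
      have hr2 := two_le_size hr
      rcases hl2.eq_or_lt with h2 | h2
      · obtain rfl := size_eq_two h2.symm
        have hc : cherry.size = 2 := rfl
        have altc : Alt 0 cherry := Alt.small _ (by decide)
        rcases hr2.eq_or_lt with h3 | h3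
        · -- two cherries
          obtain rfl := size_eq_two h3.symm
          have hB : ∀ z : ℝ, 0 ≤ z → B z (chain k (.node cherry cherry)) ≤ 0 := by
            intro z hz0
            refine (B_chain hz0 k _).trans ((mass_mono hz0 (bigD_cherry_node cherry)).trans ?_)
            rw [bigD_cherry]
            exact le_of_eq rfl
          rcases Nat.eq_zero_or_pos k with rfl | hk
          · refine ⟨1, Alt.iso _ _ _ hi.symm (Alt.join 0 0 _ _ altc altc), by omega,
              fun z ω κ ρ G => ?_⟩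
            have hz0 := G.z_pos.le
            rw [V_iso hi, B_iso hi, hs, hc]
            have h6 : κ * B z (chain 0 (.node cherry cherry)) ≤ 0 :=
              mul_nonpos_of_nonneg_of_nonpos G.k_pos.le (hB z hz0)
            have h7 : V z (chain 0 (.node cherry cherry)) ≤ (z + z ^ 2 + z ^ 3) * (ρ * ω) :=
              case_c0 G
            calc ω ^ 3 * (V z (chain 0 (.node cherry cherry)) +
                  κ * B z (chain 0 (.node cherry cherry)))
                ≤ ω ^ 3 * ((z + z ^ 2 + z ^ 3) * (ρ * ω)) :=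
                  mul_le_mul_of_nonneg_left (by linarith) (pow_nonneg G.h0 3)
              _ = _ := by ring
          · obtain ⟨m, rfl⟩ : ∃ m, k = m + 1 := ⟨k - 1, by omega⟩
            have halt : Alt (0 + m) (chain (m + 1) (.node cherry cherry)) := by
              rw [chain_succ']
              exact (Alt.step 0 cherry altc).chain m
            refine ⟨0 + m, Alt.iso _ _ _ hi.symm halt, by omega, fun z ω κ ρ G => ?_⟩
            have hz0 := G.z_pos.le
            rw [V_iso hi, B_iso hi, hs, hc]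
            have h6 : κ * B z (chain (m + 1) (.node cherry cherry)) ≤ 0 :=
              mul_nonpos_of_nonneg_of_nonpos G.k_pos.le (hB z hz0)
            have h7 := case_c G m
            calc ω ^ 3 * (V z (chain (m + 1) (.node cherry cherry)) +
                  κ * B z (chain (m + 1) (.node cherry cherry)))
                ≤ ω ^ 3 * ((z + z ^ 2 + z ^ 3) * (ω ^ 2 * (ρ * ω) ^ m)) :=
                  mul_le_mul_of_nonneg_left (by linarith) (pow_nonneg G.h0 3)
              _ = _ := by ring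
        · -- one cherry
          obtain ⟨s, hs1, hs2, hs3⟩ := ih r (by omega) (by omega)
          have key : ∀ z ω κ ρ : ℝ, Good z ω κ ρ →
              ω ^ 3 * (V z (chain k (.node cherry r)) + κ * B z (chain k (.node cherry r))) ≤
                Fk z k * ((z + z ^ 2 + z ^ 3) * ω ^ r.size * ρ ^ s) := by
            intro z ω κ ρ G
            have hz0 := G.z_pos.le
            have h4 := case_a G.hz G.hκ (v := r) (by omega) k
            have h5 : B z (chain k (.node cherry r)) ≤ B z r :=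
              (B_chain hz0 k _).trans (mass_mono hz0 (bigD_cherry_node r))
            have h6 : κ * B z (chain k (.node cherry r)) ≤ κ * B z r :=
              mul_le_mul_of_nonneg_left h5 G.k_pos.le
            have hF := Fk_nonneg hz0 k
            calc ω ^ 3 * (V z (chain k (.node cherry r)) + κ * B z (chain k (.node cherry r)))
                ≤ ω ^ 3 * (Fk z k * (V z r + κ * B z r)) :=
                  mul_le_mul_of_nonneg_left (by linarith) (pow_nonneg G.h0 3)
              _ = Fk z k * (ω ^ 3 * (V z r + κ * B z r)) := by ring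
              _ ≤ Fk z k * ((z + z ^ 2 + z ^ 3) * ω ^ r.size * ρ ^ s) :=
                  mul_le_mul_of_nonneg_left (hs3 z ω κ ρ G) hF
          rcases Nat.eq_zero_or_pos k with rfl | hk
          · refine ⟨0 + s + 1, Alt.iso _ _ _ hi.symm (Alt.join 0 s _ _ altc hs1), by omega,
              fun z ω κ ρ G => ?_⟩
            have hz0 := G.z_pos.le
            rw [V_iso hi, B_iso hi, hs, hc]
            refine (key z ω κ ρ G).trans ?_
            have h0 := G.h0
            have hρ := G.r0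
            calc Fk z 0 * ((z + z ^ 2 + z ^ 3) * ω ^ r.size * ρ ^ s)
                ≤ ρ * ω ^ 2 * ((z + z ^ 2 + z ^ 3) * ω ^ r.size * ρ ^ s) :=
                  mul_le_mul_of_nonneg_right G.r2 (by positivity)
              _ = _ := by ring
          · obtain ⟨m, rfl⟩ : ∃ m, k = m + 1 := ⟨k - 1, by omega⟩
            have halt : Alt (s + m) (chain (m + 1) (.node cherry r)) := by
              rw [chain_succ']
              exact (Alt.step s r hs1).chain m
            refine ⟨s + m, Alt.iso _ _ _ hi.symm halt, by omega, fun z ω κ ρ G => ?_⟩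
            have hz0 := G.z_pos.le
            rw [V_iso hi, B_iso hi, hs, hc]
            refine (key z ω κ ρ G).trans ?_
            have h0 := G.h0
            have hρ := G.r0
            calc Fk z (m + 1) * ((z + z ^ 2 + z ^ 3) * ω ^ r.size * ρ ^ s)
                ≤ ω ^ 3 * (ρ * ω) ^ m * ((z + z ^ 2 + z ^ 3) * ω ^ r.size * ρ ^ s) :=
                  mul_le_mul_of_nonneg_right (G.Fk_le m) (by positivity)
              _ = _ := by ring
      · have hr3 : 3 ≤ r.size := by omega
        obtain ⟨t, ht1, ht2, ht3⟩ := ih r (by omega) hr3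
        rcases (show 3 ≤ l.size from h2).eq_or_lt with h3 | h3
        · -- three leaves on the left
          refine ⟨(0 + t + 1) + k, Alt.iso _ _ _ hi.symm
            ((Alt.join 0 t _ _ (Alt.small l (by omega)) ht1).chain k), by omega,
            fun z ω κ ρ G => ?_⟩
          have hz0 := G.z_pos.le
          have h0 := G.h0
          have hρ := G.r0
          rw [V_iso hi, B_iso hi, hs, ← h3]
          have h4 := V_three hz0 h3.symm hr3
          have h5 := B_three hz0 h3.symm hr3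
          have h6 := V_chain_le hz0 k (.node l r)
          have h7 := B_chain hz0 k (.node l r)
          have h8 := G.three_le k
          have hs1 := sk_pos G.hz k
          have hVr0 := V_nonneg hz0 r
          have h9 : V z (chain k (.node l r)) + κ * B z (chain k (.node l r)) ≤
              ρ * ω ^ 3 * (ρ * ω) ^ k * V z r := by
            have h10 : sk z k * V z (.node l r) ≤
                sk z k * ((1 + (z + z ^ 2 + z ^ 3)) * V z r) :=
              mul_le_mul_of_nonneg_left h4 (by linarith)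
            have h11 : κ * B z (chain k (.node l r)) ≤ κ * ((1 + z ^ 3) * V z r) :=
              mul_le_mul_of_nonneg_left (h7.trans h5) G.k_pos.le
            have h12 : (sk z k * (1 + (z + z ^ 2 + z ^ 3)) + κ * (1 + z ^ 3)) * V z r ≤
                ρ * ω ^ 3 * (ρ * ω) ^ k * V z r := mul_le_mul_of_nonneg_right h8 hVr0
            linarith
          have h13 : ω ^ 3 * V z r ≤ (z + z ^ 2 + z ^ 3) * ω ^ r.size * ρ ^ t := by
            refine le_trans ?_ (ht3 z ω κ ρ G)
            have : 0 ≤ κ * B z r := mul_nonneg G.k_pos.le (B_nonneg hz0 r)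
            exact mul_le_mul_of_nonneg_left (by linarith) (pow_nonneg h0 3)
          calc ω ^ 3 * (V z (chain k (.node l r)) + κ * B z (chain k (.node l r)))
              ≤ ω ^ 3 * (ρ * ω ^ 3 * (ρ * ω) ^ k * V z r) :=
                mul_le_mul_of_nonneg_left h9 (pow_nonneg h0 3)
            _ = ρ * ω ^ 3 * (ρ * ω) ^ k * (ω ^ 3 * V z r) := by ring
            _ ≤ ρ * ω ^ 3 * (ρ * ω) ^ k * ((z + z ^ 2 + z ^ 3) * ω ^ r.size * ρ ^ t) :=
                mul_le_mul_of_nonneg_left h13 (by positivity)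
            _ = _ := by ring
        · -- both subtrees are large
          obtain ⟨s, hs1, hs2, hs3⟩ := ih l (by omega) (by omega)
          refine ⟨(s + t + 1) + k, Alt.iso _ _ _ hi.symm
            ((Alt.join s t _ _ hs1 ht1).chain k), by omega, fun z ω κ ρ G => ?_⟩
          have hz0 := G.z_pos.le
          have h0 := G.h0
          rw [V_iso hi, B_iso hi, hs]
          have hd : ∀ (X : BT) (u : ℕ), ω ^ 3 * (V z X + κ * B z X) ≤
              (z + z ^ 2 + z ^ 3) * ω ^ X.size * ρ ^ u →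
              ω ^ 3 * V z X ≤ (z + z ^ 2 + z ^ 3) * ω ^ X.size * ρ ^ u := by
            intro X u h
            refine le_trans ?_ h
            have : 0 ≤ κ * B z X := mul_nonneg G.k_pos.le (B_nonneg hz0 X)
            exact mul_le_mul_of_nonneg_left (by linarith) (pow_nonneg h0 3)
          exact case_d G (by omega) (by omega) hs2 ht2 (hd l s (hs3 z ω κ ρ G))
            (hd r t (ht3 z ω κ ρ G)) k
    obtain ⟨k, x, hi, hx⟩ := exists_chain T
    rcases hx with rfl | ⟨l, r, rfl, hl, hr⟩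
    · have hs : T.size = k + 1 := by
        rw [hi.size_eq, chain_size]
        rfl
      obtain ⟨m, rfl⟩ : ∃ m, k = m + 2 := ⟨k - 2, by omega⟩
      have halt : Alt (0 + m) (chain (m + 2) .leaf) := by
        rw [show m + 2 = (m + 1) + 1 by ring, chain_succ', chain_succ']
        exact (Alt.small (.node .leaf (.node .leaf .leaf)) (by decide)).chain m
      refine ⟨0 + m, Alt.iso _ _ _ hi.symm halt, by omega, fun z ω κ ρ G => ?_⟩
      have hz0 := G.z_pos.le
      rw [V_iso hi, B_iso hi, hs]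
      have h5 : B z (chain (m + 2) .leaf) ≤ 0 := by
        refine (B_chain hz0 (m + 2) _).trans ?_
        unfold B
        rw [bigD_leaf]
        exact le_of_eq rfl
      have h6 : κ * B z (chain (m + 2) .leaf) ≤ 0 :=
        mul_nonpos_of_nonneg_of_nonpos G.k_pos.le h5
      calc ω ^ 3 * (V z (chain (m + 2) .leaf) + κ * B z (chain (m + 2) .leaf))
          ≤ ω ^ 3 * ((z + z ^ 2 + z ^ 3) * (ρ * ω) ^ m) :=
            mul_le_mul_of_nonneg_left (by linarith [case_b G m]) (pow_nonneg G.h0 3)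
        _ = _ := by ring
    · rcases le_total l.size r.size with h | h
      · exact main k l r hi hl hr h
      · exact main k r l (hi.trans (chain_iso (Iso.swap (Iso.refl _) (Iso.refl _)) k)) hr hl h

/-- The weight of one deck. -/
theorem deck_weight {z : ℝ} (hz : 0 ≤ z) (j : ℕ) (T : BT) :
    (deck j T).ncard * z ^ j ≤ V z T := by
  classical
  have f := deck_finite j T
  rw [Set.ncard_eq_toFinset_card _ f]
  have h1 : f.toFinset ⊆ D T := by
    intro q hq
    exact (deck_subset_D (f.mem_toFinset.1 hq)).1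
  have h2 := mass_mono hz h1
  have h3 : mass z f.toFinset = f.toFinset.card * z ^ j := by
    unfold mass
    rw [← nsmul_eq_mul, ← Finset.sum_const]
    refine Finset.sum_congr rfl fun q hq => ?_
    rw [(deck_subset_D (f.mem_toFinset.1 hq)).2]
  rw [h3] at h2
  exact h2

/-- The upper bound in terms of the parameters. -/
theorem deck_le_of_good {n d s : ℕ} {T : BT} (hT : T.size = n) (hd : d ≤ n) {y ρ : ℝ}
    (hy : 0 < y) (G : ∀ ω κ : ℝ, 0 ≤ ω → ω ^ 3 = (1 / y) ^ 3 + 2 * (1 / y) ^ 2 →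
      κ * ((1 / y) ^ 2 + 1 / y - 1) = 1 → Good (1 / y) ω κ ρ)
    (hy' : y ≤ 3 / 10)
    (hs : ∀ z ω κ ρ : ℝ, Good z ω κ ρ →
      ω ^ 3 * (V z T + κ * B z T) ≤ (z + z ^ 2 + z ^ 3) * ω ^ T.size * ρ ^ s) :
    ((deck (n - d) T).ncard : ℝ) ≤ (1 / y) ^ d * (1 + 2 * y) ^ ((n : ℝ) / 3) * ρ ^ s := by
  set z := 1 / y with hzdef
  have hz : 10 / 3 ≤ z := by
    rw [hzdef, le_div_iff₀ hy]
    linarith
  have hz0 : 0 < z := by linarith
  have hyz : y * z = 1 := by
    rw [hzdef]
    field_simp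
  set ω := z * (1 + 2 * y) ^ ((1 : ℝ) / 3) with hωdef
  have h12 : 0 < 1 + 2 * y := by linarith
  have hc : ((1 + 2 * y) ^ ((1 : ℝ) / 3)) ^ 3 = 1 + 2 * y := by
    rw [← Real.rpow_natCast, ← Real.rpow_mul h12.le]
    norm_num
  have h0 : 0 ≤ ω := by positivity
  have hω : ω ^ 3 = z ^ 3 + 2 * z ^ 2 := by
    rw [hωdef, mul_pow, hc]
    linear_combination 2 * z ^ 2 * hyz
  have hκ : 1 / (z ^ 2 + z - 1) * (z ^ 2 + z - 1) = 1 := by
    have : z ^ 2 + z - 1 ≠ 0 := by nlinarith
    exact one_div_mul_cancel this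
  have G1 := G ω _ h0 hω hκ
  have h1 := hs z ω _ ρ G1
  have hk := G1.k_pos
  have h2 := deck_weight hz0.le (n - d) T
  have h3 := B_nonneg hz0.le T
  have hρ := G1.r0
  rw [hT] at h1
  have hω3 : 0 < ω ^ 3 := by rw [hω]; positivity
  have hg : z + z ^ 2 + z ^ 3 ≤ ω ^ 3 := by
    rw [hω]
    nlinarith
  have h4 : (deck (n - d) T).ncard * z ^ (n - d) ≤ ω ^ n * ρ ^ s := by
    have h5 : ω ^ 3 * ((deck (n - d) T).ncard * z ^ (n - d)) ≤ ω ^ 3 * (ω ^ n * ρ ^ s) := by
      calc ω ^ 3 * ((deck (n - d) T).ncard * z ^ (n - d)) ≤ ω ^ 3 *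
            (V z T + 1 / (z ^ 2 + z - 1) * B z T) := by
            refine mul_le_mul_of_nonneg_left ?_ hω3.le
            have : 0 ≤ 1 / (z ^ 2 + z - 1) * B z T := mul_nonneg hk.le h3
            linarith
        _ ≤ (z + z ^ 2 + z ^ 3) * ω ^ n * ρ ^ s := h1
        _ = (z + z ^ 2 + z ^ 3) * (ω ^ n * ρ ^ s) := by ring
        _ ≤ ω ^ 3 * (ω ^ n * ρ ^ s) := mul_le_mul_of_nonneg_right hg (by positivity)
    exact le_of_mul_le_mul_left h5 hω3
  have h5 : ω ^ n = z ^ d * (1 + 2 * y) ^ ((n : ℝ) / 3) * z ^ (n - d) := by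
    rw [hωdef, mul_pow, ← Real.rpow_natCast ((1 + 2 * y) ^ ((1 : ℝ) / 3)), ← Real.rpow_mul h12.le]
    have h6 : z ^ n = z ^ d * z ^ (n - d) := by
      rw [← pow_add]
      congr 1
      omega
    rw [h6, show (1 : ℝ) / 3 * n = n / 3 by ring]
    ring
  have h6 : (deck (n - d) T).ncard * z ^ (n - d) ≤
      z ^ d * (1 + 2 * y) ^ ((n : ℝ) / 3) * ρ ^ s * z ^ (n - d) := by
    rw [h5] at h4
    linarith
  exact le_of_mul_le_mul_right h6 (by positivity)

/-- **The upper bound.** -/
theorem M_le_exp {n d : ℕ} (hn : 3 ≤ n) (hd : d ≤ n) {y : ℝ} (hy : 0 < y) (hy' : y ≤ 3 / 10) :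
    (M n (n - d) : ℝ) ≤ (1 / y) ^ d * (1 + 2 * y) ^ ((n : ℝ) / 3) := by
  obtain ⟨T, hT, hM⟩ := exists_M (show 1 ≤ n by omega) (n - d)
  obtain ⟨s, -, -, hs⟩ := total n T hT.le (by omega)
  have hz : 10 / 3 ≤ 1 / y := by
    rw [le_div_iff₀ hy]
    linarith
  have h1 := deck_le_of_good hT hd hy (ρ := 1)
    (fun ω κ h0 hω hκ => good_one hz h0 hω hκ) hy' hs
  rw [one_pow, mul_one] at h1
  rw [← hM]
  exact h1

/-- **The structure of trees with large decks.** -/
theorem exists_alt {n : ℕ} (hn : 3 ≤ n) {T : BT} (hT : T.size = n) : ∃ s : ℕ, Alt s T ∧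
    ∀ d : ℕ, d ≤ n → ∀ y : ℝ, 0 < y → y ≤ 1 / 4 →
      ((deck (n - d) T).ncard : ℝ) ≤
        (1 / y) ^ d * (1 + 2 * y) ^ ((n : ℝ) / 3) * (1 - y / 24) ^ s := by
  obtain ⟨s, hs1, -, hs⟩ := total n T hT.le (by omega)
  refine ⟨s, hs1, fun d hd y hy hy' => ?_⟩
  have hz : 4 ≤ 1 / y := by
    rw [le_div_iff₀ hy]
    linarith
  have h1 := deck_le_of_good hT hd hy (ρ := 1 - 1 / (1 / y) / 24)
    (fun ω κ h0 hω hκ => good_rho hz h0 hω hκ) (by linarith) hs
  rwa [one_div_one_div] at h1

end Pool.Agent.DeckB
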