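import Pool.Agent.DeckB.GrowthMain
import Pool.Agent.DeckB.Struct
import Pool.Agent.DeckB.Entropy

/-!
# The alternating tree is optimal up to a factor `7 √d`; the growth function near `1`
-/

set_option autoImplicit false

namespace Pool.Agent.DeckB

open Filter Topology

theorem le_altTree' {n : ℕ} (hn : 3 ≤ n) (d : ℕ) :
    (2 : ℝ) ^ d * (n / 3 - 1).choose d ≤ (deck (n - d) (altTree n)).ncard := by
  exact_mod_cast le_altTree hn d

/-- The alternating tree is optimal up to the factor `7 √d`. -/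
theorem M_le_altTree {n d : ℕ} (hd : 1 ≤ d) (hdn : 8 * d + 5 ≤ n) :
    (M n (n - d) : ℝ) ≤ 7 * √d * (deck (n - d) (altTree n)).ncard := by
  refine (alt_compare' hd hdn fun y hy hy' =>
    M_le_exp (by omega) (by omega) hy hy').trans ?_
  exact mul_le_mul_of_nonneg_left (le_altTree' (by omega) d) (by positivity)

/-- The structure of the trees with large decks. -/
theorem exists_structure {T : BT} (hT : 3 ≤ T.size) : ∃ s : ℕ, Alt s T ∧
    ∀ d : ℕ, 1 ≤ d → 9 * d + 5 ≤ T.size →
      ((deck (T.size - d) T).ncard : ℝ) ≤ 7 * √d * Real.exp (-(s * d / (16 * T.size))) *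
        (deck (T.size - d) (altTree T.size)).ncard ∧
      ((deck (T.size - d) T).ncard = M T.size (T.size - d) →
        (s : ℝ) ≤ 16 * T.size / d * Real.log (7 * √d)) := by
  obtain ⟨s, hs, h⟩ := exists_alt hT rfl
  refine ⟨s, hs, fun d hd hdn => ?_⟩
  have h1 : ((deck (T.size - d) T).ncard : ℝ) ≤
      7 * √d * Real.exp (-(s * d / (16 * T.size))) *
        (deck (T.size - d) (altTree T.size)).ncard := by
    refine (struct_compare hd hdn fun y hy hy' => h d (by omega) y hy hy').trans ?_
    exact mul_le_mul_of_nonneg_left (le_altTree' hT d) (by positivity)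
  refine ⟨h1, fun hM => ?_⟩
  have h2 : (deck (T.size - d) (altTree T.size)).ncard ≤ M T.size (T.size - d) :=
    altTree_le_M hT (Nat.sub_le _ _)
  have h3 : 1 ≤ (deck (T.size - d) (altTree T.size)).ncard :=
    one_le_deck (by omega) (by rw [altTree_size hT]; exact Nat.sub_le _ _)
  have h4 : (0 : ℝ) < (deck (T.size - d) (altTree T.size)).ncard := by exact_mod_cast h3
  have h5 : ((deck (T.size - d) (altTree T.size)).ncard : ℝ) ≤
      (deck (T.size - d) T).ncard := by
    rw [hM]
    exact_mod_cast h2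
  have h6 : 1 ≤ 7 * √d * Real.exp (-(s * d / (16 * T.size))) := by
    have h7 : 1 * ((deck (T.size - d) (altTree T.size)).ncard : ℝ) ≤
        7 * √d * Real.exp (-(s * d / (16 * T.size))) *
          (deck (T.size - d) (altTree T.size)).ncard := by
      rw [one_mul]
      exact h5.trans h1
    exact le_of_mul_le_mul_right h7 h4
  have hd0 : (0 : ℝ) < d := by exact_mod_cast hd
  have hn0 : (0 : ℝ) < T.size := by exact_mod_cast size_pos T
  have h8 := Real.log_le_log one_pos h6
  rw [Real.log_one, Real.log_mul (by positivity) (Real.exp_ne_zero _), Real.log_exp] at h8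
  have h9 : (s : ℝ) * d / (16 * T.size) ≤ Real.log (7 * √d) := by linarith
  rw [div_le_iff₀ (by positivity)] at h9
  rw [div_mul_eq_mul_div, le_div_iff₀ hd0]
  linarith

/-- The growth function near `1`. -/
theorem growth_eq {δ : ℝ} (h0 : 0 < δ) (h1 : δ ≤ 1 / 8) :
    growth (1 - δ) = δ * Real.log (2 / (3 * δ)) - (1 / 3 - δ) * Real.log (1 - 3 * δ) := by
  have hfl : ∀ n : ℕ, ⌊δ * n⌋₊ ≤ n := by
    intro n
    refine Nat.floor_le_of_le ?_
    have : (0 : ℝ) ≤ n := Nat.cast_nonneg _
    nlinarith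
  have hδ : Tendsto (fun n : ℕ => (⌊δ * n⌋₊ : ℝ) / n) atTop (𝓝 δ) :=
    floor_ratio h0.le tendsto_id
  have h2 : Tendsto (fun n : ℕ => Real.log (M n (n - ⌊δ * n⌋₊)) / n) atTop
      (𝓝 (growth (1 - δ))) := by
    refine log_M_tendsto (n := fun n : ℕ => n) (j := fun n : ℕ => n - ⌊δ * n⌋₊)
      (by linarith) (by linarith) tendsto_id ?_ ?_
    · filter_upwards [eventually_ge_atTop 1] with n hn
      refine ⟨?_, Nat.sub_le _ _⟩
      have hn' : (1 : ℝ) ≤ n := by exact_mod_cast hn
      have h3 : ⌊δ * n⌋₊ < n := by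
        rw [Nat.floor_lt (by positivity)]
        nlinarith
      omega
    · refine ((tendsto_const_nhds (x := (1 : ℝ))).sub hδ).congr' ?_
      filter_upwards [eventually_gt_atTop 0] with n hn
      have : (n : ℝ) ≠ 0 := by
        have : n ≠ 0 := by omega
        exact_mod_cast this
      rw [Nat.cast_sub (hfl n)]
      field_simp
  refine le_antisymm ?_ (alt_rate h0 h1 h2)
  -- the upper bound with `y = 3 δ / (2 (1 - 3 δ))`
  set y : ℝ := 3 * δ / (2 * (1 - 3 * δ)) with hy
  have h6 : 0 < 2 * (1 - 3 * δ) := by linarith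
  have hy0 : 0 < y := by positivity
  have hy1 : y ≤ 3 / 10 := by
    rw [hy, div_le_iff₀ h6]
    linarith
  have h3 : Tendsto (fun n : ℕ => (⌊δ * n⌋₊ : ℝ) / n * Real.log (1 / y) +
      1 / 3 * Real.log (1 + 2 * y)) atTop
      (𝓝 (δ * Real.log (1 / y) + 1 / 3 * Real.log (1 + 2 * y))) :=
    (hδ.mul_const _).add_const _
  have h4 : growth (1 - δ) ≤ δ * Real.log (1 / y) + 1 / 3 * Real.log (1 + 2 * y) := by
    refine le_of_tendsto_of_tendsto h2 h3 ?_
    filter_upwards [eventually_ge_atTop 3] with n hn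
    have hn0 : (0 : ℝ) < n := by
      have : 0 < n := by omega
      exact_mod_cast this
    have h12 : 0 < 1 + 2 * y := by linarith
    have h5 := M_le_exp hn (hfl n) hy0 hy1
    have h7 : (0 : ℝ) < M n (n - ⌊δ * n⌋₊) := by
      have h8 : ⌊δ * n⌋₊ < n := by
        rw [Nat.floor_lt (by positivity)]
        nlinarith
      exact M_pos (by omega) (Nat.sub_le _ _)
    have h8 := Real.log_le_log h7 h5
    rw [Real.log_mul (by positivity) (by positivity), Real.log_pow, Real.log_rpow h12] at h8
    show Real.log (M n (n - ⌊δ * n⌋₊)) / n ≤ _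
    rw [div_le_iff₀ hn0]
    refine h8.trans (le_of_eq ?_)
    field_simp
  refine h4.trans (le_of_eq ?_)
  have h13 : 0 < 1 - 3 * δ := by linarith
  have h9 : 1 + 2 * y = 1 / (1 - 3 * δ) := by
    rw [hy]
    have : 1 - 3 * δ ≠ 0 := h13.ne'
    field_simp
    ring
  have h10 : 1 / y = 2 / (3 * δ) * (1 - 3 * δ) := by
    rw [hy]
    field_simp
  rw [h9, h10, Real.log_mul (by positivity) h13.ne', one_div (1 - 3 * δ), Real.log_inv]
  ring

end Pool.Agent.DeckB
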