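import Pool.Agent.DeckB.Pat
import Pool.Agent.DeckB.Defs3

/-!
# The patterns (leaf, cherry) ^ k, leaf, three leaves (helper86)
-/

set_option autoImplicit false

namespace Pool.Agent.DeckB

/-- `k` times a leaf and a cherry, then a leaf and a tree with three leaves, above `Y`. -/
def blkk (Y : BT) : ℕ → BT
  | 0 => .node .leaf (.node (chain 2 .leaf) Y)
  | k + 1 => .node .leaf (.node cherry (blkk Y k))

theorem blkk_size (Y : BT) (k : ℕ) : (blkk Y k).size = 3 * k + 4 + Y.size := by
  induction k with
  | zero =>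
    show 1 + (3 + Y.size) = _
    ring
  | succ k ih =>
    show 1 + (2 + (blkk Y k).size) = _
    rw [ih]
    ring

/-- The classes that are counted. -/
noncomputable def aak (Y : BT) : ℕ → Finset Shape
  | 0 => three (three (large Y) (large Y) (large Y)) (large Y) (large Y)
  | k + 1 => three (three (aak Y k) (aak Y k) (large Y)) (aak Y k) (large Y)

theorem vv_nonneg {z : ℝ} (hz : 0 ≤ z) (k : ℕ) : 0 ≤ vv z k := by
  induction k with
  | zero =>
    show 0 ≤ z ^ 4 + 2 * z ^ 3 + 2 * z ^ 2
    positivity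
  | succ k ih =>
    show 0 ≤ (z ^ 3 + 2 * z ^ 2) * vv z k + (z + 1) * z ^ 3
    positivity

theorem big_aak (Y : BT) (k : ℕ) : ∀ q ∈ aak Y k, 4 ≤ ssize q := by
  induction k with
  | zero =>
    exact big_three (big_three (large_big Y) (large_big Y) (large_big Y)) (large_big Y)
      (large_big Y)
  | succ k ih => exact big_three (big_three ih ih (large_big Y)) ih (large_big Y)

theorem aak_mass (z : ℝ) (Y : BT) (k : ℕ) : mass z (aak Y k) = vv z k * mass z (large Y) := by
  induction k with
  | zero =>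
    have b := large_big Y
    show mass z (three (three (large Y) (large Y) (large Y)) (large Y) (large Y)) =
      (z ^ 4 + 2 * z ^ 3 + 2 * z ^ 2) * mass z (large Y)
    rw [mass_three z (big_three b b b) b, mass_three z b b]
    ring
  | succ k ih =>
    have b := large_big Y
    have b' := big_aak Y k
    show mass z (three (three (aak Y k) (aak Y k) (large Y)) (aak Y k) (large Y)) =
      ((z ^ 3 + 2 * z ^ 2) * vv z k + (z + 1) * z ^ 3) * mass z (large Y)
    rw [mass_three z (big_three b' b' b) b', mass_three z b' b', ih]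
    ring

theorem tau_blkk {Y : BT} {q : Shape} (hq : q ∈ large Y) (k : ℕ) :
    join tau q ∈ D (blkk Y k) := by
  induction k with
  | zero => exact D_up (join_mem_node (mem_cat (Or.inr (Or.inr rfl))) (mem_large.1 hq).1)
  | succ k ih => exact D_up (D_up ih)

theorem aak_sub (Y : BT) (k : ℕ) : aak Y k ⊆ D (blkk Y k) := by
  induction k with
  | zero =>
    have t : ∀ a, (a = lam ∨ a = chi ∨ a = tau) → ∀ q ∈ large Y,
        join a q ∈ D (.node (chain 2 .leaf) Y) := fun a ha q hq =>
      join_mem_node (mem_cat ha) (mem_large.1 hq).1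
    have s : three (large Y) (large Y) (large Y) ⊆ D (.node (chain 2 .leaf) Y) :=
      three_sub (t lam (Or.inl rfl)) (t chi (Or.inr (Or.inl rfl))) (t tau (Or.inr (Or.inr rfl)))
    exact three_sub (s := D (blkk Y 0)) (fun q hq => join_mem_node (lam_mem _) (s hq))
      (fun q hq => D_up (t chi (Or.inr (Or.inl rfl)) q hq))
      (fun q hq => D_up (t tau (Or.inr (Or.inr rfl)) q hq))
  | succ k ih =>
    have s : three (aak Y k) (aak Y k) (large Y) ⊆ D (.node cherry (blkk Y k)) :=
      three_sub (fun q hq => join_mem_node (lam_mem _) (ih hq))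
        (fun q hq => join_mem_node chi_mem_cherry (ih hq))
        (fun q hq => D_up (tau_blkk hq k))
    exact three_sub (s := D (blkk Y (k + 1))) (fun q hq => join_mem_node (lam_mem _) (s hq))
      (fun q hq => D_up (join_mem_node chi_mem_cherry (ih hq)))
      (fun q hq => tau_blkk hq (k + 1))

theorem blkk_mass {z : ℝ} (hz : 0 ≤ z) (Y : BT) (k : ℕ) :
    vv z k * mass z (large Y) ≤ mass z (large (blkk Y k)) := by
  rw [← aak_mass]
  exact mass_mono hz fun q hq => mem_large.2 ⟨aak_sub Y k hq, big_aak Y k q hq⟩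

theorem exists_patk (k q : ℕ) : ∃ T : BT, T.size = (3 * k + 4) * q + 4 ∧
    ∀ z : ℝ, 0 ≤ z → (vv z k) ^ q * z ^ 4 ≤ V z T := by
  suffices h : ∃ T : BT, T.size = (3 * k + 4) * q + 4 ∧ ∀ z : ℝ, 0 ≤ z →
      (vv z k) ^ q * z ^ 4 ≤ mass z (large T) by
    obtain ⟨T, h1, h2⟩ := h
    exact ⟨T, h1, fun z hz => (h2 z hz).trans (large_le_V hz T)⟩
  induction q with
  | zero =>
    refine ⟨chain 3 .leaf, rfl, fun z hz => ?_⟩
    rw [pow_zero, one_mul]
    exact start_mass hz
  | succ q ih =>
    obtain ⟨T, h1, h2⟩ := ih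
    refine ⟨blkk T k, ?_, fun z hz => ?_⟩
    · rw [blkk_size, h1]
      ring
    · refine le_trans (le_of_eq ?_) ((mul_le_mul_of_nonneg_left (h2 z hz) (vv_nonneg hz k)).trans
        (blkk_mass hz T k))
      ring

end Pool.Agent.DeckB
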