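import Mathlib

/-!
A polynomial inequality (package T5 of helper51's plan, helper30): the difference is a
combination of the products `z ^ k * (7 - 3 * z) ^ (11 - k)` with positive coefficients.
-/

set_option autoImplicit false

namespace Pool.Agent.DeckB

theorem poly_lt {z : ℝ} (h0 : 0 < z) (h1 : z ≤ 7 / 3) :
    z ^ 5 * (z + 2) ^ 7 < (1 + 5 * z + 6 * z ^ 2 + 4 * z ^ 3 + z ^ 4) ^ 3 := by
  obtain ⟨u, hu⟩ : ∃ u, u = 7 - 3 * z := ⟨_, rfl⟩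
  have hu0 : 0 ≤ u := by rw [hu]; linarith
  have key : 1977326743 *
      ((1 + 5 * z + 6 * z ^ 2 + 4 * z ^ 3 + z ^ 4) ^ 3 - z ^ 5 * (z + 2) ^ 7) =
      1 * u ^ 11 + 138 * z ^ 1 * u ^ 10 + 8202 * z ^ 2 * u ^ 9 + 278750 * z ^ 3 * u ^ 8 +
        6088023 * z ^ 4 * u ^ 7 + 88861507 * z ^ 5 * u ^ 6 + 870863840 * z ^ 6 * u ^ 5 +
        5638050288 * z ^ 7 * u ^ 4 + 23094276073 * z ^ 8 * u ^ 3 + 54243554289 * z ^ 9 * u ^ 2 +
        55952992125 * z ^ 10 * u ^ 1 + 1054685350 * z ^ 11 := by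
    rw [hu]; ring
  have pos : 0 <
      1 * u ^ 11 + 138 * z ^ 1 * u ^ 10 + 8202 * z ^ 2 * u ^ 9 + 278750 * z ^ 3 * u ^ 8 +
        6088023 * z ^ 4 * u ^ 7 + 88861507 * z ^ 5 * u ^ 6 + 870863840 * z ^ 6 * u ^ 5 +
        5638050288 * z ^ 7 * u ^ 4 + 23094276073 * z ^ 8 * u ^ 3 + 54243554289 * z ^ 9 * u ^ 2 +
        55952992125 * z ^ 10 * u ^ 1 + 1054685350 * z ^ 11 := by
    positivity
  rw [← key] at pos
  linarith

end Pool.Agent.DeckB
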