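import Pool.Agent.DeckB.GrowthMain
import Pool.Agent.DeckB.PatK
import Pool.Agent.DeckB.AltUp
import Pool.Agent.DeckB.Poly
import Pool.Agent.DeckB.Beta

/-!
# The alternating trees are not always good
-/

set_option autoImplicit false

namespace Pool.Agent.DeckB

open Filter Topology

theorem restrict_false (T : BT) : restrict T (fun _ => false) = none := by
  induction T with
  | leaf => exact restrict_leaf_false _ rfl
  | node l r ihl ihr =>
    show glue (restrict l fun _ => false) (restrict r fun _ => false) = none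
    rw [ihl, ihr]
    rfl

theorem exists_restrict {T : BT} {q : Shape} (h : q ∈ D T) :
    ∃ (S : Leaf T → Bool) (t : BT), restrict T S = some t ∧ t.shape = q := by
  induction T generalizing q with
  | leaf => exact ⟨fun _ => true, .leaf, restrict_leaf_true _ rfl, (mem_D_leaf.1 h).symm⟩
  | node l r ihl ihr =>
    rcases mem_D_node.1 h with h | h | ⟨a, ha, b, hb, rfl⟩
    · obtain ⟨S, t, h1, h2⟩ := ihl h
      obtain ⟨S'', -, h4⟩ := exists_node (S := S) (S' := fun _ : Leaf r => false)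
      exact ⟨S'', t, by rw [h4, h1, restrict_false]; rfl, h2⟩
    · obtain ⟨S, t, h1, h2⟩ := ihr h
      obtain ⟨S'', -, h4⟩ := exists_node (S := fun _ : Leaf l => false) (S' := S)
      exact ⟨S'', t, by rw [h4, h1, restrict_false]; rfl, h2⟩
    · obtain ⟨S, t, h1, rfl⟩ := ihl ha
      obtain ⟨S', t', h1', rfl⟩ := ihr hb
      obtain ⟨S'', -, h4⟩ := exists_node (S := S) (S' := S')
      exact ⟨S'', .node t t', by rw [h4, h1, h1']; rfl, (join_shape _ _).symm⟩

theorem mem_deck {T : BT} {j : ℕ} {q : Shape} : q ∈ deck j T ↔ q ∈ D T ∧ ssize q = j := by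
  refine ⟨deck_subset_D, ?_⟩
  rintro ⟨h, rfl⟩
  obtain ⟨S, t, h1, rfl⟩ := exists_restrict h
  refine ⟨S, ?_, t, h1, rfl⟩
  have h3 := restrict_size S
  have h4 := dl_add_card S
  rw [h1, Option.elim_some] at h3
  rw [ssize_shape]
  omega

theorem deck_eq_filter (j : ℕ) (T : BT) :
    deck j T = (((D T).filter fun q => ssize q = j : Finset Shape) : Set Shape) := by
  ext q
  rw [mem_deck, Finset.mem_coe, Finset.mem_filter]

theorem V_eq_sum (z : ℝ) (T : BT) :
    V z T = ∑ j ∈ Finset.Icc 1 T.size, ((deck j T).ncard : ℝ) * z ^ j := by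
  unfold V mass
  rw [← Finset.sum_fiberwise_of_maps_to (s := D T) (t := Finset.Icc 1 T.size) (g := ssize)
    (fun q hq => Finset.mem_Icc.2 ⟨ssize_pos q, ssize_le hq⟩)]
  refine Finset.sum_congr rfl fun j _ => ?_
  rw [deck_eq_filter, Set.ncard_coe_finset, ← nsmul_eq_mul, ← Finset.sum_const]
  refine Finset.sum_congr rfl fun q hq => ?_
  rw [(Finset.mem_filter.1 hq).2]

theorem V_le_exp {T : BT} {z K : ℝ} (hz : 0 < z)
    (hK : ∀ u ∈ Set.Icc (0 : ℝ) 1, growth u + u * Real.log z ≤ K) :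
    V z T ≤ T.size * (2 * Real.exp (T.size * K)) := by
  rw [V_eq_sum]
  have h1 : ∀ j ∈ Finset.Icc 1 T.size, ((deck j T).ncard : ℝ) * z ^ j ≤
      2 * Real.exp (T.size * K) := by
    intro j hj
    obtain ⟨hj1, hj2⟩ := Finset.mem_Icc.1 hj
    have hn : (0 : ℝ) < T.size := by
      have : 0 < T.size := by omega
      exact_mod_cast this
    have h2 : ((deck j T).ncard : ℝ) ≤ M T.size j := by exact_mod_cast ncard_deck_le_M j T
    have h3 := F_le_growth hj1 hj2
    have h4 := M_pos hj1 hj2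
    unfold F at h3
    have h5 : (M T.size j : ℝ) ≤ 2 * Real.exp (T.size * growth (j / T.size)) := by
      rw [← Real.exp_log h4]
      calc Real.exp (Real.log (M T.size j))
          ≤ Real.exp (Real.log 2 + T.size * growth (j / T.size)) :=
            Real.exp_le_exp.2 (by linarith)
        _ = _ := by rw [Real.exp_add, Real.exp_log two_pos]
    have h6 := hK _ (ratio_mem hj1 hj2)
    have h7 : z ^ j = Real.exp (j * Real.log z) := by
      rw [mul_comm, Real.exp_mul, Real.exp_log hz, Real.rpow_natCast]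
    calc ((deck j T).ncard : ℝ) * z ^ j ≤ M T.size j * z ^ j :=
          mul_le_mul_of_nonneg_right h2 (pow_nonneg hz.le j)
      _ ≤ 2 * Real.exp (T.size * growth (j / T.size)) * z ^ j :=
          mul_le_mul_of_nonneg_right h5 (pow_nonneg hz.le j)
      _ = 2 * Real.exp (T.size * growth (j / T.size) + j * Real.log z) := by
          rw [h7, Real.exp_add]
          ring
      _ ≤ 2 * Real.exp (T.size * K) := by
          refine mul_le_mul_of_nonneg_left (Real.exp_le_exp.2 ?_) two_pos.le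
          calc T.size * growth (j / T.size) + j * Real.log z
              = T.size * (growth (j / T.size) + j / T.size * Real.log z) := by
                field_simp
            _ ≤ T.size * K := mul_le_mul_of_nonneg_left h6 hn.le
  calc ∑ j ∈ Finset.Icc 1 T.size, ((deck j T).ncard : ℝ) * z ^ j
      ≤ ∑ _j ∈ Finset.Icc 1 T.size, 2 * Real.exp (T.size * K) := Finset.sum_le_sum h1
    _ = T.size * (2 * Real.exp (T.size * K)) := by
        rw [Finset.sum_const, Nat.card_Icc, Nat.add_sub_cancel, nsmul_eq_mul]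

/-- From trees with large weights to the growth function. -/
theorem legendre_of {z K r : ℝ} {a : ℕ} (ha : 1 ≤ a) (hz : 0 < z) (hr : 0 < r)
    (hK : ∀ u ∈ Set.Icc (0 : ℝ) 1, growth u + u * Real.log z ≤ K)
    (h : ∀ q : ℕ, ∃ T : BT, T.size = a * q + 4 ∧ r ^ q * z ^ 4 ≤ V z T) :
    Real.log r / a ≤ K := by
  have ha' : (0 : ℝ) < a := by exact_mod_cast ha
  have key : ∀ q : ℕ, 1 ≤ q → Real.log r - a * K ≤
      (a + 4) * ((1 + Real.log ((a * q + 4 : ℕ) : ℝ)) / ((a * q + 4 : ℕ) : ℝ)) +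
        (|Real.log 2| + 4 * |K| + 4 * |Real.log z|) * (1 / (q : ℝ)) := by
    intro q hq
    have hq' : (0 : ℝ) < q := by exact_mod_cast hq
    obtain ⟨T, hT, h1⟩ := h q
    have h2 := V_le_exp (T := T) hz hK
    rw [hT] at h2
    set n : ℝ := ((a * q + 4 : ℕ) : ℝ) with hndef
    have hn : n = a * q + 4 := by
      rw [hndef]
      push_cast
      ring
    have hn0 : 0 < n := by
      rw [hn]
      positivity
    have hn1 : 1 ≤ n := by
      rw [hn]
      nlinarith [mul_pos ha' hq']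
    have h3 : Real.log (r ^ q * z ^ 4) ≤ Real.log (n * (2 * Real.exp (n * K))) :=
      Real.log_le_log (by positivity) (h1.trans h2)
    rw [Real.log_mul (by positivity) (by positivity), Real.log_pow, Real.log_pow,
      Real.log_mul (by positivity) (by positivity), Real.log_mul (by norm_num) (by positivity),
      Real.log_exp] at h3
    have h4 : (q : ℝ) * (Real.log r - a * K) ≤
        (1 + Real.log n) + (|Real.log 2| + 4 * |K| + 4 * |Real.log z|) := by
      have e1 := le_abs_self (Real.log 2)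
      have e2 := le_abs_self K
      have e3 := neg_abs_le (Real.log z)
      rw [hn] at h3 ⊢
      push_cast at h3
      linarith
    have h5 : (1 + Real.log n) ≤ q * ((a + 4) * ((1 + Real.log n) / n)) := by
      have h6 : n ≤ q * (a + 4) := by
        rw [hn]
        have : (1 : ℝ) ≤ q := by exact_mod_cast hq
        nlinarith
      have h7 : 0 ≤ (1 + Real.log n) / n := by
        have := Real.log_nonneg hn1
        positivity
      calc 1 + Real.log n = n * ((1 + Real.log n) / n) := by field_simp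
        _ ≤ q * (a + 4) * ((1 + Real.log n) / n) := mul_le_mul_of_nonneg_right h6 h7
        _ = _ := by ring
    have h8 : (|Real.log 2| + 4 * |K| + 4 * |Real.log z|) =
        q * ((|Real.log 2| + 4 * |K| + 4 * |Real.log z|) * (1 / (q : ℝ))) := by
      field_simp
    have h9 : (q : ℝ) * (Real.log r - a * K) ≤ q * ((a + 4) * ((1 + Real.log n) / n) +
        (|Real.log 2| + 4 * |K| + 4 * |Real.log z|) * (1 / (q : ℝ))) := by
      rw [mul_add, ← h8]
      linarith
    exact le_of_mul_le_mul_left h9 hq'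
  have t1 : Tendsto (fun q : ℕ => a * q + 4) atTop atTop :=
    tendsto_atTop_mono (fun q => by
      have := Nat.mul_le_mul_right q ha
      show q ≤ a * q + 4
      omega) tendsto_id
  have t2 : Tendsto (fun q : ℕ => (a + 4 : ℝ) *
      ((1 + Real.log ((a * q + 4 : ℕ) : ℝ)) / ((a * q + 4 : ℕ) : ℝ)) +
        (|Real.log 2| + 4 * |K| + 4 * |Real.log z|) * (1 / (q : ℝ))) atTop
      (𝓝 ((a + 4 : ℝ) * 0 + (|Real.log 2| + 4 * |K| + 4 * |Real.log z|) * 0)) :=
    ((log_div_tendsto.comp t1).const_mul _).add (tendsto_one_div_atTop_nhds_zero_nat.const_mul _)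
  rw [mul_zero, mul_zero, add_zero] at t2
  have h1 : Real.log r - a * K ≤ 0 :=
    ge_of_tendsto t2 ((eventually_ge_atTop 1).mono fun q hq => key q hq)
  rw [div_le_iff₀ ha']
  linarith

/-- A supporting line of the growth function. -/
theorem exists_slope {u : ℝ} (h0 : 0 < u) (h1 : u < 1) : ∃ s : ℝ, ∀ v ∈ Set.Icc (0 : ℝ) 1,
    growth v ≤ growth u + s * (v - u) := by
  have hc := growth_concave
  have hu : u ∈ Set.Icc (0 : ℝ) 1 := ⟨h0.le, h1.le⟩
  have hcomp : ∀ v w : ℝ, 0 ≤ v → v < u → u < w → w ≤ 1 →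
      (growth w - growth u) / (w - u) ≤ (growth u - growth v) / (u - v) := by
    intro v w hv hvu huw hw
    exact hc.slope_anti_adjacent ⟨hv, by linarith⟩ ⟨by linarith, hw⟩ hvu huw
  set S : Set ℝ := {x | ∃ w : ℝ, u < w ∧ w ≤ 1 ∧ (growth w - growth u) / (w - u) = x} with hS
  have hne : S.Nonempty := ⟨_, 1, h1, le_rfl, rfl⟩
  have hbdd : BddAbove S := by
    refine ⟨(growth u - growth 0) / (u - 0), ?_⟩
    rintro x ⟨w, hw1, hw2, rfl⟩
    exact hcomp 0 w le_rfl h0 hw1 hw2
  refine ⟨sSup S, ?_⟩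
  rintro v ⟨hv0, hv1⟩
  rcases lt_trichotomy v u with hv | rfl | hv
  · have h2 : sSup S ≤ (growth u - growth v) / (u - v) := by
      refine csSup_le hne ?_
      rintro x ⟨w, hw1, hw2, rfl⟩
      exact hcomp v w hv0 hv hw1 hw2
    rw [le_div_iff₀ (by linarith)] at h2
    linarith
  · simp
  · have h2 : (growth v - growth u) / (v - u) ≤ sSup S := le_csSup hbdd ⟨v, hv, hv1, rfl⟩
    rw [div_le_iff₀ (by linarith)] at h2
    linarith

theorem vv_pos {z : ℝ} (hz : 0 < z) (k : ℕ) : 0 < vv z k := by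
  induction k with
  | zero =>
    show 0 < z ^ 4 + 2 * z ^ 3 + 2 * z ^ 2
    positivity
  | succ k ih =>
    show 0 < (z ^ 3 + 2 * z ^ 2) * vv z k + (z + 1) * z ^ 3
    positivity

theorem vv_eq {z ω κ : ℝ} (hω : ω ^ 3 = z ^ 3 + 2 * z ^ 2) (hκ : κ * (z ^ 2 + z - 1) = 1)
    (k : ℕ) : vv z k =
      (ω ^ 3) ^ k * (z ^ 4 + 2 * z ^ 3 + 2 * z ^ 2 + κ * z ^ 3) - κ * z ^ 3 := by
  induction k with
  | zero =>
    show z ^ 4 + 2 * z ^ 3 + 2 * z ^ 2 = _
    ring
  | succ k ih =>
    show (z ^ 3 + 2 * z ^ 2) * vv z k + (z + 1) * z ^ 3 = _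
    rw [ih, ← hω, pow_succ]
    have h1 : κ * ω ^ 3 = z + 1 + κ := by
      rw [hω]
      linear_combination (z + 1) * hκ
    linear_combination (-z ^ 3) * h1

/-- The rates of the patterns. -/
theorem exists_tilt {u : ℝ} (h0 : 0 < u) (h1 : u < 1) : ∃ z : ℝ, 0 < z ∧
    Real.log (z ^ 3 + 2 * z ^ 2) / 3 ≤ growth u + u * Real.log z ∧
    ∀ k : ℕ, Real.log (vv z k) / ((3 * k + 4 : ℕ) : ℝ) ≤ growth u + u * Real.log z := by
  obtain ⟨s, hs⟩ := exists_slope h0 h1
  refine ⟨Real.exp (-s), Real.exp_pos _, ?_, fun k => ?_⟩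
  · have hz := Real.exp_pos (-s)
    have h2 := legendre_of (z := Real.exp (-s)) (K := growth u + u * Real.log (Real.exp (-s)))
      (r := Real.exp (-s) ^ 3 + 2 * Real.exp (-s) ^ 2) (a := 3) (by norm_num) hz (by positivity)
      (fun v hv => ?_) (fun q => ?_)
    · exact_mod_cast h2
    · have := hs v hv
      rw [Real.log_exp]
      linarith
    · obtain ⟨T, hT, h3⟩ := exists_altp q
      exact ⟨T, hT, h3 _ hz.le⟩
  · have hz := Real.exp_pos (-s)
    refine legendre_of (z := Real.exp (-s)) (K := growth u + u * Real.log (Real.exp (-s)))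
      (r := vv (Real.exp (-s)) k) (a := 3 * k + 4) (by omega) hz (vv_pos hz k)
      (fun v hv => ?_) (fun q => ?_)
    · have := hs v hv
      rw [Real.log_exp]
      linarith
    · obtain ⟨T, hT, h3⟩ := exists_patk k q
      exact ⟨T, hT, h3 _ hz.le⟩

/-- The exponent of the alternating trees with the parameter `z`. -/
noncomputable def rt (u z : ℝ) : ℝ := Real.log (z ^ 3 + 2 * z ^ 2) / 3 - u * Real.log z

theorem rt_eq {u z : ℝ} (hz : 0 < z) :
    rt u z = Real.log (z + 2) / 3 + (2 / 3 - u) * Real.log z := by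
  unfold rt
  rw [show z ^ 3 + 2 * z ^ 2 = (z + 2) * z ^ 2 by ring, Real.log_mul (by positivity)
    (by positivity), Real.log_pow]
  push_cast
  ring

/-- The parameter which minimizes the exponent. -/
theorem rt_lt {u w z : ℝ} (hw : 0 < w) (hz : 0 < z) (h : u = 2 / 3 + w / (3 * (w + 2)))
    (hne : z ≠ w) : rt u w < rt u z := by
  rw [rt_eq hw, rt_eq hz, h]
  have hθ : 0 < w / (w + 2) := by positivity
  have hθ' : 0 < 2 / (w + 2) := by positivity
  have hsum : w / (w + 2) + 2 / (w + 2) = 1 := by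
    rw [← add_div, div_self (by positivity)]
  have ht : z / w ≠ 1 := by
    intro h1
    rw [div_eq_one_iff_eq hw.ne'] at h1
    exact hne h1
  have h1 := strictConcaveOn_log_Ioi.2 (x := z / w) (y := 1) (Set.mem_Ioi.2 (by positivity))
    (Set.mem_Ioi.2 one_pos) ht hθ hθ' hsum
  rw [Real.log_one, smul_eq_mul, smul_eq_mul, smul_eq_mul, smul_eq_mul, mul_zero, add_zero,
    mul_one, Real.log_div hz.ne' hw.ne'] at h1
  have h2 : w / (w + 2) * (z / w) + 2 / (w + 2) = (z + 2) / (w + 2) := by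
    field_simp
  rw [h2, Real.log_div (by positivity) (by positivity)] at h1
  have h3 : w / (3 * (w + 2)) = w / (w + 2) / 3 := by
    rw [div_div, mul_comm]
  rw [h3]
  nlinarith

theorem rate_lt {z : ℝ} (h0 : 0 < z) (h1 : z ≤ 7 / 3) :
    Real.log (z ^ 3 + 2 * z ^ 2) / 3 < Real.log (vv z 1) / ((3 * 1 + 4 : ℕ) : ℝ) := by
  have hv : vv z 1 = z ^ 3 + 5 * z ^ 4 + 6 * z ^ 5 + 4 * z ^ 6 + z ^ 7 := by
    show (z ^ 3 + 2 * z ^ 2) * (z ^ 4 + 2 * z ^ 3 + 2 * z ^ 2) + (z + 1) * z ^ 3 = _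
    ring
  have h2 := poly_lt h0 h1
  have h3 : (z ^ 3 + 2 * z ^ 2) ^ 7 < (z ^ 3 + 5 * z ^ 4 + 6 * z ^ 5 + 4 * z ^ 6 + z ^ 7) ^ 3 := by
    have h4 : z ^ 9 * (z ^ 5 * (z + 2) ^ 7) < z ^ 9 * (1 + 5 * z + 6 * z ^ 2 + 4 * z ^ 3 +
        z ^ 4) ^ 3 := mul_lt_mul_of_pos_left h2 (by positivity)
    calc (z ^ 3 + 2 * z ^ 2) ^ 7 = z ^ 9 * (z ^ 5 * (z + 2) ^ 7) := by ring
      _ < _ := h4
      _ = _ := by ring
  have h5 := Real.log_lt_log (by positivity) h3
  rw [Real.log_pow, Real.log_pow] at h5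
  rw [hv]
  push_cast at h5 ⊢
  linarith

theorem rate_lt' {z : ℝ} (h1 : 7 / 3 ≤ z) (h2 : 0 < Gb z) : ∃ k : ℕ,
    Real.log (z ^ 3 + 2 * z ^ 2) / 3 < Real.log (vv z k) / ((3 * k + 4 : ℕ) : ℝ) := by
  have hz : 0 < z := by linarith
  have hX : 0 < z ^ 3 + 2 * z ^ 2 := by positivity
  set ω : ℝ := (z ^ 3 + 2 * z ^ 2) ^ ((1 : ℝ) / 3) with hωdef
  have hω0 : 0 < ω := Real.rpow_pos_of_pos hX _
  have hω : ω ^ 3 = z ^ 3 + 2 * z ^ 2 := by
    rw [hωdef, ← Real.rpow_natCast, ← Real.rpow_mul hX.le]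
    norm_num
  have hq : 0 < z ^ 2 + z - 1 := by nlinarith
  have hκ : 1 / (z ^ 2 + z - 1) * (z ^ 2 + z - 1) = 1 := one_div_mul_cancel hq.ne'
  set κ : ℝ := 1 / (z ^ 2 + z - 1) with hκdef
  have hκ0 : 0 < κ := by positivity
  have h3 := lt_A1 h1 hω0.le hω hκ h2
  set A := z ^ 4 + 2 * z ^ 3 + 2 * z ^ 2 + κ * z ^ 3 with hA
  have h4 : 0 < A - ω ^ 4 := by linarith
  have h5 : 1 < ω ^ 3 := by
    rw [hω]
    nlinarith [pow_pos hz 3]
  obtain ⟨k, hk⟩ := pow_unbounded_of_one_lt (κ * z ^ 3 / (A - ω ^ 4)) h5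
  rw [div_lt_iff₀ h4] at hk
  refine ⟨k, ?_⟩
  have h6 : ω ^ (3 * k + 4) < vv z k := by
    rw [vv_eq hω hκ k, ← hA, pow_add, pow_mul]
    linarith
  have h7 := Real.log_lt_log (by positivity) h6
  rw [Real.log_pow] at h7
  have h8 : Real.log ω = Real.log (z ^ 3 + 2 * z ^ 2) / 3 := by
    rw [← hω, Real.log_pow]
    push_cast
    ring
  rw [h8] at h7
  have h9 : (0 : ℝ) < ((3 * k + 4 : ℕ) : ℝ) := by positivity
  rw [lt_div_iff₀ h9]
  linarith

theorem growth_gt {u w β : ℝ} (hβ : ∀ z : ℝ, 7 / 3 ≤ z → z < β → 0 < Gb z) (hw : 0 < w)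
    (hw' : w < β) (h : u = 2 / 3 + w / (3 * (w + 2))) : rt u w < growth u := by
  have hu0 : 0 < u := by
    rw [h]
    positivity
  have hu1 : u < 1 := by
    rw [h]
    have h2 : w / (3 * (w + 2)) < 1 / 3 := by
      rw [div_lt_div_iff₀ (by positivity) (by norm_num)]
      linarith
    linarith
  obtain ⟨z, hz, h1, h2⟩ := exists_tilt hu0 hu1
  by_cases hzw : z = w
  · subst hzw
    have h3 : ∃ k : ℕ,
        Real.log (z ^ 3 + 2 * z ^ 2) / 3 < Real.log (vv z k) / ((3 * k + 4 : ℕ) : ℝ) := by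
      rcases le_total z (7 / 3) with h4 | h4
      · exact ⟨1, rate_lt hw h4⟩
      · exact rate_lt' h4 (hβ z h4 hw')
    obtain ⟨k, h3⟩ := h3
    have h4 := h2 k
    unfold rt
    linarith
  · have h3 := rt_lt hw hz h hzw
    unfold rt at h3 ⊢
    linarith

/-- The positive solution of `z ^ 3 + 2 * z ^ 2 = 1`. -/
noncomputable def z0 : ℝ := (√5 - 1) / 2

theorem z0_sq : z0 ^ 2 = 1 - z0 := by
  have h := Real.sq_sqrt (show (0 : ℝ) ≤ 5 by norm_num)
  unfold z0
  nlinarith

theorem z0_pos : 0 < z0 := by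
  have h : (2 : ℝ) < √5 := by
    rw [Real.lt_sqrt (by norm_num)]
    norm_num
  unfold z0
  linarith

theorem z0_le : z0 ≤ 1 := by
  have h : √5 ≤ 3 := by
    rw [Real.sqrt_le_left (by norm_num)]
    norm_num
  unfold z0
  linarith

theorem z0_eq : z0 ^ 3 + 2 * z0 ^ 2 = 1 := by
  have h := z0_sq
  have h3 : z0 ^ 3 = z0 * z0 ^ 2 := by ring
  rw [h3, h]
  nlinarith

/-- The parameter for the ratio `u`. -/
noncomputable def zf (u : ℝ) : ℝ := max z0 ((6 * u - 4) / (3 - 3 * u))

theorem zf_ge (u : ℝ) : z0 ≤ zf u := le_max_left _ _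

theorem zf_pos (u : ℝ) : 0 < zf u := z0_pos.trans_le (zf_ge u)

theorem zf_lt {u β : ℝ} (hβ : 2 ≤ β) (h : u < 1 - 2 / (3 * (β + 2))) : zf u < β := by
  have h1 : (1 - u) * (3 * (β + 2)) > 2 := by
    have h2 : 2 / (3 * (β + 2)) < 1 - u := by linarith
    rwa [div_lt_iff₀ (by positivity)] at h2
  have h3 : 0 < 1 - u := by
    by_contra h4
    have : (1 - u) * (3 * (β + 2)) ≤ 0 :=
      mul_nonpos_of_nonpos_of_nonneg (not_lt.1 h4) (by positivity)
    linarith
  refine max_lt (z0_le.trans_lt (by linarith)) ?_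
  rw [div_lt_iff₀ (by linarith)]
  linarith

theorem one_le_zf (u : ℝ) : 1 ≤ zf u ^ 3 + 2 * zf u ^ 2 := by
  have h := zf_ge u
  have h0 := z0_pos
  have h1 := pow_le_pow_left₀ h0.le h 3
  have h2 := pow_le_pow_left₀ h0.le h 2
  have h3 := z0_eq
  linarith

theorem growth_gt' {u β : ℝ} (hβ : ∀ z : ℝ, 7 / 3 ≤ z → z < β → 0 < Gb z) (hβ2 : 2 ≤ β)
    (h0 : 0 < u) (h1 : u < 1 - 2 / (3 * (β + 2))) : rt u (zf u) < growth u := by
  have hz := z0_pos
  have hlt := zf_lt hβ2 h1
  have h1' : u < 1 := by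
    have : 0 < 2 / (3 * (β + 2)) := by positivity
    linarith
  set u1 : ℝ := 2 / 3 + z0 / (3 * (z0 + 2)) with hu1
  have hu1' : u1 < 1 := by
    have h2 : z0 / (3 * (z0 + 2)) < 1 / 3 := by
      rw [div_lt_div_iff₀ (by positivity) (by norm_num)]
      linarith
    rw [hu1]
    linarith
  have hu10 : 0 < u1 := by
    rw [hu1]
    positivity
  rcases le_or_gt u u1 with h | h
  · -- the ray through the origin
    have h2 : rt u1 z0 < growth u1 := growth_gt hβ hz (z0_le.trans_lt (by linarith)) hu1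
    have h3 : (6 * u - 4) / (3 - 3 * u) ≤ z0 := by
      rw [div_le_iff₀ (by linarith)]
      have h4 : u ≤ 2 / 3 + z0 / (3 * (z0 + 2)) := h
      have h5 : z0 / (3 * (z0 + 2)) * (3 * (z0 + 2)) = z0 := by
        field_simp
      nlinarith
    have h4 : zf u = z0 := max_eq_left h3
    rw [h4]
    unfold rt at h2 ⊢
    rw [z0_eq, Real.log_one, zero_div, zero_sub] at h2 ⊢
    have ha : 0 ≤ u / u1 := by positivity
    have hb : 0 ≤ 1 - u / u1 := by
      rw [sub_nonneg, div_le_one hu10]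
      exact h
    have hab : u / u1 + (1 - u / u1) = 1 := by ring
    have h5 := growth_concave.2 (show u1 ∈ Set.Icc (0 : ℝ) 1 from ⟨hu10.le, hu1'.le⟩)
      (show (0 : ℝ) ∈ Set.Icc (0 : ℝ) 1 from ⟨le_rfl, zero_le_one⟩) ha hb hab
    simp only [growth_zero, smul_eq_mul, mul_zero, add_zero] at h5
    rw [div_mul_cancel₀ _ hu10.ne'] at h5
    refine lt_of_lt_of_le ?_ h5
    have h6 : u / u1 * (-(u1 * Real.log z0)) < u / u1 * growth u1 :=
      mul_lt_mul_of_pos_left h2 (by positivity)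
    have h7 : u / u1 * (-(u1 * Real.log z0)) = -(u * Real.log z0) := by
      field_simp
    linarith
  · -- the minimum
    have hu23 : 2 / 3 < u := by
      have : 0 < z0 / (3 * (z0 + 2)) := by positivity
      linarith
    set w := (6 * u - 4) / (3 - 3 * u) with hw
    have hw0 : 0 < w := by
      rw [hw]
      exact div_pos (by linarith) (by linarith)
    have h3 : z0 ≤ w := by
      rw [hw, le_div_iff₀ (by linarith)]
      have h4 : 2 / 3 + z0 / (3 * (z0 + 2)) < u := h
      have h5 : z0 / (3 * (z0 + 2)) * (3 * (z0 + 2)) = z0 := by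
        field_simp
      nlinarith
    have h4 : zf u = w := max_eq_right h3
    have hw73 : w < β := by
      rw [← h4]
      exact hlt
    rw [h4]
    refine growth_gt hβ hw0 hw73 ?_
    have h5 : (3 - 3 * u) ≠ 0 := by linarith
    have h7 : w * (3 - 3 * u) = 6 * u - 4 := by
      rw [hw, div_mul_cancel₀ _ h5]
    have h6 : (w + 2) * (3 - 3 * u) = 2 := by
      rw [add_mul, h7]
      ring
    have h8 : w / (3 * (w + 2)) = (6 * u - 4) / 6 := by
      rw [div_eq_div_iff (by positivity) (by norm_num), ← h7]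
      linear_combination (-3 * w) * h6
    rw [h8]
    ring

theorem zf_continuousOn : ContinuousOn zf (Set.Iio 1) := by
  unfold zf
  refine ContinuousOn.sup continuousOn_const (ContinuousOn.div ?_ ?_ ?_)
  · fun_prop
  · fun_prop
  · intro u hu
    have : u < 1 := hu
    linarith

/-- The gap between the two exponents. -/
theorem exists_gap {ε v β : ℝ} (hβ : ∀ z : ℝ, 7 / 3 ≤ z → z < β → 0 < Gb z) (hβ2 : 2 ≤ β)
    (hε : 0 < ε) (hv : v < 1 - 2 / (3 * (β + 2))) : ∃ c : ℝ, 0 < c ∧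
      ∀ u : ℝ, ε ≤ u → u ≤ v → rt u (zf u) + c ≤ growth u := by
  have hv1 : v < 1 := by
    have : 0 < 2 / (3 * (β + 2)) := by positivity
    linarith
  rcases le_or_gt ε v with h | h
  · have hsub : Set.Icc ε v ⊆ Set.Icc (0 : ℝ) 1 := fun u hu =>
      ⟨hε.le.trans hu.1, hu.2.trans hv1.le⟩
    have hz : ContinuousOn zf (Set.Icc ε v) :=
      zf_continuousOn.mono fun u hu => lt_of_le_of_lt hu.2 hv1
    have hr : ContinuousOn (fun u => growth u - rt u (zf u)) (Set.Icc ε v) := by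
      refine (growth_continuous.mono hsub).sub ?_
      unfold rt
      refine ContinuousOn.sub (ContinuousOn.div_const (ContinuousOn.log ?_ ?_) _)
        (continuousOn_id.mul (ContinuousOn.log hz fun u _ => (zf_pos u).ne'))
      · fun_prop
      · intro u _
        have := one_le_zf u
        linarith
    obtain ⟨u, hu, hmin⟩ := isCompact_Icc.exists_isMinOn ⟨ε, le_rfl, h⟩ hr
    refine ⟨growth u - rt u (zf u), ?_, ?_⟩
    · have := growth_gt' hβ hβ2 (hε.trans_le hu.1) (hu.2.trans_lt hv)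
      linarith
    · intro x hx1 hx2
      have := hmin (a := x) ⟨hx1, hx2⟩
      simp only [Set.mem_ofPred_eq] at this
      linarith
  · refine ⟨1, one_pos, fun u h1 h2 => ?_⟩
    linarith

theorem const_le {z : ℝ} {n : ℕ} (hz : 0 ≤ z) (hz' : z ≤ 12 / 5) (hn : 1 ≤ n) :
    (n : ℝ) * (z + z ^ 2) + (z + z ^ 2 + z ^ 3 + z ^ 4 + z ^ 5) ≤ 200 * n := by
  have h2 := pow_le_pow_left₀ hz hz' 2
  have h3 := pow_le_pow_left₀ hz hz' 3
  have h4 := pow_le_pow_left₀ hz hz' 4
  have h5 := pow_le_pow_left₀ hz hz' 5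
  norm_num at h2 h3 h4 h5
  have hn' : (1 : ℝ) ≤ n := by exact_mod_cast hn
  nlinarith

/-- The decks of the alternating trees. -/
theorem log_deck_altTree {n j : ℕ} (hn : 3 ≤ n) (h1 : 1 ≤ j) (hj : j ≤ n)
    (hz' : zf (j / n) ≤ 12 / 5) :
    Real.log ((deck j (altTree n)).ncard : ℝ) ≤
      n * rt (j / n) (zf (j / n)) + Real.log (200 * n) := by
  have hn0 : (0 : ℝ) < n := by
    have : 0 < n := by omega
    exact_mod_cast this
  set z := zf (j / n) with hz
  have hz0 : 0 < z := zf_pos _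
  have hr := one_le_zf (j / n)
  rw [← hz] at hr
  have h2 := altTree_V hz0.le hr hn
  have h3 := deck_weight hz0.le j (altTree n)
  have hj' : j ≤ (altTree n).size := by
    rw [altTree_size hn]
    exact hj
  have h4 : 1 ≤ (deck j (altTree n)).ncard := one_le_deck h1 hj'
  have h5 : (0 : ℝ) < (deck j (altTree n)).ncard := by exact_mod_cast h4
  have h6 : ((deck j (altTree n)).ncard : ℝ) * z ^ j ≤
      (z ^ 3 + 2 * z ^ 2) ^ (n / 3) * (200 * n) := by
    refine (h3.trans h2).trans (mul_le_mul_of_nonneg_left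
      (const_le hz0.le hz' (by omega)) (by positivity))
  have h7 := Real.log_le_log (by positivity) h6
  rw [Real.log_mul (by positivity) (by positivity), Real.log_mul (by positivity) (by positivity),
    Real.log_pow, Real.log_pow] at h7
  have h8 : ((n / 3 : ℕ) : ℝ) * Real.log (z ^ 3 + 2 * z ^ 2) ≤
      n * (Real.log (z ^ 3 + 2 * z ^ 2) / 3) := by
    have h9 : ((n / 3 : ℕ) : ℝ) ≤ n / 3 := Nat.cast_div_le
    have h10 := Real.log_nonneg hr
    calc ((n / 3 : ℕ) : ℝ) * Real.log (z ^ 3 + 2 * z ^ 2)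
        ≤ n / 3 * Real.log (z ^ 3 + 2 * z ^ 2) := mul_le_mul_of_nonneg_right h9 h10
      _ = _ := by ring
  have h9 : (n : ℝ) * rt (j / n) z =
      n * (Real.log (z ^ 3 + 2 * z ^ 2) / 3) - j * Real.log z := by
    unfold rt
    field_simp
  rw [h9]
  linarith

/-- **The alternating trees are exponentially worse than the best trees.** -/
theorem phase {ε v β : ℝ} (hβ : ∀ z : ℝ, 7 / 3 ≤ z → z < β → 0 < Gb z) (hβ2 : 2 ≤ β)
    (hβ3 : β ≤ 12 / 5) (hε : 0 < ε) (hv : v < 1 - 2 / (3 * (β + 2))) :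
    ∃ (c : ℝ) (N : ℕ), 0 < c ∧ ∀ n ≥ N, ∀ j : ℕ, ε * n ≤ j → (j : ℝ) ≤ v * n →
      ((deck j (altTree n)).ncard : ℝ) ≤ Real.exp (-(c * n)) * M n j := by
  obtain ⟨c, hc, hgap⟩ := exists_gap hβ hβ2 hε hv
  obtain ⟨N1, hN1⟩ := uniform (ε := c / 4) (by linarith)
  have h1 : ∀ᶠ n : ℕ in atTop, (1 + Real.log n) / n ≤ c / 40 :=
    log_div_tendsto.eventually (Iic_mem_nhds (by linarith))
  obtain ⟨N2, hN2⟩ := eventually_atTop.1 h1
  have hv1 : v ≤ 1 := by
    have : 0 < 2 / (3 * (β + 2)) := by positivity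
    linarith
  refine ⟨c / 2, max (max N1 N2) 3, by linarith, fun n hn j hj1 hj2 => ?_⟩
  have hnN1 : N1 ≤ n := (le_max_left _ _).trans ((le_max_left _ _).trans hn)
  have hnN2 : N2 ≤ n := (le_max_right _ _).trans ((le_max_left _ _).trans hn)
  have hn3 : 3 ≤ n := (le_max_right _ _).trans hn
  have hn0 : (0 : ℝ) < n := by
    have : 0 < n := by omega
    exact_mod_cast this
  have hj0 : 1 ≤ j := by
    by_contra hcon
    have : j = 0 := by omega
    rw [this, Nat.cast_zero] at hj1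
    nlinarith
  have hjn : j ≤ n := by
    have : (j : ℝ) ≤ n := hj2.trans (by nlinarith)
    exact_mod_cast this
  have hu1 : ε ≤ (j / n : ℝ) := by
    rw [le_div_iff₀ hn0]
    exact hj1
  have hu2 : (j / n : ℝ) ≤ v := by
    rw [div_le_iff₀ hn0]
    exact hj2
  have h2 := hgap _ hu1 hu2
  have h3 := hN1 n hnN1 j hj0 hjn
  have h4 := log_deck_altTree hn3 hj0 hjn ((zf_lt hβ2 (hu2.trans_lt hv)).le.trans hβ3)
  have h5 := hN2 n hnN2
  have h6 : Real.log (200 * n) ≤ c / 4 * n := by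
    rw [div_le_iff₀ hn0] at h5
    rw [Real.log_mul (by norm_num) hn0.ne']
    have h7 : Real.log 200 ≤ 10 := by
      rw [Real.log_le_iff_le_exp (by norm_num)]
      have h8 := Real.add_one_le_exp (1 : ℝ)
      have h9 : (2 : ℝ) ^ 10 ≤ Real.exp 1 ^ 10 := pow_le_pow_left₀ (by norm_num) (by linarith) 10
      rw [← Real.exp_nat_mul] at h9
      norm_num at h9
      linarith
    have h8 : 0 ≤ Real.log n := Real.log_natCast_nonneg _
    nlinarith
  have h7 : Real.log ((deck j (altTree n)).ncard : ℝ) ≤ -(c / 2 * n) + Real.log (M n j) := by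
    have h8 := (abs_le.1 h3).1
    have h9 : (n : ℝ) * (rt (j / n) (zf (j / n)) + c) ≤ n * growth (j / n) :=
      mul_le_mul_of_nonneg_left h2 hn0.le
    nlinarith
  have hj' : j ≤ (altTree n).size := by
    rw [altTree_size hn3]
    exact hjn
  have h8 : (0 : ℝ) < (deck j (altTree n)).ncard := by exact_mod_cast one_le_deck hj0 hj'
  calc ((deck j (altTree n)).ncard : ℝ) = Real.exp (Real.log (deck j (altTree n)).ncard) :=
        (Real.exp_log h8).symm
    _ ≤ Real.exp (-(c / 2 * n) + Real.log (M n j)) := Real.exp_le_exp.2 h7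
    _ = _ := by rw [Real.exp_add, Real.exp_log (M_pos hj0 hjn)]

end Pool.Agent.DeckB
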