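import Pool.Agent.DeckB.Nice

/-!
# Three more inequalities for the cube root of `z ^ 3 + 2 z ^ 2`, `59 / 25 ≤ z` (helper86)
-/

set_option autoImplicit false

namespace Pool.Agent.DeckB

namespace NiceB

theorem exists_shift {z : ℝ} (hz : 59 / 25 ≤ z) : ∃ t : ℝ, 0 ≤ t ∧ z = 59 / 25 + t :=
  ⟨z - 59 / 25, by linarith, by ring⟩

theorem poly7a0 {z : ℝ} (hz : 59 / 25 ≤ z) :
    (1 + (z + z ^ 2 + z ^ 3 + 2 * z ^ 4 + z ^ 5)) * z ^ 2 * (z ^ 3 + 2 * z ^ 2) ≤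
      z ^ 2 * (z ^ 2 + z - 1) * (z ^ 3 + 2 * z ^ 2) ^ 2 := by
  obtain ⟨t, ht, rfl⟩ := exists_shift hz
  rw [← sub_nonneg]
  ring_nf
  positivity

theorem poly7a {z : ℝ} (hz : 59 / 25 ≤ z) :
    (1 + (z + z ^ 2 + z ^ 3 + 2 * z ^ 4 + z ^ 5)) * (z * (z ^ 2 - 1)) +
      (z + z ^ 2 + z ^ 3 + 2 * z ^ 4 + z ^ 5) * (z ^ 2 + z - 1) ≤
      (z ^ 2 * (z ^ 2 + z - 1) * (z ^ 3 + 2 * z ^ 2) ^ 2 -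
      (1 + (z + z ^ 2 + z ^ 3 + 2 * z ^ 4 + z ^ 5)) * z ^ 2 * (z ^ 3 + 2 * z ^ 2)) *
      (z + 107 / 200) ^ 2 := by
  obtain ⟨t, ht, rfl⟩ := exists_shift hz
  rw [← sub_nonneg]
  ring_nf
  positivity

theorem poly7b {z : ℝ} (hz : 59 / 25 ≤ z) :
    (z ^ 4 * (z ^ 3 + 2 * z ^ 2) ^ 4 +
      2 * z ^ 2 * (z * (z ^ 2 - 1) + (z ^ 2 + z - 1)) * (z ^ 3 + 2 * z ^ 2) ^ 2 +
      ((z * (z ^ 2 - 1)) ^ 2 + 2 * (z * (z ^ 2 - 1)) * (z ^ 2 + z - 1))) *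
      (27 * z ^ 2 + 48 * z + 8) ^ 2 ≤
    (27 * z + 30) ^ 2 * (z ^ 2 * (z ^ 2 + z - 1) ^ 2 * (z ^ 3 + 2 * z ^ 2) ^ 4) := by
  obtain ⟨t, ht, rfl⟩ := exists_shift hz
  rw [← sub_nonneg]
  ring_nf
  positivity

theorem poly8 {z : ℝ} (hz : 59 / 25 ≤ z) :
    (1 + (z + z ^ 2 + z ^ 3 + z ^ 4)) * (z ^ 2 * (z ^ 3 + 2 * z ^ 2) *
      (27 * z ^ 2 + 48 * z + 8)) + (27 * z + 30) * ((1 + (z + z ^ 2 + z ^ 3 + z ^ 4)) *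
      (z * (z ^ 2 - 1)) + (z + z ^ 2 + z ^ 3 + z ^ 4) * (z ^ 2 + z - 1)) ≤
    (27 * z + 30) * (z ^ 2 * (z ^ 2 + z - 1) * (z ^ 3 + 2 * z ^ 2) ^ 2) := by
  obtain ⟨t, ht, rfl⟩ := exists_shift hz
  rw [← sub_nonneg]
  ring_nf
  positivity

theorem core7a {z ω κ : ℝ} (hz : 59 / 25 ≤ z) (hω : ω ^ 3 = z ^ 3 + 2 * z ^ 2)
    (hκ : κ * (z ^ 2 + z - 1) = 1) (hw : z + 107 / 200 ≤ ω) :
    (1 + (z + z ^ 2 + z ^ 3 + 2 * z ^ 4 + z ^ 5)) * (κ * z ^ 2) * ω ^ 5 +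
      ((1 + (z + z ^ 2 + z ^ 3 + 2 * z ^ 4 + z ^ 5)) * (κ * (z * (z ^ 2 - 1))) +
        (z + z ^ 2 + z ^ 3 + 2 * z ^ 4 + z ^ 5)) ≤ z ^ 2 * ω ^ 8 := by
  have hz0 : 0 < z := by linarith
  have hq : 0 < z ^ 2 + z - 1 := by nlinarith
  refine le_of_mul_le_mul_right ?_ hq
  have h1 : (z + 107 / 200) ^ 2 ≤ ω ^ 2 := pow_le_pow_left₀ (by linarith) hw 2
  have h2 := sub_nonneg.2 (poly7a0 hz)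
  have h3 := (poly7a hz).trans (mul_le_mul_of_nonneg_left h1 h2)
  have e1 : ((1 + (z + z ^ 2 + z ^ 3 + 2 * z ^ 4 + z ^ 5)) * (κ * z ^ 2) * ω ^ 5 +
      ((1 + (z + z ^ 2 + z ^ 3 + 2 * z ^ 4 + z ^ 5)) * (κ * (z * (z ^ 2 - 1))) +
        (z + z ^ 2 + z ^ 3 + 2 * z ^ 4 + z ^ 5))) * (z ^ 2 + z - 1) =
      (1 + (z + z ^ 2 + z ^ 3 + 2 * z ^ 4 + z ^ 5)) * z ^ 2 * (z ^ 3 + 2 * z ^ 2) * ω ^ 2 +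
      ((1 + (z + z ^ 2 + z ^ 3 + 2 * z ^ 4 + z ^ 5)) * (z * (z ^ 2 - 1)) +
      (z + z ^ 2 + z ^ 3 + 2 * z ^ 4 + z ^ 5) * (z ^ 2 + z - 1)) := by
    rw [← hω]
    calc _ = (1 + (z + z ^ 2 + z ^ 3 + 2 * z ^ 4 + z ^ 5)) * ((κ * (z ^ 2 + z - 1)) * z ^ 2) *
          ω ^ 5 + ((1 + (z + z ^ 2 + z ^ 3 + 2 * z ^ 4 + z ^ 5)) *
          ((κ * (z ^ 2 + z - 1)) * (z * (z ^ 2 - 1))) +
        (z + z ^ 2 + z ^ 3 + 2 * z ^ 4 + z ^ 5) * (z ^ 2 + z - 1)) := by ring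
      _ = _ := by rw [hκ]; ring
  have e2 : z ^ 2 * ω ^ 8 * (z ^ 2 + z - 1) =
      z ^ 2 * (z ^ 2 + z - 1) * (z ^ 3 + 2 * z ^ 2) ^ 2 * ω ^ 2 := by
    rw [← hω]; ring
  rw [e1, e2]
  linarith

theorem core7b {z ω κ : ℝ} (hz : 59 / 25 ≤ z) (h0 : 0 ≤ ω) (hω : ω ^ 3 = z ^ 3 + 2 * z ^ 2)
    (hκ : κ * (z ^ 2 + z - 1) = 1) (hw : (27 * z + 30) * ω ≤ 27 * z ^ 2 + 48 * z + 8) :
    ω ^ 2 * ((κ * z ^ 2) ^ 2 * ω ^ 12 + 2 * (κ * z ^ 2) * (κ * (z * (z ^ 2 - 1)) + 1) * ω ^ 6 +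
      ((κ * (z * (z ^ 2 - 1))) ^ 2 + 2 * (κ * (z * (z ^ 2 - 1))))) ≤ z ^ 2 * ω ^ 12 := by
  have hz0 : 0 < z := by linarith
  have hq : 0 < z ^ 2 + z - 1 := by nlinarith
  have hz1 : 0 < z ^ 2 - 1 := by nlinarith
  have hD : 0 < 27 * z + 30 := by linarith
  refine le_of_mul_le_mul_right ?_ (pow_pos hq 2)
  refine le_of_mul_le_mul_left ?_ (pow_pos hD 2)
  have hu : 0 ≤ (27 * z + 30) * ω := by positivity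
  have a1 : ((27 * z + 30) * ω) ^ 2 ≤ (27 * z ^ 2 + 48 * z + 8) ^ 2 := pow_le_pow_left₀ hu hw 2
  have a2 : (z ^ 4 * (z ^ 3 + 2 * z ^ 2) ^ 4 +
      2 * z ^ 2 * (z * (z ^ 2 - 1) + (z ^ 2 + z - 1)) * (z ^ 3 + 2 * z ^ 2) ^ 2 +
      ((z * (z ^ 2 - 1)) ^ 2 + 2 * (z * (z ^ 2 - 1)) * (z ^ 2 + z - 1))) *
      ((27 * z + 30) * ω) ^ 2 ≤ (z ^ 4 * (z ^ 3 + 2 * z ^ 2) ^ 4 +
      2 * z ^ 2 * (z * (z ^ 2 - 1) + (z ^ 2 + z - 1)) * (z ^ 3 + 2 * z ^ 2) ^ 2 +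
      ((z * (z ^ 2 - 1)) ^ 2 + 2 * (z * (z ^ 2 - 1)) * (z ^ 2 + z - 1))) *
      (27 * z ^ 2 + 48 * z + 8) ^ 2 :=
    mul_le_mul_of_nonneg_left a1 (by positivity)
  have e1 : (27 * z + 30) ^ 2 * (ω ^ 2 * ((κ * z ^ 2) ^ 2 * ω ^ 12 +
      2 * (κ * z ^ 2) * (κ * (z * (z ^ 2 - 1)) + 1) *
      ω ^ 6 + ((κ * (z * (z ^ 2 - 1))) ^ 2 + 2 * (κ * (z * (z ^ 2 - 1))))) *
      (z ^ 2 + z - 1) ^ 2) = (z ^ 4 * (z ^ 3 + 2 * z ^ 2) ^ 4 +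
      2 * z ^ 2 * (z * (z ^ 2 - 1) + (z ^ 2 + z - 1)) * (z ^ 3 + 2 * z ^ 2) ^ 2 +
      ((z * (z ^ 2 - 1)) ^ 2 + 2 * (z * (z ^ 2 - 1)) * (z ^ 2 + z - 1))) *
      ((27 * z + 30) * ω) ^ 2 := by
    rw [← hω]
    calc _ = (27 * z + 30) ^ 2 * (ω ^ 2 * ((κ * (z ^ 2 + z - 1)) ^ 2 * z ^ 4 * ω ^ 12 +
          2 * z ^ 2 * ((κ * (z ^ 2 + z - 1)) ^ 2 * (z * (z ^ 2 - 1)) +
            (κ * (z ^ 2 + z - 1)) * (z ^ 2 + z - 1)) * ω ^ 6 +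
          ((κ * (z ^ 2 + z - 1)) ^ 2 * (z * (z ^ 2 - 1)) ^ 2 +
            2 * (κ * (z ^ 2 + z - 1)) * (z ^ 2 + z - 1) * (z * (z ^ 2 - 1))))) := by ring
      _ = _ := by rw [hκ]; ring
  have e2 : (27 * z + 30) ^ 2 * (z ^ 2 * ω ^ 12 * (z ^ 2 + z - 1) ^ 2) =
      (27 * z + 30) ^ 2 * (z ^ 2 * (z ^ 2 + z - 1) ^ 2 * (z ^ 3 + 2 * z ^ 2) ^ 4) := by
    rw [← hω]; ring
  rw [e1, e2]
  exact a2.trans (poly7b hz)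

theorem core8 {z ω κ : ℝ} (hz : 59 / 25 ≤ z) (hω : ω ^ 3 = z ^ 3 + 2 * z ^ 2)
    (hκ : κ * (z ^ 2 + z - 1) = 1) (hw : (27 * z + 30) * ω ≤ 27 * z ^ 2 + 48 * z + 8) :
    (1 + (z + z ^ 2 + z ^ 3 + z ^ 4)) * (κ * z ^ 2) * ω ^ 4 +
      ((1 + (z + z ^ 2 + z ^ 3 + z ^ 4)) * (κ * (z * (z ^ 2 - 1))) +
        (z + z ^ 2 + z ^ 3 + z ^ 4)) ≤ z ^ 2 * ω ^ 6 := by
  have hz0 : 0 < z := by linarith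
  have hq : 0 < z ^ 2 + z - 1 := by nlinarith
  have hD : 0 < 27 * z + 30 := by linarith
  refine le_of_mul_le_mul_right ?_ hq
  refine le_of_mul_le_mul_left ?_ hD
  have a1 : (1 + (z + z ^ 2 + z ^ 3 + z ^ 4)) * (z ^ 2 * (z ^ 3 + 2 * z ^ 2)) *
      ((27 * z + 30) * ω) ≤ (1 + (z + z ^ 2 + z ^ 3 + z ^ 4)) * (z ^ 2 *
      (z ^ 3 + 2 * z ^ 2)) * (27 * z ^ 2 + 48 * z + 8) :=
    mul_le_mul_of_nonneg_left hw (by positivity)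
  have a4 := poly8 hz
  have e1 : (27 * z + 30) * (((1 + (z + z ^ 2 + z ^ 3 + z ^ 4)) * (κ * z ^ 2) * ω ^ 4 +
      ((1 + (z + z ^ 2 + z ^ 3 + z ^ 4)) * (κ * (z * (z ^ 2 - 1))) +
        (z + z ^ 2 + z ^ 3 + z ^ 4))) * (z ^ 2 + z - 1)) =
      (1 + (z + z ^ 2 + z ^ 3 + z ^ 4)) * (z ^ 2 * (z ^ 3 + 2 * z ^ 2)) *
      ((27 * z + 30) * ω) + (27 * z + 30) * ((1 + (z + z ^ 2 + z ^ 3 + z ^ 4)) *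
      (z * (z ^ 2 - 1)) + (z + z ^ 2 + z ^ 3 + z ^ 4) * (z ^ 2 + z - 1)) := by
    rw [← hω]
    calc _ = (1 + (z + z ^ 2 + z ^ 3 + z ^ 4)) * (z ^ 2 * ω ^ 3) *
      ((27 * z + 30) * ω) * (κ * (z ^ 2 + z - 1)) + (27 * z + 30) *
      ((1 + (z + z ^ 2 + z ^ 3 + z ^ 4)) *
      (z * (z ^ 2 - 1)) * (κ * (z ^ 2 + z - 1)) + (z + z ^ 2 + z ^ 3 + z ^ 4) *
      (z ^ 2 + z - 1)) := by ring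
      _ = _ := by rw [hκ]; ring
  have e2 : (27 * z + 30) * (z ^ 2 * ω ^ 6 * (z ^ 2 + z - 1)) =
      (27 * z + 30) * (z ^ 2 * (z ^ 2 + z - 1) * (z ^ 3 + 2 * z ^ 2) ^ 2) := by
    rw [← hω]; ring
  rw [e1, e2]
  refine le_trans (add_le_add a1 le_rfl) (le_trans (le_of_eq ?_) a4)
  ring

end NiceB

namespace Nice

variable {z ω κ : ℝ}

theorem s7a (G : Nice z ω κ) :
    (1 + (z + z ^ 2 + z ^ 3 + 2 * z ^ 4 + z ^ 5)) * (κ * z ^ 2) * ω ^ 5 +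
      ((1 + (z + z ^ 2 + z ^ 3 + 2 * z ^ 4 + z ^ 5)) * (κ * (z * (z ^ 2 - 1))) +
        (z + z ^ 2 + z ^ 3 + 2 * z ^ 4 + z ^ 5)) ≤ z ^ 2 * ω ^ 8 :=
  NiceB.core7a G.hz G.hω G.hκ G.w

theorem s7b (G : Nice z ω κ) :
    ω ^ 2 * ((κ * z ^ 2) ^ 2 * ω ^ 12 + 2 * (κ * z ^ 2) * (κ * (z * (z ^ 2 - 1)) + 1) * ω ^ 6 +
      ((κ * (z * (z ^ 2 - 1))) ^ 2 + 2 * (κ * (z * (z ^ 2 - 1))))) ≤ z ^ 2 * ω ^ 12 :=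
  NiceB.core7b G.hz G.h0 G.hω G.hκ G.w'

theorem s8 (G : Nice z ω κ) :
    (1 + (z + z ^ 2 + z ^ 3 + z ^ 4)) * (κ * z ^ 2) * ω ^ 4 +
      ((1 + (z + z ^ 2 + z ^ 3 + z ^ 4)) * (κ * (z * (z ^ 2 - 1))) +
        (z + z ^ 2 + z ^ 3 + z ^ 4)) ≤ z ^ 2 * ω ^ 6 :=
  NiceB.core8 G.hz G.hω G.hκ G.w'

end Nice

end Pool.Agent.DeckB
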