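import Pool.Agent.DeckB.Struct
import Pool.Agent.DeckB.NiceB
import Pool.Agent.DeckB.Beta

/-!
# The total weight of all decks, for smaller `z`
-/

set_option autoImplicit false

namespace Pool.Agent.DeckB

theorem eq_shape {T : BT} : ∀ {q : Shape}, q ∈ D T → ssize q = T.size → q = T.shape := by
  induction T with
  | leaf =>
    intro q h _
    exact mem_D_leaf.1 h
  | node l r ihl ihr =>
    intro q h hs
    have h0 : (BT.node l r).size = l.size + r.size := rfl
    have := size_pos l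
    have := size_pos r
    rcases mem_D_node.1 h with h | h | ⟨a, ha, b, hb, rfl⟩
    · have := ssize_le h
      omega
    · have := ssize_le h
      omega
    · have h1 := ssize_le ha
      have h2 := ssize_le hb
      rw [ssize_join] at hs
      rw [ihl ha (by omega), ihr hb (by omega)]
      exact join_shape l r

section

variable {z ω κ : ℝ}

theorem V_four (hz : 0 ≤ z) {T : BT} (h : T.size = 4) : V z T ≤ z + z ^ 2 + z ^ 3 + z ^ 4 := by
  have h1 : D T ⊆ {lam} ∪ ({chi} ∪ ({tau} ∪ {T.shape})) := by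
    intro q hq
    simp only [Finset.mem_union, Finset.mem_singleton]
    have h1 := ssize_le hq
    have h2 := ssize_pos q
    rcases (show ssize q = 1 ∨ ssize q = 2 ∨ ssize q = 3 ∨ ssize q = 4 by omega) with
      h3 | h3 | h3 | h3
    · exact Or.inl (eq_lam h3)
    · exact Or.inr (Or.inl (eq_chi h3))
    · exact Or.inr (Or.inr (Or.inl (eq_tau h3)))
    · exact Or.inr (Or.inr (Or.inr (eq_shape hq (by omega))))
  have h2 := mass_mono hz h1
  have h3 := mass_union_le hz {lam} ({chi} ∪ ({tau} ∪ {T.shape}))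
  have h4 := mass_union_le hz {chi} ({tau} ∪ {T.shape})
  have h5 := mass_union_le hz {tau} {T.shape}
  rw [mass_singleton, ssize_lam] at h3
  rw [mass_singleton, ssize_chi] at h4
  rw [mass_singleton, mass_singleton, ssize_tau, ssize_shape, h] at h5
  unfold V
  linarith

/-- Leaves and a cherry above `v`. -/
theorem case_a' (hz : 1 ≤ z) (hκ : κ * (z ^ 2 + z - 1) = 1) {v : BT} (hv : 2 ≤ v.size)
    (k : ℕ) : V z (chain k (.node cherry v)) + κ * B z v ≤
      Fk z k * (V z v + κ * B z v) - z * (z ^ 2 - 1) * sk z k := by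
  have hz0 : 0 ≤ z := by linarith
  have hN := N_cherry_node hz0 v
  have h1 : (1 + κ) * B z v = (z ^ 2 + z) * (κ * B z v) := by
    linear_combination (- B z v) * hκ
  induction k with
  | zero =>
    show V z (.node cherry v) + κ * B z v ≤
      (z ^ 2 + z) * (V z v + κ * B z v) - z * (z ^ 2 - 1) * 1
    have h2 := V_cherry_node hz0 hv
    linarith
  | succ k ih =>
    show _ ≤ (z * Fk z k + z ^ 2) * (V z v + κ * B z v) - z * (z ^ 2 - 1) * (z * sk z k + 1)
    have h2 := V_chain_succ hz0 k (.node cherry v)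
    have h3 : z * (V z (chain k (.node cherry v)) + κ * B z v) ≤
        z * (Fk z k * (V z v + κ * B z v) - z * (z ^ 2 - 1) * sk z k) :=
      mul_le_mul_of_nonneg_left ih hz0
    linarith

/-- A cherry above an arbitrary tree. -/
theorem cherry_le (G : Nice z ω κ) {v : BT} (hv : 2 ≤ v.size)
    (h : V z v + κ * B z v ≤ κ * z ^ 2 * ω ^ v.size + κ * (z * (z ^ 2 - 1))) (k : ℕ) :
    V z (chain k (.node cherry v)) + κ * B z (chain k (.node cherry v)) ≤
      κ * z ^ 2 * ω ^ (k + (2 + v.size)) + κ * (z * (z ^ 2 - 1)) := by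
  have hz := G.hz
  have hz0 : 0 ≤ z := by linarith
  have h0 := G.h0
  have hk := G.k_pos
  have h1 := case_a' (by linarith) G.hκ hv k
  have h2 : B z (chain k (.node cherry v)) ≤ B z v :=
    (B_chain hz0 k _).trans (mass_mono hz0 (bigD_cherry_node v))
  have h3 : κ * B z (chain k (.node cherry v)) ≤ κ * B z v := mul_le_mul_of_nonneg_left h2 hk.le
  have hF := Fk_nonneg hz0 k
  have h4 : Fk z k * (V z v + κ * B z v) ≤
      Fk z k * (κ * z ^ 2 * ω ^ v.size + κ * (z * (z ^ 2 - 1))) :=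
    mul_le_mul_of_nonneg_left h hF
  have h5 : Fk z k * (κ * z ^ 2 * ω ^ v.size) ≤ ω ^ (k + 2) * (κ * z ^ 2 * ω ^ v.size) :=
    mul_le_mul_of_nonneg_right (G.Fk_le k) (by positivity)
  have h6 : Fk z k * (κ * (z * (z ^ 2 - 1))) - z * (z ^ 2 - 1) * sk z k =
      κ * (z * (z ^ 2 - 1)) := by
    rw [Nice.Fk_eq]
    linear_combination (sk z k * (z * (z ^ 2 - 1))) * G.hκ
  have h7 : ω ^ (k + 2) * (κ * z ^ 2 * ω ^ v.size) = κ * z ^ 2 * ω ^ (k + (2 + v.size)) := by
    ring
  linarith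

/-- Caterpillars. -/
theorem cat_le (G : Nice z ω κ) (k : ℕ) :
    V z (chain (k + 2) .leaf) ≤ κ * z ^ 2 * ω ^ (k + 3) + κ * (z * (z ^ 2 - 1)) := by
  have hz := G.hz
  have hz0 : 0 ≤ z := by linarith
  have h0 := G.h0
  have hk := G.k_pos
  have hw := G.w
  have hN := N_leaf_le hz0
  have h1 : z + z ^ 2 + z ^ 3 = κ * z ^ 2 * ω ^ 3 + κ * (z * (z ^ 2 - 1)) := by
    rw [G.hω]
    linear_combination (-(z + z ^ 2 + z ^ 3)) * G.hκ
  induction k with
  | zero =>
    have h2 := V_chain_succ hz0 1 .leaf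
    have h3 := V_chain_succ hz0 0 .leaf
    have h4 : V z (chain 0 .leaf) = z := V_leaf
    rw [h4] at h3
    have h5 : V z (chain (0 + 1) .leaf) ≤ z * z + z := by linarith
    have h6 : z * V z (chain 1 .leaf) ≤ z * (z * z + z) := mul_le_mul_of_nonneg_left h5 hz0
    have h7 : V z (chain (0 + 2) .leaf) ≤ z * V z (chain 1 .leaf) + mass z (N .leaf) := h2
    rw [zero_add] at h7 ⊢
    rw [zero_add, ← h1]
    nlinarith
  | succ k ih =>
    have h2 : V z (chain (k + 1 + 2) .leaf) ≤ z * V z (chain (k + 2) .leaf) + mass z (N .leaf) :=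
      V_chain_succ hz0 (k + 2) .leaf
    have h3 : z * V z (chain (k + 2) .leaf) ≤
        z * (κ * z ^ 2 * ω ^ (k + 3) + κ * (z * (z ^ 2 - 1))) := mul_le_mul_of_nonneg_left ih hz0
    have h5 : κ * (z * (z ^ 2 - 1)) * (z - 1) + z ≤ κ * z ^ 2 * ω ^ (k + 3) * (ω - z) := by
      refine G.s1.trans ?_
      refine mul_le_mul_of_nonneg_right ?_ (by linarith)
      refine mul_le_mul_of_nonneg_left ?_ (by positivity)
      exact pow_le_pow_right₀ (by linarith) (by omega)
    have h6 : κ * z ^ 2 * ω ^ (k + 1 + 3) = κ * z ^ 2 * ω ^ (k + 3) * (ω - z) +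
        z * (κ * z ^ 2 * ω ^ (k + 3)) := by ring
    linarith

theorem cherries (hz : 0 ≤ z) : mass z (N (.node cherry cherry)) ≤ z + z ^ 4 := by
  have hV := V_cherry_le hz
  have hB : B z cherry = 0 := by
    unfold B
    rw [bigD_cherry]
    rfl
  have h2 := N_cherry_node hz cherry
  rw [hB] at h2
  have h3 : z ^ 2 * V z cherry ≤ z ^ 2 * (z + z ^ 2) :=
    mul_le_mul_of_nonneg_left hV (by positivity)
  nlinarith

/-- Two cherries at the end. -/
theorem cc_le (G : Nice z ω κ) (k : ℕ) : V z (chain k (.node cherry cherry)) ≤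
    κ * z ^ 2 * ω ^ (k + 4) + κ * (z * (z ^ 2 - 1)) := by
  have hz := G.hz
  have hz0 : 0 ≤ z := by linarith
  have h0 := G.h0
  have hk := G.k_pos
  have hw := G.w
  have hN := cherries hz0
  have h4 : V z (chain 0 (.node cherry cherry)) ≤ z + z ^ 2 + z ^ 3 + z ^ 4 := V_four hz0 rfl
  have h1 : z + z ^ 2 + z ^ 3 = κ * z ^ 2 * ω ^ 3 + κ * (z * (z ^ 2 - 1)) := by
    rw [G.hω]
    linear_combination (-(z + z ^ 2 + z ^ 3)) * G.hκ
  have h5 : z + z ^ 2 + z ^ 3 + z ^ 4 ≤ κ * z ^ 2 * ω ^ 4 + κ * (z * (z ^ 2 - 1)) := by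
    have h6 := G.s1
    have h7 : z + z ^ 2 + z ^ 3 + z ^ 4 = z * (z + z ^ 2 + z ^ 3) + z := by ring
    have h8 : κ * z ^ 2 * ω ^ 4 = κ * z ^ 2 * ω ^ 3 * (ω - z) + z * (κ * z ^ 2 * ω ^ 3) := by ring
    rw [h7, h1, h8]
    linarith
  have h10 : V z (chain 1 (.node cherry cherry)) ≤
      κ * z ^ 2 * ω ^ (1 + 4) + κ * (z * (z ^ 2 - 1)) := by
    have h11 := V_chain_succ hz0 0 (.node cherry cherry)
    have h12 := mul_le_mul_of_nonneg_left h4 hz0
    have h13 := G.s2
    have h14 : V z (chain 1 (.node cherry cherry)) ≤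
      z * V z (chain 0 (.node cherry cherry)) + mass z (N (.node cherry cherry)) := h11
    have h15 : κ * z ^ 2 * ω ^ (1 + 4) = κ * z ^ 2 * ω ^ 5 := by ring
    rw [h15]
    linarith
  induction k with
  | zero =>
    rw [zero_add]
    exact h4.trans h5
  | succ k ih =>
    rcases Nat.eq_zero_or_pos k with rfl | hk'
    · exact h10
    · have h2 := V_chain_succ hz0 k (.node cherry cherry)
      have h3 : z * V z (chain k (.node cherry cherry)) ≤
          z * (κ * z ^ 2 * ω ^ (k + 4) + κ * (z * (z ^ 2 - 1))) := mul_le_mul_of_nonneg_left ih hz0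
      have h5 : κ * (z * (z ^ 2 - 1)) * (z - 1) + z + z ^ 4 ≤
          κ * z ^ 2 * ω ^ (k + 4) * (ω - z) := by
        refine G.s3.trans ?_
        refine mul_le_mul_of_nonneg_right ?_ (by linarith)
        refine mul_le_mul_of_nonneg_left ?_ (by positivity)
        exact pow_le_pow_right₀ (by linarith) (by omega)
      have h6 : κ * z ^ 2 * ω ^ (k + 1 + 4) = κ * z ^ 2 * ω ^ (k + 4) * (ω - z) +
          z * (κ * z ^ 2 * ω ^ (k + 4)) := by ring
      linarith

theorem three_cases {l r : BT} (hl : l.size = 3) (hr : 3 ≤ r.size) {q : Shape}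
    (hq : q ∈ D (.node l r)) : q = lam ∨ q ∈ (D r).image (join lam) ∨
      q ∈ ((D r).erase lam).image (join chi) ∨
      q ∈ (((D r).erase lam).erase chi).image (join tau) ∨ q ∈ bigD r := by
  have key : ∀ a b, a ∈ D r → b ∈ D r → (join a b ∈ D r ∨ ssize a ≤ 3) →
      join a b = lam ∨ join a b ∈ (D r).image (join lam) ∨
      join a b ∈ ((D r).erase lam).image (join chi) ∨
      join a b ∈ (((D r).erase lam).erase chi).image (join tau) ∨ join a b ∈ bigD r := by
    intro a b ha hb h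
    have := ssize_pos a
    have := ssize_pos b
    by_cases ha1 : ssize a = 1
    · exact Or.inr (Or.inl (Finset.mem_image.2 ⟨b, hb, by rw [eq_lam ha1]⟩))
    by_cases hb1 : ssize b = 1
    · exact Or.inr (Or.inl (Finset.mem_image.2 ⟨a, ha, by rw [eq_lam hb1, join_comm]⟩))
    have hal : a ≠ lam := by
      rintro rfl
      exact ha1 rfl
    have hbl : b ≠ lam := by
      rintro rfl
      exact hb1 rfl
    by_cases ha2 : ssize a = 2
    · exact Or.inr (Or.inr (Or.inl (Finset.mem_image.2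
        ⟨b, Finset.mem_erase.2 ⟨hbl, hb⟩, by rw [eq_chi ha2]⟩)))
    by_cases hb2 : ssize b = 2
    · exact Or.inr (Or.inr (Or.inl (Finset.mem_image.2
        ⟨a, Finset.mem_erase.2 ⟨hal, ha⟩, by rw [eq_chi hb2, join_comm]⟩)))
    have hbc : b ≠ chi := by
      rintro rfl
      exact hb2 rfl
    rcases h with h | h
    · exact Or.inr (Or.inr (Or.inr (Or.inr (mem_bigD.2 ⟨h, a, b, rfl, by omega, by omega⟩))))
    · exact Or.inr (Or.inr (Or.inr (Or.inl (Finset.mem_image.2
        ⟨b, Finset.mem_erase.2 ⟨hbc, Finset.mem_erase.2 ⟨hbl, hb⟩⟩,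
          by rw [eq_tau (show ssize a = 3 by omega)]⟩))))
  have main : ∀ q ∈ D r, q = lam ∨ q ∈ (D r).image (join lam) ∨
      q ∈ ((D r).erase lam).image (join chi) ∨
      q ∈ (((D r).erase lam).erase chi).image (join tau) ∨ q ∈ bigD r := by
    intro q h
    rcases shape_cases q with rfl | ⟨a, b, rfl⟩
    · exact Or.inl rfl
    · exact key a b (D_children h).1 (D_children h).2 (Or.inl h)
  rcases mem_D_node.1 hq with h | h | ⟨a, ha, b, hb, rfl⟩
  · exact main q (three_subset hl hr h)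
  · exact main q h
  · exact key a b (three_subset hl hr ha) hb (Or.inr (by
      have := ssize_le ha
      omega))

theorem three_bounds (hz : 0 ≤ z) {l r : BT} (hl : l.size = 3) (hr : 3 ≤ r.size) :
    V z (.node l r) ≤
        z + z * V z r + z ^ 2 * (V z r - z) + z ^ 3 * (V z r - z - z ^ 2) + B z r ∧
      mass z (N (.node l r)) ≤
        z + z ^ 2 * (V z r - z) + z ^ 3 * (V z r - z - z ^ 2) + B z r ∧
      B z (.node l r) ≤ z ^ 3 * (V z r - z - z ^ 2) + B z r := by
  have e1 := mass_join_le hz lam (D r)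
  have e2 := mass_join_le hz chi ((D r).erase lam)
  have e3 := mass_join_le hz tau (((D r).erase lam).erase chi)
  have hc : chi ∈ (D r).erase lam :=
    Finset.mem_erase.2 ⟨fun h => lam_ne_join _ _ h.symm, chi_mem (by omega)⟩
  rw [ssize_lam, pow_one] at e1
  rw [mass_erase (lam_mem r), ssize_chi, ssize_lam, pow_one] at e2
  rw [mass_erase hc, mass_erase (lam_mem r), ssize_tau, ssize_chi, ssize_lam, pow_one] at e3
  set S1 := (D r).image (join lam)
  set S2 := ((D r).erase lam).image (join chi)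
  set S3 := (((D r).erase lam).erase chi).image (join tau)
  have u1 := mass_union_le hz {lam} (S1 ∪ (S2 ∪ (S3 ∪ bigD r)))
  have u2 := mass_union_le hz S1 (S2 ∪ (S3 ∪ bigD r))
  have u3 := mass_union_le hz S2 (S3 ∪ bigD r)
  have u4 := mass_union_le hz S3 (bigD r)
  have u5 := mass_union_le hz {lam} (S2 ∪ (S3 ∪ bigD r))
  rw [mass_singleton, ssize_lam, pow_one] at u1 u5
  have s1 : D (.node l r) ⊆ {lam} ∪ (S1 ∪ (S2 ∪ (S3 ∪ bigD r))) := by
    intro q hq
    simp only [Finset.mem_union, Finset.mem_singleton]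
    exact three_cases hl hr hq
  have s2 : N (.node l r) ⊆ {lam} ∪ (S2 ∪ (S3 ∪ bigD r)) := by
    intro q hq
    obtain ⟨h1, h2⟩ := mem_N.1 hq
    simp only [Finset.mem_union, Finset.mem_singleton]
    rcases three_cases hl hr h1 with h | h | h | h | h
    · exact Or.inl h
    · obtain ⟨x, -, hx⟩ := Finset.mem_image.1 h
      exact absurd hx.symm (h2 x)
    · exact Or.inr (Or.inl h)
    · exact Or.inr (Or.inr (Or.inl h))
    · exact Or.inr (Or.inr (Or.inr h))
  have s3 : bigD (.node l r) ⊆ S3 ∪ bigD r := by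
    intro q hq
    obtain ⟨h1, a, b, hab, ha, hb⟩ := mem_bigD.1 hq
    rw [Finset.mem_union]
    rcases three_cases hl hr h1 with h | h | h | h | h
    · rw [h] at hab
      exact absurd hab (lam_ne_join _ _)
    · obtain ⟨x, -, hx⟩ := Finset.mem_image.1 h
      exact (big_ne (hx.trans hab).symm ha hb (by rw [ssize_lam]; omega)).elim
    · obtain ⟨x, -, hx⟩ := Finset.mem_image.1 h
      exact (big_ne (hx.trans hab).symm ha hb (by rw [ssize_chi])).elim
    · exact Or.inl h
    · exact Or.inr h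
  have m1 := mass_mono hz s1
  have m2 := mass_mono hz s2
  have m3 := mass_mono hz s3
  unfold V B
  refine ⟨by linarith, by linarith, by linarith⟩

/-- Three leaves on the left. -/
theorem three_le' (G : Nice z ω κ) {l r : BT} (hl : l.size = 3) (hr : 3 ≤ r.size)
    (h : V z r + κ * B z r ≤ κ * z ^ 2 * ω ^ r.size + κ * (z * (z ^ 2 - 1))) (k : ℕ) :
    V z (chain k (.node l r)) + κ * B z (.node l r) ≤
      κ * z ^ 2 * ω ^ (k + (3 + r.size)) + κ * (z * (z ^ 2 - 1)) := by
  have hz := G.hz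
  have hz0 : 0 ≤ z := by linarith
  have h0 := G.h0
  have hk := G.k_pos
  have hw := G.w
  obtain ⟨hV, hN, hB⟩ := three_bounds hz0 hl hr
  have hB0 := B_nonneg hz0 r
  have hBu := B_nonneg hz0 (.node l r)
  have hVr := V_nonneg hz0 r
  have hB' := mul_le_mul_of_nonneg_left hB hk.le
  have hω1 : 1 ≤ ω := by linarith
  set X := V z r + κ * B z r with hX
  have hX0 : 0 ≤ X := by positivity
  have k1 : (1 + κ) * B z r = κ * (z ^ 2 + z) * B z r := by
    linear_combination (- B z r) * G.hκ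
  have k2 : (1 + z + κ) * B z r = κ * (z ^ 3 + 2 * z ^ 2) * B z r := by
    linear_combination (-((1 + z) * B z r)) * G.hκ
  -- no leaf above
  have c0 : V z (.node l r) + κ * B z (.node l r) ≤
      (z + z ^ 2 + z ^ 3 + κ * z ^ 3) * X +
        (z - z ^ 3 - z ^ 4 - z ^ 5 - κ * (z ^ 4 + z ^ 5)) := by
    have h1 : κ * (z ^ 2 + z) * B z r ≤ (z + z ^ 2 + z ^ 3 + κ * z ^ 3) * (κ * B z r) := by
      have : 0 ≤ (z ^ 3 + κ * z ^ 3) * (κ * B z r) := by positivity
      nlinarith
    rw [hX]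
    linarith
  -- one leaf above
  have c1 : V z (chain 1 (.node l r)) + κ * B z (.node l r) ≤
      (z ^ 4 + 2 * z ^ 3 + 2 * z ^ 2 + κ * z ^ 3) * X +
        ((z + 1) * (z - z ^ 3 - z ^ 4 - z ^ 5) - κ * (z ^ 4 + z ^ 5)) := by
    have h1 : κ * (z ^ 3 + 2 * z ^ 2) * B z r ≤
        (z ^ 4 + 2 * z ^ 3 + 2 * z ^ 2 + κ * z ^ 3) * (κ * B z r) := by
      have : 0 ≤ (z ^ 4 + z ^ 3 + κ * z ^ 3) * (κ * B z r) := by positivity
      nlinarith
    have h2 : V z (chain 1 (.node l r)) ≤
        z * V z (.node l r) + mass z (N (.node l r)) := V_chain_succ hz0 0 (.node l r)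
    have h3 := mul_le_mul_of_nonneg_left hV hz0
    rw [hX]
    linarith
  have hp : ∀ A W c : ℝ, A ≤ W → 0 ≤ A →
      A * (κ * (z * (z ^ 2 - 1))) + c ≤ κ * (z * (z ^ 2 - 1)) →
      A * X + c ≤ W * (κ * z ^ 2 * ω ^ r.size) + κ * (z * (z ^ 2 - 1)) := by
    intro A W c h1 h2 h3
    have h4 := mul_le_mul_of_nonneg_left h h2
    have h5 : A * (κ * z ^ 2 * ω ^ r.size) ≤ W * (κ * z ^ 2 * ω ^ r.size) :=
      mul_le_mul_of_nonneg_right h1 (by positivity)
    linarith
  have d0 := hp _ _ _ G.s5 (by positivity) G.s5c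
  have d1 := hp _ _ _ G.s6 (by positivity) G.s6c
  have step : ∀ k : ℕ, 1 ≤ k → V z (chain k (.node l r)) + κ * B z (.node l r) ≤
      κ * z ^ 2 * ω ^ (k + (3 + r.size)) + κ * (z * (z ^ 2 - 1)) := by
    intro k hk1
    induction k with
    | zero => omega
    | succ k ih =>
      rcases Nat.eq_zero_or_pos k with rfl | hk'
      · refine (c1.trans d1).trans (le_of_eq ?_)
        ring
      · have i1 := ih hk'
        have i2 := V_chain_succ hz0 k (.node l r)
        have i3 := mul_le_mul_of_nonneg_left i1 hz0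
        have i4 : 0 ≤ (z - 1) * (κ * B z (.node l r)) :=
          mul_nonneg (by linarith) (by positivity)
        have i5 : B z r ≤ (z ^ 2 + z ^ 3) * (κ * B z r) := by
          have j1 : κ * (z ^ 2 + z - 1) * B z r ≤ κ * (z ^ 2 + z ^ 3) * B z r := by
            refine mul_le_mul_of_nonneg_right (mul_le_mul_of_nonneg_left ?_ hk.le) hB0
            nlinarith
          rw [G.hκ] at j1
          linarith
        have i6 : mass z (N (.node l r)) ≤ z + (z ^ 2 + z ^ 3) * X := by
          have j1 : 0 ≤ z ^ 3 + z ^ 3 * (z + z ^ 2) := by positivity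
          rw [hX]
          linarith
        have i7 : (z ^ 2 + z ^ 3) * X ≤
            (z ^ 2 + z ^ 3) * (κ * z ^ 2 * ω ^ r.size + κ * (z * (z ^ 2 - 1))) :=
          mul_le_mul_of_nonneg_left h (by positivity)
        have i8 : (z ^ 2 + z ^ 3) * (κ * z ^ 2 * ω ^ r.size) +
            ((z ^ 2 + z ^ 3) * (κ * (z * (z ^ 2 - 1))) + z +
              κ * (z * (z ^ 2 - 1)) * (z - 1)) ≤
            κ * z ^ 2 * ω ^ (k + (3 + r.size)) * (ω - z) := by
          obtain ⟨m, hm⟩ : ∃ m, r.size = m + 3 := ⟨r.size - 3, by omega⟩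
          rw [hm]
          have hpm : 1 ≤ ω ^ m := one_le_pow₀ hω1
          have j0 : 0 ≤ κ * (z * (z ^ 2 - 1)) := by
            have : 0 ≤ z ^ 2 - 1 := by nlinarith
            positivity
          have j1 : 0 ≤ (z ^ 2 + z ^ 3) * (κ * (z * (z ^ 2 - 1))) + z +
              κ * (z * (z ^ 2 - 1)) * (z - 1) := by
            have : 0 ≤ κ * (z * (z ^ 2 - 1)) * (z - 1) := mul_nonneg j0 (by linarith)
            positivity
          have j2 := mul_le_mul_of_nonneg_left G.s9 (by positivity : 0 ≤ ω ^ m)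
          have j3 : 1 * ((z ^ 2 + z ^ 3) * (κ * (z * (z ^ 2 - 1))) + z +
              κ * (z * (z ^ 2 - 1)) * (z - 1)) ≤ ω ^ m * ((z ^ 2 + z ^ 3) *
              (κ * (z * (z ^ 2 - 1))) + z + κ * (z * (z ^ 2 - 1)) * (z - 1)) :=
            mul_le_mul_of_nonneg_right hpm j1
          have j4 : ω ^ m * (κ * z ^ 2 * ω ^ 7 * (ω - z)) ≤
              κ * z ^ 2 * ω ^ (k + (3 + (m + 3))) * (ω - z) := by
            rw [show ω ^ m * (κ * z ^ 2 * ω ^ 7 * (ω - z)) =
              κ * z ^ 2 * ω ^ (m + 7) * (ω - z) by ring]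
            refine mul_le_mul_of_nonneg_right ?_ (by linarith)
            refine mul_le_mul_of_nonneg_left ?_ (by positivity)
            exact pow_le_pow_right₀ hω1 (by omega)
          have j5 : ω ^ m * (ω ^ 3 * ((z ^ 2 + z ^ 3) * (κ * z ^ 2)) +
              ((z ^ 2 + z ^ 3) * (κ * (z * (z ^ 2 - 1))) + z +
                κ * (z * (z ^ 2 - 1)) * (z - 1))) =
              (z ^ 2 + z ^ 3) * (κ * z ^ 2 * ω ^ (m + 3)) +
              ω ^ m * ((z ^ 2 + z ^ 3) *
              (κ * (z * (z ^ 2 - 1))) + z + κ * (z * (z ^ 2 - 1)) * (z - 1)) := by ring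
          linarith
        have i9 : κ * z ^ 2 * ω ^ (k + 1 + (3 + r.size)) =
            κ * z ^ 2 * ω ^ (k + (3 + r.size)) * (ω - z) +
            z * (κ * z ^ 2 * ω ^ (k + (3 + r.size))) := by ring
        linarith
  rcases Nat.eq_zero_or_pos k with rfl | hk'
  · refine (c0.trans d0).trans (le_of_eq ?_)
    ring
  · exact step k hk'

/-- The number of classes in a tree with five leaves. -/
theorem four_shapes {q : Shape} (h : ssize q = 4) :
    q = join lam tau ∨ q = join chi chi := by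
  rcases shape_cases q with rfl | ⟨a, b, rfl⟩
  · rw [ssize_lam] at h
    omega
  · rw [ssize_join] at h
    have := ssize_pos a
    have := ssize_pos b
    rcases (show ssize a = 1 ∨ ssize a = 2 ∨ ssize a = 3 by omega) with h1 | h1 | h1
    · exact Or.inl (by rw [eq_lam h1, eq_tau (show ssize b = 3 by omega)])
    · exact Or.inr (by rw [eq_chi h1, eq_chi (show ssize b = 2 by omega)])
    · exact Or.inl (by rw [eq_tau h1, eq_lam (show ssize b = 1 by omega), join_comm])

theorem V_five (hz : 0 ≤ z) {T : BT} (h : T.size = 5) :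
    V z T ≤ z + z ^ 2 + z ^ 3 + 2 * z ^ 4 + z ^ 5 := by
  have h1 : D T ⊆ {lam} ∪ ({chi} ∪ ({tau} ∪ ({join lam tau} ∪ ({join chi chi} ∪
      {T.shape})))) := by
    intro q hq
    simp only [Finset.mem_union, Finset.mem_singleton]
    have h1 := ssize_le hq
    have h2 := ssize_pos q
    rcases (show ssize q = 1 ∨ ssize q = 2 ∨ ssize q = 3 ∨ ssize q = 4 ∨ ssize q = 5 by omega)
      with h3 | h3 | h3 | h3 | h3
    · exact Or.inl (eq_lam h3)
    · exact Or.inr (Or.inl (eq_chi h3))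
    · exact Or.inr (Or.inr (Or.inl (eq_tau h3)))
    · rcases four_shapes h3 with h4 | h4
      · exact Or.inr (Or.inr (Or.inr (Or.inl h4)))
      · exact Or.inr (Or.inr (Or.inr (Or.inr (Or.inl h4))))
    · exact Or.inr (Or.inr (Or.inr (Or.inr (Or.inr (eq_shape hq (by omega))))))
  have h2 := mass_mono hz h1
  have h3 := mass_union_le hz {lam} ({chi} ∪ ({tau} ∪ ({join lam tau} ∪ ({join chi chi} ∪
      {T.shape}))))
  have h4 := mass_union_le hz {chi} ({tau} ∪ ({join lam tau} ∪ ({join chi chi} ∪ {T.shape})))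
  have h5 := mass_union_le hz {tau} ({join lam tau} ∪ ({join chi chi} ∪ {T.shape}))
  have h6 := mass_union_le hz {join lam tau} ({join chi chi} ∪ {T.shape})
  have h7 := mass_union_le hz {join chi chi} {T.shape}
  rw [mass_singleton, ssize_lam] at h3
  rw [mass_singleton, ssize_chi] at h4
  rw [mass_singleton, ssize_tau] at h5
  rw [mass_singleton, ssize_join, ssize_lam, ssize_tau, show 1 + 3 = 4 from rfl] at h6
  rw [mass_singleton, mass_singleton, ssize_join, ssize_chi, ssize_shape, h,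
    show 2 + 2 = 4 from rfl] at h7
  unfold V
  linarith

/-- One small and one large root subtree. -/
theorem small_large {v C η X ω : ℝ} {a m : ℕ} (hω : 1 ≤ ω) (hv : 0 ≤ v) (hη : 0 ≤ η)
    {V1 V2 V3 : ℝ} (hV2 : 0 ≤ V2) (h1 : V1 ≤ v) (h2 : V2 ≤ C * ω ^ (m + a) + η)
    (h3 : V3 ≤ V1 + V2 + V1 * V2)
    (h4 : (1 + v) * C * ω ^ a + ((1 + v) * η + v) ≤ X) : V3 ≤ ω ^ m * X := by
  have f2 : V3 ≤ v + (1 + v) * V2 := by
    have : V1 * (1 + V2) ≤ v * (1 + V2) := mul_le_mul_of_nonneg_right h1 (by linarith)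
    linarith
  have f3 := mul_le_mul_of_nonneg_left h2 (by linarith : 0 ≤ 1 + v)
  have hpm : 1 ≤ ω ^ m := one_le_pow₀ hω
  have f5 : 1 * ((1 + v) * η + v) ≤ ω ^ m * ((1 + v) * η + v) :=
    mul_le_mul_of_nonneg_right hpm (by positivity)
  have f6 : ω ^ m * ((1 + v) * C * ω ^ a + ((1 + v) * η + v)) =
      (1 + v) * (C * ω ^ (m + a)) + ω ^ m * ((1 + v) * η + v) := by ring
  have f7 := mul_le_mul_of_nonneg_left h4 (zero_le_one.trans hpm)
  linarith

/-- Two large root subtrees. -/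
theorem large_le' (G : Nice z ω κ) {l r : BT} (hl : 4 ≤ l.size) (hlr : l.size ≤ r.size)
    (h1 : V z l + κ * B z l ≤ κ * z ^ 2 * ω ^ l.size + κ * (z * (z ^ 2 - 1)))
    (h2 : V z r + κ * B z r ≤ κ * z ^ 2 * ω ^ r.size + κ * (z * (z ^ 2 - 1))) (k : ℕ) :
    V z (chain k (.node l r)) + κ * B z (.node l r) ≤
      κ * z ^ 2 * ω ^ (k + (l.size + r.size)) + κ * (z * (z ^ 2 - 1)) := by
  have hz := G.hz
  have hz0 : 0 ≤ z := by linarith
  have h0 := G.h0
  have hk := G.k_pos
  have hw := G.w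
  have hω1 : 1 ≤ ω := by linarith
  have hω0 : 0 < ω := by linarith
  have hη : 0 ≤ κ * (z * (z ^ 2 - 1)) := by
    have : 0 ≤ z ^ 2 - 1 := by nlinarith
    positivity
  have hVl : V z l ≤ κ * z ^ 2 * ω ^ l.size + κ * (z * (z ^ 2 - 1)) := by
    have : 0 ≤ κ * B z l := mul_nonneg hk.le (B_nonneg hz0 l)
    linarith
  have hVr : V z r ≤ κ * z ^ 2 * ω ^ r.size + κ * (z * (z ^ 2 - 1)) := by
    have : 0 ≤ κ * B z r := mul_nonneg hk.le (B_nonneg hz0 r)
    linarith
  have hVl0 := V_nonneg hz0 l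
  have hVr0 := V_nonneg hz0 r
  have hVu0 := V_nonneg hz0 (.node l r)
  have e1 := V_node_le hz0 l r
  have e2 := V_chain_le hz0 k (.node l r)
  have e3 := B_le_V hz0 (.node l r)
  have e4 := mul_le_mul_of_nonneg_left e3 hk.le
  have e5 := mul_le_mul_of_nonneg_right (G.sk_le k) hVu0
  have e6 : V z (chain k (.node l r)) + κ * B z (.node l r) ≤
      κ * ω ^ (k + 2) * V z (.node l r) := by linarith
  -- it is enough to bound `ω² V`
  have key : ω ^ 2 * V z (.node l r) ≤ z ^ 2 * ω ^ (l.size + r.size) := by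
    rcases (show l.size = 4 ∨ l.size = 5 ∨ 6 ≤ l.size by omega) with h4 | h5 | h6
    · -- four leaves on the left
      obtain ⟨m, hm⟩ : ∃ m, r.size = m + 4 := ⟨r.size - 4, by omega⟩
      rw [hm] at hVr ⊢
      rw [h4]
      have f4 := small_large hω1 (by positivity) hη hVr0 (V_four hz0 h4) hVr e1 G.s8
      calc ω ^ 2 * V z (.node l r) ≤ ω ^ 2 * (ω ^ m * (z ^ 2 * ω ^ 6)) :=
            mul_le_mul_of_nonneg_left f4 (by positivity)
        _ = z ^ 2 * ω ^ (4 + (m + 4)) := by ring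
    · -- five leaves on the left
      obtain ⟨m, hm⟩ : ∃ m, r.size = m + 5 := ⟨r.size - 5, by omega⟩
      rw [hm] at hVr ⊢
      rw [h5]
      have f4 := small_large hω1 (by positivity) hη hVr0 (V_five hz0 h5) hVr e1 G.s7a
      calc ω ^ 2 * V z (.node l r) ≤ ω ^ 2 * (ω ^ m * (z ^ 2 * ω ^ 8)) :=
            mul_le_mul_of_nonneg_left f4 (by positivity)
        _ = z ^ 2 * ω ^ (5 + (m + 5)) := by ring
    · -- both at least six
      obtain ⟨a, ha⟩ : ∃ a, l.size = a + 6 := ⟨l.size - 6, by omega⟩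
      obtain ⟨b, hb⟩ : ∃ b, r.size = b + 6 := ⟨r.size - 6, by omega⟩
      rw [ha] at hVl ⊢
      rw [hb] at hVr ⊢
      have g1 : 1 ≤ ω ^ a := one_le_pow₀ hω1
      have g2 : 1 ≤ ω ^ b := one_le_pow₀ hω1
      have g0 := G.s7b
      set C := κ * z ^ 2 with hC
      set η := κ * (z * (z ^ 2 - 1)) with hηdef
      have hC0 : 0 ≤ C := by positivity
      have g3 : (1 + V z l) * (1 + V z r) ≤
          (1 + (C * ω ^ (a + 6) + η)) * (1 + (C * ω ^ (b + 6) + η)) :=
        mul_le_mul (by linarith) (by linarith) (by linarith) (by positivity)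
      have g4 : V z (.node l r) ≤ ω ^ a * ω ^ b * (C ^ 2 * ω ^ 12 +
          2 * C * (η + 1) * ω ^ 6 + (η ^ 2 + 2 * η)) := by
        have g5 : C * (η + 1) * ω ^ 6 * ω ^ a ≤ C * (η + 1) * ω ^ 6 * (ω ^ a * ω ^ b) := by
          refine mul_le_mul_of_nonneg_left ?_ (by positivity)
          exact le_mul_of_one_le_right (by positivity) g2
        have g6 : C * (η + 1) * ω ^ 6 * ω ^ b ≤ C * (η + 1) * ω ^ 6 * (ω ^ a * ω ^ b) := by
          refine mul_le_mul_of_nonneg_left ?_ (by positivity)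
          exact le_mul_of_one_le_left (by positivity) g1
        have g7 : (η ^ 2 + 2 * η) * 1 ≤ (η ^ 2 + 2 * η) * (ω ^ a * ω ^ b) := by
          refine mul_le_mul_of_nonneg_left ?_ (by positivity)
          exact one_le_mul_of_one_le_of_one_le g1 g2
        have g8 : (1 + (C * ω ^ (a + 6) + η)) * (1 + (C * ω ^ (b + 6) + η)) =
            C ^ 2 * ω ^ 12 * (ω ^ a * ω ^ b) + C * (η + 1) * ω ^ 6 * ω ^ a +
            C * (η + 1) * ω ^ 6 * ω ^ b + (η ^ 2 + 2 * η) * 1 + 1 := by ring
        rw [g8] at g3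
        linarith
      calc ω ^ 2 * V z (.node l r) ≤ ω ^ 2 * (ω ^ a * ω ^ b * (C ^ 2 * ω ^ 12 +
          2 * C * (η + 1) * ω ^ 6 + (η ^ 2 + 2 * η))) :=
            mul_le_mul_of_nonneg_left g4 (by positivity)
        _ = ω ^ a * ω ^ b * (ω ^ 2 * (C ^ 2 * ω ^ 12 +
          2 * C * (η + 1) * ω ^ 6 + (η ^ 2 + 2 * η))) := by ring
        _ ≤ ω ^ a * ω ^ b * (z ^ 2 * ω ^ 12) :=
            mul_le_mul_of_nonneg_left g0 (by positivity)
        _ = z ^ 2 * ω ^ (a + 6 + (b + 6)) := by ring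
  have e7 := mul_le_mul_of_nonneg_left key (by positivity : 0 ≤ κ * ω ^ k)
  have e8 : κ * ω ^ k * (ω ^ 2 * V z (.node l r)) = κ * ω ^ (k + 2) * V z (.node l r) := by ring
  have e9 : κ * ω ^ k * (z ^ 2 * ω ^ (l.size + r.size)) =
      κ * z ^ 2 * ω ^ (k + (l.size + r.size)) := by ring
  linarith

/-- **The total weight**, for `z` above the threshold. -/
theorem total' (G : Nice z ω κ) (n : ℕ) : ∀ T : BT, T.size ≤ n → 3 ≤ T.size →
    V z T + κ * B z T ≤ κ * z ^ 2 * ω ^ T.size + κ * (z * (z ^ 2 - 1)) := by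
  have hz := G.hz
  have hz0 : 0 ≤ z := by linarith
  have hk := G.k_pos
  induction n with
  | zero =>
    intro T h2 h3
    omega
  | succ n ih =>
    intro T hTn hT3
    have main : ∀ (k : ℕ) (l r : BT), Iso T (chain k (.node l r)) → l ≠ .leaf → r ≠ .leaf →
        l.size ≤ r.size →
          V z T + κ * B z T ≤ κ * z ^ 2 * ω ^ T.size + κ * (z * (z ^ 2 - 1)) := by
      intro k l r hi hl hr hlr
      have hs : T.size = k + (l.size + r.size) := by
        rw [hi.size_eq, chain_size]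
        rfl
      have hl2 := two_le_size hl
      have hr2 := two_le_size hr
      rw [V_iso hi, B_iso hi, hs]
      rcases hl2.eq_or_lt with h2 | h2
      · obtain rfl := size_eq_two h2.symm
        have hc : cherry.size = 2 := rfl
        rcases hr2.eq_or_lt with h3 | h3
        · obtain rfl := size_eq_two h3.symm
          have hB : B z (chain k (.node cherry cherry)) ≤ 0 := by
            refine (B_chain hz0 k _).trans ((mass_mono hz0 (bigD_cherry_node cherry)).trans ?_)
            rw [bigD_cherry]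
            exact le_of_eq rfl
          have h6 : κ * B z (chain k (.node cherry cherry)) ≤ 0 :=
            mul_nonpos_of_nonneg_of_nonpos hk.le hB
          have h7 := cc_le G k
          rw [hc]
          show _ ≤ κ * z ^ 2 * ω ^ (k + 4) + _
          linarith
        · exact cherry_le G hr2 (ih r (by omega) (by omega)) k
      · have hr3 : 3 ≤ r.size := by omega
        have h7 : κ * B z (chain k (.node l r)) ≤ κ * B z (.node l r) :=
          mul_le_mul_of_nonneg_left (B_chain hz0 k _) hk.le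
        rcases (show 3 ≤ l.size from h2).eq_or_lt with h3 | h3
        · have h8 := three_le' G h3.symm hr3 (ih r (by omega) hr3) k
          rw [← h3]
          linarith
        · have h8 := large_le' G h3 hlr (ih l (by omega) (by omega)) (ih r (by omega) hr3) k
          linarith
    obtain ⟨k, x, hi, hx⟩ := exists_chain T
    rcases hx with rfl | ⟨l, r, rfl, hl, hr⟩
    · have hs : T.size = k + 1 := by
        rw [hi.size_eq, chain_size]
        rfl
      obtain ⟨m, rfl⟩ : ∃ m, k = m + 2 := ⟨k - 2, by omega⟩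
      rw [V_iso hi, B_iso hi, hs]
      have h5 : B z (chain (m + 2) .leaf) ≤ 0 := by
        refine (B_chain hz0 (m + 2) _).trans ?_
        unfold B
        rw [bigD_leaf]
        exact le_of_eq rfl
      have h6 : κ * B z (chain (m + 2) .leaf) ≤ 0 := mul_nonpos_of_nonneg_of_nonpos hk.le h5
      have h7 := cat_le G m
      show _ ≤ κ * z ^ 2 * ω ^ (m + 3) + _
      linarith
    · rcases le_total l.size r.size with h | h
      · exact main k l r hi hl hr h
      · exact main k r l (hi.trans (chain_iso (Iso.swap (Iso.refl _) (Iso.refl _)) k)) hr hl h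

theorem V_le_pow (G : Nice z ω κ) {T : BT} (hT : 3 ≤ T.size) : V z T ≤ ω ^ T.size := by
  have hz := G.hz
  have hz0 : 0 ≤ z := by linarith
  have hk := G.k_pos
  have hw := G.w
  have h1 := total' G T.size T le_rfl hT
  have h2 : 0 ≤ κ * B z T := mul_nonneg hk.le (B_nonneg hz0 T)
  have h3 : ω ^ 2 ≤ ω ^ T.size := pow_le_pow_right₀ (by linarith) (by omega)
  have h4 : z * (z + 1) ≤ ω ^ 2 := by nlinarith
  have h5 : κ * (z - 1) * (z * (z + 1)) ≤ κ * (z - 1) * ω ^ T.size :=
    mul_le_mul_of_nonneg_left (h4.trans h3) (mul_nonneg hk.le (by linarith))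
  have h6 : κ * z ^ 2 * ω ^ T.size + κ * (z - 1) * ω ^ T.size = ω ^ T.size := by
    linear_combination ω ^ T.size * G.hκ
  linarith

end

/-- **The upper bound.** -/
theorem M_le_exp' {n d : ℕ} (hn : 3 ≤ n) (hd : d ≤ n) {y : ℝ} (hy : 0 < y)
    (hy' : 59 / 25 ≤ 1 / y) (hG : Gb (1 / y) ≤ 0) :
    (M n (n - d) : ℝ) ≤ (1 / y) ^ d * (1 + 2 * y) ^ ((n : ℝ) / 3) := by
  obtain ⟨T, hT, hM⟩ := exists_M (show 1 ≤ n by omega) (n - d)
  set z := 1 / y with hzdef
  have hz0 : 0 < z := by linarith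
  have hyz : y * z = 1 := by
    rw [hzdef]
    field_simp
  set ω := z * (1 + 2 * y) ^ ((1 : ℝ) / 3) with hωdef
  have h12 : 0 < 1 + 2 * y := by linarith
  have hc : ((1 + 2 * y) ^ ((1 : ℝ) / 3)) ^ 3 = 1 + 2 * y := by
    rw [← Real.rpow_natCast, ← Real.rpow_mul h12.le]
    norm_num
  have h0 : 0 ≤ ω := by positivity
  have hω : ω ^ 3 = z ^ 3 + 2 * z ^ 2 := by
    rw [hωdef, mul_pow, hc]
    linear_combination 2 * z ^ 2 * hyz
  have hκ : 1 / (z ^ 2 + z - 1) * (z ^ 2 + z - 1) = 1 := by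
    have : z ^ 2 + z - 1 ≠ 0 := by nlinarith
    exact one_div_mul_cancel this
  have G : Nice z ω (1 / (z ^ 2 + z - 1)) :=
    ⟨hy', h0, hω, hκ, A1_le (by linarith) h0 hω hκ hG⟩
  have h1 := V_le_pow G (T := T) (by omega)
  have h2 := deck_weight hz0.le (n - d) T
  rw [hT] at h1
  have h5 : ω ^ n = z ^ d * (1 + 2 * y) ^ ((n : ℝ) / 3) * z ^ (n - d) := by
    rw [hωdef, mul_pow, ← Real.rpow_natCast ((1 + 2 * y) ^ ((1 : ℝ) / 3)), ← Real.rpow_mul h12.le]
    have h6 : z ^ n = z ^ d * z ^ (n - d) := by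
      rw [← pow_add]
      congr 1
      omega
    rw [h6, show (1 : ℝ) / 3 * n = n / 3 by ring]
    ring
  have h6 := h2.trans h1
  rw [h5] at h6
  rw [← hM]
  exact le_of_mul_le_mul_right h6 (by positivity)

end Pool.Agent.DeckB
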