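import Pool.Agent.DeckB.Final
import Pool.Agent.DeckB.EntropyB
import Pool.Agent.DeckB.Sharp
import Pool.Agent.DeckB.Phase

/-!
# The threshold up to which the alternating tree is optimal
-/

set_option autoImplicit false

namespace Pool.Agent.DeckB

open Filter Topology

/-- The alternating tree is optimal up to the factor `9 √d` below the threshold. -/
theorem M_le_altTreeC {n d : ℕ} {β : ℝ} (hβ : 59 / 25 ≤ β) (hG : ∀ z : ℝ, β ≤ z → Gb z ≤ 0)
    (hd : 1 ≤ d) (hdn : 3 * (β + 2) * d + 10 ≤ 2 * n) :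
    (M n (n - d) : ℝ) ≤ 9 * √d * (deck (n - d) (altTree n)).ncard := by
  have hd1 : (1 : ℝ) ≤ d := by exact_mod_cast hd
  have h1 : 13 * (d : ℝ) ≤ 3 * (β + 2) * d := by nlinarith
  have h2 : 13 * d + 10 ≤ 2 * n := by
    have : 13 * (d : ℝ) + 10 ≤ 2 * n := by linarith
    exact_mod_cast this
  refine (alt_compareC hβ hd hdn fun y hy hy' => ?_).trans
    (mul_le_mul_of_nonneg_left (le_altTree' (by omega) d) (by positivity))
  have h3 : β ≤ 1 / y := by
    rw [le_div_iff₀ hy]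
    linarith
  exact M_le_exp' (by omega) (by omega) hy (hβ.trans h3) (hG _ h3)

/-- The growth function up to the threshold. -/
theorem growth_eqC {δ β : ℝ} (hβ : 59 / 25 ≤ β) (hG : ∀ z : ℝ, β ≤ z → Gb z ≤ 0)
    (h0 : 0 < δ) (h1 : δ ≤ 2 / (3 * (β + 2))) :
    growth (1 - δ) = δ * Real.log (2 / (3 * δ)) - (1 / 3 - δ) * Real.log (1 - 3 * δ) := by
  have hβ0 : 0 < β := by linarith
  have hδβ : δ * (3 * (β + 2)) ≤ 2 := by rwa [le_div_iff₀ (by positivity)] at h1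
  have hδ3 : δ < 1 / 3 := by nlinarith
  have hfl : ∀ n : ℕ, ⌊δ * n⌋₊ ≤ n := by
    intro n
    refine Nat.floor_le_of_le ?_
    have : (0 : ℝ) ≤ n := Nat.cast_nonneg _
    nlinarith
  have hδ : Tendsto (fun n : ℕ => (⌊δ * n⌋₊ : ℝ) / n) atTop (𝓝 δ) :=
    floor_ratio h0.le tendsto_id
  have h2 : Tendsto (fun n : ℕ => Real.log (M n (n - ⌊δ * n⌋₊)) / n) atTop
      (𝓝 (growth (1 - δ))) := by
    refine log_M_tendsto (n := fun n : ℕ => n) (j := fun n : ℕ => n - ⌊δ * n⌋₊)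
      (by linarith) (by linarith) tendsto_id ?_ ?_
    · filter_upwards [eventually_ge_atTop 1] with n hn
      refine ⟨?_, Nat.sub_le _ _⟩
      have hn' : (1 : ℝ) ≤ n := by exact_mod_cast hn
      have h3 : ⌊δ * n⌋₊ < n := by
        rw [Nat.floor_lt (by positivity)]
        nlinarith
      omega
    · refine ((tendsto_const_nhds (x := (1 : ℝ))).sub hδ).congr' ?_
      filter_upwards [eventually_gt_atTop 0] with n hn
      have : (n : ℝ) ≠ 0 := by
        have : n ≠ 0 := by omega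
        exact_mod_cast this
      rw [Nat.cast_sub (hfl n)]
      field_simp
  refine le_antisymm ?_ (alt_rateB h0 hδ3 h2)
  -- the upper bound with `y = 3 δ / (2 (1 - 3 δ))`
  set y : ℝ := 3 * δ / (2 * (1 - 3 * δ)) with hy
  have h6 : 0 < 2 * (1 - 3 * δ) := by linarith
  have hy0 : 0 < y := by positivity
  have hy1 : β ≤ 1 / y := by
    rw [le_div_iff₀ hy0, hy, mul_div_assoc', div_le_one h6]
    linarith
  have h3 : Tendsto (fun n : ℕ => (⌊δ * n⌋₊ : ℝ) / n * Real.log (1 / y) +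
      1 / 3 * Real.log (1 + 2 * y)) atTop
      (𝓝 (δ * Real.log (1 / y) + 1 / 3 * Real.log (1 + 2 * y))) :=
    (hδ.mul_const _).add_const _
  have h4 : growth (1 - δ) ≤ δ * Real.log (1 / y) + 1 / 3 * Real.log (1 + 2 * y) := by
    refine le_of_tendsto_of_tendsto h2 h3 ?_
    filter_upwards [eventually_ge_atTop 3] with n hn
    have hn0 : (0 : ℝ) < n := by
      have : 0 < n := by omega
      exact_mod_cast this
    have h12 : 0 < 1 + 2 * y := by linarith
    have h5 := M_le_exp' hn (hfl n) hy0 (hβ.trans hy1) (hG _ hy1)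
    have h7 : (0 : ℝ) < M n (n - ⌊δ * n⌋₊) := by
      have h8 : ⌊δ * n⌋₊ < n := by
        rw [Nat.floor_lt (by positivity)]
        nlinarith
      exact M_pos (by omega) (Nat.sub_le _ _)
    have h8 := Real.log_le_log h7 h5
    rw [Real.log_mul (by positivity) (by positivity), Real.log_pow, Real.log_rpow h12] at h8
    show Real.log (M n (n - ⌊δ * n⌋₊)) / n ≤ _
    rw [div_le_iff₀ hn0]
    refine h8.trans (le_of_eq ?_)
    field_simp
  refine h4.trans (le_of_eq ?_)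
  have h13 : 0 < 1 - 3 * δ := by linarith
  have h9 : 1 + 2 * y = 1 / (1 - 3 * δ) := by
    rw [hy]
    have : 1 - 3 * δ ≠ 0 := h13.ne'
    field_simp
    ring
  have h10 : 1 / y = 2 / (3 * δ) * (1 - 3 * δ) := by
    rw [hy]
    field_simp
  rw [h9, h10, Real.log_mul (by positivity) h13.ne', one_div (1 - 3 * δ), Real.log_inv]
  ring

/-- The growth function beyond the threshold. -/
theorem growth_gtC {δ β : ℝ} (hβ0 : 0 < β) (hβ : ∀ z : ℝ, 7 / 3 ≤ z → z < β → 0 < Gb z)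
    (h0 : 2 / (3 * (β + 2)) < δ) (h1 : δ < 1 / 3) :
    δ * Real.log (2 / (3 * δ)) - (1 / 3 - δ) * Real.log (1 - 3 * δ) < growth (1 - δ) := by
  have hδ : 0 < δ := lt_trans (by positivity) h0
  have h13 : 0 < 1 - 3 * δ := by linarith
  have h13' : 1 - 3 * δ ≠ 0 := h13.ne'
  have hδ' : δ ≠ 0 := hδ.ne'
  have hδβ : 2 < δ * (3 * (β + 2)) := by rwa [div_lt_iff₀ (by positivity)] at h0
  set w : ℝ := 2 / (3 * δ) * (1 - 3 * δ) with hw
  have hw0 : 0 < w := by positivity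
  have hw2 : w + 2 = 2 / (3 * δ) := by
    rw [hw]
    field_simp
    ring
  have hwβ : w < β := by
    have h3 : 2 / (3 * δ) < β + 2 := by
      rw [div_lt_iff₀ (by positivity)]
      linarith
    linarith
  have h3 : 1 - δ = 2 / 3 + w / (3 * (w + 2)) := by
    rw [hw2, hw]
    field_simp
    ring
  have h4 := growth_gt hβ hw0 hwβ h3
  rw [rt_eq hw0, hw2] at h4
  have h5 : Real.log w = Real.log (2 / (3 * δ)) + Real.log (1 - 3 * δ) := by
    rw [hw, Real.log_mul (by positivity) h13']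
  rw [h5] at h4
  refine lt_of_le_of_lt (le_of_eq ?_) h4
  ring

/-- The alternating tree is exponentially bad beyond the threshold. -/
theorem phaseC {β : ℝ} (hβ : ∀ z : ℝ, 7 / 3 ≤ z → z < β → 0 < Gb z) (hβ2 : 2 ≤ β)
    (hβ3 : β ≤ 12 / 5) {ε : ℝ} (hε : 0 < ε) : ∃ (c : ℝ) (N : ℕ), 0 < c ∧ ∀ n ≥ N, ∀ d : ℕ,
      (2 / (3 * (β + 2)) + ε) * n ≤ d → (d : ℝ) ≤ (1 - ε) * n →
      ((deck (n - d) (altTree n)).ncard : ℝ) ≤ Real.exp (-(c * n)) * M n (n - d) := by
  obtain ⟨c, N, hc, h⟩ := phase (v := 1 - 2 / (3 * (β + 2)) - ε) hβ hβ2 hβ3 hε (by linarith)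
  refine ⟨c, N, hc, fun n hn d h1 h2 => ?_⟩
  have hn0 : (0 : ℝ) ≤ n := Nat.cast_nonneg _
  have hdn : d ≤ n := by
    have : (d : ℝ) ≤ n := h2.trans (by nlinarith)
    exact_mod_cast this
  refine h n hn (n - d) ?_ ?_
  · rw [Nat.cast_sub hdn]
    linarith
  · rw [Nat.cast_sub hdn]
    linarith

/-- **The threshold.** -/
theorem exists_threshold : ∃ β : ℝ, 59 / 25 < β ∧ β < 71 / 30 ∧
    (β ^ 4 + 3 * β ^ 3 + 3 * β ^ 2 + β - 2) ^ 3 = β ^ 2 * (β + 2) ^ 4 * (β ^ 2 + β - 1) ^ 3 ∧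
    (∀ z : ℝ, 7 / 3 ≤ z → z < β → 0 < Gb z) ∧ (∀ z : ℝ, β ≤ z → Gb z ≤ 0) := by
  obtain ⟨β, h1, h2, h3, h4, h5⟩ := exists_beta
  refine ⟨β, h1, h2, ?_, h4, fun z hz => ?_⟩
  · unfold Gb at h3
    linarith
  · rcases hz.eq_or_lt with rfl | h
    · exact h3.le
    · exact (h5 z h).le

end Pool.Agent.DeckB
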