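import Pool.Agent.DeckB.Phase
import Pool.Agent.DeckB.Beta

/-!
# The exponential rate of the patterns (helper31)
-/

set_option autoImplicit false

namespace Pool.Agent.DeckB

theorem cast_pos' (k : ℕ) : (0 : ℝ) < ((3 * k + 4 : ℕ) : ℝ) := by positivity

theorem log_le_of_vv_le {z c : ℝ} (hz : 0 < z) (k : ℕ) (h : vv z k ≤ c ^ (3 * k + 4)) :
    Real.log (vv z k) / ((3 * k + 4 : ℕ) : ℝ) ≤ Real.log c := by
  rw [div_le_iff₀ (cast_pos' k)]
  have h1 := Real.log_le_log (vv_pos hz k) h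
  rw [Real.log_pow] at h1
  linarith

theorem vv_crude {z : ℝ} (hz : 0 < z) (k : ℕ) : vv z k ≤ (z + 2) ^ (3 * k + 4) := by
  induction k with
  | zero =>
    show z ^ 4 + 2 * z ^ 3 + 2 * z ^ 2 ≤ (z + 2) ^ 4
    have h : 0 ≤ 6 * z ^ 3 + 22 * z ^ 2 + 32 * z + 16 := by positivity
    linarith [show (z + 2) ^ 4 = z ^ 4 + 2 * z ^ 3 + 2 * z ^ 2 +
      (6 * z ^ 3 + 22 * z ^ 2 + 32 * z + 16) by ring]
  | succ k ih =>
    show (z ^ 3 + 2 * z ^ 2) * vv z k + (z + 1) * z ^ 3 ≤ (z + 2) ^ (3 * (k + 1) + 4)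
    have h1 : (z ^ 3 + 2 * z ^ 2) * vv z k ≤ (z ^ 3 + 2 * z ^ 2) * (z + 2) ^ (3 * k + 4) :=
      mul_le_mul_of_nonneg_left ih (by positivity)
    have h2 : (z + 2) ^ 4 ≤ (z + 2) ^ (3 * k + 4) :=
      pow_le_pow_right₀ (by linarith) (by omega)
    have h3 : (z + 1) * z ^ 3 ≤ (4 * z ^ 2 + 12 * z + 8) * (z + 2) ^ 4 := by
      have h : 0 ≤ (4 * z ^ 2 + 12 * z + 8) * (z + 2) ^ 4 - (z + 1) * z ^ 3 := by
        have : (4 * z ^ 2 + 12 * z + 8) * (z + 2) ^ 4 - (z + 1) * z ^ 3 =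
          4 * z ^ 6 + 44 * z ^ 5 + 199 * z ^ 4 + 479 * z ^ 3 + 640 * z ^ 2 + 448 * z + 128 := by
            ring
        rw [this]
        positivity
      linarith
    have h4 : (4 * z ^ 2 + 12 * z + 8) * (z + 2) ^ 4 ≤
        (4 * z ^ 2 + 12 * z + 8) * (z + 2) ^ (3 * k + 4) :=
      mul_le_mul_of_nonneg_left h2 (by positivity)
    have h5 : (z + 2) ^ (3 * (k + 1) + 4) = (z + 2) ^ 3 * (z + 2) ^ (3 * k + 4) := by
      rw [← pow_add]
      congr 1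
      ring
    rw [h5]
    nlinarith

theorem Lam_bdd {z : ℝ} (hz : 0 < z) :
    BddAbove (Set.range fun k : ℕ => Real.log (vv z k) / ((3 * k + 4 : ℕ) : ℝ)) := by
  refine ⟨Real.log (z + 2), ?_⟩
  rintro _ ⟨k, rfl⟩
  exact log_le_of_vv_le hz k (vv_crude hz k)

theorem le_Lam {z : ℝ} (hz : 0 < z) (k : ℕ) :
    Real.log (vv z k) / ((3 * k + 4 : ℕ) : ℝ) ≤ Lam z :=
  le_ciSup (Lam_bdd hz) k

theorem log_vv_le {z : ℝ} (hz : 0 < z) (k : ℕ) :
    Real.log (vv z k) ≤ ((3 * k + 4 : ℕ) : ℝ) * Lam z := by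
  have h := le_Lam hz k
  rw [div_le_iff₀ (cast_pos' k)] at h
  linarith

theorem vv_ge_pow {z : ℝ} (hz : 0 < z) (k : ℕ) :
    (z ^ 3 + 2 * z ^ 2) ^ k * vv z 0 ≤ vv z k := by
  induction k with
  | zero => simp
  | succ k ih =>
    show _ ≤ (z ^ 3 + 2 * z ^ 2) * vv z k + (z + 1) * z ^ 3
    have h1 : (z ^ 3 + 2 * z ^ 2) * ((z ^ 3 + 2 * z ^ 2) ^ k * vv z 0) ≤
        (z ^ 3 + 2 * z ^ 2) * vv z k := mul_le_mul_of_nonneg_left ih (by positivity)
    have h2 : 0 ≤ (z + 1) * z ^ 3 := by positivity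
    rw [pow_succ]
    nlinarith

theorem lam_ge {z : ℝ} (hz : 0 < z) : Real.log (z ^ 3 + 2 * z ^ 2) / 3 ≤ Lam z := by
  by_contra h
  push Not at h
  have h1 : 0 < Real.log (z ^ 3 + 2 * z ^ 2) - 3 * Lam z := by linarith
  obtain ⟨k, hk⟩ := exists_nat_gt ((4 * Lam z - Real.log (vv z 0)) /
    (Real.log (z ^ 3 + 2 * z ^ 2) - 3 * Lam z))
  rw [div_lt_iff₀ h1] at hk
  have h2 := Real.log_le_log (mul_pos (by positivity) (vv_pos hz 0)) (vv_ge_pow hz k)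
  rw [Real.log_mul (by positivity) (vv_pos hz 0).ne', Real.log_pow] at h2
  have h3 := log_vv_le hz k
  push_cast at h3
  nlinarith

theorem vv_le {z : ℝ} (hz : 0 < z) (k : ℕ) : vv z k ≤ Real.exp (Lam z) ^ (3 * k + 4) := by
  rw [← Real.exp_nat_mul, ← Real.exp_log (vv_pos hz k), Real.exp_le_exp]
  exact log_vv_le hz k

theorem Lam_le_log {z c : ℝ} (hz : 0 < z) (h : ∀ k : ℕ, vv z k ≤ c ^ (3 * k + 4)) :
    Lam z ≤ Real.log c :=
  ciSup_le fun k => log_le_of_vv_le hz k (h k)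

/-- The cube root of `z^3 + 2 z^2` and `κ`. -/
theorem exists_omega {z : ℝ} (hz : 7 / 3 ≤ z) : ∃ ω κ : ℝ, 0 < ω ∧ 0 < κ ∧
    ω ^ 3 = z ^ 3 + 2 * z ^ 2 ∧ κ * (z ^ 2 + z - 1) = 1 ∧
    Real.log ω = Real.log (z ^ 3 + 2 * z ^ 2) / 3 := by
  have hz0 : 0 < z := by linarith
  have hX : 0 < z ^ 3 + 2 * z ^ 2 := by positivity
  have hω : ((z ^ 3 + 2 * z ^ 2) ^ ((1 : ℝ) / 3)) ^ 3 = z ^ 3 + 2 * z ^ 2 := by
    rw [← Real.rpow_natCast, ← Real.rpow_mul hX.le]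
    norm_num
  have hq : 0 < z ^ 2 + z - 1 := by nlinarith
  refine ⟨(z ^ 3 + 2 * z ^ 2) ^ ((1 : ℝ) / 3), 1 / (z ^ 2 + z - 1), Real.rpow_pos_of_pos hX _,
    by positivity, hω, one_div_mul_cancel hq.ne', ?_⟩
  rw [Real.log_rpow hX]
  ring

theorem vv_le_A {z ω κ : ℝ} (hz : 0 < z) (hκ0 : 0 < κ) (hω : ω ^ 3 = z ^ 3 + 2 * z ^ 2)
    (hκ : κ * (z ^ 2 + z - 1) = 1) (k : ℕ) :
    vv z k ≤ (ω ^ 3) ^ k * (z ^ 4 + 2 * z ^ 3 + 2 * z ^ 2 + κ * z ^ 3) := by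
  rw [vv_eq hω hκ k]
  have : 0 < κ * z ^ 3 := by positivity
  linarith

theorem lam_up {z : ℝ} (hz : 7 / 3 ≤ z) : (z + 1) * Real.exp (Lam z) ≤ z * (z + 2) := by
  obtain ⟨ω, κ, hω0, hκ0, hω, hκ, -⟩ := exists_omega hz
  have hz0 : 0 < z := by linarith
  have hz1 : 0 < z + 1 := by linarith
  set r : ℝ := z * (z + 2) / (z + 1) with hr
  have hr0 : 0 < r := by positivity
  have hrz : r * (z + 1) = z * (z + 2) := by
    rw [hr]
    field_simp
  have h1 : ω ^ 3 ≤ r ^ 3 := by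
    have : ω ^ 3 * (z + 1) ^ 3 ≤ r ^ 3 * (z + 1) ^ 3 := by
      rw [← mul_pow r, hrz, hω]
      have h2 : 0 ≤ z ^ 2 * (z + 2) * (z ^ 2 + z - 1) :=
        mul_nonneg (by positivity) (by nlinarith)
      nlinarith [show (z * (z + 2)) ^ 3 - (z ^ 3 + 2 * z ^ 2) * (z + 1) ^ 3 =
        z ^ 2 * (z + 2) * (z ^ 2 + z - 1) by ring]
    exact le_of_mul_le_mul_right this (by positivity)
  have h2 : z ^ 4 + 2 * z ^ 3 + 2 * z ^ 2 + κ * z ^ 3 ≤ r ^ 4 := by
    have hq : 0 < z ^ 2 + z - 1 := by nlinarith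
    have : (z ^ 4 + 2 * z ^ 3 + 2 * z ^ 2 + κ * z ^ 3) * (z + 1) ^ 4 ≤ r ^ 4 * (z + 1) ^ 4 := by
      rw [← mul_pow r, hrz, A1_eq hκ]
      have h3 : z ^ 2 * ((z ^ 4 + 3 * z ^ 3 + 3 * z ^ 2 + z - 2) * (z + 1) ^ 4) ≤
          z ^ 2 * (z ^ 2 * (z + 2) ^ 4 * (z ^ 2 + z - 1)) := by
        refine mul_le_mul_of_nonneg_left ?_ (by positivity)
        obtain ⟨t, rfl⟩ : ∃ t, z = 7 / 3 + t := ⟨z - 7 / 3, by ring⟩
        have ht : 0 ≤ t := by linarith
        have : 0 ≤ (7 / 3 + t) ^ 2 * (7 / 3 + t + 2) ^ 4 * ((7 / 3 + t) ^ 2 + (7 / 3 + t) - 1) -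
          ((7 / 3 + t) ^ 4 + 3 * (7 / 3 + t) ^ 3 + 3 * (7 / 3 + t) ^ 2 + (7 / 3 + t) - 2) *
            (7 / 3 + t + 1) ^ 4 := by
          ring_nf
          positivity
        linarith
      have h4 := mul_le_mul_of_nonneg_left h3 hκ0.le
      calc κ * z ^ 2 * (z ^ 4 + 3 * z ^ 3 + 3 * z ^ 2 + z - 2) * (z + 1) ^ 4
          = κ * (z ^ 2 * ((z ^ 4 + 3 * z ^ 3 + 3 * z ^ 2 + z - 2) * (z + 1) ^ 4)) := by ring
        _ ≤ κ * (z ^ 2 * (z ^ 2 * (z + 2) ^ 4 * (z ^ 2 + z - 1))) := h4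
        _ = (κ * (z ^ 2 + z - 1)) * (z * (z + 2)) ^ 4 := by ring
        _ = (z * (z + 2)) ^ 4 := by rw [hκ, one_mul]
    exact le_of_mul_le_mul_right this (by positivity)
  have h3 : Lam z ≤ Real.log r := by
    refine Lam_le_log hz0 fun k => (vv_le_A hz0 hκ0 hω hκ k).trans ?_
    rw [pow_add, pow_mul]
    exact mul_le_mul (pow_le_pow_left₀ (by positivity) h1 k) h2 (by positivity) (by positivity)
  have h4 : Real.exp (Lam z) ≤ r := by
    rw [← Real.exp_log hr0]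
    exact Real.exp_le_exp.2 h3
  calc (z + 1) * Real.exp (Lam z) ≤ (z + 1) * r := mul_le_mul_of_nonneg_left h4 hz1.le
    _ = z * (z + 2) := by rw [mul_comm, hrz]

/-! ### Tangents: `log (vv (exp t) k)` is convex -/

/-- `log f` has the tangent with slope `d / f 0` at `0`. -/
structure Tg (f : ℝ → ℝ) (d : ℝ) : Prop where
  pos : 0 < f 0
  le : ∀ s : ℝ, f 0 * Real.exp (d / f 0 * s) ≤ f s

theorem Tg.add {f g : ℝ → ℝ} {c d : ℝ} (hf : Tg f c) (hg : Tg g d) :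
    Tg (fun s => f s + g s) (c + d) := by
  have h0 := hf.pos
  have h1 := hg.pos
  refine ⟨by positivity, fun s => ?_⟩
  refine le_trans ?_ (add_le_add (hf.le s) (hg.le s))
  have h2 := convexOn_exp.2 (Set.mem_univ (c / f 0 * s)) (Set.mem_univ (d / g 0 * s))
    (show 0 ≤ f 0 / (f 0 + g 0) by positivity) (show 0 ≤ g 0 / (f 0 + g 0) by positivity)
    (by field_simp)
  simp only [smul_eq_mul] at h2
  have h3 : f 0 / (f 0 + g 0) * (c / f 0 * s) + g 0 / (f 0 + g 0) * (d / g 0 * s) =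
      (c + d) / (f 0 + g 0) * s := by
    field_simp
  rw [h3] at h2
  have h4 := mul_le_mul_of_nonneg_left h2 (show 0 ≤ f 0 + g 0 by positivity)
  calc (f 0 + g 0) * Real.exp ((c + d) / (f 0 + g 0) * s) ≤ _ := h4
    _ = f 0 * Real.exp (c / f 0 * s) + g 0 * Real.exp (d / g 0 * s) := by
      field_simp

theorem Tg.mul {f g : ℝ → ℝ} {c d : ℝ} (hf : Tg f c) (hg : Tg g d) :
    Tg (fun s => f s * g s) (c * g 0 + f 0 * d) := by
  have h0 := hf.pos
  have h1 := hg.pos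
  refine ⟨by positivity, fun s => ?_⟩
  have h2 : (c * g 0 + f 0 * d) / (f 0 * g 0) * s = c / f 0 * s + d / g 0 * s := by
    field_simp
  show f 0 * g 0 * Real.exp ((c * g 0 + f 0 * d) / (f 0 * g 0) * s) ≤ f s * g s
  rw [h2, Real.exp_add]
  calc f 0 * g 0 * (Real.exp (c / f 0 * s) * Real.exp (d / g 0 * s)) =
      (f 0 * Real.exp (c / f 0 * s)) * (g 0 * Real.exp (d / g 0 * s)) := by ring
    _ ≤ f s * g s := mul_le_mul (hf.le s) (hg.le s) (by positivity)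
      (le_trans (by positivity) (hf.le s))

theorem Tg.mono {a x : ℝ} (ha : 0 < a) (hx : 0 < x) (n : ℕ) :
    Tg (fun s => a * (x * Real.exp s) ^ n) (n * (a * x ^ n)) := by
  have h0 : a * (x * Real.exp 0) ^ n = a * x ^ n := by simp
  refine ⟨by positivity, fun s => ?_⟩
  simp only [h0]
  have h1 : (n * (a * x ^ n)) / (a * x ^ n) * s = n * s := by
    field_simp
  show a * x ^ n * Real.exp ((n * (a * x ^ n)) / (a * x ^ n) * s) ≤ a * (x * Real.exp s) ^ n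
  rw [h1, Real.exp_nat_mul, mul_pow, mul_assoc]

/-- `z` times the derivative of `vv z k`. -/
noncomputable def dd (z : ℝ) : ℕ → ℝ
  | 0 => 4 * z ^ 4 + 6 * z ^ 3 + 4 * z ^ 2
  | k + 1 => (3 * z ^ 3 + 4 * z ^ 2) * vv z k + (z ^ 3 + 2 * z ^ 2) * dd z k +
      (4 * z ^ 4 + 3 * z ^ 3)

theorem Tg.congr {f g : ℝ → ℝ} {c d : ℝ} (hf : Tg f c) (h : ∀ s, f s = g s) (h' : c = d) :
    Tg g d := by
  have : f = g := funext h
  rw [← this, ← h']
  exact hf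

theorem Tg_vv {x : ℝ} (hx : 0 < x) (k : ℕ) :
    Tg (fun s => vv (x * Real.exp s) k) (dd x k) := by
  have h4 := Tg.mono (a := 1) one_pos hx 4
  have h3 := Tg.mono (a := 1) one_pos hx 3
  have h3' := Tg.mono (a := 2) two_pos hx 3
  have h2 := Tg.mono (a := 2) two_pos hx 2
  induction k with
  | zero =>
    refine Tg.congr ((h4.add h3').add h2) (fun s => ?_) ?_
    · show _ = (x * Real.exp s) ^ 4 + 2 * (x * Real.exp s) ^ 3 + 2 * (x * Real.exp s) ^ 2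
      ring
    · show _ = 4 * x ^ 4 + 6 * x ^ 3 + 4 * x ^ 2
      push_cast
      ring
  | succ k ih =>
    refine Tg.congr (((h3.add h2).mul ih).add (h4.add h3)) (fun s => ?_) ?_
    · show _ = ((x * Real.exp s) ^ 3 + 2 * (x * Real.exp s) ^ 2) * vv (x * Real.exp s) k +
        (x * Real.exp s + 1) * (x * Real.exp s) ^ 3
      ring
    · show _ = (3 * x ^ 3 + 4 * x ^ 2) * vv x k + (x ^ 3 + 2 * x ^ 2) * dd x k +
        (4 * x ^ 4 + 3 * x ^ 3)
      simp only [Real.exp_zero, mul_one]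
      push_cast
      ring

theorem log_vv_tangent {x y : ℝ} (hx : 0 < x) (hy : 0 < y) (k : ℕ) :
    Real.log (vv x k) + dd x k / vv x k * (Real.log y - Real.log x) ≤ Real.log (vv y k) := by
  have h := (Tg_vv hx k).le (Real.log y - Real.log x)
  have h1 : x * Real.exp (Real.log y - Real.log x) = y := by
    rw [Real.exp_sub, Real.exp_log hx, Real.exp_log hy]
    field_simp
  simp only [Real.exp_zero, mul_one, h1] at h
  have h2 := Real.log_le_log (mul_pos (vv_pos hx k) (Real.exp_pos _)) h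
  rwa [Real.log_mul (vv_pos hx k).ne' (Real.exp_pos _).ne', Real.log_exp] at h2

theorem Lam_conv {a : ℝ} (h0 : 0 < a) (h1 : a < 7 / 3) :
    Lam (7 / 3) - Lam a ≤ 5 / 6 * (Real.log (7 / 3) - Real.log a) := by
  have hx : (0 : ℝ) < 7 / 3 := by norm_num
  have hb : (0 : ℝ) < 71 / 30 := by norm_num
  have hax : Real.log a < Real.log (7 / 3) := Real.log_lt_log h0 h1
  have hxb : Real.log (7 / 3) < Real.log (71 / 30) := Real.log_lt_log hx (by norm_num)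
  -- small slope
  have small : ∀ k : ℕ, dd (7 / 3) k / vv (7 / 3) k ≤ 5 / 6 * ((3 * k + 4 : ℕ) : ℝ) →
      Real.log (vv (7 / 3) k) / ((3 * k + 4 : ℕ) : ℝ) ≤
        Lam a + 5 / 6 * (Real.log (7 / 3) - Real.log a) := by
    intro k hk
    have h2 := log_vv_tangent hx h0 k
    have h3 := log_vv_le h0 k
    have h4 := mul_le_mul_of_nonneg_right hk (show 0 ≤ Real.log (7 / 3) - Real.log a by linarith)
    rw [div_le_iff₀ (cast_pos' k)]
    nlinarith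
  have two : Real.log (vv (7 / 3) 2) / ((3 * 2 + 4 : ℕ) : ℝ) ≤
      Lam a + 5 / 6 * (Real.log (7 / 3) - Real.log a) := by
    refine small 2 ?_
    rw [div_le_iff₀ (vv_pos hx 2)]
    norm_num [dd, vv]
  -- the numerical inequality
  have num : Real.log ((71 / 30 : ℝ) ^ 3 + 2 * (71 / 30) ^ 2) / 3 ≤
      Real.log (vv (7 / 3) 2) / ((3 * 2 + 4 : ℕ) : ℝ) +
        5 / 6 * (Real.log (71 / 30) - Real.log (7 / 3)) := by
    have h2 : ((71 / 30 : ℝ) ^ 3 + 2 * (71 / 30) ^ 2) ^ 10 * (7 / 3) ^ 25 ≤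
        vv (7 / 3) 2 ^ 3 * (71 / 30) ^ 25 := by
      norm_num [vv]
    have h3 := Real.log_le_log (by positivity) h2
    have hv := vv_pos hx 2
    rw [Real.log_mul (by positivity) (by positivity), Real.log_mul (by positivity) (by positivity),
      Real.log_pow, Real.log_pow, Real.log_pow, Real.log_pow] at h3
    push_cast at h3 ⊢
    linarith
  have all : ∀ k : ℕ, Real.log (vv (7 / 3) k) / ((3 * k + 4 : ℕ) : ℝ) ≤
        Lam a + 5 / 6 * (Real.log (7 / 3) - Real.log a) := by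
    intro k
    rcases le_total (dd (7 / 3) k / vv (7 / 3) k) (5 / 6 * ((3 * k + 4 : ℕ) : ℝ)) with hk | hk
    · exact small k hk
    · refine le_trans ?_ two
      obtain ⟨ω, κ, hω0, hκ0, hω, hκ, hlog⟩ := exists_omega (show (7 / 3 : ℝ) ≤ 71 / 30 by norm_num)
      have h2 := log_vv_tangent hx hb k
      have h3 : Gb (71 / 30) ≤ 0 := by unfold Gb; norm_num
      have h4 : vv (71 / 30) k ≤ ω ^ (3 * k + 4) := by
        refine (vv_le_A hb hκ0 hω hκ k).trans ?_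
        rw [pow_add, pow_mul]
        exact mul_le_mul_of_nonneg_left (A1_le (by norm_num) hω0.le hω hκ h3) (by positivity)
      have h5 := Real.log_le_log (vv_pos hb k) h4
      rw [Real.log_pow, hlog] at h5
      have h6 := mul_le_mul_of_nonneg_right hk
        (show 0 ≤ Real.log (71 / 30) - Real.log (7 / 3) by linarith)
      have h7 := cast_pos' k
      rw [div_le_iff₀ h7]
      have h8 := mul_le_mul_of_nonneg_left num h7.le
      nlinarith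
  have h9 : Lam (7 / 3) ≤ Lam a + 5 / 6 * (Real.log (7 / 3) - Real.log a) := ciSup_le all
  linarith

end Pool.Agent.DeckB
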