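import Pool.Agent.DeckB.SharpM

/-!
# The induction below the threshold: the remaining cases
-/

set_option autoImplicit false

namespace Pool.Agent.DeckB

section

variable {z ω κ t : ℝ}

/-- Three leaves on the left. -/
theorem threeQ (G : Fair z ω κ) (R : Rate z ω t) {l r : BT} (hl : l.size = 3)
    (hr : 3 ≤ r.size) (h : Inv z ω κ t r) (k : ℕ) : ∀ i : ℕ,
    (ω ^ 3) ^ i * (V z (chain k (.node l r)) +
        κ * (z ^ 3 * (V z r - z - z ^ 2) + Hw z r)) - κ * (z ^ 3 * (V z r - z - z ^ 2)) ≤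
      κ * z ^ 2 * t ^ (k + (3 + r.size)) * (t ^ 3) ^ i +
        (ω ^ 3) ^ i * (κ * (z * (z ^ 2 - 1))) := by
  have hz := G.hz
  have hz0 : 0 ≤ z := by linarith
  have h0 := G.h0
  have hk := G.k_pos
  have hw := G.w
  have hω := G.hω
  have hge := R.ge
  have hH := Hw_nonneg hz0 r
  have hVr := V_nonneg hz0 r
  have hω1 : 1 ≤ ω := by linarith
  have ht1 : 1 ≤ t := by linarith
  have ht0 : 0 ≤ t := by linarith
  have hW : 1 ≤ ω ^ 3 := one_le_pow₀ hω1
  have hWt : ω ^ 3 ≤ t ^ 3 := pow_le_pow_left₀ h0 hge 3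
  obtain ⟨hV, hN, hTu, -⟩ := three_boundsL hz0 hl hr
  have ha0 : 0 ≤ z ^ 3 * (V z r - z - z ^ 2) := (Tw_nonneg hz0 _).trans hTu
  have hX := h.zero
  have hη0 : 0 ≤ κ * (z * (z ^ 2 - 1)) := by
    have : 0 ≤ z ^ 2 - 1 := by nlinarith
    positivity
  set m := r.size with hm
  set v := V z r with hv
  set b := Hw z r with hb
  set P := κ * z ^ 2 * t ^ m with hP
  have hP0 : 0 ≤ P := by positivity
  have k1 : (1 + κ) * b = κ * (z ^ 2 + z) * b := by
    linear_combination (- b) * G.hκ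
  have k2 : κ * ω ^ 3 = z + 1 + κ := by
    rw [hω]
    linear_combination (z + 1) * G.hκ
  have hWi : ∀ i : ℕ, (ω ^ 3) ^ i ≤ (t ^ 3) ^ i := fun i =>
    pow_le_pow_left₀ (by positivity) hWt i
  -- no leaf above
  have c0 : ∀ i : ℕ, (ω ^ 3) ^ i * (V z (.node l r) +
        κ * (z ^ 3 * (v - z - z ^ 2) + b)) - κ * (z ^ 3 * (v - z - z ^ 2)) ≤
      κ * z ^ 2 * t ^ (0 + (3 + m)) * (t ^ 3) ^ i +
        (ω ^ 3) ^ i * (κ * (z * (z ^ 2 - 1))) := by
    intro i
    have a1 : V z (.node l r) + κ * (z ^ 3 * (v - z - z ^ 2) + b) ≤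
        (z + z ^ 2 + z ^ 3 + κ * z ^ 3) * (v + κ * b) +
          (z - z ^ 3 - z ^ 4 - z ^ 5 - κ * (z ^ 4 + z ^ 5)) := by
      have h1 : κ * (z ^ 2 + z) * b ≤ (z + z ^ 2 + z ^ 3 + κ * z ^ 3) * (κ * b) := by
        have : 0 ≤ (z ^ 3 + κ * z ^ 3) * (κ * b) := by positivity
        nlinarith
      linarith
    have a2 : (z + z ^ 2 + z ^ 3 + κ * z ^ 3) * (v + κ * b) ≤
        (z + z ^ 2 + z ^ 3 + κ * z ^ 3) * (P + κ * (z * (z ^ 2 - 1))) :=
      mul_le_mul_of_nonneg_left hX (by positivity)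
    have a3 : (z + z ^ 2 + z ^ 3 + κ * z ^ 3) * P ≤ t ^ 3 * P :=
      mul_le_mul_of_nonneg_right (G.s5.trans hWt) hP0
    have a4 := G.s5c
    have a5 : V z (.node l r) + κ * (z ^ 3 * (v - z - z ^ 2) + b) ≤
        t ^ 3 * P + κ * (z * (z ^ 2 - 1)) := by linarith
    have a6 := mul_le_mul_of_nonneg_left a5 (by positivity : 0 ≤ (ω ^ 3) ^ i)
    have a7 : (ω ^ 3) ^ i * (t ^ 3 * P) ≤ (t ^ 3) ^ i * (t ^ 3 * P) :=
      mul_le_mul_of_nonneg_right (hWi i) (by positivity)
    have a8 : (t ^ 3) ^ i * (t ^ 3 * P) = κ * z ^ 2 * t ^ (0 + (3 + m)) * (t ^ 3) ^ i := by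
      rw [hP]
      ring
    have a9 : 0 ≤ κ * (z ^ 3 * (v - z - z ^ 2)) := mul_nonneg hk.le ha0
    linarith
  -- one leaf above
  have c1 : ∀ i : ℕ, (ω ^ 3) ^ i * (V z (chain 1 (.node l r)) +
        κ * (z ^ 3 * (v - z - z ^ 2) + b)) - κ * (z ^ 3 * (v - z - z ^ 2)) ≤
      κ * z ^ 2 * t ^ (1 + (3 + m)) * (t ^ 3) ^ i +
        (ω ^ 3) ^ i * (κ * (z * (z ^ 2 - 1))) := by
    intro i
    have hi : 1 ≤ (ω ^ 3) ^ i := one_le_pow₀ hW
    have a0 : V z (chain 1 (.node l r)) ≤
        z * V z (.node l r) + mass z (N (.node l r)) := V_chain_succ hz0 0 (.node l r)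
    have a1 : V z (chain 1 (.node l r)) ≤ (z ^ 4 + 2 * z ^ 3 + 2 * z ^ 2) * v + (z + 1) * b +
        (z + 1) * (z - z ^ 3 - z ^ 4 - z ^ 5) := by
      have := mul_le_mul_of_nonneg_left hV hz0
      linarith
    have a2 := mul_le_mul_of_nonneg_left a1 (by linarith : 0 ≤ (ω ^ 3) ^ i)
    have a3 : κ * ((ω ^ 3) ^ i - 1) * (z ^ 3 * (v - z - z ^ 2)) ≤
        κ * ((ω ^ 3) ^ i - 1) * (z ^ 3 * v) := by
      refine mul_le_mul_of_nonneg_left ?_ (mul_nonneg hk.le (by linarith))
      refine mul_le_mul_of_nonneg_left ?_ (by positivity)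
      nlinarith
    have a4 := vv_eq hω G.hκ i
    have a5 : (ω ^ 3) ^ i * ω ^ 3 ≤ vv z i := by
      have b1 : (ω ^ 3) ^ i * ω ^ 3 ≤ (ω ^ 3) ^ i * (z ^ 4 + 2 * z ^ 3 + 2 * z ^ 2) := by
        refine mul_le_mul_of_nonneg_left ?_ (by linarith)
        rw [hω]
        nlinarith [pow_nonneg hz0 3, pow_nonneg hz0 4]
      have b2 : 0 ≤ κ * z ^ 3 * ((ω ^ 3) ^ i - 1) :=
        mul_nonneg (by positivity) (by linarith)
      rw [a4]
      linarith
    have a6 : (ω ^ 3) ^ i * ω ^ 3 * (κ * b) ≤ vv z i * (κ * b) :=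
      mul_le_mul_of_nonneg_right a5 (by positivity)
    have hvv0 : 0 ≤ vv z i := le_trans (by positivity) a5
    have a7 : vv z i * (v + κ * b) ≤ vv z i * (P + κ * (z * (z ^ 2 - 1))) :=
      mul_le_mul_of_nonneg_left hX hvv0
    have a8 : vv z i * P ≤ t ^ (3 * i + 4) * P := mul_le_mul_of_nonneg_right (R.vv i) hP0
    have a9 : t ^ (3 * i + 4) * P = κ * z ^ 2 * t ^ (1 + (3 + m)) * (t ^ 3) ^ i := by
      rw [hP]
      ring
    have a10 : vv z i * (κ * (z * (z ^ 2 - 1))) ≤
        (ω ^ 3) ^ i * ((z ^ 4 + 2 * z ^ 3 + 2 * z ^ 2 + κ * z ^ 3) *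
          (κ * (z * (z ^ 2 - 1)))) := by
      have b1 : vv z i ≤ (ω ^ 3) ^ i * (z ^ 4 + 2 * z ^ 3 + 2 * z ^ 2 + κ * z ^ 3) := by
        have : 0 ≤ κ * z ^ 3 := by positivity
        rw [a4]
        linarith
      have := mul_le_mul_of_nonneg_right b1 hη0
      linarith
    have a11 := mul_le_mul_of_nonneg_left G.s6d (by linarith : 0 ≤ (ω ^ 3) ^ i)
    have a12 : (ω ^ 3) ^ i * (z ^ 4 + 2 * z ^ 3 + 2 * z ^ 2) * v +
        κ * ((ω ^ 3) ^ i - 1) * (z ^ 3 * v) = vv z i * v := by
      rw [a4]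
      ring
    have a13 : (ω ^ 3) ^ i * ((z + 1) * b) + κ * (ω ^ 3) ^ i * b =
        (ω ^ 3) ^ i * ω ^ 3 * (κ * b) := by
      linear_combination (-((ω ^ 3) ^ i * b)) * k2
    linarith
  have step : ∀ k : ℕ, 1 ≤ k → ∀ i : ℕ, (ω ^ 3) ^ i * (V z (chain k (.node l r)) +
        κ * (z ^ 3 * (v - z - z ^ 2) + b)) - κ * (z ^ 3 * (v - z - z ^ 2)) ≤
      κ * z ^ 2 * t ^ (k + (3 + m)) * (t ^ 3) ^ i +
        (ω ^ 3) ^ i * (κ * (z * (z ^ 2 - 1))) := by
    intro k hk1
    induction k with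
    | zero => omega
    | succ k ih =>
      rcases Nat.eq_zero_or_pos k with rfl | hk'
      · exact c1
      · intro i
        have hi : 1 ≤ (ω ^ 3) ^ i := one_le_pow₀ hW
        have b1 := ih hk' i
        have b2 := V_chain_succ hz0 k (.node l r)
        have b5 : b ≤ (z ^ 2 + z ^ 3) * (κ * b) := by
          have j1 : κ * (z ^ 2 + z - 1) * b ≤ κ * (z ^ 2 + z ^ 3) * b := by
            refine mul_le_mul_of_nonneg_right (mul_le_mul_of_nonneg_left ?_ hk.le) hH
            nlinarith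
          rw [G.hκ] at j1
          linarith
        have b6 : mass z (N (.node l r)) ≤
            z + (z ^ 2 + z ^ 3) * (P + κ * (z * (z ^ 2 - 1))) := by
          have j1 : 0 ≤ z ^ 3 + z ^ 3 * (z + z ^ 2) := by positivity
          have j2 := mul_le_mul_of_nonneg_left hX (by positivity : 0 ≤ z ^ 2 + z ^ 3)
          linarith
        have b7 : (z ^ 2 + z ^ 3) * P + ((z ^ 2 + z ^ 3) * (κ * (z * (z ^ 2 - 1))) + z +
            κ * (z * (z ^ 2 - 1)) * (z - 1)) ≤
            κ * z ^ 2 * t ^ (k + (3 + m)) * (t - z) := by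
          have d1 := G.s9
          set E := (z ^ 2 + z ^ 3) * (κ * (z * (z ^ 2 - 1))) + z +
            κ * (z * (z ^ 2 - 1)) * (z - 1) with hE
          have hE0 : 0 ≤ E := by
            have : 0 ≤ κ * (z * (z ^ 2 - 1)) * (z - 1) := mul_nonneg hη0 (by linarith)
            rw [hE]
            positivity
          set K := κ * z ^ 2 * (ω ^ 4 * (ω - z) - (z ^ 2 + z ^ 3)) with hK
          have d2 : E ≤ ω ^ 3 * K := by
            rw [hK]
            linarith
          have d3 : 0 ≤ K := by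
            by_contra hneg
            have := mul_neg_of_pos_of_neg (by linarith : 0 < ω ^ 3) (not_le.1 hneg)
            linarith
          have d4 : ω ^ 3 ≤ t ^ m := hWt.trans (pow_le_pow_right₀ ht1 hr)
          have d5 := mul_le_mul_of_nonneg_right d4 d3
          have d6 : ω ^ 4 * (ω - z) ≤ t ^ (k + 3) * (t - z) :=
            mul_le_mul ((pow_le_pow_left₀ h0 hge 4).trans (pow_le_pow_right₀ ht1 (by omega)))
              (by linarith) (by linarith) (by positivity)
          have d7 := mul_le_mul_of_nonneg_left d6 hP0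
          have d8 : t ^ m * K = P * (ω ^ 4 * (ω - z)) - (z ^ 2 + z ^ 3) * P := by
            rw [hK, hP]
            ring
          have d9 : P * (t ^ (k + 3) * (t - z)) =
              κ * z ^ 2 * t ^ (k + (3 + m)) * (t - z) := by
            rw [hP]
            ring
          linarith
        have b8 : 0 ≤ (z - 1) * (κ * ((ω ^ 3) ^ i - 1) * (z ^ 3 * (v - z - z ^ 2)) +
            κ * (ω ^ 3) ^ i * b) := by
          refine mul_nonneg (by linarith) (add_nonneg (mul_nonneg (mul_nonneg hk.le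
            (by linarith)) ha0) (by positivity))
        have b9 := mul_le_mul_of_nonneg_left b1 hz0
        have b10 := mul_le_mul_of_nonneg_left b2 (by linarith : 0 ≤ (ω ^ 3) ^ i)
        have b11 := mul_le_mul_of_nonneg_left b6 (by linarith : 0 ≤ (ω ^ 3) ^ i)
        have b12 := mul_le_mul_of_nonneg_left b7 (by linarith : 0 ≤ (ω ^ 3) ^ i)
        have b13 : (ω ^ 3) ^ i * (κ * z ^ 2 * t ^ (k + (3 + m)) * (t - z)) ≤
            (t ^ 3) ^ i * (κ * z ^ 2 * t ^ (k + (3 + m)) * (t - z)) :=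
          mul_le_mul_of_nonneg_right (hWi i) (mul_nonneg (by positivity) (by linarith))
        have b14 : κ * z ^ 2 * t ^ (k + 1 + (3 + m)) * (t ^ 3) ^ i =
            (t ^ 3) ^ i * (κ * z ^ 2 * t ^ (k + (3 + m)) * (t - z)) +
              z * (κ * z ^ 2 * t ^ (k + (3 + m)) * (t ^ 3) ^ i) := by ring
        rw [b14]
        linarith
  rcases Nat.eq_zero_or_pos k with rfl | hk'
  · exact c0
  · exact step k hk'

/-- Two large root subtrees. -/
theorem largeQ (G : Fair z ω κ) (R : Rate z ω t) {l r : BT} (hl : 4 ≤ l.size)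
    (hlr : l.size ≤ r.size) (h1 : Inv z ω κ t l) (h2 : Inv z ω κ t r) (k : ℕ) : ∀ i : ℕ,
    (ω ^ 3) ^ i * (V z (chain k (.node l r)) + κ * (Tw z (.node l r) + Hw z (.node l r))) -
      κ * Tw z (.node l r) ≤
      κ * z ^ 2 * t ^ (k + (l.size + r.size)) * (t ^ 3) ^ i +
        (ω ^ 3) ^ i * (κ * (z * (z ^ 2 - 1))) := by
  have hz := G.hz
  have hz0 : 0 ≤ z := by linarith
  have h0 := G.h0
  have hk := G.k_pos
  have hw := G.w
  have hge := R.ge
  have hω1 : 1 ≤ ω := by linarith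
  have hω0 : 0 < ω := by linarith
  have ht1 : 1 ≤ t := by linarith
  have ht0 : 0 < t := by linarith
  have hWt : ω ^ 3 ≤ t ^ 3 := pow_le_pow_left₀ h0 hge 3
  have hη : 0 ≤ κ * (z * (z ^ 2 - 1)) := by
    have : 0 ≤ z ^ 2 - 1 := by nlinarith
    positivity
  have hVl : V z l ≤ κ * z ^ 2 * t ^ l.size + κ * (z * (z ^ 2 - 1)) := by
    have : 0 ≤ κ * Hw z l := mul_nonneg hk.le (Hw_nonneg hz0 l)
    linarith [h1.zero]
  have hVr : V z r ≤ κ * z ^ 2 * t ^ r.size + κ * (z * (z ^ 2 - 1)) := by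
    have : 0 ≤ κ * Hw z r := mul_nonneg hk.le (Hw_nonneg hz0 r)
    linarith [h2.zero]
  have hVl0 := V_nonneg hz0 l
  have hVr0 := V_nonneg hz0 r
  have hVu0 := V_nonneg hz0 (.node l r)
  have e1 := V_node_le hz0 l r
  have e2 := V_chain_le hz0 k (.node l r)
  have e3 := split_le_V hz0 (.node l r)
  have e4 := mul_le_mul_of_nonneg_left e3 hk.le
  have e5 := mul_le_mul_of_nonneg_right (G.sk_le k) hVu0
  have e6 : V z (chain k (.node l r)) + κ * (Tw z (.node l r) + Hw z (.node l r)) ≤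
      κ * ω ^ (k + 2) * V z (.node l r) := by linarith
  -- it is enough to bound `ω² V`
  have key : ω ^ 2 * V z (.node l r) ≤ z ^ 2 * t ^ (l.size + r.size) := by
    rcases (show l.size = 4 ∨ l.size = 5 ∨ 6 ≤ l.size by omega) with h4 | h5 | h6
    · -- four leaves on the left
      obtain ⟨m, hm⟩ : ∃ m, r.size = m + 4 := ⟨r.size - 4, by omega⟩
      rw [hm] at hVr ⊢
      rw [h4]
      have s8 := G.s8
      set v := z + z ^ 2 + z ^ 3 + z ^ 4 with hv
      have hv0 : 0 ≤ v := by positivity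
      set E := (1 + v) * (κ * (z * (z ^ 2 - 1))) + v with hE
      have hE0 : 0 ≤ E := by positivity
      set K := z ^ 2 * ω ^ 2 - (1 + v) * (κ * z ^ 2) with hK
      have d2 : E ≤ ω ^ 4 * K := by
        rw [hK]
        linarith
      have d3 : 0 ≤ K := by
        by_contra hneg
        have := mul_neg_of_pos_of_neg (by positivity : 0 < ω ^ 4) (not_le.1 hneg)
        linarith
      have d5 := mul_le_mul_of_nonneg_right (pow_le_pow_left₀ h0 hge 4) d3
      have d6 : (1 + v) * (κ * z ^ 2) * t ^ 4 + E ≤ z ^ 2 * ω ^ 2 * t ^ 4 := by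
        have : t ^ 4 * K = z ^ 2 * ω ^ 2 * t ^ 4 - (1 + v) * (κ * z ^ 2) * t ^ 4 := by
          rw [hK]
          ring
        linarith
      have f4 := small_large ht1 hv0 hη hVr0 (V_four hz0 h4) hVr e1 d6
      have f5 : ω ^ 4 ≤ t ^ 4 := pow_le_pow_left₀ h0 hge 4
      calc ω ^ 2 * V z (.node l r) ≤ ω ^ 2 * (t ^ m * (z ^ 2 * ω ^ 2 * t ^ 4)) :=
            mul_le_mul_of_nonneg_left f4 (by positivity)
        _ = z ^ 2 * t ^ (m + 4) * ω ^ 4 := by ring
        _ ≤ z ^ 2 * t ^ (m + 4) * t ^ 4 := mul_le_mul_of_nonneg_left f5 (by positivity)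
        _ = z ^ 2 * t ^ (4 + (m + 4)) := by ring
    · -- five leaves on the left
      obtain ⟨m, hm⟩ : ∃ m, r.size = m + 5 := ⟨r.size - 5, by omega⟩
      rw [hm] at hVr ⊢
      rw [h5]
      have s7a := G.s7a
      set v := z + z ^ 2 + z ^ 3 + 2 * z ^ 4 + z ^ 5 with hv
      have hv0 : 0 ≤ v := by positivity
      set E := (1 + v) * (κ * (z * (z ^ 2 - 1))) + v with hE
      have hE0 : 0 ≤ E := by positivity
      set K := z ^ 2 * ω ^ 3 - (1 + v) * (κ * z ^ 2) with hK
      have d2 : E ≤ ω ^ 5 * K := by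
        rw [hK]
        linarith
      have d3 : 0 ≤ K := by
        by_contra hneg
        have := mul_neg_of_pos_of_neg (by positivity : 0 < ω ^ 5) (not_le.1 hneg)
        linarith
      have d5 := mul_le_mul_of_nonneg_right (pow_le_pow_left₀ h0 hge 5) d3
      have d6 : (1 + v) * (κ * z ^ 2) * t ^ 5 + E ≤ z ^ 2 * ω ^ 3 * t ^ 5 := by
        have : t ^ 5 * K = z ^ 2 * ω ^ 3 * t ^ 5 - (1 + v) * (κ * z ^ 2) * t ^ 5 := by
          rw [hK]
          ring
        linarith
      have f4 := small_large ht1 hv0 hη hVr0 (V_five hz0 h5) hVr e1 d6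
      have f5 : ω ^ 5 ≤ t ^ 5 := pow_le_pow_left₀ h0 hge 5
      calc ω ^ 2 * V z (.node l r) ≤ ω ^ 2 * (t ^ m * (z ^ 2 * ω ^ 3 * t ^ 5)) :=
            mul_le_mul_of_nonneg_left f4 (by positivity)
        _ = z ^ 2 * t ^ (m + 5) * ω ^ 5 := by ring
        _ ≤ z ^ 2 * t ^ (m + 5) * t ^ 5 := mul_le_mul_of_nonneg_left f5 (by positivity)
        _ = z ^ 2 * t ^ (5 + (m + 5)) := by ring
    · -- both at least six
      obtain ⟨a, ha⟩ : ∃ a, l.size = a + 6 := ⟨l.size - 6, by omega⟩
      obtain ⟨b, hb⟩ : ∃ b, r.size = b + 6 := ⟨r.size - 6, by omega⟩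
      rw [ha] at hVl ⊢
      rw [hb] at hVr ⊢
      have g1 : 1 ≤ t ^ a := one_le_pow₀ ht1
      have g2 : 1 ≤ t ^ b := one_le_pow₀ ht1
      have g0 := G.s7b
      set C := κ * z ^ 2 with hC
      set η := κ * (z * (z ^ 2 - 1)) with hηdef
      have hC0 : 0 ≤ C := by positivity
      have g3 : (1 + V z l) * (1 + V z r) ≤
          (1 + (C * t ^ (a + 6) + η)) * (1 + (C * t ^ (b + 6) + η)) :=
        mul_le_mul (by linarith) (by linarith) (by linarith) (by positivity)
      have g4 : V z (.node l r) ≤ t ^ a * t ^ b * (C ^ 2 * t ^ 12 +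
          2 * C * (η + 1) * t ^ 6 + (η ^ 2 + 2 * η)) := by
        have g5 : C * (η + 1) * t ^ 6 * t ^ a ≤ C * (η + 1) * t ^ 6 * (t ^ a * t ^ b) := by
          refine mul_le_mul_of_nonneg_left ?_ (by positivity)
          exact le_mul_of_one_le_right (by positivity) g2
        have g6 : C * (η + 1) * t ^ 6 * t ^ b ≤ C * (η + 1) * t ^ 6 * (t ^ a * t ^ b) := by
          refine mul_le_mul_of_nonneg_left ?_ (by positivity)
          exact le_mul_of_one_le_left (by positivity) g1
        have g7 : (η ^ 2 + 2 * η) * 1 ≤ (η ^ 2 + 2 * η) * (t ^ a * t ^ b) := by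
          refine mul_le_mul_of_nonneg_left ?_ (by positivity)
          exact one_le_mul_of_one_le_of_one_le g1 g2
        have g8 : (1 + (C * t ^ (a + 6) + η)) * (1 + (C * t ^ (b + 6) + η)) =
            C ^ 2 * t ^ 12 * (t ^ a * t ^ b) + C * (η + 1) * t ^ 6 * t ^ a +
            C * (η + 1) * t ^ 6 * t ^ b + (η ^ 2 + 2 * η) * 1 + 1 := by ring
        rw [g8] at g3
        linarith
      have g9 : ω ^ 2 * (C ^ 2 * t ^ 12 + 2 * C * (η + 1) * t ^ 6 + (η ^ 2 + 2 * η)) ≤
          z ^ 2 * t ^ 12 := by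
        set p := ω ^ 6 with hp
        set s := t ^ 6 with hs
        have hp0 : 0 < p := by positivity
        have hps : p ≤ s := pow_le_pow_left₀ h0 hge 6
        have hs0 : 0 < s := hp0.trans_le hps
        set A := ω ^ 2 * (2 * C * (η + 1)) with hA
        set F := ω ^ 2 * (η ^ 2 + 2 * η) with hF
        have hA0 : 0 ≤ A := by positivity
        have hF0 : 0 ≤ F := by positivity
        have q1 : A * p + F ≤ (z ^ 2 - ω ^ 2 * C ^ 2) * p ^ 2 := by
          have : ω ^ 12 = p ^ 2 := by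
            rw [hp]
            ring
          rw [this] at g0
          rw [hA, hF]
          linarith
        have q2 : p ^ 2 * (A * s + F) ≤ p ^ 2 * ((z ^ 2 - ω ^ 2 * C ^ 2) * s ^ 2) := by
          have q3 : p ^ 2 * (A * s) ≤ s ^ 2 * (A * p) := by
            have : A * p * s * p ≤ A * p * s * s := mul_le_mul_of_nonneg_left hps (by positivity)
            nlinarith
          have q4 : p ^ 2 * F ≤ s ^ 2 * F :=
            mul_le_mul_of_nonneg_right (pow_le_pow_left₀ hp0.le hps 2) hF0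
          have q5 := mul_le_mul_of_nonneg_left q1 (by positivity : 0 ≤ s ^ 2)
          linarith
        have q6 := le_of_mul_le_mul_left q2 (by positivity)
        have q7 : t ^ 12 = s ^ 2 := by
          rw [hs]
          ring
        rw [q7]
        rw [hA, hF] at q6
        linarith
      calc ω ^ 2 * V z (.node l r) ≤ ω ^ 2 * (t ^ a * t ^ b * (C ^ 2 * t ^ 12 +
          2 * C * (η + 1) * t ^ 6 + (η ^ 2 + 2 * η))) :=
            mul_le_mul_of_nonneg_left g4 (by positivity)
        _ = t ^ a * t ^ b * (ω ^ 2 * (C ^ 2 * t ^ 12 +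
          2 * C * (η + 1) * t ^ 6 + (η ^ 2 + 2 * η))) := by ring
        _ ≤ t ^ a * t ^ b * (z ^ 2 * t ^ 12) :=
            mul_le_mul_of_nonneg_left g9 (by positivity)
        _ = z ^ 2 * t ^ (a + 6 + (b + 6)) := by ring
  intro i
  have e7 := mul_le_mul_of_nonneg_left key (by positivity : 0 ≤ κ * ω ^ k)
  have e8 : κ * ω ^ k * (ω ^ 2 * V z (.node l r)) = κ * ω ^ (k + 2) * V z (.node l r) := by ring
  have e9 : κ * ω ^ k * (z ^ 2 * t ^ (l.size + r.size)) ≤
      κ * z ^ 2 * t ^ (k + (l.size + r.size)) := by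
    have : ω ^ k ≤ t ^ k := pow_le_pow_left₀ h0 hge k
    calc κ * ω ^ k * (z ^ 2 * t ^ (l.size + r.size))
        = κ * z ^ 2 * t ^ (l.size + r.size) * ω ^ k := by ring
      _ ≤ κ * z ^ 2 * t ^ (l.size + r.size) * t ^ k :=
          mul_le_mul_of_nonneg_left this (by positivity)
      _ = _ := by ring
  have e10 : V z (chain k (.node l r)) + κ * (Tw z (.node l r) + Hw z (.node l r)) ≤
      κ * z ^ 2 * t ^ (k + (l.size + r.size)) := by linarith
  have e11 := mul_le_mul_of_nonneg_left e10 (by positivity : 0 ≤ (ω ^ 3) ^ i)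
  have e12 : (ω ^ 3) ^ i * (κ * z ^ 2 * t ^ (k + (l.size + r.size))) ≤
      (t ^ 3) ^ i * (κ * z ^ 2 * t ^ (k + (l.size + r.size))) :=
    mul_le_mul_of_nonneg_right (pow_le_pow_left₀ (by positivity) hWt i) (by positivity)
  have e13 : 0 ≤ κ * Tw z (.node l r) := mul_nonneg hk.le (Tw_nonneg hz0 _)
  have e14 : 0 ≤ (ω ^ 3) ^ i * (κ * (z * (z ^ 2 - 1))) := by positivity
  linarith

/-- **The invariant holds.** -/
theorem inv_all (G : Fair z ω κ) (R : Rate z ω t) (n : ℕ) : ∀ T : BT, T.size ≤ n →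
    3 ≤ T.size → Inv z ω κ t T := by
  have hz := G.hz
  have hz0 : 0 ≤ z := by linarith
  have hk := G.k_pos
  have hw := G.w
  have hW : 1 ≤ ω ^ 3 := one_le_pow₀ (by linarith)
  have tr : ∀ {T U : BT}, Iso T U → Inv z ω κ t U → Inv z ω κ t T := by
    intro T U h h1 i
    rw [V_iso h, Tw_iso h, Hw_iso h, h.size_eq]
    exact h1 i
  induction n with
  | zero =>
    intro T h2 h3
    omega
  | succ n ih =>
    intro T hTn hT3
    have main : ∀ (k : ℕ) (l r : BT), Iso T (chain k (.node l r)) → l ≠ .leaf → r ≠ .leaf →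
        l.size ≤ r.size → Inv z ω κ t T := by
      intro k l r hi hl hr hlr
      refine tr hi ?_
      have hs : T.size = k + (l.size + r.size) := by
        rw [hi.size_eq, chain_size]
        rfl
      have hs' : (chain k (.node l r)).size = k + (l.size + r.size) := by
        rw [chain_size]
        rfl
      have hl2 := two_le_size hl
      have hr2 := two_le_size hr
      rcases hl2.eq_or_lt with h2 | h2
      · obtain rfl := size_eq_two h2.symm
        have hc : cherry.size = 2 := rfl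
        rcases hr2.eq_or_lt with h3 | h3
        · obtain rfl := size_eq_two h3.symm
          have hB : B z (chain k (.node cherry cherry)) ≤ 0 := by
            refine (B_chain hz0 k _).trans ((mass_mono hz0 (bigD_cherry_node cherry)).trans ?_)
            rw [bigD_cherry]
            exact le_of_eq rfl
          refine inv_small G R hB ?_
          rw [hs', hc]
          exact G.cc k
        · refine Inv_of hk.le hW (a := Tw z r) (b := Hw z r)
            (mass_mono hz0 ((tauD_chain k _).trans (tauD_cherry_node r)))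
            (mass_mono hz0 ((hugeD_chain k _).trans (hugeD_cherry_node r))) ?_
          rw [hs', hc]
          exact cherryQ G R h3 (ih r (by omega) h3) k
      · have hr3 : 3 ≤ r.size := by omega
        rcases (show 3 ≤ l.size from h2).eq_or_lt with h3 | h3
        · obtain ⟨-, -, b3, b4⟩ := three_boundsL hz0 h3.symm hr3
          refine Inv_of hk.le hW (a := z ^ 3 * (V z r - z - z ^ 2)) (b := Hw z r)
            ((mass_mono hz0 (tauD_chain k _)).trans b3)
            ((mass_mono hz0 (hugeD_chain k _)).trans b4) ?_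
          rw [hs', ← h3]
          exact threeQ G R h3.symm hr3 (ih r (by omega) hr3) k
        · refine Inv_of hk.le hW (a := Tw z (.node l r)) (b := Hw z (.node l r))
            (mass_mono hz0 (tauD_chain k _)) (mass_mono hz0 (hugeD_chain k _)) ?_
          rw [hs']
          exact largeQ G R h3 hlr (ih l (by omega) (by omega)) (ih r (by omega) hr3) k
    obtain ⟨k, x, hi, hx⟩ := exists_chain T
    rcases hx with rfl | ⟨l, r, rfl, hl, hr⟩
    · refine tr hi ?_
      have hs : T.size = k + 1 := by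
        rw [hi.size_eq, chain_size]
        rfl
      obtain ⟨m, rfl⟩ : ∃ m, k = m + 2 := ⟨k - 2, by omega⟩
      have h5 : B z (chain (m + 2) .leaf) ≤ 0 := by
        refine (B_chain hz0 (m + 2) _).trans ?_
        unfold B
        rw [bigD_leaf]
        exact le_of_eq rfl
      refine inv_small G R h5 ?_
      rw [show (chain (m + 2) .leaf).size = m + 3 by rw [chain_size]; rfl]
      exact G.cat m
    · rcases le_total l.size r.size with h | h
      · exact main k l r hi hl hr h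
      · exact main k r l (hi.trans (chain_iso (Iso.swap (Iso.refl _) (Iso.refl _)) k)) hr hl h

/-- **The upper bound for the weight of all decks.** -/
theorem V_le_rate (G : Fair z ω κ) (R : Rate z ω t) {T : BT} (hT : 3 ≤ T.size) :
    V z T ≤ t ^ T.size := by
  have hz := G.hz
  have hz0 : 0 ≤ z := by linarith
  have hk := G.k_pos
  have hw := G.w
  have hge := R.ge
  have h1 := (inv_all G R T.size T le_rfl hT).zero
  have h2 : 0 ≤ κ * Hw z T := mul_nonneg hk.le (Hw_nonneg hz0 T)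
  have h3 : t ^ 2 ≤ t ^ T.size := pow_le_pow_right₀ (by linarith) (by omega)
  have h4 : z * (z + 1) ≤ t ^ 2 := by nlinarith
  have h5 : κ * (z - 1) * (z * (z + 1)) ≤ κ * (z - 1) * t ^ T.size :=
    mul_le_mul_of_nonneg_left (h4.trans h3) (mul_nonneg hk.le (by linarith))
  have h6 : κ * z ^ 2 * t ^ T.size + κ * (z - 1) * t ^ T.size = t ^ T.size := by
    linear_combination t ^ T.size * G.hκ
  linarith

end

end Pool.Agent.DeckB
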