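import Pool.Agent.DeckB.FinalB
import Pool.Agent.DeckB.SharpN
import Pool.Agent.DeckB.Lam

/-!
# The growth function near `1`, also beyond the threshold
-/

set_option autoImplicit false

namespace Pool.Agent.DeckB

open Filter Topology

theorem growth_le_Lam {z u : ℝ} (hz : 7 / 3 ≤ z) (h0 : 0 < u) (h1 : u ≤ 1) :
    growth u ≤ Lam z - u * Real.log z := by
  have hz0 : 0 < z := by linarith
  have hX : 0 < z ^ 3 + 2 * z ^ 2 := by positivity
  have hω : Real.exp (Real.log (z ^ 3 + 2 * z ^ 2) / 3) ^ 3 = z ^ 3 + 2 * z ^ 2 := by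
    rw [← Real.exp_nat_mul]
    push_cast
    rw [mul_div_cancel₀ _ (by norm_num : (3 : ℝ) ≠ 0), Real.exp_log hX]
  have hκ : 1 / (z ^ 2 + z - 1) * (z ^ 2 + z - 1) = 1 := by
    have : z ^ 2 + z - 1 ≠ 0 := by nlinarith
    exact one_div_mul_cancel this
  have G : Fair z (Real.exp (Real.log (z ^ 3 + 2 * z ^ 2) / 3)) (1 / (z ^ 2 + z - 1)) :=
    ⟨hz, (Real.exp_pos _).le, hω, hκ⟩
  have R : Rate z (Real.exp (Real.log (z ^ 3 + 2 * z ^ 2) / 3)) (Real.exp (Lam z)) :=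
    ⟨Real.exp_le_exp.2 (lam_ge hz0), vv_le hz0, lam_up hz⟩
  have hδ : Tendsto (fun n : ℕ => (⌊u * n⌋₊ : ℝ) / n) atTop (𝓝 u) :=
    floor_ratio h0.le tendsto_id
  have hfl : ∀ n : ℕ, ⌊u * n⌋₊ ≤ n := by
    intro n
    refine Nat.floor_le_of_le ?_
    have : (0 : ℝ) ≤ n := Nat.cast_nonneg _
    nlinarith
  have hpos : ∀ᶠ n : ℕ in atTop, 1 ≤ ⌊u * n⌋₊ := by
    have h5 : Tendsto (fun n : ℕ => u * (n : ℝ)) atTop atTop :=
      Tendsto.const_mul_atTop h0 tendsto_natCast_atTop_atTop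
    exact (h5.eventually (eventually_ge_atTop 1)).mono fun n hn => Nat.floor_pos.mpr hn
  have h2 : Tendsto (fun n : ℕ => Real.log (M n ⌊u * n⌋₊) / n) atTop (𝓝 (growth u)) :=
    log_M_tendsto (n := fun n : ℕ => n) (j := fun n : ℕ => ⌊u * n⌋₊) h0.le h1 tendsto_id
      (hpos.mono fun n hn => ⟨hn, hfl n⟩) hδ
  have h3 : Tendsto (fun n : ℕ => Lam z - (⌊u * n⌋₊ : ℝ) / n * Real.log z) atTop
      (𝓝 (Lam z - u * Real.log z)) := (hδ.mul_const _).const_sub _
  refine le_of_tendsto_of_tendsto h2 h3 ?_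
  filter_upwards [eventually_ge_atTop 3, hpos] with n hn hj
  have hn0 : (0 : ℝ) < n := by
    have : 0 < n := by omega
    exact_mod_cast this
  obtain ⟨T, hT, hM⟩ := exists_M (show 1 ≤ n by omega) ⌊u * n⌋₊
  have h4 := V_le_rate G R (T := T) (by omega)
  have h5 := deck_weight hz0.le ⌊u * n⌋₊ T
  rw [hM] at h5
  rw [hT] at h4
  have h6 := M_pos hj (hfl n)
  have h7 := Real.log_le_log (by positivity) (h5.trans h4)
  rw [Real.log_mul (by positivity) (by positivity), Real.log_pow, Real.log_pow,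
    Real.log_exp] at h7
  show Real.log (M n ⌊u * n⌋₊) / n ≤ Lam z - (⌊u * n⌋₊ : ℝ) / n * Real.log z
  rw [div_le_iff₀ hn0]
  refine (by linarith : Real.log (M n ⌊u * n⌋₊) ≤
    n * Lam z - (⌊u * n⌋₊ : ℝ) * Real.log z).trans (le_of_eq ?_)
  field_simp

/-- **The growth function near `1`.** -/
theorem growth_min {x : ℝ} (h0 : 0 < x) (h1 : x ≤ 1 / 6) :
    (∃ z : ℝ, 0 < z ∧ growth (1 - x) = Lam z - (1 - x) * Real.log z) ∧
      ∀ z : ℝ, 0 < z → growth (1 - x) ≤ Lam z - (1 - x) * Real.log z := by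
  have key : ∀ z : ℝ, 0 < z → growth (1 - x) ≤ Lam z - (1 - x) * Real.log z := by
    intro z hz
    rcases le_or_gt (7 / 3) z with h2 | h2
    · exact growth_le_Lam h2 (by linarith) (by linarith)
    · have h3 := growth_le_Lam (z := 7 / 3) (u := 1 - x) le_rfl (by linarith) (by linarith)
      have h4 := Lam_conv hz h2
      have h5 : Real.log z ≤ Real.log (7 / 3) := Real.log_le_log hz h2.le
      have h6 : 0 ≤ (1 / 6 - x) * (Real.log (7 / 3) - Real.log z) :=
        mul_nonneg (by linarith) (by linarith)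
      linarith
  refine ⟨?_, key⟩
  obtain ⟨z, hz, -, h2⟩ := exists_tilt (u := 1 - x) (by linarith) (by linarith)
  refine ⟨z, hz, le_antisymm (key z hz) ?_⟩
  have h3 : Lam z ≤ growth (1 - x) + (1 - x) * Real.log z := ciSup_le h2
  linarith

end Pool.Agent.DeckB
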