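import Pool.Agent.DeckB.Lam

/-!
# The slopes of the rates of the patterns (helper86)
-/

set_option autoImplicit false

namespace Pool.Agent.DeckB

/-- The slope of the rate of the pattern `k`. -/
noncomputable def sl (z : ℝ) (k : ℕ) : ℝ := dd z k / vv z k / ((3 * k + 4 : ℕ) : ℝ)

namespace Slope

theorem vv_pos {z : ℝ} (hz : 0 < z) (k : ℕ) : 0 < vv z k := by
  induction k with
  | zero =>
    show 0 < z ^ 4 + 2 * z ^ 3 + 2 * z ^ 2
    positivity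
  | succ k ih =>
    show 0 < (z ^ 3 + 2 * z ^ 2) * vv z k + (z + 1) * z ^ 3
    positivity

/-- the distance from the upper bound -/
noncomputable def U (z : ℝ) (k : ℕ) : ℝ :=
  (3 * z + 4) * (3 * k + 4) * vv z k - 3 * (z + 2) * dd z k

theorem U_zero (z : ℝ) : U z 0 = z ^ 2 * (-2 * z ^ 2 + 8 * z + 8) := by
  show (3 * z + 4) * (3 * ((0 : ℕ) : ℝ) + 4) * (z ^ 4 + 2 * z ^ 3 + 2 * z ^ 2) -
    3 * (z + 2) * (4 * z ^ 4 + 6 * z ^ 3 + 4 * z ^ 2) = _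
  push_cast
  ring

theorem U_succ (z : ℝ) (k : ℕ) : U z (k + 1) = (z ^ 3 + 2 * z ^ 2) * U z k +
    z ^ 3 * ((3 * z + 4) * (3 * k + 7) * (z + 1) - 3 * (z + 2) * (4 * z + 3)) := by
  show (3 * z + 4) * (3 * ((k + 1 : ℕ) : ℝ) + 4) *
    ((z ^ 3 + 2 * z ^ 2) * vv z k + (z + 1) * z ^ 3) - 3 * (z + 2) *
    ((3 * z ^ 3 + 4 * z ^ 2) * vv z k + (z ^ 3 + 2 * z ^ 2) * dd z k +
      (4 * z ^ 4 + 3 * z ^ 3)) = _
  unfold U
  push_cast
  ring

theorem U_ge {z : ℝ} (hz : 0 < z) (k : ℕ) : (z ^ 3 + 2 * z ^ 2) * U z k ≤ U z (k + 1) := by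
  rw [U_succ]
  have h1 : 0 ≤ (3 * z + 4) * (3 * k + 7) * (z + 1) - 3 * (z + 2) * (4 * z + 3) := by
    have h2 : (0 : ℝ) ≤ k := Nat.cast_nonneg k
    have h3 : 0 ≤ (3 * z + 4) * (3 * k) * (z + 1) := by positivity
    nlinarith
  have h4 : 0 ≤ z ^ 3 * ((3 * z + 4) * (3 * k + 7) * (z + 1) - 3 * (z + 2) * (4 * z + 3)) :=
    mul_nonneg (by positivity) h1
  linarith

theorem U_pos {z : ℝ} (h1 : 7 / 3 ≤ z) (h2 : z ≤ 71 / 30) (k : ℕ) : 0 < U z k := by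
  have hz : 0 < z := by linarith
  induction k with
  | zero =>
    rw [U_zero]
    have : 0 < -2 * z ^ 2 + 8 * z + 8 := by nlinarith
    positivity
  | succ k ih =>
    refine lt_of_lt_of_le ?_ (U_ge hz k)
    positivity

theorem U_big {z : ℝ} (h1 : 7 / 3 ≤ z) (h2 : z ≤ 71 / 30) (k : ℕ) :
    (3 * z + 4) * (3 * (k + 1) + 4) * (3 * (k + 1) + 7) * ((z + 1) * z ^ 3) <
      3 * (z ^ 3 + 2 * z ^ 2) * U z (k + 1) := by
  have hz : 0 < z := by linarith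
  have hW : 2 ≤ z ^ 3 + 2 * z ^ 2 := by nlinarith [pow_pos hz 3]
  induction k with
  | zero =>
    have h3 := U_ge hz 0
    rw [U_zero] at h3
    have h4 : 15 ≤ -2 * z ^ 2 + 8 * z + 8 := by nlinarith
    have h5 : (z ^ 3 + 2 * z ^ 2) * (z ^ 2 * 15) ≤ U z (0 + 1) := by
      refine le_trans ?_ h3
      gcongr
    have h6 : 3 * (z ^ 3 + 2 * z ^ 2) * ((z ^ 3 + 2 * z ^ 2) * (z ^ 2 * 15)) ≤
        3 * (z ^ 3 + 2 * z ^ 2) * U z (0 + 1) := mul_le_mul_of_nonneg_left h5 (by positivity)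
    refine lt_of_lt_of_le ?_ h6
    have h7 : (3 * z + 4) * (3 * (((0 : ℕ) : ℝ) + 1) + 4) * (3 * (((0 : ℕ) : ℝ) + 1) + 7) *
        ((z + 1) * z ^ 3) = z ^ 3 * (70 * ((3 * z + 4) * (z + 1))) := by
      push_cast
      ring
    have h8 : 3 * (z ^ 3 + 2 * z ^ 2) * ((z ^ 3 + 2 * z ^ 2) * (z ^ 2 * 15)) =
        z ^ 3 * (45 * z ^ 3 * (z + 2) ^ 2) := by ring
    rw [h7, h8]
    refine mul_lt_mul_of_pos_left ?_ (by positivity)
    have h9 : 8 ≤ z ^ 3 := by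
      have : (2 : ℝ) ^ 3 ≤ z ^ 3 := pow_le_pow_left₀ (by norm_num) (by linarith) 3
      linarith
    have h10 : 45 * 8 * (z + 2) ^ 2 ≤ 45 * z ^ 3 * (z + 2) ^ 2 := by gcongr
    nlinarith
  | succ k ih =>
    have h3 := U_ge hz (k + 1)
    have h4 : 3 * (z ^ 3 + 2 * z ^ 2) * ((z ^ 3 + 2 * z ^ 2) * U z (k + 1)) ≤
        3 * (z ^ 3 + 2 * z ^ 2) * U z (k + 1 + 1) := mul_le_mul_of_nonneg_left h3 (by positivity)
    refine lt_of_lt_of_le ?_ h4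
    have h5 : (z ^ 3 + 2 * z ^ 2) * ((3 * z + 4) * (3 * (k + 1) + 4) * (3 * (k + 1) + 7) *
        ((z + 1) * z ^ 3)) < (z ^ 3 + 2 * z ^ 2) * (3 * (z ^ 3 + 2 * z ^ 2) * U z (k + 1)) :=
      mul_lt_mul_of_pos_left ih (by positivity)
    have h6 : (3 * z + 4) * (3 * (((k + 1 : ℕ) : ℝ) + 1) + 4) *
        (3 * (((k + 1 : ℕ) : ℝ) + 1) + 7) * ((z + 1) * z ^ 3) ≤
        (z ^ 3 + 2 * z ^ 2) * ((3 * z + 4) * (3 * (k + 1) + 4) * (3 * (k + 1) + 7) *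
        ((z + 1) * z ^ 3)) := by
      have h7 : (0 : ℝ) ≤ k := Nat.cast_nonneg k
      have h8 : 3 * (((k + 1 : ℕ) : ℝ) + 1) + 7 ≤ (z ^ 3 + 2 * z ^ 2) * (3 * ((k : ℝ) + 1) + 4) := by
        push_cast
        nlinarith
      have h9 : (3 * z + 4) * (3 * (((k + 1 : ℕ) : ℝ) + 1) + 4) *
        (3 * (((k + 1 : ℕ) : ℝ) + 1) + 7) * ((z + 1) * z ^ 3) =
        ((3 * z + 4) * (3 * ((k : ℝ) + 1) + 7) * ((z + 1) * z ^ 3)) *
          (3 * (((k + 1 : ℕ) : ℝ) + 1) + 7) := by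
        push_cast
        ring
      have h10 : (z ^ 3 + 2 * z ^ 2) * ((3 * z + 4) * (3 * (k + 1) + 4) * (3 * (k + 1) + 7) *
        ((z + 1) * z ^ 3)) = ((3 * z + 4) * (3 * ((k : ℝ) + 1) + 7) * ((z + 1) * z ^ 3)) *
          ((z ^ 3 + 2 * z ^ 2) * (3 * ((k : ℝ) + 1) + 4)) := by ring
      rw [h9, h10]
      exact mul_le_mul_of_nonneg_left h8 (by positivity)
    linarith

theorem cast_nn (k : ℕ) : ((3 * k + 4 : ℕ) : ℝ) = 3 * k + 4 := by
  push_cast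
  ring

/-- the lower bound -/
theorem low {z : ℝ} (h1 : 7 / 3 ≤ z) (k : ℕ) :
    ((k : ℝ) + 2) * (3 * z + 4) * ((z + 1) * z ^ 3) ≤
      (z ^ 3 + 2 * z ^ 2 - 1) * ((z + 2) * dd z k - (3 * z + 4) * k * vv z k) := by
  have hz : 0 < z := by linarith
  have hW : 3 ≤ z ^ 3 + 2 * z ^ 2 := by nlinarith [pow_pos hz 3]
  induction k with
  | zero =>
    show (((0 : ℕ) : ℝ) + 2) * (3 * z + 4) * ((z + 1) * z ^ 3) ≤ (z ^ 3 + 2 * z ^ 2 - 1) *
      ((z + 2) * (4 * z ^ 4 + 6 * z ^ 3 + 4 * z ^ 2) -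
        (3 * z + 4) * ((0 : ℕ) : ℝ) * (z ^ 4 + 2 * z ^ 3 + 2 * z ^ 2))
    have h2 : (((0 : ℕ) : ℝ) + 2) * (3 * z + 4) * ((z + 1) * z ^ 3) ≤
        2 * ((z + 2) * (4 * z ^ 4 + 6 * z ^ 3 + 4 * z ^ 2)) := by
      push_cast
      have : 0 ≤ z ^ 3 * (z ^ 2 + 7 * z + 8) := by positivity
      nlinarith [pow_pos hz 2, pow_pos hz 3, pow_pos hz 4, pow_pos hz 5]
    refine h2.trans ?_
    have h3 : (z ^ 3 + 2 * z ^ 2 - 1) * ((z + 2) * (4 * z ^ 4 + 6 * z ^ 3 + 4 * z ^ 2) -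
        (3 * z + 4) * ((0 : ℕ) : ℝ) * (z ^ 4 + 2 * z ^ 3 + 2 * z ^ 2)) =
        (z ^ 3 + 2 * z ^ 2 - 1) * ((z + 2) * (4 * z ^ 4 + 6 * z ^ 3 + 4 * z ^ 2)) := by
      push_cast
      ring
    rw [h3]
    exact mul_le_mul_of_nonneg_right (by linarith) (by positivity)
  | succ k ih =>
    have h2 : (z + 2) * dd z (k + 1) - (3 * z + 4) * ((k + 1 : ℕ) : ℝ) * vv z (k + 1) =
        (z ^ 3 + 2 * z ^ 2) * ((z + 2) * dd z k - (3 * z + 4) * k * vv z k) +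
          (z + 2) * (4 * z ^ 4 + 3 * z ^ 3) - (3 * z + 4) * (k + 1) * ((z + 1) * z ^ 3) := by
      show (z + 2) * ((3 * z ^ 3 + 4 * z ^ 2) * vv z k + (z ^ 3 + 2 * z ^ 2) * dd z k +
        (4 * z ^ 4 + 3 * z ^ 3)) - (3 * z + 4) * ((k + 1 : ℕ) : ℝ) *
        ((z ^ 3 + 2 * z ^ 2) * vv z k + (z + 1) * z ^ 3) = _
      push_cast
      ring
    rw [h2]
    set L := (z + 2) * dd z k - (3 * z + 4) * k * vv z k with hL
    set W := z ^ 3 + 2 * z ^ 2 with hWd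
    set R := (3 * z + 4) * ((z + 1) * z ^ 3) with hR
    have hR0 : 0 ≤ R := by positivity
    have h3 : ((k : ℝ) + 2) * R ≤ (W - 1) * L := by
      refine le_trans (le_of_eq ?_) ih
      rw [hR]
      ring
    have h4 : 0 ≤ (W - 1) * ((z + 2) * (4 * z ^ 4 + 3 * z ^ 3)) :=
      mul_nonneg (by linarith) (by positivity)
    have h5 : W * (((k : ℝ) + 2) * R) ≤ W * ((W - 1) * L) :=
      mul_le_mul_of_nonneg_left h3 (by linarith)
    have h6 : (0 : ℝ) ≤ k := Nat.cast_nonneg k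
    have h7 : 0 ≤ (W - 2) * R := mul_nonneg (by linarith) hR0
    have h8 : (W - 1) * (W * L + (z + 2) * (4 * z ^ 4 + 3 * z ^ 3) -
        (3 * z + 4) * (k + 1) * ((z + 1) * z ^ 3)) = W * ((W - 1) * L) +
        (W - 1) * ((z + 2) * (4 * z ^ 4 + 3 * z ^ 3)) - (W - 1) * (k + 1) * R := by
      rw [hR]
      ring
    have h9 : (((k + 1 : ℕ) : ℝ) + 2) * (3 * z + 4) * ((z + 1) * z ^ 3) = (k + 3) * R := by
      rw [hR]
      push_cast
      ring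
    rw [h8, h9]
    nlinarith

end Slope

open Slope

/-- the slopes are increasing -/
theorem sl_lt {z : ℝ} (h1 : 7 / 3 ≤ z) (h2 : z ≤ 71 / 30) {j k : ℕ} (hj : 1 ≤ j) (hjk : j < k) :
    sl z j < sl z k := by
  have hz : 0 < z := by linarith
  have step : ∀ i : ℕ, sl z (i + 1) < sl z (i + 1 + 1) := by
    intro i
    have hv := vv_pos hz (i + 1)
    have hv' := vv_pos hz (i + 1 + 1)
    have hU := U_pos h1 h2 (i + 1)
    have hB := U_big h1 h2 i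
    unfold sl
    rw [div_div, div_div, div_lt_div_iff₀ (by positivity) (by positivity), cast_nn, cast_nn]
    set v := vv z (i + 1) with hvd
    set D := dd z (i + 1) with hDd
    set W := z ^ 3 + 2 * z ^ 2 with hWd
    have e1 : vv z (i + 1 + 1) = W * v + (z + 1) * z ^ 3 := rfl
    have e2 : dd z (i + 1 + 1) = (3 * z ^ 3 + 4 * z ^ 2) * v + W * D + (4 * z ^ 4 + 3 * z ^ 3) :=
      rfl
    have e3 : U z (i + 1) = (3 * z + 4) * (3 * ((i + 1 : ℕ) : ℝ) + 4) * v - 3 * (z + 2) * D := rfl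
    rw [e1, e2]
    have hi : (0 : ℝ) ≤ i := Nat.cast_nonneg i
    set n : ℝ := 3 * ((i + 1 : ℕ) : ℝ) + 4 with hn
    have hn' : 3 * ((i + 1 + 1 : ℕ) : ℝ) + 4 = n + 3 := by
      rw [hn]
      push_cast
      ring
    have hn0 : 0 < n := by positivity
    have hB' : (3 * z + 4) * n * (n + 3) * ((z + 1) * z ^ 3) < 3 * W * U z (i + 1) := by
      refine lt_of_eq_of_lt ?_ hB
      rw [hn]
      push_cast
      ring
    rw [hn']
    set u := U z (i + 1) with hu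
    -- 3 (z + 2) (right - left)
    have key : 3 * (z + 2) * (((3 * z ^ 3 + 4 * z ^ 2) * v + W * D + (4 * z ^ 4 + 3 * z ^ 3)) *
        (v * n) - D * ((W * v + (z + 1) * z ^ 3) * (n + 3))) =
        v * (3 * W * u - (3 * z + 4) * n * (n + 3) * ((z + 1) * z ^ 3)) +
          (n + 3) * ((z + 1) * z ^ 3) * u + 3 * (z + 2) * (4 * z ^ 4 + 3 * z ^ 3) * (v * n) := by
      rw [e3, hWd]
      ring
    have h3 : 0 < v * (3 * W * u - (3 * z + 4) * n * (n + 3) * ((z + 1) * z ^ 3)) :=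
      mul_pos hv (by linarith)
    have h4 : 0 < (n + 3) * ((z + 1) * z ^ 3) * u := by positivity
    have h5 : 0 < 3 * (z + 2) * (4 * z ^ 4 + 3 * z ^ 3) * (v * n) := by positivity
    have h6 : 0 < 3 * (z + 2) * (((3 * z ^ 3 + 4 * z ^ 2) * v + W * D +
        (4 * z ^ 4 + 3 * z ^ 3)) * (v * n) - D * ((W * v + (z + 1) * z ^ 3) * (n + 3))) := by
      rw [key]
      linarith
    have h7 := pos_of_mul_pos_right h6 (by positivity : (0 : ℝ) ≤ 3 * (z + 2))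
    linarith
  have mono : StrictMono fun i : ℕ => sl z (i + 1) := strictMono_nat_of_lt_succ step
  obtain ⟨j, rfl⟩ : ∃ i, j = i + 1 := ⟨j - 1, by omega⟩
  obtain ⟨k, rfl⟩ : ∃ i, k = i + 1 := ⟨k - 1, by omega⟩
  exact mono (show j < k by omega)

/-- the upper bound of the slopes -/
theorem sl_up {z : ℝ} (h1 : 7 / 3 ≤ z) (h2 : z ≤ 71 / 30) (k : ℕ) :
    sl z k < 1 - 2 / (3 * (z + 2)) := by
  have hz : 0 < z := by linarith
  have hv := vv_pos hz k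
  have hU := U_pos h1 h2 k
  have e : 1 - 2 / (3 * (z + 2)) = (3 * z + 4) / (3 * (z + 2)) := by
    field_simp
    ring
  unfold sl
  rw [e, div_div, div_lt_div_iff₀ (by positivity) (by positivity), cast_nn]
  unfold U at hU
  linarith

/-- the lower bound of the slopes -/
theorem sl_low {z : ℝ} (h1 : 7 / 3 ≤ z) (j : ℕ) :
    (3 * z + 4) * j ≤ (z + 2) * ((3 * j + 4 : ℕ) : ℝ) * sl z j := by
  have hz : 0 < z := by linarith
  have hv := vv_pos hz j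
  have hW : 1 < z ^ 3 + 2 * z ^ 2 := by nlinarith [pow_pos hz 3]
  have h3 := low h1 j
  have h4 : 0 ≤ (z + 2) * dd z j - (3 * z + 4) * j * vv z j := by
    by_contra h
    have h5 : (z ^ 3 + 2 * z ^ 2 - 1) * ((z + 2) * dd z j - (3 * z + 4) * j * vv z j) < 0 :=
      mul_neg_of_pos_of_neg (by linarith) (not_le.1 h)
    have h6 : 0 ≤ ((j : ℝ) + 2) * (3 * z + 4) * ((z + 1) * z ^ 3) := by positivity
    linarith
  have hn : (0 : ℝ) < ((3 * j + 4 : ℕ) : ℝ) := by positivity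
  have e : (z + 2) * ((3 * j + 4 : ℕ) : ℝ) * sl z j = (z + 2) * dd z j / vv z j := by
    unfold sl
    field_simp
  rw [e, le_div_iff₀ hv]
  linarith

end Pool.Agent.DeckB
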