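import Pool.Agent.DeckB.FinalC
import Pool.Agent.DeckB.Cross
import Pool.Agent.DeckB.Slope
import Pool.Agent.DeckB.Affine

/-!
# The affine pieces of the growth function
-/

set_option autoImplicit false

namespace Pool.Agent.DeckB

/-- **Infinitely many affine pieces.** -/
theorem growth_affine {β : ℝ} (hβ : 59 / 25 < β) (hβ' : β < 71 / 30) (h0 : Gb β = 0)
    (hG : ∀ z : ℝ, 7 / 3 ≤ z → z < β → 0 < Gb z) {e : ℝ} (he : 0 < e) :
    ∃ u v a c : ℝ, 1 - 2 / (3 * (β + 2)) - e < u ∧ u < v ∧ v < 1 - 2 / (3 * (β + 2)) ∧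
      -Real.log β < c ∧ c < -Real.log β + e ∧ ∀ x ∈ Set.Icc u v, growth x = a + c * x := by
  set us : ℝ := 1 - 2 / (3 * (β + 2)) with hus
  have hβ2 : 0 < β + 2 := by linarith
  have hus0 : 5 / 6 < us := by
    rw [hus]
    have : 2 / (3 * (β + 2)) < 1 / 6 := by
      rw [div_lt_div_iff₀ (by positivity) (by norm_num)]
      linarith
    linarith
  set e' : ℝ := min e (us - 5 / 6) with he'
  have he0 : 0 < e' := lt_min he (by linarith)
  obtain ⟨K, hK⟩ := exists_nat_gt (8 / e')
  rw [div_lt_iff₀ he0] at hK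
  obtain ⟨z, j, k, hz1, hz2, hz3, hj, hjk, hzj, hzk⟩ :=
    exists_crossing (by linarith) hβ'.le h0 hG (K + 1) (ε := e' / 2) (by linarith)
  have hz0 : 0 < z := by linarith
  have hz7 : z ≤ 71 / 30 := by linarith
  have hj1 : 1 ≤ j := by omega
  have s1 := sl_lt hz1.le hz7 hj1 hjk
  have s2 := sl_up hz1.le hz7 k
  have s3 := sl_low hz1.le j
  unfold sl at s1 s2 s3
  set u : ℝ := dd z j / vv z j / ((3 * j + 4 : ℕ) : ℝ) with hu
  set v : ℝ := dd z k / vv z k / ((3 * k + 4 : ℕ) : ℝ) with hv
  have hj0 : (K : ℝ) ≤ j := by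
    have : K ≤ j := by omega
    exact_mod_cast this
  have hjpos : (0 : ℝ) < ((3 * j + 4 : ℕ) : ℝ) := by positivity
  have hjc : ((3 * j + 4 : ℕ) : ℝ) = 3 * j + 4 := by push_cast; ring
  -- the lower bound for `u`
  have hu1 : us - e' < u := by
    have a1 : us - e' / 2 ≤ 1 - 2 / (3 * (z + 2)) := by
      have a2 : 2 / (3 * (z + 2)) - 2 / (3 * (β + 2)) ≤ β - z := by
        rw [div_sub_div _ _ (by positivity) (by positivity), div_le_iff₀ (by positivity)]
        have a3 : 0 ≤ (β - z) * (3 * (z + 2) * (3 * (β + 2)) - 6) := by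
          refine mul_nonneg (by linarith) ?_
          nlinarith
        nlinarith
      rw [hus]
      linarith
    have a4 : (1 - 2 / (3 * (z + 2))) * (3 * (z + 2)) = 3 * z + 4 := by
      field_simp
      ring
    have a5 : (1 - 2 / (3 * (z + 2))) * (3 * j) ≤ (3 * j + 4) * u := by
      rw [hjc] at s3
      have a6 : (z + 2) * ((1 - 2 / (3 * (z + 2))) * (3 * j)) ≤ (z + 2) * ((3 * j + 4) * u) := by
        calc (z + 2) * ((1 - 2 / (3 * (z + 2))) * (3 * j))
            = (1 - 2 / (3 * (z + 2))) * (3 * (z + 2)) * j := by ring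
          _ = (3 * z + 4) * j := by rw [a4]
          _ ≤ (z + 2) * (3 * j + 4) * u := s3
          _ = _ := by ring
      exact le_of_mul_le_mul_left a6 (by linarith)
    have a7 : 1 - 2 / (3 * (z + 2)) ≤ 1 := by
      have : 0 < 2 / (3 * (z + 2)) := by positivity
      linarith
    by_contra hcon
    push Not at hcon
    have a8 : (3 * (j : ℝ) + 4) * u ≤ (3 * j + 4) * (us - e') :=
      mul_le_mul_of_nonneg_left hcon (by positivity)
    have a9 : (us - e' / 2) * (3 * j + 4) ≤ (1 - 2 / (3 * (z + 2))) * (3 * j + 4) :=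
      mul_le_mul_of_nonneg_right a1 (by positivity)
    have a10 : 8 < (j : ℝ) * e' := lt_of_lt_of_le hK (mul_le_mul_of_nonneg_right hj0 he0.le)
    nlinarith
  have hu2 : us - e < u := by
    have := min_le_left e (us - 5 / 6)
    rw [← he'] at this
    linarith
  have hu3 : 5 / 6 < u := by
    have := min_le_right e (us - 5 / 6)
    rw [← he'] at this
    linarith
  have hv1 : v < us := by
    refine s2.trans_le ?_
    rw [hus]
    have : 2 / (3 * (β + 2)) ≤ 2 / (3 * (z + 2)) :=
      div_le_div_of_nonneg_left (by norm_num) (by positivity) (by linarith)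
    linarith
  have hus1 : us < 1 := by
    have : 0 < 2 / (3 * (β + 2)) := by positivity
    rw [hus]
    linarith
  have hlog : Real.log z < Real.log β := Real.log_lt_log hz0 hz2
  have hlog' : Real.log β - Real.log z < e := by
    rw [← Real.log_div (by linarith) hz0.ne']
    have h1 := Real.log_le_sub_one_of_pos (show 0 < β / z by positivity)
    have h2 : β / z - 1 = (β - z) / z := by
      field_simp
    have h3 : (β - z) / z ≤ β - z := div_le_self (by linarith) (by linarith)
    have := min_le_left e (us - 5 / 6)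
    rw [← he'] at this
    linarith
  refine ⟨u, v, Lam z, -Real.log z, hu2, s1, hv1, by linarith, by linarith, ?_⟩
  rintro x ⟨hx1, hx2⟩
  have h1 := affine_min hz0 hzj hzk hx1 hx2
  obtain ⟨⟨y, hy, h2⟩, h3⟩ := growth_min (x := 1 - x) (by linarith) (by linarith)
  rw [sub_sub_cancel] at h2 h3
  have h4 := h1 y hy
  have h5 := h3 z hz0
  linarith

end Pool.Agent.DeckB
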