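import Pool.Agent.DeckB.FinalD

/-!
# The sequence of the affine pieces of the growth function
-/

set_option autoImplicit false

namespace Pool.Agent.DeckB

open Filter Topology

/-- From one piece near the limit for every `e` to a sequence of disjoint pieces. -/
theorem seq_of_pieces {g : ℝ → ℝ} {s l : ℝ} (h : ∀ e : ℝ, 0 < e → ∃ u v a c : ℝ,
    s - e < u ∧ u < v ∧ v < s ∧ l < c ∧ c < l + e ∧ ∀ x ∈ Set.Icc u v, g x = a + c * x) :
    ∃ u v c : ℕ → ℝ, (∀ k, u k < v k ∧ v k < u (k + 1) ∧ c (k + 1) < c k ∧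
      ∀ x ∈ Set.Icc (u k) (v k), g x = g (u k) + c k * (x - u k)) ∧
      Tendsto u atTop (𝓝 s) ∧ Tendsto c atTop (𝓝 l) := by
  -- the good triples
  let P : ℝ × ℝ × ℝ → Prop := fun p => p.1 < p.2.1 ∧ p.2.1 < s ∧ l < p.2.2 ∧
    ∀ x ∈ Set.Icc p.1 p.2.1, g x = g p.1 + p.2.2 * (x - p.1)
  have h1 : ∀ e : ℝ, 0 < e → ∃ p : {p // P p}, s - e < p.1.1 ∧ p.1.2.2 < l + e := by
    intro e he
    obtain ⟨u, v, a, c, h2, h3, h4, h5, h6, h7⟩ := h e he
    refine ⟨⟨(u, v, c), h3, h4, h5, fun x hx => ?_⟩, h2, h6⟩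
    show g x = g u + c * (x - u)
    rw [h7 x hx, h7 u ⟨le_rfl, h3.le⟩]
    ring
  have h2 : ∀ (n : ℕ) (p : {p // P p}), ∃ q : {p // P p}, p.1.2.1 < q.1.1 ∧
      q.1.2.2 < p.1.2.2 ∧ s - 1 / ((n : ℝ) + 1) < q.1.1 ∧ q.1.2.2 < l + 1 / ((n : ℝ) + 1) := by
    rintro n ⟨⟨u, v, c⟩, a1, a2, a3, a4⟩
    have a2' : v < s := a2
    have a3' : l < c := a3
    have hn : (0 : ℝ) < 1 / ((n : ℝ) + 1) := by positivity
    obtain ⟨q, b1, b2⟩ := h1 (min (1 / ((n : ℝ) + 1)) (min (s - v) (c - l)))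
      (lt_min hn (lt_min (by linarith) (by linarith)))
    have c1 := min_le_left (1 / ((n : ℝ) + 1)) (min (s - v) (c - l))
    have c2 := (min_le_right (1 / ((n : ℝ) + 1)) (min (s - v) (c - l))).trans (min_le_left _ _)
    have c3 := (min_le_right (1 / ((n : ℝ) + 1)) (min (s - v) (c - l))).trans (min_le_right _ _)
    exact ⟨q, show v < q.1.1 by linarith, show q.1.2.2 < c by linarith, by linarith, by linarith⟩
  choose F hF using h2
  obtain ⟨p0, -, -⟩ := h1 1 one_pos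
  let t : ℕ → {p // P p} := fun n => Nat.rec p0 (fun n p => F n p) n
  have ht : ∀ n, t (n + 1) = F n (t n) := fun n => rfl
  refine ⟨fun k => (t k).1.1, fun k => (t k).1.2.1, fun k => (t k).1.2.2, fun k => ?_, ?_, ?_⟩
  · have b := hF k (t k)
    rw [← ht] at b
    exact ⟨(t k).2.1, b.1, b.2.1, (t k).2.2.2.2⟩
  · have b1 : ∀ k : ℕ, s - 1 / ((k : ℝ) + 1) < (t (k + 1)).1.1 := by
      intro k
      have b := (hF k (t k)).2.2.1
      rwa [← ht] at b
    have b2 : ∀ k : ℕ, (t (k + 1)).1.1 < s := fun k => (t (k + 1)).2.1.trans (t (k + 1)).2.2.1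
    rw [← tendsto_add_atTop_iff_nat 1]
    refine tendsto_of_tendsto_of_tendsto_of_le_of_le ?_ tendsto_const_nhds
      (fun k => (b1 k).le) (fun k => (b2 k).le)
    have b3 : Tendsto (fun k : ℕ => s - 1 / ((k : ℝ) + 1)) atTop (𝓝 (s - 0)) :=
      tendsto_const_nhds.sub tendsto_one_div_add_atTop_nhds_zero_nat
    rwa [sub_zero] at b3
  · have b1 : ∀ k : ℕ, (t (k + 1)).1.2.2 < l + 1 / ((k : ℝ) + 1) := by
      intro k
      have b := (hF k (t k)).2.2.2
      rwa [← ht] at b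
    have b2 : ∀ k : ℕ, l < (t (k + 1)).1.2.2 := fun k => (t (k + 1)).2.2.2.1
    rw [← tendsto_add_atTop_iff_nat 1]
    refine tendsto_of_tendsto_of_tendsto_of_le_of_le tendsto_const_nhds ?_
      (fun k => (b2 k).le) (fun k => (b1 k).le)
    have b3 : Tendsto (fun k : ℕ => l + 1 / ((k : ℝ) + 1)) atTop (𝓝 (l + 0)) :=
      tendsto_const_nhds.add tendsto_one_div_add_atTop_nhds_zero_nat
    rwa [add_zero] at b3

end Pool.Agent.DeckB
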