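import Pool.Agent.DeckB.Asym
import Pool.Agent.DeckB.Defs2

/-!
# Decks: sizes, joins, universal trees
-/

set_option autoImplicit false

namespace Pool.Agent.DeckB

theorem rep_size (P Z : BT) (q : ℕ) : (rep P q Z).size = q * P.size + Z.size := by
  induction q with
  | zero => simp [rep]
  | succ q ih =>
    show P.size + (rep P q Z).size = _
    rw [ih]
    ring

theorem restrict_size {T : BT} (S : Leaf T → Bool) :
    (restrict T S).elim 0 BT.size + dl S = T.size := by
  induction T with
  | leaf =>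
    rw [dl_leaf]
    by_cases h : S () = true
    · rw [restrict_leaf_true S h, if_pos h]
      rfl
    · rw [restrict_leaf_false S (by simpa using h), if_neg h]
      rfl
  | node l r ihl ihr =>
    have h1 := ihl fun x => S (Sum.inl x)
    have h2 := ihr fun x => S (Sum.inr x)
    rw [dl_node]
    have h3 : (restrict (.node l r) S).elim 0 BT.size =
        (restrict l fun x => S (Sum.inl x)).elim 0 BT.size +
          (restrict r fun x => S (Sum.inr x)).elim 0 BT.size := by
      show (glue (restrict l fun x => S (Sum.inl x)) (restrict r fun x => S (Sum.inr x))).elim 0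
        BT.size = _
      rcases restrict l fun x => S (Sum.inl x) with _ | s <;>
        rcases restrict r fun x => S (Sum.inr x) with _ | t
      · rfl
      · exact (zero_add _).symm
      · rfl
      · rfl
    rw [h3]
    show _ = l.size + r.size
    omega

theorem deck_subset (j : ℕ) (T : BT) : deck j T ⊆ shapes j := by
  rintro q ⟨S, h1, t, h2, rfl⟩
  refine ⟨t, ?_, rfl⟩
  have h3 := restrict_size S
  have h4 := dl_add_card S
  rw [h2, Option.elim_some] at h3
  omega

/-- The tree as a tree of Mathlib. -/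
def toTree : BT → BinaryTree Unit
  | .leaf => .nil
  | .node l r => .node () (toTree l) (toTree r)

theorem toTree_inj : Function.Injective toTree := by
  intro T
  induction T with
  | leaf =>
    intro U h
    cases U with
    | leaf => rfl
    | node l r => exact absurd h (by simp [toTree])
  | node l r ihl ihr =>
    intro U h
    cases U with
    | leaf => exact absurd h (by simp [toTree])
    | node l' r' =>
      simp only [toTree, BinaryTree.node.injEq, true_and] at h
      rw [ihl h.1, ihr h.2]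

theorem toTree_numNodes (T : BT) : (toTree T).numNodes + 1 = T.size := by
  induction T with
  | leaf => rfl
  | node l r ihl ihr =>
    show ((toTree l).numNodes + (toTree r).numNodes + 1) + 1 = l.size + r.size
    omega

theorem trees_subset (k : ℕ) : toTree '' {T : BT | T.size = k} ⊆
    (BinaryTree.treesOfNumNodesEq (k - 1) : Set (BinaryTree Unit)) := by
  rintro _ ⟨T, rfl, rfl⟩
  rw [Finset.mem_coe, BinaryTree.mem_treesOfNumNodesEq]
  have := toTree_numNodes T
  omega

theorem trees_finite (k : ℕ) : {T : BT | T.size = k}.Finite :=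
  Set.Finite.of_finite_image ((Finset.finite_toSet _).subset (trees_subset k))
    (toTree_inj.injOn)

theorem shapes_eq (k : ℕ) : shapes k = BT.shape '' {T : BT | T.size = k} := rfl

theorem shapes_finite (k : ℕ) : (shapes k).Finite := (trees_finite k).image _

theorem W_le (k : ℕ) : W k ≤ 4 ^ k := by
  have h1 : W k ≤ {T : BT | T.size = k}.ncard := Set.ncard_image_le (trees_finite k)
  have h2 : {T : BT | T.size = k}.ncard = (toTree '' {T : BT | T.size = k}).ncard :=
    (Set.ncard_image_of_injective _ toTree_inj).symm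
  have h3 := Set.ncard_le_ncard (trees_subset k) (Finset.finite_toSet _)
  rw [Set.ncard_coe_finset, BinaryTree.treesOfNumNodesEq_card_eq_catalan,
    catalan_eq_centralBinom_div] at h3
  have h4 : (k - 1).centralBinom / (k - 1 + 1) ≤ (k - 1).centralBinom := Nat.div_le_self _ _
  have h5 : (k - 1).centralBinom ≤ 2 ^ (2 * (k - 1)) := by
    rw [Nat.centralBinom_eq_two_mul_choose]
    exact Nat.choose_le_two_pow _ _
  have h6 : 2 ^ (2 * (k - 1)) ≤ 4 ^ k := by
    rw [show (4 : ℕ) = 2 ^ 2 from rfl, ← pow_mul]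
    exact Nat.pow_le_pow_right (by norm_num) (by omega)
  omega

theorem ncard_deck_le_W (j : ℕ) (T : BT) : (deck j T).ncard ≤ W j :=
  Set.ncard_le_ncard (deck_subset j T) (shapes_finite j)

theorem bdd_M (n j : ℕ) : BddAbove {x | ∃ T : BT, T.size = n ∧ (deck j T).ncard = x} := by
  refine ⟨W j, ?_⟩
  rintro _ ⟨T, -, rfl⟩
  exact ncard_deck_le_W j T

theorem ncard_deck_le_M (j : ℕ) (T : BT) : (deck j T).ncard ≤ M T.size j :=
  le_csSup (bdd_M _ j) ⟨T, rfl, rfl⟩

theorem exists_tree {n : ℕ} (hn : 1 ≤ n) : ∃ T : BT, T.size = n :=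
  ⟨chain (n - 1) .leaf, by
    rw [chain_size]
    show n - 1 + 1 = n
    omega⟩

theorem exists_M {n : ℕ} (hn : 1 ≤ n) (j : ℕ) :
    ∃ T : BT, T.size = n ∧ (deck j T).ncard = M n j := by
  obtain ⟨T, hT⟩ := exists_tree hn
  have h : {x | ∃ T : BT, T.size = n ∧ (deck j T).ncard = x}.Nonempty :=
    ⟨(deck j T).ncard, T, hT, rfl⟩
  exact Nat.sSup_mem h (bdd_M n j)

theorem M_le_W (n j : ℕ) : M n j ≤ W j := by
  apply csSup_le'
  rintro _ ⟨T, -, rfl⟩
  exact ncard_deck_le_W j T

theorem exists_set {T : BT} {j : ℕ} (hj : j ≤ T.size) :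
    ∃ S : Leaf T → Bool, Nat.card {x // S x = true} = j := by
  classical
  rw [← card_leaf] at hj
  obtain ⟨s, -, hs⟩ := Finset.exists_subset_card_eq (s := (Finset.univ : Finset (Leaf T))) hj
  refine ⟨fun x => decide (x ∈ s), ?_⟩
  rw [Nat.card_eq_fintype_card, Fintype.card_subtype, ← hs]
  congr 1
  ext x
  simp

theorem deck_nonempty {T : BT} {j : ℕ} (h0 : 1 ≤ j) (hj : j ≤ T.size) : (deck j T).Nonempty := by
  obtain ⟨S, hS⟩ := exists_set hj
  have h1 := restrict_size S
  have h2 := dl_add_card S
  rcases h : restrict T S with _ | t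
  · rw [h, Option.elim_none] at h1
    omega
  · exact ⟨_, S, hS, t, h, rfl⟩

theorem one_le_deck {T : BT} {j : ℕ} (h0 : 1 ≤ j) (hj : j ≤ T.size) : 1 ≤ (deck j T).ncard :=
  (Set.ncard_pos (deck_finite _ _)).2 (deck_nonempty h0 hj)

theorem one_le_M {n j : ℕ} (h0 : 1 ≤ j) (hj : j ≤ n) : 1 ≤ M n j := by
  obtain ⟨T, rfl⟩ := exists_tree (le_trans h0 hj)
  exact (one_le_deck h0 hj).trans (ncard_deck_le_M j T)

/-- Two classes joined at a new root. -/
def join : Shape → Shape → Shape :=
  Quotient.map₂ (sa := isoSetoid) (sb := isoSetoid) (sc := isoSetoid)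
      BT.node (fun _ _ h _ _ h' => Iso.node h h')

theorem shape_eq {T U : BT} : T.shape = U.shape ↔ Iso T U := by
  unfold BT.shape
  exact Quotient.eq (r := isoSetoid)

theorem join_shape (T U : BT) : join T.shape U.shape = (BT.node T U).shape := rfl

theorem exists_shape (q : Shape) : ∃ T : BT, T.shape = q := Quotient.exists_rep q

theorem join_eq {q r q' r' : Shape} (h : join q r = join q' r') :
    (q = q' ∧ r = r') ∨ (q = r' ∧ r = q') := by
  obtain ⟨a, rfl⟩ := exists_shape q
  obtain ⟨b, rfl⟩ := exists_shape r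
  obtain ⟨a', rfl⟩ := exists_shape q'
  obtain ⟨b', rfl⟩ := exists_shape r'
  rw [join_shape, join_shape, shape_eq] at h
  simp only [shape_eq]
  cases h with
  | node h1 h2 => exact Or.inl ⟨h1, h2⟩
  | swap h1 h2 => exact Or.inr ⟨h1, h2⟩

theorem join_mem {T U : BT} {i j : ℕ} {q r : Shape} (hq : q ∈ deck i T) (hr : r ∈ deck j U) :
    join q r ∈ deck (i + j) (.node T U) := by
  obtain ⟨S, h1, t, h2, rfl⟩ := hq
  obtain ⟨S', h1', t', h2', rfl⟩ := hr
  obtain ⟨S'', h3, h4⟩ := exists_node (S := S) (S' := S')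
  refine ⟨S'', ?_, .node t t', ?_, (join_shape _ _).symm⟩
  · have h5 := dl_add_card S
    have h6 := dl_add_card S'
    have h7 := dl_add_card S''
    have h8 : (BT.node T U).size = T.size + U.size := rfl
    omega
  · rw [h4, h2, h2']
    rfl

theorem deck_mul (T U : BT) (i j : ℕ) :
    (deck i T).ncard * (deck j U).ncard ≤ 2 * (deck (i + j) (.node T U)).ncard := by
  classical
  have f1 := deck_finite i T
  have f2 := deck_finite j U
  have f3 := deck_finite (i + j) (.node T U)
  rw [Set.ncard_eq_toFinset_card _ f1, Set.ncard_eq_toFinset_card _ f2,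
    Set.ncard_eq_toFinset_card _ f3, ← Finset.card_product]
  have h1 := Finset.card_le_mul_card_image (f := fun p : Shape × Shape => join p.1 p.2)
    (f1.toFinset ×ˢ f2.toFinset) 2 (by
      intro b hb
      obtain ⟨⟨q, r⟩, -, rfl⟩ := Finset.mem_image.1 hb
      refine (Finset.card_le_card (t := {(q, r), (r, q)}) ?_).trans Finset.card_le_two
      rintro ⟨q', r'⟩ h
      have h2 := join_eq (Finset.mem_filter.1 h).2
      rw [Finset.mem_insert, Finset.mem_singleton]
      rcases h2 with ⟨h3, h4⟩ | ⟨h3, h4⟩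
      · exact Or.inl (Prod.ext h3 h4)
      · exact Or.inr (Prod.ext h3 h4))
  refine h1.trans (Nat.mul_le_mul_left _ (Finset.card_le_card ?_))
  intro x hx
  obtain ⟨⟨q, r⟩, h2, rfl⟩ := Finset.mem_image.1 hx
  rw [Finset.mem_product, Set.Finite.mem_toFinset, Set.Finite.mem_toFinset] at h2
  rw [Set.Finite.mem_toFinset]
  exact join_mem h2.1 h2.2

theorem M_mul {a b : ℕ} (ha : 1 ≤ a) (hb : 1 ≤ b) (i j : ℕ) :
    M a i * M b j ≤ 2 * M (a + b) (i + j) := by
  obtain ⟨T, rfl, hT⟩ := exists_M ha i
  obtain ⟨U, rfl, hU⟩ := exists_M hb j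
  rw [← hT, ← hU]
  exact (deck_mul T U i j).trans (Nat.mul_le_mul_left _ (ncard_deck_le_M _ (.node T U)))

theorem rep_mul (P Z : BT) (i j q : ℕ) :
    (deck i P).ncard ^ q * (deck j Z).ncard ≤ 2 ^ q * (deck (q * i + j) (rep P q Z)).ncard := by
  induction q with
  | zero => simp [rep]
  | succ q ih =>
    have h1 := deck_mul P (rep P q Z) i (q * i + j)
    have h2 : i + (q * i + j) = (q + 1) * i + j := by ring
    rw [h2] at h1
    calc (deck i P).ncard ^ (q + 1) * (deck j Z).ncard
        = (deck i P).ncard * ((deck i P).ncard ^ q * (deck j Z).ncard) := by ring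
      _ ≤ (deck i P).ncard * (2 ^ q * (deck (q * i + j) (rep P q Z)).ncard) :=
          Nat.mul_le_mul_left _ ih
      _ = 2 ^ q * ((deck i P).ncard * (deck (q * i + j) (rep P q Z)).ncard) := by ring
      _ ≤ 2 ^ q * (2 * (deck ((q + 1) * i + j) (.node P (rep P q Z))).ncard) :=
          Nat.mul_le_mul_left _ h1
      _ = 2 ^ (q + 1) * (deck ((q + 1) * i + j) (rep P (q + 1) Z)).ncard := by
          rw [pow_succ]
          show _ = 2 ^ q * 2 * (deck ((q + 1) * i + j) (.node P (rep P q Z))).ncard
          ring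

theorem W_mul (i j : ℕ) : W i * W j ≤ 2 * W (i + j) := by
  classical
  have f1 := shapes_finite i
  have f2 := shapes_finite j
  have f3 := shapes_finite (i + j)
  unfold W
  rw [Set.ncard_eq_toFinset_card _ f1, Set.ncard_eq_toFinset_card _ f2,
    Set.ncard_eq_toFinset_card _ f3, ← Finset.card_product]
  have h1 := Finset.card_le_mul_card_image (f := fun p : Shape × Shape => join p.1 p.2)
    (f1.toFinset ×ˢ f2.toFinset) 2 (by
      intro b hb
      obtain ⟨⟨q, r⟩, -, rfl⟩ := Finset.mem_image.1 hb
      refine (Finset.card_le_card (t := {(q, r), (r, q)}) ?_).trans Finset.card_le_two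
      rintro ⟨q', r'⟩ h
      have h2 := join_eq (Finset.mem_filter.1 h).2
      rw [Finset.mem_insert, Finset.mem_singleton]
      rcases h2 with ⟨h3, h4⟩ | ⟨h3, h4⟩
      · exact Or.inl (Prod.ext h3 h4)
      · exact Or.inr (Prod.ext h3 h4))
  refine h1.trans (Nat.mul_le_mul_left _ (Finset.card_le_card ?_))
  intro x hx
  obtain ⟨⟨q, r⟩, h2, rfl⟩ := Finset.mem_image.1 hx
  rw [Finset.mem_product, Set.Finite.mem_toFinset, Set.Finite.mem_toFinset] at h2
  rw [Set.Finite.mem_toFinset]
  obtain ⟨⟨T, hT, rfl⟩, ⟨U, hU, rfl⟩⟩ := h2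
  exact ⟨.node T U, by rw [← hT, ← hU]; rfl, rfl⟩

theorem one_le_W {k : ℕ} (hk : 1 ≤ k) : 1 ≤ W k := (one_le_M hk le_rfl).trans (M_le_W _ _)

theorem keep_none (T : BT) : ∃ S : Leaf T → Bool, dl S = T.size ∧ restrict T S = none := by
  obtain ⟨S, hS⟩ := exists_set (T := T) (Nat.zero_le _)
  have h1 := restrict_size S
  have h2 := dl_add_card S
  refine ⟨S, by omega, ?_⟩
  rcases h : restrict T S with _ | t
  · rfl
  · rw [h, Option.elim_some] at h1
    have := size_pos t
    omega

theorem deck_left {T : BT} (U : BT) {j : ℕ} : deck j T ⊆ deck j (.node T U) := by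
  rintro _ ⟨S, h1, t, h2, rfl⟩
  obtain ⟨S', h3, h4⟩ := keep_none U
  obtain ⟨S'', h5, h6⟩ := exists_node (S := S) (S' := S')
  refine ⟨S'', ?_, t, ?_, rfl⟩
  · have h7 := dl_add_card S
    have h9 := dl_add_card S''
    have h8 : (BT.node T U).size = T.size + U.size := rfl
    omega
  · rw [h6, h2, h4]
    rfl

theorem deck_right (T : BT) {U : BT} {j : ℕ} : deck j U ⊆ deck j (.node T U) := by
  rintro _ ⟨S, h1, t, h2, rfl⟩
  obtain ⟨S', h3, h4⟩ := keep_none T
  obtain ⟨S'', h5, h6⟩ := exists_node (S := S') (S' := S)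
  refine ⟨S'', ?_, t, ?_, rfl⟩
  · have h7 := dl_add_card S
    have h9 := dl_add_card S''
    have h8 : (BT.node T U).size = T.size + U.size := rfl
    omega
  · rw [h6, h2, h4]
    rfl

theorem shape_mem_deck (T : BT) : T.shape ∈ deck T.size T := by
  obtain ⟨S, h1, h2⟩ := exists_keep_all T
  refine ⟨S, ?_, T, h2, rfl⟩
  have := dl_add_card S
  omega

theorem exists_universal (k : ℕ) : ∃ T : BT, deck k T = shapes k := by
  classical
  have h1 : ∀ s : Finset Shape, (s : Set Shape) ⊆ shapes k →
      ∃ T : BT, (s : Set Shape) ⊆ deck k T := by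
    intro s
    induction s using Finset.induction_on with
    | empty => exact fun _ => ⟨.leaf, by simp⟩
    | insert q s _ ih =>
      intro h
      rw [Finset.coe_insert, Set.insert_subset_iff] at h
      obtain ⟨T, hT⟩ := ih h.2
      obtain ⟨U, hU, rfl⟩ := h.1
      refine ⟨.node U T, ?_⟩
      rw [Finset.coe_insert, Set.insert_subset_iff]
      refine ⟨deck_left _ ?_, hT.trans (deck_right _)⟩
      rw [← hU]
      exact shape_mem_deck U
  obtain ⟨T, hT⟩ := h1 (shapes_finite k).toFinset (by simp)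
  rw [Set.Finite.coe_toFinset] at hT
  exact ⟨T, (deck_subset k T).antisymm hT⟩

theorem M_self {n : ℕ} (hn : 1 ≤ n) : M n n = 1 := by
  rcases Nat.lt_or_ge 1 n with h | h
  · have h1 := M_le (n := n) (j := n) h le_rfl
    rw [Nat.sub_self, Nat.multichoose_zero_right] at h1
    exact le_antisymm h1 (one_le_M hn le_rfl)
  · obtain rfl : n = 1 := by omega
    refine le_antisymm ?_ (one_le_M le_rfl le_rfl)
    refine (M_le_W 1 1).trans ?_
    have h2 : shapes 1 ⊆ {BT.leaf.shape} := by
      rintro _ ⟨T, hT, rfl⟩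
      cases T with
      | leaf => rfl
      | node l r =>
        have h3 : l.size + r.size = 1 := hT
        have := size_pos l
        have := size_pos r
        omega
    exact (Set.ncard_le_ncard h2 (Set.finite_singleton _)).trans (by simp)

end Pool.Agent.DeckB
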