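import Pool.Agent.DeckB.GrowthNear

/-!
# The growth function of the largest decks
-/

set_option autoImplicit false

namespace Pool.Agent.DeckB

open Filter Topology

/-- `log (M n j / 2)`. -/
noncomputable def F (n j : ℕ) : ℝ := Real.log (M n j) - Real.log 2

/-- Lower bounds for the growth function. -/
def gset (x : ℝ) : Set ℝ :=
  {y | ∃ (a i : ℕ) (c : ℝ), 1 ≤ i ∧ i ≤ a ∧ 0 ≤ c ∧ c * i ≤ x ∧ x - c * i ≤ 1 - c * a ∧
    y = c * F a i}

/-- The growth function. -/
noncomputable def growth (x : ℝ) : ℝ := sSup (gset x)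

theorem M_pos {n j : ℕ} (h0 : 1 ≤ j) (hj : j ≤ n) : (0 : ℝ) < M n j := by
  exact_mod_cast one_le_M h0 hj

theorem log_M_nonneg (n j : ℕ) : 0 ≤ Real.log (M n j) := Real.log_natCast_nonneg _

theorem F_add {a i b j : ℕ} (hi : 1 ≤ i) (hia : i ≤ a) (hj : 1 ≤ j) (hjb : j ≤ b) :
    F a i + F b j ≤ F (a + b) (i + j) := by
  have h1 := M_mul (hi.trans hia) (hj.trans hjb) i j
  have h2 : (M a i : ℝ) * M b j ≤ 2 * M (a + b) (i + j) := by exact_mod_cast h1
  have h3 := M_pos hi hia
  have h4 := M_pos hj hjb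
  have h5 := M_pos (n := a + b) (j := i + j) (by omega) (by omega)
  have h6 := Real.log_le_log (by positivity) h2
  rw [Real.log_mul h3.ne' h4.ne', Real.log_mul two_ne_zero h5.ne'] at h6
  unfold F
  linarith

theorem log_W_le (k : ℕ) : Real.log (W k) ≤ k * Real.log 4 := by
  rcases Nat.eq_zero_or_pos (W k) with h | h
  · rw [h, Nat.cast_zero, Real.log_zero]
    have : 0 ≤ Real.log 4 := Real.log_nonneg (by norm_num)
    positivity
  · rw [← Real.log_pow]
    refine Real.log_le_log (by exact_mod_cast h) ?_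
    exact_mod_cast W_le k

theorem log_M_le_W {n j : ℕ} (h0 : 1 ≤ j) (hj : j ≤ n) : Real.log (M n j) ≤ Real.log (W j) :=
  Real.log_le_log (M_pos h0 hj) (by exact_mod_cast M_le_W n j)

theorem F_le {n j : ℕ} (h0 : 1 ≤ j) (hj : j ≤ n) : F n j ≤ j * Real.log 4 := by
  have h1 := log_M_le_W h0 hj
  have h2 := log_W_le j
  have h3 : 0 ≤ Real.log 2 := Real.log_nonneg (by norm_num)
  unfold F
  linarith

theorem zero_mem_gset {x : ℝ} (h0 : 0 ≤ x) (h1 : x ≤ 1) : 0 ∈ gset x :=
  ⟨1, 1, 0, le_rfl, le_rfl, le_rfl, by simpa using h0, by simpa using h1, by simp⟩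

theorem le_of_mem_gset {x y : ℝ} (h : y ∈ gset x) : y ≤ x * Real.log 4 := by
  obtain ⟨a, i, c, hi, hia, hc, h1, -, rfl⟩ := h
  have h2 : 0 ≤ Real.log 4 := Real.log_nonneg (by norm_num)
  calc c * F a i ≤ c * (i * Real.log 4) := mul_le_mul_of_nonneg_left (F_le hi hia) hc
    _ = c * i * Real.log 4 := by ring
    _ ≤ x * Real.log 4 := mul_le_mul_of_nonneg_right h1 h2

theorem bddAbove_gset (x : ℝ) : BddAbove (gset x) := ⟨_, fun _ h => le_of_mem_gset h⟩

theorem growth_nonneg {x : ℝ} (h0 : 0 ≤ x) (h1 : x ≤ 1) : 0 ≤ growth x :=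
  le_csSup (bddAbove_gset x) (zero_mem_gset h0 h1)

theorem growth_le {x : ℝ} (h0 : 0 ≤ x) (h1 : x ≤ 1) : growth x ≤ x * Real.log 4 :=
  csSup_le ⟨_, zero_mem_gset h0 h1⟩ fun _ h => le_of_mem_gset h

theorem growth_zero : growth 0 = 0 :=
  le_antisymm (by simpa using growth_le le_rfl zero_le_one) (growth_nonneg le_rfl zero_le_one)

theorem growth_one : growth 1 = 0 := by
  refine le_antisymm (csSup_le ⟨_, zero_mem_gset zero_le_one le_rfl⟩ ?_)
    (growth_nonneg zero_le_one le_rfl)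
  rintro _ ⟨a, i, c, hi, hia, hc, -, h2, rfl⟩
  rcases hc.eq_or_lt with rfl | hc
  · simp
  · have h3 : (a : ℝ) ≤ i := by
      have : c * a ≤ c * i := by linarith
      exact le_of_mul_le_mul_left this hc
    have h4 : i = a := le_antisymm hia (by exact_mod_cast h3)
    subst h4
    have h5 : F i i = - Real.log 2 := by
      unfold F
      rw [M_self hi]
      simp
    rw [h5]
    have h6 : 0 ≤ Real.log 2 := Real.log_nonneg (by norm_num)
    nlinarith

theorem F_le_growth {n j : ℕ} (h0 : 1 ≤ j) (hj : j ≤ n) : F n j ≤ n * growth (j / n) := by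
  have hn : (0 : ℝ) < n := by
    have : 0 < n := by omega
    exact_mod_cast this
  have h1 : (1 / n : ℝ) * F n j ≤ growth (j / n) := by
    refine le_csSup (bddAbove_gset _) ⟨n, j, 1 / n, h0, hj, by positivity, ?_, ?_, rfl⟩
    · rw [one_div, inv_mul_eq_div]
    · rw [one_div, inv_mul_eq_div, inv_mul_cancel₀ hn.ne']
      simp
  calc F n j = n * (1 / n * F n j) := by field_simp
    _ ≤ n * growth (j / n) := mul_le_mul_of_nonneg_left h1 hn.le

theorem exists_strict {x y : ℝ} (h0 : 0 < x) (h1 : x < 1) (hy : y < growth x) :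
    ∃ (a i : ℕ) (c : ℝ), 1 ≤ i ∧ i ≤ a ∧ 0 ≤ c ∧ c * i < x ∧ x + c * (a - i) < 1 ∧
      y < c * F a i := by
  obtain ⟨_, ⟨a, i, c, hi, hia, hc, h2, h3, rfl⟩, h4⟩ :=
    exists_lt_of_lt_csSup ⟨_, zero_mem_gset h0.le h1.le⟩ hy
  have h5 : Tendsto (fun t : ℝ => t * (c * F a i)) (𝓝[<] 1) (𝓝 (1 * (c * F a i))) :=
    (tendsto_id.mul_const _).mono_left nhdsWithin_le_nhds
  rw [one_mul] at h5
  have h6 : ∀ᶠ t : ℝ in 𝓝[<] 1, t ∈ Set.Ioo (0 : ℝ) 1 := Ioo_mem_nhdsLT one_pos
  obtain ⟨t, ht1, ht2⟩ := ((h5.eventually_const_lt h4).and h6).exists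
  refine ⟨a, i, t * c, hi, hia, mul_nonneg ht2.1.le hc, ?_, ?_, by linarith⟩
  · have : t * (c * i) ≤ t * x := mul_le_mul_of_nonneg_left h2 ht2.1.le
    nlinarith [ht2.2]
  · have h7 : c * (a - i) ≤ 1 - x := by linarith
    have : t * (c * (a - i)) ≤ t * (1 - x) := mul_le_mul_of_nonneg_left h7 ht2.1.le
    nlinarith [ht2.2]

/-- Copies of one tree. -/
theorem rep_lower {ι : Type*} {l : Filter ι} {n j : ι → ℕ} {x c : ℝ} {a i : ℕ} (hi : 1 ≤ i)
    (hia : i ≤ a) (hc : 0 ≤ c) (h1 : c * i < x) (h2 : x + c * (a - i) < 1)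
    (hn : Tendsto n l atTop) (hx : Tendsto (fun k => (j k : ℝ) / n k) l (𝓝 x))
    {P : BT} (hP : P.size = a) :
    ∀ᶠ k in l, ⌊c * n k⌋₊ * i + 1 ≤ j k ∧ j k + ⌊c * n k⌋₊ * a ≤ n k + ⌊c * n k⌋₊ * i ∧
      (rep P ⌊c * n k⌋₊ (chain (n k - ⌊c * n k⌋₊ * a - 1) .leaf)).size = n k ∧
      ⌊c * n k⌋₊ * (Real.log (deck i P).ncard - Real.log 2) ≤
        Real.log (deck (j k) (rep P ⌊c * n k⌋₊
          (chain (n k - ⌊c * n k⌋₊ * a - 1) .leaf))).ncard := by
  have hn' : Tendsto (fun k => (n k : ℝ)) l atTop := tendsto_natCast_atTop_atTop.comp hn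
  have h3 : Tendsto (fun k => (j k : ℝ) / n k - 1 / n k) l (𝓝 x) := by
    have := hx.sub ((tendsto_const_nhds (x := (1 : ℝ))).div_atTop hn')
    rwa [sub_zero] at this
  have h4 := h3.eventually_const_lt h1
  have h5 : Tendsto (fun k => (j k : ℝ) / n k + c * (a - i)) l (𝓝 (x + c * (a - i))) :=
    hx.add_const _
  have h6 := h5.eventually_lt_const h2
  filter_upwards [h4, h6, hn.eventually_ge_atTop 1] with k h7 h8 h9
  have hn0 : (0 : ℝ) < n k := by exact_mod_cast h9
  set q := ⌊c * n k⌋₊ with hq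
  have hq1 : (q : ℝ) ≤ c * n k := Nat.floor_le (by positivity)
  have h10 : q * i + 1 ≤ j k := by
    have h11 : (q : ℝ) * i + 1 ≤ j k := by
      rw [← sub_div, lt_div_iff₀ hn0] at h7
      have : (q : ℝ) * i ≤ c * n k * i := mul_le_mul_of_nonneg_right hq1 (Nat.cast_nonneg _)
      nlinarith
    exact_mod_cast h11
  have hai : (0 : ℝ) ≤ (a : ℝ) - i := by
    have : (i : ℝ) ≤ a := by exact_mod_cast hia
    linarith
  have h12 : j k + q * a ≤ n k + q * i := by
    have h13 : (j k : ℝ) + q * a ≤ n k + q * i := by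
      have h14 : (q : ℝ) * (a - i) ≤ c * n k * (a - i) := mul_le_mul_of_nonneg_right hq1 hai
      have h15 : (j k : ℝ) < (1 - c * (a - i)) * n k := by
        rw [← div_lt_iff₀ hn0]
        linarith
      nlinarith
    exact_mod_cast h13
  have h16 : q * a + 1 ≤ n k := by omega
  have hcs : (chain (n k - q * a - 1) BT.leaf).size = n k - q * a := by
    rw [chain_size]
    show n k - q * a - 1 + 1 = _
    omega
  refine ⟨h10, h12, ?_, ?_⟩
  · rw [rep_size, hcs, hP]
    omega
  · obtain ⟨r, hr⟩ := Nat.exists_eq_add_of_le (show q * i ≤ j k by omega)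
    have h17 : 1 ≤ (deck r (chain (n k - q * a - 1) .leaf)).ncard :=
      one_le_deck (by omega) (by rw [hcs]; omega)
    have h18 : 1 ≤ (deck i P).ncard := one_le_deck hi (by rw [hP]; exact hia)
    have h19 := rep_mul P (chain (n k - q * a - 1) .leaf) i r q
    rw [← hr] at h19
    have h20 : (deck i P).ncard ^ q ≤
        2 ^ q * (deck (j k) (rep P q (chain (n k - q * a - 1) .leaf))).ncard :=
      (Nat.le_mul_of_pos_right _ h17).trans h19
    have h21 : ((deck i P).ncard : ℝ) ^ q ≤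
        2 ^ q * (deck (j k) (rep P q (chain (n k - q * a - 1) .leaf))).ncard := by
      exact_mod_cast h20
    have h22 : (0 : ℝ) < (deck i P).ncard := by exact_mod_cast h18
    have h23 : (0 : ℝ) < 2 ^ q * (deck (j k) (rep P q (chain (n k - q * a - 1) .leaf))).ncard :=
      lt_of_lt_of_le (by positivity) h21
    have h24 : (0 : ℝ) < (deck (j k) (rep P q (chain (n k - q * a - 1) .leaf))).ncard :=
      pos_of_mul_pos_right h23 (by positivity)
    have h25 := Real.log_le_log (by positivity) h21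
    rw [Real.log_mul (by positivity) h24.ne', Real.log_pow, Real.log_pow] at h25
    linarith

theorem floor_ratio {ι : Type*} {l : Filter ι} {n : ι → ℕ} {c : ℝ} (hc : 0 ≤ c)
    (hn : Tendsto n l atTop) : Tendsto (fun k => (⌊c * n k⌋₊ : ℝ) / n k) l (𝓝 c) :=
  (tendsto_nat_floor_mul_div_atTop (R := ℝ) hc).comp (tendsto_natCast_atTop_atTop.comp hn)

/-- Convergence inside. -/
theorem F_tendsto {ι : Type*} {l : Filter ι} {n j : ι → ℕ} {x : ℝ} (h0 : 0 < x) (h1 : x < 1)
    (hn : Tendsto n l atTop) (hj : ∀ᶠ k in l, 1 ≤ j k ∧ j k ≤ n k)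
    (hx : Tendsto (fun k => (j k : ℝ) / n k) l (𝓝 x)) :
    Tendsto (fun k => F (n k) (j k) / n k) l (𝓝 (growth x)) := by
  have hn' : Tendsto (fun k => (n k : ℝ)) l atTop := tendsto_natCast_atTop_atTop.comp hn
  have hpos : ∀ᶠ k in l, (0 : ℝ) < n k := hn'.eventually_gt_atTop 0
  refine tendsto_order.2 ⟨fun y hy => ?_, fun y hy => ?_⟩
  · obtain ⟨a, i, c, hi, hia, hc, h2, h3, h4⟩ := exists_strict h0 h1 hy
    obtain ⟨P, hP, hPM⟩ := exists_M (hi.trans hia) i
    have h5 := rep_lower hi hia hc h2 h3 hn hx hP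
    have h6 : Tendsto (fun k => (⌊c * n k⌋₊ : ℝ) / n k * F a i - Real.log 2 / n k) l
        (𝓝 (c * F a i)) := by
      have := ((floor_ratio hc hn).mul_const (F a i)).sub
        ((tendsto_const_nhds (x := Real.log 2)).div_atTop hn')
      rwa [sub_zero] at this
    filter_upwards [h5, h6.eventually_const_lt h4, hpos, hj] with k h7 h8 h9 h10
    refine h8.trans_le ?_
    rw [div_mul_eq_mul_div, ← sub_div]
    refine div_le_div_of_nonneg_right ?_ h9.le
    obtain ⟨-, -, h11, h12⟩ := h7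
    rw [hPM] at h12
    have h13 := ncard_deck_le_M (j k)
      (rep P ⌊c * n k⌋₊ (chain (n k - ⌊c * n k⌋₊ * a - 1) .leaf))
    rw [h11] at h13
    have h14 : 1 ≤ (deck (j k)
        (rep P ⌊c * n k⌋₊ (chain (n k - ⌊c * n k⌋₊ * a - 1) .leaf))).ncard :=
      one_le_deck h10.1 (by rw [h11]; exact h10.2)
    have h15 : Real.log (deck (j k)
        (rep P ⌊c * n k⌋₊ (chain (n k - ⌊c * n k⌋₊ * a - 1) .leaf))).ncard ≤
        Real.log (M (n k) (j k)) :=
      Real.log_le_log (by exact_mod_cast h14) (by exact_mod_cast h13)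
    unfold F
    linarith
  · have hg := growth_nonneg h0.le h1.le
    have h5 : Tendsto (fun t : ℝ => t * y) (𝓝[<] 1) (𝓝 (1 * y)) :=
      (tendsto_id.mul_const _).mono_left nhdsWithin_le_nhds
    rw [one_mul] at h5
    have h6 : ∀ᶠ t : ℝ in 𝓝[<] 1, t ∈ Set.Ioo (0 : ℝ) 1 := Ioo_mem_nhdsLT one_pos
    obtain ⟨t, ht1, ht2⟩ := ((h5.eventually_const_lt hy).and h6).exists
    have h7 : Tendsto (fun k => t * ((j k : ℝ) / n k)) l (𝓝 (t * x)) := hx.const_mul _
    have h8 := h7.eventually_lt_const (show t * x < x by nlinarith [ht2.2])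
    have h9 := h7.eventually_const_lt (show x - (1 - t) < t * x by nlinarith [ht2.2])
    filter_upwards [h8, h9, hpos, hj] with k h10 h11 h12 h13
    have h14 : t / n k * F (n k) (j k) ≤ growth x := by
      refine le_csSup (bddAbove_gset _) ⟨n k, j k, t / n k, h13.1, h13.2,
        (div_pos ht2.1 h12).le, ?_, ?_, rfl⟩
      · rw [div_mul_eq_mul_div, mul_div_assoc]
        exact h10.le
      · rw [div_mul_eq_mul_div, mul_div_assoc, div_mul_cancel₀ _ h12.ne']
        linarith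
    have h15 : t * (F (n k) (j k) / n k) < t * y := by
      calc t * (F (n k) (j k) / n k) = t / n k * F (n k) (j k) := by ring
        _ ≤ growth x := h14
        _ < t * y := ht1
    exact lt_of_mul_lt_mul_left h15 ht2.1.le

/-- Convergence on the closed interval. -/
theorem log_M_tendsto {ι : Type*} {l : Filter ι} {n j : ι → ℕ} {x : ℝ} (h0 : 0 ≤ x) (h1 : x ≤ 1)
    (hn : Tendsto n l atTop) (hj : ∀ᶠ k in l, 1 ≤ j k ∧ j k ≤ n k)
    (hx : Tendsto (fun k => (j k : ℝ) / n k) l (𝓝 x)) :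
    Tendsto (fun k => Real.log (M (n k) (j k)) / n k) l (𝓝 (growth x)) := by
  have hn' : Tendsto (fun k => (n k : ℝ)) l atTop := tendsto_natCast_atTop_atTop.comp hn
  have hpos : ∀ᶠ k in l, (0 : ℝ) < n k := hn'.eventually_gt_atTop 0
  rcases h0.eq_or_lt with rfl | h0
  · rw [growth_zero]
    have h2 : Tendsto (fun k => (j k : ℝ) / n k * Real.log 4) l (𝓝 0) := by
      have := hx.mul_const (Real.log 4)
      rwa [zero_mul] at this
    refine tendsto_of_tendsto_of_tendsto_of_le_of_le' tendsto_const_nhds h2 ?_ ?_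
    · filter_upwards [hpos] with k hk
      exact div_nonneg (log_M_nonneg _ _) hk.le
    · filter_upwards [hpos, hj] with k hk hk'
      rw [div_mul_eq_mul_div]
      exact div_le_div_of_nonneg_right ((log_M_le_W hk'.1 hk'.2).trans (log_W_le _)) hk.le
  · rcases h1.eq_or_lt with rfl | h1
    · rw [growth_one]
      exact near_one hn hj hx
    · have h2 := (F_tendsto h0 h1 hn hj hx).add
        ((tendsto_const_nhds (x := Real.log 2)).div_atTop hn')
      rw [add_zero] at h2
      refine h2.congr fun k => ?_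
      rw [← add_div]
      unfold F
      ring

/-- `max 1 (floor (x a))`. -/
noncomputable def idx (x : ℝ) (a : ℕ) : ℕ := max 1 ⌊x * a⌋₊

theorem idx_spec {x : ℝ} (_h0 : 0 ≤ x) (h1 : x ≤ 1) {a : ℕ} (ha : 1 ≤ a) :
    1 ≤ idx x a ∧ idx x a ≤ a := by
  refine ⟨le_max_left _ _, max_le ha ?_⟩
  refine Nat.floor_le_of_le ?_
  have : (0 : ℝ) ≤ a := Nat.cast_nonneg _
  nlinarith

theorem idx_tendsto {ι : Type*} {l : Filter ι} {n : ι → ℕ} {x : ℝ} (h0 : 0 ≤ x)
    (hn : Tendsto n l atTop) : Tendsto (fun k => (idx x (n k) : ℝ) / n k) l (𝓝 x) := by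
  have hn' : Tendsto (fun k => (n k : ℝ)) l atTop := tendsto_natCast_atTop_atTop.comp hn
  have h1 : Tendsto (fun k => max ((1 : ℝ) / n k) ((⌊x * n k⌋₊ : ℝ) / n k)) l
      (𝓝 (max 0 x)) :=
    ((tendsto_const_nhds (x := (1 : ℝ))).div_atTop hn').max (floor_ratio h0 hn)
  rw [max_eq_right h0] at h1
  refine h1.congr fun k => ?_
  unfold idx
  rw [Nat.cast_max, Nat.cast_one, max_div_div_right (Nat.cast_nonneg _)]

theorem concave_aux {x y s : ℝ} (hx : x ∈ Set.Icc (0 : ℝ) 1) (hy : y ∈ Set.Icc (0 : ℝ) 1)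
    (hs : 0 < s) (hs1 : s < 1) :
    s * growth x + (1 - s) * growth y ≤ growth (s * x + (1 - s) * y) := by
  let a : ℕ → ℕ := fun k => ⌊s * k⌋₊
  let b : ℕ → ℕ := fun k => k - a k
  have ha1 : Tendsto (fun k : ℕ => (a k : ℝ) / k) atTop (𝓝 s) :=
    floor_ratio hs.le tendsto_id
  have hak : ∀ k, a k ≤ k := by
    intro k
    refine Nat.floor_le_of_le ?_
    have : (0 : ℝ) ≤ k := Nat.cast_nonneg _
    nlinarith
  have ha2 : Tendsto a atTop atTop :=
    tendsto_nat_floor_atTop.comp (tendsto_natCast_atTop_atTop.const_mul_atTop hs)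
  have hbk : ∀ k, (b k : ℝ) = k - a k := fun k => Nat.cast_sub (hak k)
  have hb2 : Tendsto b atTop atTop := by
    rw [← tendsto_natCast_atTop_iff (R := ℝ)]
    refine tendsto_atTop_mono (f := fun k : ℕ => (1 - s) * k) (fun k => ?_)
      (tendsto_natCast_atTop_atTop.const_mul_atTop (sub_pos.2 hs1))
    rw [hbk]
    have : (a k : ℝ) ≤ s * k := Nat.floor_le (by positivity)
    linarith
  have hb1 : Tendsto (fun k : ℕ => (b k : ℝ) / k) atTop (𝓝 (1 - s)) := by
    refine ((tendsto_const_nhds (x := (1 : ℝ))).sub ha1).congr' ?_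
    filter_upwards [eventually_gt_atTop 0] with k hk
    have : (0 : ℝ) < k := by exact_mod_cast hk
    rw [hbk]
    field_simp
  have hL1 : Tendsto (fun k : ℕ => (a k : ℝ) / k * (Real.log (M (a k) (idx x (a k))) / a k) +
      (b k : ℝ) / k * (Real.log (M (b k) (idx y (b k))) / b k)) atTop
      (𝓝 (s * growth x + (1 - s) * growth y)) := by
    refine (ha1.mul (log_M_tendsto hx.1 hx.2 ha2 ?_ (idx_tendsto hx.1 ha2))).add
      (hb1.mul (log_M_tendsto hy.1 hy.2 hb2 ?_ (idx_tendsto hy.1 hb2)))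
    · filter_upwards [ha2.eventually_ge_atTop 1] with k hk
      exact idx_spec hx.1 hx.2 hk
    · filter_upwards [hb2.eventually_ge_atTop 1] with k hk
      exact idx_spec hy.1 hy.2 hk
  have hL2 : Tendsto (fun k : ℕ => ((idx x (a k) + idx y (b k) : ℕ) : ℝ) / k) atTop
      (𝓝 (s * x + (1 - s) * y)) := by
    refine ((ha1.mul (idx_tendsto hx.1 ha2)).add (hb1.mul (idx_tendsto hy.1 hb2))).congr' ?_
    filter_upwards [ha2.eventually_ge_atTop 1, hb2.eventually_ge_atTop 1] with k h1 h2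
    have h3 : (0 : ℝ) < a k := by exact_mod_cast h1
    have h4 : (0 : ℝ) < b k := by exact_mod_cast h2
    have h5 : (0 : ℝ) < k := by
      have := hak k
      have : 0 < k := by omega
      exact_mod_cast this
    push_cast
    field_simp
  have hpos : ∀ᶠ k : ℕ in atTop, 1 ≤ idx x (a k) + idx y (b k) ∧
      idx x (a k) + idx y (b k) ≤ k := by
    filter_upwards [ha2.eventually_ge_atTop 1, hb2.eventually_ge_atTop 1] with k h1 h2
    have h3 := idx_spec hx.1 hx.2 h1
    have h4 := idx_spec hy.1 hy.2 h2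
    have h5 : a k + b k = k := Nat.add_sub_cancel' (hak k)
    omega
  have hm : s * x + (1 - s) * y ∈ Set.Icc (0 : ℝ) 1 := by
    obtain ⟨h1, h2⟩ := hx
    obtain ⟨h3, h4⟩ := hy
    constructor <;> nlinarith
  have hL3 := (log_M_tendsto hm.1 hm.2 tendsto_id hpos hL2).add
    ((tendsto_const_nhds (x := Real.log 2)).div_atTop
      (tendsto_natCast_atTop_atTop (R := ℝ) : Tendsto (fun k : ℕ => (k : ℝ)) atTop atTop))
  rw [add_zero] at hL3
  refine le_of_tendsto_of_tendsto hL1 hL3 ?_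
  filter_upwards [ha2.eventually_ge_atTop 1, hb2.eventually_ge_atTop 1] with k h1 h2
  have h3 := idx_spec hx.1 hx.2 h1
  have h4 := idx_spec hy.1 hy.2 h2
  have h5 : a k + b k = k := Nat.add_sub_cancel' (hak k)
  have h6 := F_add h3.1 h3.2 h4.1 h4.2
  rw [h5] at h6
  unfold F at h6
  have h7 : (0 : ℝ) < a k := by exact_mod_cast h1
  have h8 : (0 : ℝ) < b k := by exact_mod_cast h2
  have h9 : (0 : ℝ) < k := by
    have : 0 < k := by omega
    exact_mod_cast this
  have h10 : (a k : ℝ) / k * (Real.log (M (a k) (idx x (a k))) / a k) +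
      (b k : ℝ) / k * (Real.log (M (b k) (idx y (b k))) / b k) =
      (Real.log (M (a k) (idx x (a k))) + Real.log (M (b k) (idx y (b k)))) / k := by
    field_simp
  rw [h10]
  show _ ≤ Real.log (M k (idx x (a k) + idx y (b k))) / k + Real.log 2 / k
  rw [← add_div]
  exact div_le_div_of_nonneg_right (by linarith) h9.le

theorem growth_concave : ConcaveOn ℝ (Set.Icc 0 1) growth := by
  refine ⟨convex_Icc 0 1, fun x hx y hy s t hs ht hst => ?_⟩
  have ht' : t = 1 - s := by linarith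
  subst ht'
  rw [smul_eq_mul, smul_eq_mul, smul_eq_mul, smul_eq_mul]
  rcases hs.eq_or_lt with rfl | hs
  · simp
  · rcases (show s ≤ 1 by linarith).eq_or_lt with rfl | hs1
    · simp
    · exact concave_aux hx hy hs hs1

theorem growth_continuous : ContinuousOn growth (Set.Icc 0 1) := by
  intro x hx
  refine tendsto_of_seq_tendsto fun u hu => ?_
  have hu1 := tendsto_nhdsWithin_iff.1 hu
  have h1 : ∀ m : ℕ, ∃ N : ℕ, m + 1 ≤ N ∧ (u m ∈ Set.Icc (0 : ℝ) 1 →
      |(idx (u m) N : ℝ) / N - u m| ≤ 1 / (m + 1) ∧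
      |Real.log (M N (idx (u m) N)) / N - growth (u m)| ≤ 1 / (m + 1)) := by
    intro m
    by_cases h : u m ∈ Set.Icc (0 : ℝ) 1
    · have h2 := idx_tendsto (l := atTop) (n := fun k : ℕ => k) h.1 tendsto_id
      have h3 := log_M_tendsto h.1 h.2 tendsto_id (by
        filter_upwards [eventually_ge_atTop 1] with k hk
        exact idx_spec h.1 h.2 hk) h2
      have hm : (0 : ℝ) < 1 / (m + 1) := by positivity
      have h4 := (Metric.tendsto_nhds.1 h2 _ hm).and (Metric.tendsto_nhds.1 h3 _ hm)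
      obtain ⟨N, h5, h6⟩ := (h4.and (eventually_ge_atTop (m + 1))).exists
      refine ⟨N, h6, fun _ => ⟨?_, ?_⟩⟩
      · have := h5.1
        rw [Real.dist_eq] at this
        exact this.le
      · have := h5.2
        rw [Real.dist_eq] at this
        exact this.le
    · exact ⟨m + 1, le_rfl, fun h' => absurd h' h⟩
  choose N hN1 hN2 using h1
  have hN : Tendsto N atTop atTop :=
    tendsto_atTop_mono (fun m => (Nat.le_succ m).trans (hN1 m)) tendsto_id
  have hz : Tendsto (fun m : ℕ => (1 : ℝ) / (m + 1)) atTop (𝓝 0) :=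
    tendsto_one_div_add_atTop_nhds_zero_nat
  have h2 : Tendsto (fun m => (idx (u m) (N m) : ℝ) / N m) atTop (𝓝 x) := by
    have h3 : Tendsto (fun m => (idx (u m) (N m) : ℝ) / N m - u m) atTop (𝓝 0) := by
      refine squeeze_zero_norm' ?_ hz
      filter_upwards [hu1.2] with m hm
      exact (hN2 m hm).1
    have h4 := h3.add hu1.1
    rw [zero_add] at h4
    refine h4.congr fun m => ?_
    ring
  have h5 := log_M_tendsto hx.1 hx.2 hN (by
    filter_upwards [hu1.2] with m hm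
    exact idx_spec hm.1 hm.2 (by have := hN1 m; omega)) h2
  have h6 : Tendsto (fun m => growth (u m) -
      Real.log (M (N m) (idx (u m) (N m))) / N m) atTop (𝓝 0) := by
    refine squeeze_zero_norm' ?_ hz
    filter_upwards [hu1.2] with m hm
    rw [Real.norm_eq_abs, abs_sub_comm]
    exact (hN2 m hm).2
  have h7 := h6.add h5
  rw [zero_add] at h7
  refine h7.congr fun m => ?_
  show _ = growth (u m)
  ring

end Pool.Agent.DeckB
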