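import Pool.Agent.DeckB.GrowthLim

/-!
# The growth function: uniform convergence, small decks, periodic trees
-/

set_option autoImplicit false

namespace Pool.Agent.DeckB

open Filter Topology

theorem ratio_mem {n j : ℕ} (h0 : 1 ≤ j) (hj : j ≤ n) : (j / n : ℝ) ∈ Set.Icc (0 : ℝ) 1 := by
  have hn : (0 : ℝ) < n := by
    have : 0 < n := by omega
    exact_mod_cast this
  refine ⟨by positivity, ?_⟩
  rw [div_le_one hn]
  exact_mod_cast hj

/-- Uniform convergence. -/
theorem uniform {ε : ℝ} (hε : 0 < ε) : ∃ N : ℕ, ∀ n ≥ N, ∀ j, 1 ≤ j → j ≤ n →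
    |Real.log (M n j) - n * growth (j / n)| ≤ ε * n := by
  by_contra hcon
  push Not at hcon
  choose n hn j h1 h2 h3 using hcon
  have hnt : Tendsto n atTop atTop := tendsto_atTop_mono hn tendsto_id
  obtain ⟨x, hx, φ, hφ, h4⟩ := isCompact_Icc.tendsto_subseq
    (fun k => ratio_mem (h1 k) (h2 k))
  have h5 : Tendsto (fun k => n (φ k)) atTop atTop := hnt.comp hφ.tendsto_atTop
  have h6 := log_M_tendsto hx.1 hx.2 h5 (Eventually.of_forall fun k => ⟨h1 (φ k), h2 (φ k)⟩) h4
  have h7 : Tendsto (fun k => growth ((j (φ k) : ℝ) / n (φ k))) atTop (𝓝 (growth x)) :=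
    (growth_continuous x hx).tendsto.comp (tendsto_nhdsWithin_iff.2
      ⟨h4, Eventually.of_forall fun k => ratio_mem (h1 (φ k)) (h2 (φ k))⟩)
  have h8 := h6.sub h7
  rw [sub_self] at h8
  obtain ⟨k, h9⟩ := (Metric.tendsto_nhds.1 h8 ε hε).exists
  rw [dist_zero_right, Real.norm_eq_abs] at h9
  have hpos : (0 : ℝ) < n (φ k) := by
    have := h1 (φ k)
    have := h2 (φ k)
    have : 0 < n (φ k) := by omega
    exact_mod_cast this
  have h10 := h3 (φ k)
  have h11 : Real.log (M (n (φ k)) (j (φ k))) - n (φ k) * growth (j (φ k) / n (φ k)) =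
      (Real.log (M (n (φ k)) (j (φ k))) / n (φ k) - growth (j (φ k) / n (φ k))) * n (φ k) := by
    field_simp
  rw [h11, abs_mul, abs_of_pos hpos] at h10
  exact absurd (lt_of_mul_lt_mul_right h10 hpos.le) (not_lt.2 h9.le)

/-- Trees which consist of copies of one of finitely many trees are sufficient. -/
theorem periodic {ε : ℝ} (hε : 0 < ε) : ∃ K : ℕ, ∀ n ≥ K, ∀ j, 1 ≤ j → j ≤ n →
    ∃ (P : BT) (q r : ℕ), P.size ≤ K ∧ (rep P q (chain r .leaf)).size = n ∧
      Real.exp (-(ε * n)) * M n j ≤ ((deck j (rep P q (chain r .leaf))).ncard : ℝ) := by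
  by_contra hcon
  push Not at hcon
  choose n hn j h1 h2 h3 using hcon
  have hnt : Tendsto n atTop atTop := tendsto_atTop_mono hn tendsto_id
  obtain ⟨x, hx, φ, hφ, h4⟩ := isCompact_Icc.tendsto_subseq
    (fun k => ratio_mem (h1 k) (h2 k))
  have h5 : Tendsto (fun k => n (φ k)) atTop atTop := hnt.comp hφ.tendsto_atTop
  have h5' : Tendsto (fun k => (n (φ k) : ℝ)) atTop atTop :=
    tendsto_natCast_atTop_atTop.comp h5
  have h6 := log_M_tendsto hx.1 hx.2 h5 (Eventually.of_forall fun k => ⟨h1 (φ k), h2 (φ k)⟩) h4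
  have hpos : ∀ k, (0 : ℝ) < n (φ k) := by
    intro k
    have := h1 (φ k)
    have := h2 (φ k)
    have : 0 < n (φ k) := by omega
    exact_mod_cast this
  -- a lower bound for one of the trees gives a contradiction
  have key : ∀ k, ∀ P : BT, P.size ≤ φ k → ∀ q r, (rep P q (chain r .leaf)).size = n (φ k) →
      Real.log ((deck (j (φ k)) (rep P q (chain r .leaf))).ncard) <
        Real.log (M (n (φ k)) (j (φ k))) - ε * n (φ k) := by
    intro k P hP q r hs
    have h7 := h3 (φ k) P q r hP hs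
    have h8 : 1 ≤ (deck (j (φ k)) (rep P q (chain r .leaf))).ncard :=
      one_le_deck (h1 _) (by rw [hs]; exact h2 _)
    have h9 := Real.log_lt_log (by exact_mod_cast h8) h7
    rwa [Real.log_mul (Real.exp_ne_zero _) (M_pos (h1 _) (h2 _)).ne', Real.log_exp,
      neg_add_eq_sub] at h9
  by_cases hin : 0 < x ∧ x < 1
  · obtain ⟨h0, h1'⟩ := hin
    obtain ⟨a, i, c, hi, hia, hc, h7, h8, h9⟩ :=
      exists_strict h0 h1' (show growth x - ε / 2 < growth x by linarith)
    obtain ⟨P, hP, hPM⟩ := exists_M (hi.trans hia) i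
    have h10 := rep_lower hi hia hc h7 h8 h5 h4 hP
    have h11 : Tendsto (fun k => (⌊c * n (φ k)⌋₊ : ℝ) / n (φ k) * F a i) atTop
        (𝓝 (c * F a i)) := (floor_ratio hc h5).mul_const (F a i)
    have h12 := h11.eventually_const_lt h9
    have h13 := h6.eventually_lt_const (show growth x < growth x + ε / 2 by linarith)
    obtain ⟨k, ⟨⟨h14, h15⟩, h16⟩, h17⟩ :=
      (((h10.and h12).and h13).and (hφ.tendsto_atTop.eventually_ge_atTop a)).exists
    obtain ⟨-, -, h18, h19⟩ := h14
    have h20 := key k P (by rw [hP]; exact h17) _ _ h18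
    rw [hPM] at h19
    have h21 : (⌊c * n (φ k)⌋₊ : ℝ) * (Real.log (M a i) - Real.log 2) =
        (⌊c * n (φ k)⌋₊ : ℝ) / n (φ k) * F a i * n (φ k) := by
      have := (hpos k).ne'
      unfold F
      field_simp
    rw [h21] at h19
    rw [div_lt_iff₀ (hpos k)] at h16
    have h22 : (growth x - ε / 2) * n (φ k) <
        (⌊c * n (φ k)⌋₊ : ℝ) / n (φ k) * F a i * n (φ k) :=
      mul_lt_mul_of_pos_right h15 (hpos k)
    nlinarith
  · have hg : growth x = 0 := by
      rcases hx.1.eq_or_lt with h | h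
      · rw [← h, growth_zero]
      · rcases hx.2.eq_or_lt with h' | h'
        · rw [h', growth_one]
        · exact absurd ⟨h, h'⟩ hin
    rw [hg] at h6
    obtain ⟨k, h13, h14⟩ := ((h6.eventually_lt_const hε).and
      (hφ.tendsto_atTop.eventually_ge_atTop 1)).exists
    have hs : (rep .leaf 0 (chain (n (φ k) - 1) .leaf)).size = n (φ k) := by
      show (chain (n (φ k) - 1) .leaf).size = _
      rw [chain_size]
      show n (φ k) - 1 + 1 = _
      have := h1 (φ k)
      have := h2 (φ k)
      omega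
    have h20 := key k .leaf h14 0 (n (φ k) - 1) hs
    have h21 : (0 : ℝ) ≤ Real.log
        ((deck (j (φ k)) (rep .leaf 0 (chain (n (φ k) - 1) .leaf))).ncard) :=
      Real.log_natCast_nonneg _
    rw [div_lt_iff₀ (hpos k)] at h13
    linarith

/-- Subadditivity of `log 2 - log W`. -/
theorem subadditive_W : Subadditive fun k => Real.log 2 - Real.log (W k) := by
  have hl : 0 ≤ Real.log 2 := Real.log_nonneg (by norm_num)
  have h0 : W 0 = 0 := by
    unfold W
    rw [Set.ncard_eq_zero (shapes_finite 0), Set.eq_empty_iff_forall_notMem]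
    rintro _ ⟨T, hT, rfl⟩
    have := size_pos T
    omega
  intro i j
  show Real.log 2 - Real.log (W (i + j)) ≤
    (Real.log 2 - Real.log (W i)) + (Real.log 2 - Real.log (W j))
  rcases Nat.eq_zero_or_pos i with rfl | hi
  · rw [h0, zero_add, Nat.cast_zero, Real.log_zero]
    linarith
  rcases Nat.eq_zero_or_pos j with rfl | hj
  · rw [h0, add_zero, Nat.cast_zero, Real.log_zero]
    linarith
  have h1 : (0 : ℝ) < W i := by exact_mod_cast one_le_W hi
  have h2 : (0 : ℝ) < W j := by exact_mod_cast one_le_W hj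
  have h3 : (0 : ℝ) < W (i + j) := by exact_mod_cast one_le_W (show 1 ≤ i + j by omega)
  have h4 : (W i : ℝ) * W j ≤ 2 * W (i + j) := by exact_mod_cast W_mul i j
  have h5 := Real.log_le_log (by positivity) h4
  rw [Real.log_mul h1.ne' h2.ne', Real.log_mul two_ne_zero h3.ne'] at h5
  linarith

theorem bddBelow_W : BddBelow (Set.range fun k : ℕ => (Real.log 2 - Real.log (W k)) / k) := by
  refine ⟨-Real.log 4, ?_⟩
  rintro _ ⟨k, rfl⟩
  have hl : 0 ≤ Real.log 2 := Real.log_nonneg (by norm_num)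
  have hl4 : 0 ≤ Real.log 4 := Real.log_nonneg (by norm_num)
  rcases Nat.eq_zero_or_pos k with rfl | hk
  · simp [hl4]
  · have hk' : (0 : ℝ) < k := by exact_mod_cast hk
    show _ ≤ (Real.log 2 - Real.log (W k)) / k
    rw [le_div_iff₀ hk']
    have := log_W_le k
    linarith

/-- The growth rate of `W`. -/
noncomputable def rate : ℝ := -subadditive_W.lim

theorem rate_tendsto : Tendsto (fun k : ℕ => Real.log (W k) / k) atTop (𝓝 rate) := by
  have h1 := (subadditive_W.tendsto_lim bddBelow_W).neg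
  have h2 : Tendsto (fun k : ℕ => Real.log 2 / (k : ℝ)) atTop (𝓝 0) :=
    tendsto_const_nhds.div_atTop tendsto_natCast_atTop_atTop
  have h3 := h1.add h2
  rw [add_zero] at h3
  refine h3.congr fun k => ?_
  ring

theorem W_le_rate {k : ℕ} (hk : 1 ≤ k) : Real.log (W k) ≤ rate * k + Real.log 2 := by
  have h1 := subadditive_W.lim_le_div bddBelow_W (show k ≠ 0 by omega)
  have hk' : (0 : ℝ) < k := by exact_mod_cast hk
  rw [le_div_iff₀ hk'] at h1
  unfold rate
  linarith

theorem rate_nonneg : 0 ≤ rate :=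
  ge_of_tendsto' rate_tendsto fun _ => div_nonneg (Real.log_natCast_nonneg _) (Nat.cast_nonneg _)

/-- Small decks: almost everything is possible. -/
theorem small {ε : ℝ} (hε : 0 < ε) : ∃ (δ : ℝ) (J : ℕ), 0 < δ ∧ ∀ n j : ℕ, J ≤ j → 1 ≤ j →
    (j : ℝ) ≤ δ * n → (rate - ε) * j ≤ Real.log (M n j) := by
  have h1 : Tendsto (fun k : ℕ => (Real.log (W k) - Real.log 2) / k) atTop (𝓝 rate) := by
    have h2 : Tendsto (fun k : ℕ => Real.log 2 / (k : ℝ)) atTop (𝓝 0) :=
      tendsto_const_nhds.div_atTop tendsto_natCast_atTop_atTop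
    have h3 := rate_tendsto.sub h2
    rw [sub_zero] at h3
    refine h3.congr fun k => ?_
    ring
  obtain ⟨i, h2, hi⟩ := ((h1.eventually_const_lt (show rate - ε / 2 < rate by linarith)).and
    (eventually_ge_atTop 1)).exists
  obtain ⟨U, hU⟩ := exists_universal i
  have hi' : (0 : ℝ) < i := by exact_mod_cast hi
  rw [lt_div_iff₀ hi'] at h2
  have hiU : i ≤ U.size := by
    by_contra h
    have h3 : deck i U = ∅ := by
      rw [Set.eq_empty_iff_forall_notMem]
      rintro _ ⟨S, h4, -⟩
      have := dl_add_card S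
      omega
    have h4 := one_le_W hi
    unfold W at h4
    rw [← hU, h3, Set.ncard_empty] at h4
    omega
  have hUpos : (0 : ℝ) < U.size := by exact_mod_cast size_pos U
  refine ⟨1 / U.size, ⌈2 * i * rate / ε⌉₊, by positivity, fun n j hJ hj hjn => ?_⟩
  have h5 : j * U.size ≤ n := by
    have h6 : (j : ℝ) * U.size ≤ n := by
      rw [one_div, inv_mul_eq_div, le_div_iff₀ hUpos] at hjn
      exact hjn
    exact_mod_cast h6
  obtain ⟨q, r, hr, hr1, hqr⟩ : ∃ q r : ℕ, r ≤ i ∧ 1 ≤ r ∧ q * i + r = j := by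
    refine ⟨(j - 1) / i, (j - 1) % i + 1, ?_, by omega, ?_⟩
    · have := Nat.mod_lt (j - 1) hi
      omega
    · have := Nat.div_add_mod (j - 1) i
      rw [mul_comm] at this
      omega
  have h6 : q * U.size + r ≤ n := by
    have h7 : q + 1 ≤ j := by
      have : q ≤ q * i := Nat.le_mul_of_pos_right _ hi
      omega
    calc q * U.size + r ≤ q * U.size + U.size := by omega
      _ = (q + 1) * U.size := by ring
      _ ≤ j * U.size := Nat.mul_le_mul_right _ h7
      _ ≤ n := h5
  have hcs : (chain (n - q * U.size - 1) BT.leaf).size = n - q * U.size := by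
    rw [chain_size]
    show n - q * U.size - 1 + 1 = _
    omega
  have h7 := rep_mul U (chain (n - q * U.size - 1) .leaf) i r q
  have h8 : 1 ≤ (deck r (chain (n - q * U.size - 1) .leaf)).ncard :=
    one_le_deck hr1 (by rw [hcs]; omega)
  have h9 := ncard_deck_le_M (q * i + r) (rep U q (chain (n - q * U.size - 1) .leaf))
  rw [rep_size, hcs, show q * U.size + (n - q * U.size) = n by omega, hqr] at h9
  rw [hqr, hU] at h7
  have h10 : W i ^ q ≤ 2 ^ q * M n j :=
    (Nat.le_mul_of_pos_right _ h8).trans (h7.trans (Nat.mul_le_mul_left _ h9))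
  have h11 : (W i : ℝ) ^ q ≤ 2 ^ q * M n j := by exact_mod_cast h10
  have hWi : (0 : ℝ) < W i := by exact_mod_cast one_le_W hi
  have hM : (0 : ℝ) < M n j := M_pos hj (by
    have : j ≤ j * U.size := Nat.le_mul_of_pos_right _ (size_pos U)
    omega)
  have h12 := Real.log_le_log (by positivity) h11
  rw [Real.log_mul (by positivity) hM.ne', Real.log_pow, Real.log_pow] at h12
  have h13 : (q : ℝ) * (Real.log (W i) - Real.log 2) ≤ Real.log (M n j) := by linarith
  have hqr' : (q : ℝ) * i + r = j := by exact_mod_cast hqr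
  have hr' : (r : ℝ) ≤ i := by exact_mod_cast hr
  have hJ' : 2 * i * rate / ε ≤ j := (Nat.le_ceil _).trans (by exact_mod_cast hJ)
  rw [div_le_iff₀ hε] at hJ'
  have hrate := rate_nonneg
  have hj' : (0 : ℝ) ≤ j := Nat.cast_nonneg _
  have hq' : (0 : ℝ) ≤ q := Nat.cast_nonneg _
  rcases le_or_gt (rate - ε / 2) 0 with h | h
  · have h14 := log_M_nonneg n j
    nlinarith
  · have h15 : (q : ℝ) * ((rate - ε / 2) * i) ≤ q * (Real.log (W i) - Real.log 2) :=
      mul_le_mul_of_nonneg_left h2.le hq'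
    have h16 : (rate - ε) * j ≤ (q : ℝ) * ((rate - ε / 2) * i) := by
      have h17 : (j : ℝ) - i ≤ q * i := by linarith
      have h18 : (rate - ε / 2) * (j - i) ≤ (rate - ε / 2) * (q * i) :=
        mul_le_mul_of_nonneg_left h17 h.le
      nlinarith
    linarith

theorem growth_le_rate {x : ℝ} (h0 : 0 ≤ x) (h1 : x ≤ 1) : growth x ≤ rate * x := by
  have h2 := idx_tendsto (l := atTop) (n := fun k : ℕ => k) h0 tendsto_id
  have h3 := log_M_tendsto h0 h1 tendsto_id (by
    filter_upwards [eventually_ge_atTop 1] with k hk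
    exact idx_spec h0 h1 hk) h2
  have h4 : Tendsto (fun k : ℕ => rate * ((idx x k : ℝ) / k) + Real.log 2 / k) atTop
      (𝓝 (rate * x + 0)) :=
    (h2.const_mul _).add (tendsto_const_nhds.div_atTop tendsto_natCast_atTop_atTop)
  rw [add_zero] at h4
  refine le_of_tendsto_of_tendsto h3 h4 ?_
  filter_upwards [eventually_ge_atTop 1] with k hk
  have h5 := idx_spec h0 h1 hk
  have hk' : (0 : ℝ) < k := by exact_mod_cast hk
  have h6 := (log_M_le_W h5.1 h5.2).trans (W_le_rate h5.1)
  show Real.log (M k (idx x k)) / k ≤ _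
  calc Real.log (M k (idx x k)) / k ≤ (rate * idx x k + Real.log 2) / k :=
        div_le_div_of_nonneg_right h6 hk'.le
    _ = _ := by ring

theorem growth_slope : Tendsto (fun x => growth x / x) (𝓝[>] 0) (𝓝 rate) := by
  refine tendsto_order.2 ⟨fun y hy => ?_, fun y hy => ?_⟩
  · obtain ⟨δ, J, hδ, h1⟩ := small (show 0 < (rate - y) / 2 by linarith)
    filter_upwards [Ioo_mem_nhdsGT (show (0 : ℝ) < min δ 1 from lt_min hδ one_pos)] with x hx
    have hx0 : 0 < x := hx.1
    have hx1 : x < 1 := hx.2.trans_le (min_le_right _ _)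
    have hxd : x < δ := hx.2.trans_le (min_le_left _ _)
    have h2 := idx_tendsto (l := atTop) (n := fun k : ℕ => k) hx0.le tendsto_id
    have h3 := log_M_tendsto hx0.le hx1.le tendsto_id (by
      filter_upwards [eventually_ge_atTop 1] with k hk
      exact idx_spec hx0.le hx1.le hk) h2
    have h4 : Tendsto (fun k : ℕ => (rate - (rate - y) / 2) * ((idx x k : ℝ) / k)) atTop
        (𝓝 ((rate - (rate - y) / 2) * x)) := h2.const_mul _
    have h5 : (rate - (rate - y) / 2) * x ≤ growth x := by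
      refine le_of_tendsto_of_tendsto h4 h3 ?_
      have h6 : Tendsto (fun k : ℕ => (idx x k : ℝ)) atTop atTop := by
        have h7 : Tendsto (fun k : ℕ => (idx x k : ℝ) / k * k) atTop atTop :=
          h2.pos_mul_atTop hx0 tendsto_natCast_atTop_atTop
        refine h7.congr' ?_
        filter_upwards [eventually_gt_atTop 0] with k hk
        have : (k : ℝ) ≠ 0 := by
          have : k ≠ 0 := by omega
          exact_mod_cast this
        field_simp
      filter_upwards [h6.eventually_ge_atTop (J : ℝ), h2.eventually_lt_const hxd,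
        eventually_ge_atTop 1] with k h7 h8 h9
      have hk' : (0 : ℝ) < k := by exact_mod_cast h9
      have h10 := idx_spec hx0.le hx1.le h9
      have h11 := h1 k (idx x k) (by exact_mod_cast h7) h10.1 (by
        rw [div_lt_iff₀ hk'] at h8
        exact h8.le)
      show _ ≤ Real.log (M k (idx x k)) / k
      rw [← mul_div_assoc]
      exact div_le_div_of_nonneg_right h11 hk'.le
    rw [lt_div_iff₀ hx0]
    nlinarith
  · filter_upwards [Ioo_mem_nhdsGT (show (0 : ℝ) < 1 from one_pos)] with x hx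
    refine lt_of_le_of_lt ?_ hy
    rw [div_le_iff₀ hx.1]
    exact growth_le_rate hx.1.le hx.2.le

/-- Near `1`. -/
theorem growth_near {δ : ℝ} (h0 : 0 < δ) (h1 : δ ≤ 1 / 10) :
    δ * Real.log (2 / (3 * δ)) + δ - 10 * δ ^ 2 ≤ growth (1 - δ) ∧
      growth (1 - δ) ≤ δ * Real.log (2 / (3 * δ)) + δ + 3 / 2 * δ ^ 2 := by
  have h2 : Tendsto (fun n : ℕ => Real.log (M n (n - ⌊δ * n⌋₊)) / n) atTop
      (𝓝 (growth (1 - δ))) := by
    have hle : ∀ n : ℕ, ⌊δ * n⌋₊ ≤ n := by
      intro n
      refine Nat.floor_le_of_le ?_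
      have : (0 : ℝ) ≤ n := Nat.cast_nonneg _
      nlinarith
    refine log_M_tendsto (n := fun n : ℕ => n) (j := fun n : ℕ => n - ⌊δ * n⌋₊)
      (by linarith) (by linarith) tendsto_id ?_ ?_
    · filter_upwards [eventually_ge_atTop 1] with n hn
      refine ⟨?_, Nat.sub_le _ _⟩
      have hn' : (1 : ℝ) ≤ n := by exact_mod_cast hn
      have h3 : ⌊δ * n⌋₊ < n := by
        rw [Nat.floor_lt (by positivity)]
        nlinarith
      omega
    · have h3 : Tendsto (fun n : ℕ => (⌊δ * n⌋₊ : ℝ) / n) atTop (𝓝 δ) :=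
        floor_ratio h0.le tendsto_id
      refine ((tendsto_const_nhds (x := (1 : ℝ))).sub h3).congr' ?_
      filter_upwards [eventually_gt_atTop 0] with n hn
      have : (n : ℝ) ≠ 0 := by
        have : n ≠ 0 := by omega
        exact_mod_cast this
      rw [Nat.cast_sub (hle n)]
      field_simp
  exact ⟨le_near h0 h1 h2, near_le h0 h1 h2⟩

end Pool.Agent.DeckB
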