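import Pool.Agent.DeckB.Growth

/-!
# The growth function near 1
-/

set_option autoImplicit false

namespace Pool.Agent.DeckB

open Filter Topology

theorem log_factorial_ge (d : ℕ) :
    (d : ℝ) * Real.log d - d ≤ Real.log (d.factorial : ℝ) := by
  rcases Nat.eq_zero_or_pos d with h0 | h0
  · subst h0
    simp
  · have h1 := Stirling.le_log_factorial_stirling (n := d) (by omega)
    have h2 : (1 : ℝ) ≤ d := by exact_mod_cast h0
    have h3 : 0 ≤ Real.log d := Real.log_nonneg h2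
    have h4 : 0 ≤ Real.log (2 * Real.pi) := Real.log_nonneg (by linarith [Real.pi_gt_three])
    linarith

theorem log_factorial_le {d : ℕ} (hd : d ≠ 0) :
    Real.log (d.factorial : ℝ) ≤ (d : ℝ) * Real.log d - d + (1 + Real.log d) := by
  obtain ⟨m, rfl⟩ : ∃ m, d = m + 1 := ⟨d - 1, by omega⟩
  have h1 := Stirling.log_stirlingSeq'_antitone (Nat.zero_le m)
  simp only [Function.comp_apply, Nat.succ_eq_add_one, zero_add] at h1
  rw [Stirling.log_stirlingSeq_formula, Stirling.log_stirlingSeq_formula] at h1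
  have h2 : (1 : ℝ) ≤ ((m + 1 : ℕ) : ℝ) := by exact_mod_cast (by omega : 1 ≤ m + 1)
  have h3 : 0 ≤ Real.log ((m + 1 : ℕ) : ℝ) := Real.log_nonneg h2
  have h4 : Real.log (2 * ((m + 1 : ℕ) : ℝ)) = Real.log 2 + Real.log ((m + 1 : ℕ) : ℝ) :=
    Real.log_mul (by norm_num) (by linarith)
  have h5 : Real.log (((m + 1 : ℕ) : ℝ) / Real.exp 1) = Real.log ((m + 1 : ℕ) : ℝ) - 1 := by
    rw [Real.log_div (by linarith) (Real.exp_pos 1).ne', Real.log_exp]
  rw [h4, h5] at h1
  have h6 : Real.log (((1 : ℕ) : ℝ) / Real.exp 1) = -1 := by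
    rw [Real.log_div (by norm_num) (Real.exp_pos 1).ne', Real.log_exp]
    simp
  rw [h6] at h1
  simp only [Nat.factorial_one, Nat.cast_one, Real.log_one, mul_one] at h1
  linarith

/-- The function `x log (2 / (3 x)) + x`, extended by `0` at `0`. -/
noncomputable def phi (x : ℝ) : ℝ := x * Real.log (2 / 3) + Real.negMulLog x + x

theorem phi_continuous : Continuous phi := by
  unfold phi
  exact ((continuous_id.mul continuous_const).add Real.continuous_negMulLog).add continuous_id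

theorem phi_zero : phi 0 = 0 := by simp [phi]

theorem phi_eq {x : ℝ} (hx : 0 < x) : phi x = x * Real.log (2 / (3 * x)) + x := by
  have h1 : Real.log (2 / (3 * x)) = Real.log (2 / 3) - Real.log x := by
    rw [show 2 / (3 * x) = 2 / 3 / x by field_simp, Real.log_div (by norm_num) hx.ne']
  rw [h1, phi, Real.negMulLog]
  ring

theorem log_term_le {n d : ℕ} (hn : 0 < n) :
    Real.log ((2 * (n : ℝ) / 3) ^ d / d.factorial) / n ≤ phi ((d : ℝ) / n) := by
  have hn0 : (0 : ℝ) < n := by exact_mod_cast hn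
  rcases Nat.eq_zero_or_pos d with h0 | h0
  · subst h0
    simp [phi_zero]
  · have hd0 : (0 : ℝ) < d := by exact_mod_cast h0
    have h1 := log_factorial_ge d
    rw [phi_eq (by positivity), Real.log_div (by positivity) (by positivity), Real.log_pow,
      div_le_iff₀ hn0]
    have h2 : Real.log (2 / (3 * ((d : ℝ) / n))) = Real.log (2 * n / 3) - Real.log d := by
      rw [show 2 / (3 * ((d : ℝ) / n)) = 2 * n / 3 / d by field_simp,
        Real.log_div (by positivity) hd0.ne']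
    rw [h2]
    have h3 : ((d : ℝ) / n * (Real.log (2 * n / 3) - Real.log d) + d / n) * n =
        d * (Real.log (2 * n / 3) - Real.log d) + d := by
      field_simp
    rw [h3]
    linarith

theorem le_log_term {n d : ℕ} (hd : d ≠ 0) (hdn : d ≤ n) :
    phi ((d : ℝ) / n) - (1 + Real.log n) / n ≤
      Real.log ((2 * (n : ℝ) / 3) ^ d / d.factorial) / n := by
  have hn0 : (0 : ℝ) < n := by
    have : 0 < n := by omega
    exact_mod_cast this
  have hd0 : (0 : ℝ) < d := by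
    have : 0 < d := by omega
    exact_mod_cast this
  have h1 := log_factorial_le hd
  have h4 : Real.log d ≤ Real.log n := Real.log_le_log hd0 (by exact_mod_cast hdn)
  have h2 : Real.log (2 / (3 * ((d : ℝ) / n))) = Real.log (2 * n / 3) - Real.log d := by
    rw [show 2 / (3 * ((d : ℝ) / n)) = 2 * n / 3 / d by field_simp,
      Real.log_div (by positivity) hd0.ne']
  have h6 : Real.log ((2 * (n : ℝ) / 3) ^ d / d.factorial) =
      d * Real.log (2 * n / 3) - Real.log d.factorial := by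
    rw [Real.log_div (by positivity) (by positivity), Real.log_pow]
  rw [phi_eq (by positivity), h2, h6, le_div_iff₀ hn0]
  have h3 : ((d : ℝ) / n * (Real.log (2 * n / 3) - Real.log d) + d / n - (1 + Real.log n) / n) * n =
      d * (Real.log (2 * n / 3) - Real.log d) + d - (1 + Real.log n) := by
    field_simp
  rw [h3]
  linarith

theorem log_M_le {n d : ℕ} (hn : 3 ≤ n) (hd : 10 * d ≤ n) :
    Real.log (M n (n - d)) / n ≤ phi ((d : ℝ) / n) + 3 / 2 * ((d : ℝ) / n) ^ 2 := by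
  have hn0 : (0 : ℝ) < n := by
    have : 0 < n := by omega
    exact_mod_cast this
  have h1 : (1 : ℝ) ≤ M n (n - d) := by
    exact_mod_cast one_le_M (n := n) (j := n - d) (by omega) (Nat.sub_le _ _)
  have h2 := Real.log_le_log (by linarith) (main_le hn hd)
  rw [Real.log_mul (Real.exp_pos _).ne' (by positivity), Real.log_exp] at h2
  have h3 := log_term_le (n := n) (d := d) (by omega)
  have h4 : Real.log (M n (n - d)) / n ≤
      (3 / 2 * ((d : ℝ) ^ 2 / n) + Real.log ((2 * (n : ℝ) / 3) ^ d / d.factorial)) / n :=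
    div_le_div_of_nonneg_right h2 hn0.le
  have h5 : (3 / 2 * ((d : ℝ) ^ 2 / n) + Real.log ((2 * (n : ℝ) / 3) ^ d / d.factorial)) / n =
      3 / 2 * ((d : ℝ) / n) ^ 2 + Real.log ((2 * (n : ℝ) / 3) ^ d / d.factorial) / n := by
    field_simp
  rw [h5] at h4
  linarith

theorem le_log_M {n d : ℕ} (hn : 3 ≤ n) (hd : 10 * d ≤ n) (h0 : d ≠ 0) :
    phi ((d : ℝ) / n) - (1 + Real.log n) / n - 10 * ((d : ℝ) / n) ^ 2 ≤
      Real.log (M n (n - d)) / n := by
  have hn0 : (0 : ℝ) < n := by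
    have : 0 < n := by omega
    exact_mod_cast this
  have h1 : ((deck (n - d) (altTree n)).ncard : ℝ) ≤ (M n (n - d) : ℝ) := by
    exact_mod_cast altTree_le_M hn (Nat.sub_le _ _)
  have h2 := Real.log_le_log (by positivity) ((le_main hn hd).trans h1)
  rw [Real.log_mul (Real.exp_pos _).ne' (by positivity), Real.log_exp] at h2
  have h3 := le_log_term (n := n) h0 (by omega)
  have h4 : (-(10 * ((d : ℝ) ^ 2 / n)) + Real.log ((2 * (n : ℝ) / 3) ^ d / d.factorial)) / n ≤
      Real.log (M n (n - d)) / n := div_le_div_of_nonneg_right h2 hn0.le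
  have h5 : (-(10 * ((d : ℝ) ^ 2 / n)) + Real.log ((2 * (n : ℝ) / 3) ^ d / d.factorial)) / n =
      Real.log ((2 * (n : ℝ) / 3) ^ d / d.factorial) / n - 10 * ((d : ℝ) / n) ^ 2 := by
    field_simp
    ring
  rw [h5] at h4
  linarith

theorem near_one {ι : Type*} {l : Filter ι} {n j : ι → ℕ} (hn : Tendsto n l atTop)
    (hj : ∀ᶠ k in l, 1 ≤ j k ∧ j k ≤ n k)
    (h : Tendsto (fun k => (j k : ℝ) / n k) l (𝓝 1)) :
    Tendsto (fun k => Real.log (M (n k) (j k)) / n k) l (𝓝 0) := by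
  have h1 : Tendsto (fun k => 1 - (j k : ℝ) / n k) l (𝓝 0) := by
    simpa using h.const_sub 1
  have h2 : Tendsto (fun k => phi (1 - (j k : ℝ) / n k) +
      3 / 2 * (1 - (j k : ℝ) / n k) ^ 2) l (𝓝 0) := by
    have h3 := ((phi_continuous.tendsto 0).comp h1).add ((h1.pow 2).const_mul (3 / 2))
    simpa [Function.comp_def, phi_zero] using h3
  have h4 : ∀ᶠ k in l, 10 * (n k - j k) ≤ n k ∧ 3 ≤ n k := by
    filter_upwards [hj, hn.eventually (eventually_ge_atTop 3),
      h.eventually (lt_mem_nhds (show (9 / 10 : ℝ) < 1 by norm_num))] with k h5 h6 h7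
    refine ⟨?_, h6⟩
    have hn0 : (0 : ℝ) < n k := by
      have : 0 < n k := by omega
      exact_mod_cast this
    rw [lt_div_iff₀ hn0] at h7
    have h8 : 9 * n k < 10 * j k := by
      have : (9 : ℝ) * n k < 10 * j k := by linarith
      exact_mod_cast this
    omega
  refine tendsto_of_tendsto_of_tendsto_of_le_of_le' tendsto_const_nhds h2 ?_ ?_
  · filter_upwards [hj] with k h5
    have h6 : (1 : ℝ) ≤ M (n k) (j k) := by exact_mod_cast one_le_M h5.1 h5.2
    exact div_nonneg (Real.log_nonneg h6) (Nat.cast_nonneg _)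
  · filter_upwards [hj, h4] with k h5 h6
    have hn0 : (0 : ℝ) < n k := by
      have : 0 < n k := by omega
      exact_mod_cast this
    have h7 := log_M_le (n := n k) (d := n k - j k) h6.2 h6.1
    rw [Nat.sub_sub_self h5.2, Nat.cast_sub h5.2] at h7
    have h8 : ((n k : ℝ) - j k) / n k = 1 - (j k : ℝ) / n k := by
      field_simp
    rw [h8] at h7
    exact h7

theorem floor_div_tendsto {δ : ℝ} (h0 : 0 < δ) :
    Tendsto (fun n : ℕ => ((⌊δ * n⌋₊ : ℕ) : ℝ) / n) atTop (𝓝 δ) :=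
  (tendsto_nat_floor_mul_div_atTop h0.le).comp tendsto_natCast_atTop_atTop

theorem ten_floor_le {δ : ℝ} (h0 : 0 < δ) (h1 : δ ≤ 1 / 10) (n : ℕ) : 10 * ⌊δ * n⌋₊ ≤ n := by
  have h2 := Nat.floor_le (show 0 ≤ δ * n by positivity)
  have h3 : (n : ℝ) * δ ≤ n * (1 / 10) := mul_le_mul_of_nonneg_left h1 (Nat.cast_nonneg _)
  have h4 : (10 : ℝ) * (⌊δ * n⌋₊ : ℕ) ≤ n := by linarith
  exact_mod_cast h4

theorem near_le {δ ℓ : ℝ} (h0 : 0 < δ) (h1 : δ ≤ 1 / 10)
    (h : Tendsto (fun n : ℕ => Real.log (M n (n - ⌊δ * n⌋₊)) / n) atTop (𝓝 ℓ)) :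
    ℓ ≤ δ * Real.log (2 / (3 * δ)) + δ + 3 / 2 * δ ^ 2 := by
  rw [← phi_eq h0]
  have h2 := floor_div_tendsto h0
  have h3 : Tendsto (fun n : ℕ => phi (((⌊δ * n⌋₊ : ℕ) : ℝ) / n) +
      3 / 2 * (((⌊δ * n⌋₊ : ℕ) : ℝ) / n) ^ 2) atTop (𝓝 (phi δ + 3 / 2 * δ ^ 2)) :=
    ((phi_continuous.tendsto δ).comp h2).add ((h2.pow 2).const_mul (3 / 2))
  refine le_of_tendsto_of_tendsto h h3 ?_
  filter_upwards [eventually_ge_atTop 3] with n hn
  exact log_M_le hn (ten_floor_le h0 h1 n)

theorem log_div_tendsto : Tendsto (fun n : ℕ => (1 + Real.log n) / n) atTop (𝓝 0) := by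
  have h1 : Tendsto (fun x : ℝ => Real.log x / x) atTop (𝓝 0) := by
    simpa using Real.tendsto_pow_log_div_mul_add_atTop 1 0 1 one_ne_zero
  have h2 : Tendsto (fun n : ℕ => Real.log n / n) atTop (𝓝 0) :=
    h1.comp tendsto_natCast_atTop_atTop
  have h3 : Tendsto (fun n : ℕ => (1 : ℝ) / n) atTop (𝓝 0) :=
    tendsto_const_div_atTop_nhds_zero_nat 1
  have h4 := h3.add h2
  simp only [add_zero] at h4
  refine h4.congr fun n => ?_
  rw [add_div]

theorem le_near {δ ℓ : ℝ} (h0 : 0 < δ) (h1 : δ ≤ 1 / 10)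
    (h : Tendsto (fun n : ℕ => Real.log (M n (n - ⌊δ * n⌋₊)) / n) atTop (𝓝 ℓ)) :
    δ * Real.log (2 / (3 * δ)) + δ - 10 * δ ^ 2 ≤ ℓ := by
  rw [← phi_eq h0]
  have h2 := floor_div_tendsto h0
  have h3 : Tendsto (fun n : ℕ => phi (((⌊δ * n⌋₊ : ℕ) : ℝ) / n) - (1 + Real.log n) / n -
      10 * (((⌊δ * n⌋₊ : ℕ) : ℝ) / n) ^ 2) atTop (𝓝 (phi δ - 0 - 10 * δ ^ 2)) :=
    (((phi_continuous.tendsto δ).comp h2).sub log_div_tendsto).sub ((h2.pow 2).const_mul 10)
  rw [sub_zero] at h3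
  refine le_of_tendsto_of_tendsto h3 h ?_
  have h4 : ∀ᶠ n : ℕ in atTop, 1 ≤ δ * n := by
    have h5 : Tendsto (fun n : ℕ => δ * (n : ℝ)) atTop atTop :=
      Tendsto.const_mul_atTop h0 tendsto_natCast_atTop_atTop
    exact h5.eventually (eventually_ge_atTop 1)
  filter_upwards [eventually_ge_atTop 3, h4] with n hn h5
  refine le_log_M hn (ten_floor_le h0 h1 n) ?_
  have h6 : 0 < ⌊δ * n⌋₊ := Nat.floor_pos.mpr h5
  omega

end Pool.Agent.DeckB
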