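import Mathlib

set_option autoImplicit false

namespace Pool.Agent.DeckB

open PowerSeries

/-- `1 + X + X ^ 2 + ...` -/
noncomputable def E : ℕ⟦X⟧ := PowerSeries.mk fun _ => 1

/-- `1 + X ^ 2 + X ^ 3 + ...` -/
noncomputable def H : ℕ⟦X⟧ := 1 + X ^ 2 * E

end Pool.Agent.DeckB
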