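import Pool.Agent.DeckB.Lam

/-!
# Infinitely many patterns are needed (helper31)
-/

set_option autoImplicit false

namespace Pool.Agent.DeckB

open Filter Topology

theorem vv_continuous (k : ℕ) : Continuous fun z : ℝ => vv z k := by
  induction k with
  | zero =>
    show Continuous fun z : ℝ => z ^ 4 + 2 * z ^ 3 + 2 * z ^ 2
    fun_prop
  | succ k ih =>
    show Continuous fun z : ℝ => (z ^ 3 + 2 * z ^ 2) * vv z k + (z + 1) * z ^ 3
    fun_prop

theorem log_vv_beta {β : ℝ} (h1 : 7 / 3 < β) (h0 : Gb β = 0) (k : ℕ) :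
    Real.log (vv β k) / ((3 * k + 4 : ℕ) : ℝ) < Real.log (β ^ 3 + 2 * β ^ 2) / 3 := by
  have hβ : 0 < β := by linarith
  obtain ⟨ω, κ, hω0, hκ0, hω, hκ, hlog⟩ := exists_omega h1.le
  have h2 := A1_le h1.le hω0.le hω hκ h0.le
  have h3 : vv β k < ω ^ (3 * k + 4) := by
    rw [vv_eq hω hκ k, pow_add, pow_mul]
    have h4 := mul_le_mul_of_nonneg_left h2 (show 0 ≤ (ω ^ 3) ^ k by positivity)
    have h5 : 0 < κ * β ^ 3 := by positivity
    linarith
  have h4 := Real.log_lt_log (vv_pos hβ k) h3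
  rw [Real.log_pow, hlog] at h4
  rw [div_lt_iff₀ (cast_pos' k)]
  linarith

/-- Just below `β` the supremum `Lam` is larger than the first rates: infinitely many patterns
are needed. -/
theorem Lam_inf {β : ℝ} (h1 : 7 / 3 < β) (h0 : Gb β = 0)
    (_hG : ∀ z : ℝ, 7 / 3 ≤ z → z < β → 0 < Gb z) (K : ℕ) : ∃ z : ℝ, 7 / 3 < z ∧ z < β ∧
    ∀ k ≤ K, Real.log (vv z k) / ((3 * k + 4 : ℕ) : ℝ) < Lam z := by
  have hβ : 0 < β := by linarith
  have h2 : ∀ k ∈ Finset.range (K + 1), ∀ᶠ z in 𝓝 β,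
      Real.log (vv z k) / ((3 * k + 4 : ℕ) : ℝ) < Real.log (z ^ 3 + 2 * z ^ 2) / 3 := by
    intro k _
    have h3 : ContinuousAt (fun z : ℝ => Real.log (vv z k) / ((3 * k + 4 : ℕ) : ℝ)) β :=
      ((vv_continuous k).continuousAt.log (vv_pos hβ k).ne').div_const _
    have h4 : ContinuousAt (fun z : ℝ => Real.log (z ^ 3 + 2 * z ^ 2) / 3) β := by
      have h5 : ContinuousAt (fun z : ℝ => z ^ 3 + 2 * z ^ 2) β := by fun_prop
      exact (h5.log (by positivity)).div_const _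
    exact h3.eventually_lt h4 (log_vv_beta h1 h0 k)
  have h3 : ∀ᶠ z in 𝓝 β, ∀ k ∈ Finset.range (K + 1),
      Real.log (vv z k) / ((3 * k + 4 : ℕ) : ℝ) < Real.log (z ^ 3 + 2 * z ^ 2) / 3 :=
    (Filter.eventually_all_finset _).2 h2
  have h4 : ∀ᶠ z in 𝓝[<] β, ∀ k ∈ Finset.range (K + 1),
      Real.log (vv z k) / ((3 * k + 4 : ℕ) : ℝ) < Real.log (z ^ 3 + 2 * z ^ 2) / 3 :=
    h3.filter_mono nhdsWithin_le_nhds
  obtain ⟨z, hz, hz1, hz2⟩ :=
    (h4.and (Ioo_mem_nhdsLT h1 : ∀ᶠ z in 𝓝[<] β, z ∈ Set.Ioo (7 / 3) β)).exists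
  refine ⟨z, hz1, hz2, fun k hk => ?_⟩
  exact (hz k (Finset.mem_range.2 (by omega))).trans_le (lam_ge (by linarith))

end Pool.Agent.DeckB
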