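import Pool.Agent.DeckB.Upper

/-!
# The lower bound
-/

set_option autoImplicit false

namespace Pool.Agent.DeckB

/-- The weight of a word: the number of leaves attached. -/
def wt : List Bool → ℕ
  | [] => 0
  | false :: w => 1 + wt w
  | true :: w => 2 + wt w

theorem sp_size (w : List Bool) (Z : BT) : (sp w Z).size = wt w + Z.size := by
  induction w with
  | nil => simp [sp, wt]
  | cons b w ih =>
    cases b with
    | false =>
      show 1 + (sp w Z).size = 1 + wt w + Z.size
      rw [ih]
      ring
    | true =>
      show 2 + (sp w Z).size = 2 + wt w + Z.size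
      rw [ih]
      ring

theorem iso_node_right {p p' r r' : BT} (h : Iso (.node p r) (.node p' r'))
    (h1 : p.size < r'.size) : Iso p p' ∧ Iso r r' := by
  cases h with
  | node h3 h4 => exact ⟨h3, h4⟩
  | swap h3 _ =>
    have := h3.size_eq
    omega

theorem sp_inj {Z : BT} (hZ : 3 ≤ Z.size) :
    ∀ w w' : List Bool, Iso (sp w Z) (sp w' Z) → w = w' := by
  have hc : cherry.size = 2 := rfl
  have hl : BT.leaf.size = 1 := rfl
  have hsz : ∀ w : List Bool, 3 ≤ (sp w Z).size := by
    intro w
    rw [sp_size]
    omega
  have hnil : ∀ (b : Bool) (w : List Bool), ¬ Iso (sp (b :: w) Z) Z := by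
    intro b w h
    have h1 := h.size_eq
    rw [sp_size] at h1
    cases b <;> simp only [wt] at h1 <;> omega
  intro w
  induction w with
  | nil =>
    intro w' h
    cases w' with
    | nil => rfl
    | cons b w' => exact absurd h.symm (hnil b w')
  | cons b w ih =>
    intro w' h
    cases w' with
    | nil => exact absurd h (hnil b w)
    | cons b' w' =>
      have h1 := hsz w
      have h2 := hsz w'
      cases b with
      | false =>
        cases b' with
        | false =>
          obtain ⟨-, h4⟩ := iso_node_right h (by omega)
          rw [ih w' h4]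
        | true =>
          obtain ⟨h3, -⟩ := iso_node_right h (by omega)
          have := h3.size_eq
          omega
      | true =>
        cases b' with
        | false =>
          obtain ⟨h3, -⟩ := iso_node_right h (by omega)
          have := h3.size_eq
          omega
        | true =>
          obtain ⟨-, h4⟩ := iso_node_right h (by omega)
          rw [ih w' h4]

/-- The word of a pattern: every block `12` stays, or loses a leaf and becomes `2` or `11`. -/
def code : List (Option Bool) → List Bool
  | [] => []
  | none :: p => false :: true :: code p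
  | some false :: p => true :: code p
  | some true :: p => false :: false :: code p

theorem code_inj : ∀ p p' : List (Option Bool), code p = code p' → p = p' := by
  intro p
  induction p with
  | nil =>
    intro p' h
    match p', h with
    | [], _ => rfl
    | none :: _, h => simp [code] at h
    | some false :: _, h => simp [code] at h
    | some true :: _, h => simp [code] at h
  | cons x p ih =>
    intro p' h
    match x, p', h with
    | none, [], h => simp [code] at h
    | some false, [], h => simp [code] at h
    | some true, [], h => simp [code] at h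
    | none, none :: p', h => simp only [code, List.cons.injEq, true_and] at h; rw [ih p' h]
    | none, some false :: p', h => simp [code] at h
    | none, some true :: p', h => simp [code] at h
    | some false, none :: p', h => simp [code] at h
    | some false, some false :: p', h =>
      simp only [code, List.cons.injEq, true_and] at h; rw [ih p' h]
    | some false, some true :: p', h => simp [code] at h
    | some true, none :: p', h => simp [code] at h
    | some true, some false :: p', h => simp [code] at h
    | some true, some true :: p', h =>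
      simp only [code, List.cons.injEq, true_and] at h; rw [ih p' h]

/-- The number of changed blocks. -/
def ch : List (Option Bool) → ℕ
  | [] => 0
  | none :: p => ch p
  | some _ :: p => ch p + 1

theorem wt_alt (m : ℕ) : wt (alt m) = 3 * m := by
  induction m with
  | zero => rfl
  | succ m ih =>
    show 1 + (2 + wt (alt m)) = _
    rw [ih]
    ring

theorem exists_keep_all (Z : BT) : ∃ S : Leaf Z → Bool, dl S = 0 ∧ restrict Z S = some Z := by
  induction Z with
  | leaf => exact ⟨fun _ => true, by rw [dl_leaf]; rfl, restrict_leaf_true _ rfl⟩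
  | node l r ihl ihr =>
    obtain ⟨S, h1, h2⟩ := ihl
    obtain ⟨S', h3, h4⟩ := ihr
    refine ⟨Sum.elim S S', ?_, ?_⟩
    · rw [dl_node]
      show dl S + dl S' = 0
      rw [h1, h3]
    · show glue (restrict l S) (restrict r S') = _
      rw [h2, h4]
      rfl

theorem exists_keep_one : ∃ S : Leaf cherry → Bool, dl S = 1 ∧ restrict cherry S = some .leaf := by
  refine ⟨Sum.elim (fun _ => true) (fun _ => false), ?_, rfl⟩
  unfold cherry
  rw [dl_node, dl_leaf, dl_leaf]
  rfl

/-- Putting two restrictions together. -/
theorem exists_node {l r : BT} {S : Leaf l → Bool} {S' : Leaf r → Bool} :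
    ∃ S'' : Leaf (.node l r) → Bool, dl S'' = dl S + dl S' ∧
      restrict (.node l r) S'' = glue (restrict l S) (restrict r S') :=
  ⟨Sum.elim S S', by rw [dl_node]; rfl, rfl⟩

theorem exists_pattern (Z : BT) (p : List (Option Bool)) :
    ∃ S : Leaf (sp (alt p.length) Z) → Bool, dl S = ch p ∧
      restrict (sp (alt p.length) Z) S = some (sp (code p) Z) := by
  induction p with
  | nil => exact exists_keep_all Z
  | cons x p ih =>
    obtain ⟨S, h1, h2⟩ := ih
    obtain ⟨S1, h3, h4⟩ := exists_keep_all cherry
    obtain ⟨S2, h5, h6⟩ := exists_keep_one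
    have h7 : ∃ S : Leaf (.node .leaf (.node cherry (sp (alt p.length) Z))) → Bool,
        dl S = ch (x :: p) ∧ restrict (.node .leaf (.node cherry (sp (alt p.length) Z))) S =
          some (sp (code (x :: p)) Z) := by
      match x with
      | none =>
        obtain ⟨T1, h8, h9⟩ := exists_node (S := S1) (S' := S)
        obtain ⟨T2, h10, h11⟩ := exists_node (l := .leaf) (S := fun _ => true) (S' := T1)
        refine ⟨T2, ?_, ?_⟩
        · rw [h10, h8, h3, h1, dl_leaf]
          simp [ch]
        · rw [h11, h9, h4, h2]
          rfl
      | some false =>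
        obtain ⟨T1, h8, h9⟩ := exists_node (S := S1) (S' := S)
        obtain ⟨T2, h10, h11⟩ := exists_node (l := .leaf) (S := fun _ => false) (S' := T1)
        refine ⟨T2, ?_, ?_⟩
        · rw [h10, h8, h3, h1, dl_leaf]
          simp [ch]
          omega
        · rw [h11, h9, h4, h2]
          rfl
      | some true =>
        obtain ⟨T1, h8, h9⟩ := exists_node (S := S2) (S' := S)
        obtain ⟨T2, h10, h11⟩ := exists_node (l := .leaf) (S := fun _ => true) (S' := T1)
        refine ⟨T2, ?_, ?_⟩
        · rw [h10, h8, h5, h1, dl_leaf]
          simp [ch]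
          omega
        · rw [h11, h9, h6, h2]
          rfl
    exact h7

/-- The patterns of length `m` with `d` changed blocks. -/
def pat : ℕ → ℕ → Finset (List (Option Bool))
  | 0, 0 => {[]}
  | 0, _ + 1 => ∅
  | m + 1, 0 => (pat m 0).map ⟨List.cons none, List.cons_injective⟩
  | m + 1, d + 1 => ((pat m (d + 1)).map ⟨List.cons none, List.cons_injective⟩) ∪
      (((pat m d).map ⟨List.cons (some false), List.cons_injective⟩) ∪
        ((pat m d).map ⟨List.cons (some true), List.cons_injective⟩))

theorem pat_card (m d : ℕ) : (pat m d).card = 2 ^ d * m.choose d := by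
  induction m generalizing d with
  | zero =>
    cases d with
    | zero => rfl
    | succ d => simp [pat]
  | succ m ih =>
    cases d with
    | zero =>
      simp only [pat, Finset.card_map, ih]
      simp
    | succ d =>
      have h1 : Disjoint ((pat m d).map ⟨List.cons (some false), List.cons_injective⟩)
          ((pat m d).map ⟨List.cons (some true), List.cons_injective⟩) := by
        rw [Finset.disjoint_left]
        intro x hx hx'
        rw [Finset.mem_map] at hx hx'
        obtain ⟨y, -, rfl⟩ := hx
        obtain ⟨z, -, hz⟩ := hx'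
        simp at hz
      have h2 : Disjoint ((pat m (d + 1)).map ⟨List.cons none, List.cons_injective⟩)
          (((pat m d).map ⟨List.cons (some false), List.cons_injective⟩) ∪
            ((pat m d).map ⟨List.cons (some true), List.cons_injective⟩)) := by
        rw [Finset.disjoint_left]
        intro x hx hx'
        rw [Finset.mem_union, Finset.mem_map, Finset.mem_map] at hx'
        rw [Finset.mem_map] at hx
        obtain ⟨y, -, rfl⟩ := hx
        rcases hx' with ⟨z, -, hz⟩ | ⟨z, -, hz⟩ <;> simp at hz
      simp only [pat]
      rw [Finset.card_union_of_disjoint h2, Finset.card_union_of_disjoint h1,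
        Finset.card_map, Finset.card_map, Finset.card_map, ih, ih, Nat.choose_succ_succ]
      ring

theorem mem_pat {m d : ℕ} {p : List (Option Bool)} (h : p ∈ pat m d) :
    p.length = m ∧ ch p = d := by
  induction m generalizing d p with
  | zero =>
    cases d with
    | zero =>
      simp only [pat, Finset.mem_singleton] at h
      subst h
      exact ⟨rfl, rfl⟩
    | succ d => simp [pat] at h
  | succ m ih =>
    cases d with
    | zero =>
      simp only [pat, Finset.mem_map] at h
      obtain ⟨y, hy, rfl⟩ := h
      obtain ⟨h1, h2⟩ := ih hy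
      exact ⟨congrArg (· + 1) h1, h2⟩
    | succ d =>
      simp only [pat, Finset.mem_union, Finset.mem_map] at h
      rcases h with ⟨y, hy, rfl⟩ | ⟨y, hy, rfl⟩ | ⟨y, hy, rfl⟩
      · obtain ⟨h1, h2⟩ := ih hy
        exact ⟨congrArg (· + 1) h1, h2⟩
      · obtain ⟨h1, h2⟩ := ih hy
        exact ⟨congrArg (· + 1) h1, congrArg (· + 1) h2⟩
      · obtain ⟨h1, h2⟩ := ih hy
        exact ⟨congrArg (· + 1) h1, congrArg (· + 1) h2⟩

theorem deck_finite (j : ℕ) (T : BT) : (deck j T).Finite := by
  classical
  have h1 : (some '' deck j T : Set (Option Shape)) ⊆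
      Set.range fun S : Leaf T → Bool => cl (restrict T S) := by
    rintro _ ⟨q, ⟨S, -, t, ht, rfl⟩, rfl⟩
    refine ⟨S, ?_⟩
    show cl (restrict T S) = _
    rw [ht]
    rfl
  exact Set.Finite.of_finite_image ((Set.finite_range _).subset h1)
    (Option.some_injective Shape).injOn

/-- The lower bound for one tree. -/
theorem le_ncard_deck {m d : ℕ} {Z : BT} (hZ : 3 ≤ Z.size) :
    2 ^ d * m.choose d ≤ (deck (3 * m + Z.size - d) (sp (alt m) Z)).ncard := by
  classical
  rw [← pat_card, ← Set.ncard_coe_finset]
  refine Set.ncard_le_ncard_of_injOn (fun p => (sp (code p) Z).shape) ?_ ?_ (deck_finite _ _)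
  · intro p hp
    obtain ⟨rfl, h2⟩ := mem_pat (Finset.mem_coe.1 hp)
    obtain ⟨S, h3, h4⟩ := exists_pattern Z p
    refine ⟨S, ?_, _, h4, rfl⟩
    have h5 := dl_add_card S
    rw [sp_size, wt_alt] at h5
    omega
  · intro p _ p' _ h
    exact code_inj _ _ (sp_inj hZ _ _ (Quotient.exact (s := isoSetoid) h))

theorem bddAbove_M {n j : ℕ} (hn : 2 ≤ n) (hj : j ≤ n) :
    BddAbove {x | ∃ T : BT, T.size = n ∧ (deck j T).ncard = x} := by
  refine ⟨((2 * n - 1) / 3).multichoose (n - j), ?_⟩
  rintro _ ⟨T, hT, rfl⟩
  exact ncard_deck_le hn hj hT

/-- The upper bound. -/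
theorem M_le {n j : ℕ} (hn : 2 ≤ n) (hj : j ≤ n) :
    M n j ≤ ((2 * n - 1) / 3).multichoose (n - j) := by
  have h0 : ∃ T : BT, T.size = n := ⟨chain (n - 1) .leaf, by
    rw [chain_size]
    show n - 1 + 1 = n
    omega⟩
  obtain ⟨T, hT⟩ := h0
  refine csSup_le ⟨_, T, hT, rfl⟩ ?_
  rintro _ ⟨T, hT, rfl⟩
  exact ncard_deck_le hn hj hT

theorem altTree_size {n : ℕ} (hn : 3 ≤ n) : (altTree n).size = n := by
  have h0 : BT.leaf.size = 1 := rfl
  unfold altTree
  rw [sp_size, wt_alt, chain_size]
  omega

/-- The lower bound. -/
theorem le_altTree {n : ℕ} (hn : 3 ≤ n) (d : ℕ) :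
    2 ^ d * (n / 3 - 1).choose d ≤ (deck (n - d) (altTree n)).ncard := by
  have h1 : (chain (n % 3 + 2) .leaf).size = n % 3 + 3 := by
    rw [chain_size]
    rfl
  have h2 : 3 * (n / 3 - 1) + (n % 3 + 3) = n := by omega
  have h3 := le_ncard_deck (m := n / 3 - 1) (d := d) (Z := chain (n % 3 + 2) .leaf) (by omega)
  rw [h1, h2] at h3
  exact h3

theorem altTree_le_M {n j : ℕ} (hn : 3 ≤ n) (hj : j ≤ n) :
    (deck j (altTree n)).ncard ≤ M n j :=
  le_csSup (bddAbove_M (by omega) hj) ⟨_, altTree_size hn, rfl⟩

end Pool.Agent.DeckB
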