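import Mathlib

/-!
# Inequalities for the cube root of `z ^ 3 + 2 z ^ 2`
-/

set_option autoImplicit false

namespace Pool.Agent.DeckB

/-- `z² + z`, then multiply by `z` and add `z²`. -/
def Fk (z : ℝ) : ℕ → ℝ
  | 0 => z ^ 2 + z
  | k + 1 => z * Fk z k + z ^ 2

/-- `1 + z + ... + z ^ k`. -/
def sk (z : ℝ) : ℕ → ℝ
  | 0 => 1
  | k + 1 => z * sk z k + 1

section

variable {z ω κ : ℝ}

theorem omega_ge (hz : 10 / 3 ≤ z) (h0 : 0 ≤ ω) (hω : ω ^ 3 = z ^ 3 + 2 * z ^ 2) :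
    z + 1 / 2 ≤ ω := by
  refine le_of_pow_le_pow_left₀ (n := 3) (by norm_num) h0 ?_
  rw [hω]
  nlinarith

theorem omega_sq (hz : 10 / 3 ≤ z) (hω : ω ^ 3 = z ^ 3 + 2 * z ^ 2) :
    z ^ 2 + z ≤ ω ^ 2 := by
  refine le_of_pow_le_pow_left₀ (n := 3) (by norm_num) (by positivity) ?_
  rw [show (ω ^ 2) ^ 3 = (ω ^ 3) ^ 2 by ring, hω]
  have h1 : 0 ≤ z ^ 3 * (z ^ 2 + z - 1) := by
    have : 0 ≤ z := by linarith
    have : 0 ≤ z ^ 2 + z - 1 := by nlinarith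
    positivity
  nlinarith

theorem omega_ge' (hz : 10 / 3 ≤ z) (h0 : 0 ≤ ω) (hω : ω ^ 3 = z ^ 3 + 2 * z ^ 2) :
    63 * z ^ 3 + 42 * z ^ 2 - 28 * z + 18 ≤ 63 * z ^ 2 * ω := by
  have hz0 : 0 < z := by linarith
  refine le_of_pow_le_pow_left₀ (n := 3) (by norm_num) (by positivity) ?_
  rw [show (63 * z ^ 2 * ω) ^ 3 = 250047 * z ^ 6 * ω ^ 3 by ring, hω]
  have h1 : 0 ≤ z ^ 5 * (156114 * z - 285768 - 200000) := by
    have : 0 ≤ 156114 * z - 285768 - 200000 := by linarith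
    positivity
  have h2 : 0 ≤ z ^ 3 * (200000 * z ^ 2 - 3528 * z - 100000) := by
    have : 0 ≤ 200000 * z ^ 2 - 3528 * z - 100000 := by nlinarith
    positivity
  have h3 : 0 ≤ 187724 * z ^ 3 - 83160 * z ^ 2 + 27216 * z - 5832 := by
    have : 0 ≤ z ^ 2 * (187724 * z - 83160) := by
      have : 0 ≤ 187724 * z - 83160 := by linarith
      positivity
    nlinarith
  nlinarith

theorem kappa_pos (hz : 10 / 3 ≤ z) (hκ : κ * (z ^ 2 + z - 1) = 1) : 0 < κ := by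
  have h1 : 0 < z ^ 2 + z - 1 := by nlinarith
  by_contra h
  have : κ * (z ^ 2 + z - 1) ≤ 0 := mul_nonpos_of_nonpos_of_nonneg (not_lt.1 h) h1.le
  linarith

theorem kappa_le (hz : 10 / 3 ≤ z) (hκ : κ * (z ^ 2 + z - 1) = 1) :
    κ * (1 + z ^ 3) ≤ z - 1 / 2 := by
  have hk := kappa_pos hz hκ
  have h1 : κ * (1 + z ^ 3) = (z - 1) + 2 * κ * z := by
    linear_combination (z - 1) * hκ
  have h2 : 4 * z ≤ z ^ 2 + z - 1 := by nlinarith
  have h3 : κ * (4 * z) ≤ κ * (z ^ 2 + z - 1) := mul_le_mul_of_nonneg_left h2 hk.le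
  linarith

theorem omega_pow_ge (hz : 10 / 3 ≤ z) (h0 : 0 ≤ ω) (hω : ω ^ 3 = z ^ 3 + 2 * z ^ 2) {k m : ℕ}
    (h : k ≤ m) : z ^ k ≤ ω ^ m := by
  have h1 := omega_ge hz h0 hω
  calc z ^ k ≤ ω ^ k := pow_le_pow_left₀ (by linarith) (by linarith) k
    _ ≤ ω ^ m := pow_le_pow_right₀ (by linarith) h

theorem Fk_le (hz : 10 / 3 ≤ z) (h0 : 0 ≤ ω) (hω : ω ^ 3 = z ^ 3 + 2 * z ^ 2) (k : ℕ) :
    Fk z k ≤ ω ^ (k + 2) := by
  have h1 := omega_ge hz h0 hω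
  have hz0 : 0 < z := by linarith
  induction k with
  | zero => exact omega_sq hz hω
  | succ k ih =>
    show z * Fk z k + z ^ 2 ≤ _
    rcases Nat.eq_zero_or_pos k with rfl | hk
    · show z * (z ^ 2 + z) + z ^ 2 ≤ ω ^ 3
      rw [hω]
      nlinarith
    · have h2 : z * Fk z k ≤ z * ω ^ (k + 2) := mul_le_mul_of_nonneg_left ih hz0.le
      have h3 : z ^ 3 ≤ ω ^ (k + 2) := omega_pow_ge hz h0 hω (by omega)
      have h4 : z ^ 2 ≤ ω ^ (k + 2) * (ω - z) := by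
        have h5 : ω ^ (k + 2) * (1 / 2) ≤ ω ^ (k + 2) * (ω - z) :=
          mul_le_mul_of_nonneg_left (by linarith) (by positivity)
        nlinarith
      calc z * Fk z k + z ^ 2 ≤ z * ω ^ (k + 2) + ω ^ (k + 2) * (ω - z) := by linarith
        _ = ω ^ (k + 1 + 2) := by ring

theorem tight (hz : 10 / 3 ≤ z) (h0 : 0 ≤ ω) (hω : ω ^ 3 = z ^ 3 + 2 * z ^ 2)
    (hκ : κ * (z ^ 2 + z - 1) = 1) :
    (z + 1) * (1 + (z + z ^ 2 + z ^ 3)) + κ * (1 + z ^ 3) ≤ ω ^ 4 := by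
  have h1 := omega_ge' hz h0 hω
  have h2 := kappa_le hz hκ
  have hz0 : 0 < z := by linarith
  have h3 : ω ^ 4 = (z + 2) * (z ^ 2 * ω) := by
    calc ω ^ 4 = ω ^ 3 * ω := by ring
      _ = (z + 2) * (z ^ 2 * ω) := by rw [hω]; ring
  have h4 : (z + 2) * (63 * z ^ 3 + 42 * z ^ 2 - 28 * z + 18) ≤ (z + 2) * (63 * z ^ 2 * ω) :=
    mul_le_mul_of_nonneg_left h1 (by linarith)
  have h5 : 0 ≤ 42 * z ^ 3 - 70 * z ^ 2 - 227 * z := by
    have : 0 ≤ 42 * z ^ 2 - 70 * z - 227 := by nlinarith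
    have := mul_nonneg hz0.le this
    nlinarith
  rw [h3]
  nlinarith

theorem sk_pos (hz : 10 / 3 ≤ z) (k : ℕ) : 1 ≤ sk z k := by
  induction k with
  | zero => exact le_rfl
  | succ k ih =>
    show 1 ≤ z * sk z k + 1
    nlinarith

theorem three_le (hz : 10 / 3 ≤ z) (h0 : 0 ≤ ω) (hω : ω ^ 3 = z ^ 3 + 2 * z ^ 2)
    (hκ : κ * (z ^ 2 + z - 1) = 1) (k : ℕ) :
    sk z k * (1 + (z + z ^ 2 + z ^ 3)) + κ * (1 + z ^ 3) ≤ ω ^ (k + 3) := by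
  have h1 := omega_ge hz h0 hω
  have h2 := kappa_le hz hκ
  have hk := kappa_pos hz hκ
  have hz0 : 0 < z := by linarith
  induction k with
  | zero =>
    show 1 * (1 + (z + z ^ 2 + z ^ 3)) + κ * (1 + z ^ 3) ≤ ω ^ 3
    rw [hω]
    nlinarith
  | succ k ih =>
    rcases Nat.eq_zero_or_pos k with rfl | hk'
    · have := tight hz h0 hω hκ
      show (z * 1 + 1) * (1 + (z + z ^ 2 + z ^ 3)) + κ * (1 + z ^ 3) ≤ ω ^ 4
      rwa [mul_one]
    · have h3 : z ^ 4 ≤ ω ^ (k + 3) := omega_pow_ge hz h0 hω (by omega)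
      have h5 : ω ^ (k + 3) * (1 / 2) ≤ ω ^ (k + 3) * (ω - z) :=
        mul_le_mul_of_nonneg_left (by linarith) (by positivity)
      have h6 : 1 + (z + z ^ 2 + z ^ 3) ≤ z ^ 4 * (1 / 2) := by
        have h7 : 0 ≤ z ^ 3 * (z - 10 / 3) := mul_nonneg (by positivity) (by linarith)
        have h8 : 0 ≤ z ^ 2 * (z - 10 / 3) := mul_nonneg (by positivity) (by linarith)
        nlinarith
      have h9 : 0 ≤ (z - 1) * (κ * (1 + z ^ 3)) := by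
        have : 0 ≤ z - 1 := by linarith
        positivity
      have h10 : z * (sk z k * (1 + (z + z ^ 2 + z ^ 3)) + κ * (1 + z ^ 3)) ≤
          z * ω ^ (k + 3) := mul_le_mul_of_nonneg_left ih hz0.le
      show (z * sk z k + 1) * (1 + (z + z ^ 2 + z ^ 3)) + κ * (1 + z ^ 3) ≤ _
      calc (z * sk z k + 1) * (1 + (z + z ^ 2 + z ^ 3)) + κ * (1 + z ^ 3)
          = z * (sk z k * (1 + (z + z ^ 2 + z ^ 3)) + κ * (1 + z ^ 3)) +
            (1 + (z + z ^ 2 + z ^ 3)) - (z - 1) * (κ * (1 + z ^ 3)) := by ring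
        _ ≤ z * ω ^ (k + 3) + ω ^ (k + 3) * (ω - z) := by linarith
        _ = ω ^ (k + 1 + 3) := by ring

theorem sk_le (hz : 10 / 3 ≤ z) (h0 : 0 ≤ ω) (hω : ω ^ 3 = z ^ 3 + 2 * z ^ 2)
    (hκ : κ * (z ^ 2 + z - 1) = 1) (k : ℕ) : sk z k + κ ≤ κ * ω ^ 2 * ω ^ k := by
  have h1 := omega_ge hz h0 hω
  have h2 := omega_sq hz hω
  have hk := kappa_pos hz hκ
  have hz0 : 0 < z := by linarith
  have h7 : κ * (z ^ 3 + 2 * z ^ 2) = z + 1 + κ := by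
    linear_combination (z + 1) * hκ
  induction k with
  | zero =>
    show 1 + κ ≤ κ * ω ^ 2 * 1
    have h3 : κ * (z ^ 2 + z) ≤ κ * ω ^ 2 := mul_le_mul_of_nonneg_left h2 hk.le
    linarith
  | succ k ih =>
    rcases Nat.eq_zero_or_pos k with rfl | hk'
    · show (z * 1 + 1) + κ ≤ κ * ω ^ 2 * ω ^ 1
      have h8 : κ * ω ^ 2 * ω ^ 1 = κ * ω ^ 3 := by ring
      rw [h8, hω, h7]
      linarith
    · have h3 : ω ^ 3 ≤ ω ^ (k + 2) := pow_le_pow_right₀ (by linarith) (by omega)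
      have h4 : 1 ≤ κ * ω ^ (k + 2) * (ω - z) := by
        have h5 : κ * ω ^ 3 ≤ κ * ω ^ (k + 2) := mul_le_mul_of_nonneg_left h3 hk.le
        rw [hω, h7] at h5
        have h6 : κ * ω ^ (k + 2) * (1 / 2) ≤ κ * ω ^ (k + 2) * (ω - z) :=
          mul_le_mul_of_nonneg_left (by linarith) (by positivity)
        linarith
      have h5 : z * (sk z k + κ) ≤ z * (κ * ω ^ 2 * ω ^ k) := mul_le_mul_of_nonneg_left ih hz0.le
      have h6 : 0 ≤ (z - 1) * κ := mul_nonneg (by linarith) hk.le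
      show z * sk z k + 1 + κ ≤ _
      calc z * sk z k + 1 + κ = z * (sk z k + κ) + 1 - (z - 1) * κ := by ring
        _ ≤ z * (κ * ω ^ 2 * ω ^ k) + κ * ω ^ (k + 2) * (ω - z) := by linarith
        _ = κ * ω ^ 2 * ω ^ (k + 1) := by ring

/-- The inequality for two large root subtrees. -/
theorem four_le (hz : 10 / 3 ≤ z) (h0 : 0 ≤ ω) (hω : ω ^ 3 = z ^ 3 + 2 * z ^ 2) :
    (z + z ^ 2 + z ^ 3) * ω + 2 ≤ (z ^ 2 + z - 1) * ω ^ 2 := by
  have h1 := omega_ge hz h0 hω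
  have h2 := omega_ge' hz h0 hω
  have hz0 : 0 < z := by linarith
  have hω0 : 0 < ω := by linarith
  have h3 : 0 ≤ z ^ 2 + z - 1 := by nlinarith
  have h4 : (z ^ 2 + z - 1) * (63 * z ^ 3 + 42 * z ^ 2 - 28 * z + 18) ≤
      (z ^ 2 + z - 1) * (63 * z ^ 2 * ω) := mul_le_mul_of_nonneg_left h2 h3
  have h5 : 0 ≤ 42 * z ^ 4 - 112 * z ^ 3 - 52 * z ^ 2 - 80 * z - 18 := by
    have h6 : 0 ≤ z ^ 3 * (z - 10 / 3) := mul_nonneg (by positivity) (by linarith)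
    have h7 : 0 ≤ z ^ 2 * (z - 10 / 3) := mul_nonneg (by positivity) (by linarith)
    have h8 : 0 ≤ z * (z - 10 / 3) := mul_nonneg (by positivity) (by linarith)
    nlinarith
  -- `63 z² (g + 2 / z) ≤ 63 z² (z² + z - 1) ω`
  have h6 : 63 * z ^ 2 * (z + z ^ 2 + z ^ 3) + 126 * z ≤ 63 * z ^ 2 * ((z ^ 2 + z - 1) * ω) := by
    nlinarith
  have h7 : z * (z + z ^ 2 + z ^ 3) + 2 ≤ z * ((z ^ 2 + z - 1) * ω) := by
    have h8 : 63 * z * (z * (z + z ^ 2 + z ^ 3) + 2) ≤ 63 * z * (z * ((z ^ 2 + z - 1) * ω)) := by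
      nlinarith
    exact le_of_mul_le_mul_left h8 (by positivity)
  have h8 : (z + z ^ 2 + z ^ 3) ≤ (z ^ 2 + z - 1) * ω := by
    have : z * (z + z ^ 2 + z ^ 3) ≤ z * ((z ^ 2 + z - 1) * ω) := by linarith
    exact le_of_mul_le_mul_left this hz0
  have h9 : 0 ≤ (ω - z) * ((z ^ 2 + z - 1) * ω - (z + z ^ 2 + z ^ 3)) :=
    mul_nonneg (by linarith) (by linarith)
  nlinarith

end

end Pool.Agent.DeckB
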