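import Pool.Agent.DeckB.Weight

/-!
# The pattern leaf, cherry, leaf, three leaves
-/

set_option autoImplicit false

namespace Pool.Agent.DeckB

/-- A leaf, a cherry, a leaf and a tree with three leaves, attached to a path above `Y`. -/
def blk (Y : BT) : BT := .node .leaf (.node cherry (.node .leaf (.node (chain 2 .leaf) Y)))

/-- The classes with at least four leaves. -/
noncomputable def large (T : BT) : Finset Shape := (D T).filter fun q => 4 ≤ ssize q

theorem mem_large {T : BT} {q : Shape} : q ∈ large T ↔ q ∈ D T ∧ 4 ≤ ssize q := by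
  unfold large
  rw [Finset.mem_filter]

theorem join_inj' {a x y : Shape} (h : join a x = join a y) : x = y := by
  rcases join_eq h with ⟨-, h⟩ | ⟨h1, h2⟩
  · exact h
  · rw [h2, ← h1]

theorem mass_join (z : ℝ) (a : Shape) (s : Finset Shape) :
    mass z (s.image (join a)) = z ^ ssize a * mass z s := by
  unfold mass
  rw [Finset.sum_image fun x _ y _ h => join_inj' h, Finset.mul_sum]
  refine Finset.sum_congr rfl fun x _ => ?_
  rw [ssize_join, pow_add]

theorem mass_union (z : ℝ) {s t : Finset Shape} (h : Disjoint s t) :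
    mass z (s ∪ t) = mass z s + mass z t := Finset.sum_union h

theorem disj_join {a b : Shape} (hab : a ≠ b) (ha : ssize a ≤ 3) (hb : ssize b ≤ 3)
    {s t : Finset Shape} (hs : ∀ q ∈ s, 4 ≤ ssize q) :
    Disjoint (s.image (join a)) (t.image (join b)) := by
  rw [Finset.disjoint_left]
  intro q h1 h2
  obtain ⟨x, hx, rfl⟩ := Finset.mem_image.1 h1
  obtain ⟨y, hy, h⟩ := Finset.mem_image.1 h2
  rcases join_eq h with ⟨h3, -⟩ | ⟨h3, -⟩
  · exact hab h3.symm
  · have := hs x hx
    rw [← h3] at this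
    omega

/-- Three kinds of pendants. -/
noncomputable def three (A B C : Finset Shape) : Finset Shape :=
  A.image (join lam) ∪ (B.image (join chi) ∪ C.image (join tau))

theorem mass_three (z : ℝ) {A B C : Finset Shape} (hA : ∀ q ∈ A, 4 ≤ ssize q)
    (hB : ∀ q ∈ B, 4 ≤ ssize q) :
    mass z (three A B C) = z * mass z A + z ^ 2 * mass z B + z ^ 3 * mass z C := by
  have h1 : lam ≠ chi := fun h => by
    have := congrArg ssize h
    rw [ssize_lam, ssize_chi] at this
    omega
  have h2 : lam ≠ tau := fun h => by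
    have := congrArg ssize h
    rw [ssize_lam, ssize_tau] at this
    omega
  have h3 : chi ≠ tau := fun h => by
    have := congrArg ssize h
    rw [ssize_chi, ssize_tau] at this
    omega
  unfold three
  rw [mass_union z (Finset.disjoint_union_right.2
    ⟨disj_join h1 (by rw [ssize_lam]; omega) (by rw [ssize_chi]; omega) hA,
      disj_join h2 (by rw [ssize_lam]; omega) (by rw [ssize_tau]) hA⟩),
    mass_union z (disj_join h3 (by rw [ssize_chi]; omega) (by rw [ssize_tau]) hB), mass_join,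
    mass_join, mass_join, ssize_lam, ssize_chi, ssize_tau]
  ring

theorem big_three {A B C : Finset Shape} (hA : ∀ q ∈ A, 4 ≤ ssize q)
    (hB : ∀ q ∈ B, 4 ≤ ssize q) (hC : ∀ q ∈ C, 4 ≤ ssize q) :
    ∀ q ∈ three A B C, 4 ≤ ssize q := by
  intro q hq
  unfold three at hq
  rw [Finset.mem_union, Finset.mem_union] at hq
  rcases hq with h | h | h
  · obtain ⟨x, hx, rfl⟩ := Finset.mem_image.1 h
    have := hA x hx
    rw [ssize_join]
    omega
  · obtain ⟨x, hx, rfl⟩ := Finset.mem_image.1 h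
    have := hB x hx
    rw [ssize_join]
    omega
  · obtain ⟨x, hx, rfl⟩ := Finset.mem_image.1 h
    have := hC x hx
    rw [ssize_join]
    omega

theorem three_sub {A B C : Finset Shape} {s : Finset Shape} (hA : ∀ q ∈ A, join lam q ∈ s)
    (hB : ∀ q ∈ B, join chi q ∈ s) (hC : ∀ q ∈ C, join tau q ∈ s) : three A B C ⊆ s := by
  intro q hq
  unfold three at hq
  rw [Finset.mem_union, Finset.mem_union] at hq
  rcases hq with h | h | h
  · obtain ⟨x, hx, rfl⟩ := Finset.mem_image.1 h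
    exact hA x hx
  · obtain ⟨x, hx, rfl⟩ := Finset.mem_image.1 h
    exact hB x hx
  · obtain ⟨x, hx, rfl⟩ := Finset.mem_image.1 h
    exact hC x hx

theorem D_up {l r : BT} {q : Shape} (h : q ∈ D r) : q ∈ D (.node l r) :=
  mem_D_node.2 (Or.inr (Or.inl h))

theorem join_mem_node {l r : BT} {a b : Shape} (ha : a ∈ D l) (hb : b ∈ D r) :
    join a b ∈ D (.node l r) := mem_D_node.2 (Or.inr (Or.inr ⟨a, ha, b, hb, rfl⟩))

theorem chi_mem_cherry : chi ∈ D cherry := chi_mem (by decide)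

theorem mem_cat {q : Shape} (h : q = lam ∨ q = chi ∨ q = tau) : q ∈ D (chain 2 .leaf) := by
  have h3 : (chain 2 .leaf).size = 3 := rfl
  rcases h with rfl | rfl | rfl
  · exact lam_mem _
  · exact chi_mem (by rw [h3]; omega)
  · exact tau_mem (by rw [h3])

theorem large_big (T : BT) : ∀ q ∈ large T, 4 ≤ ssize q := fun _ h => (mem_large.1 h).2

theorem blk_mass {z : ℝ} (hz : 0 ≤ z) (Y : BT) :
    (z ^ 3 + 5 * z ^ 4 + 6 * z ^ 5 + 4 * z ^ 6 + z ^ 7) * mass z (large Y) ≤
      mass z (large (blk Y)) := by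
  set E4 := large Y with hE4
  have b4 : ∀ q ∈ E4, 4 ≤ ssize q := large_big Y
  have s4 : ∀ q ∈ E4, q ∈ D Y := fun _ h => (mem_large.1 h).1
  set E3 := three E4 E4 E4 with hE3
  have b3 : ∀ q ∈ E3, 4 ≤ ssize q := big_three b4 b4 b4
  have t3 : ∀ a, (a = lam ∨ a = chi ∨ a = tau) → ∀ q ∈ E4,
      join a q ∈ D (.node (chain 2 .leaf) Y) := fun a ha q hq =>
    join_mem_node (mem_cat ha) (s4 q hq)
  have s3 : E3 ⊆ D (.node (chain 2 .leaf) Y) :=
    three_sub (t3 lam (Or.inl rfl)) (t3 chi (Or.inr (Or.inl rfl))) (t3 tau (Or.inr (Or.inr rfl)))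
  set E2 := three E3 E4 E4 with hE2
  have b2 : ∀ q ∈ E2, 4 ≤ ssize q := big_three b3 b4 b4
  have s2 : E2 ⊆ D (.node .leaf (.node (chain 2 .leaf) Y)) :=
    three_sub (fun q hq => join_mem_node (lam_mem _) (s3 hq))
      (fun q hq => D_up (t3 chi (Or.inr (Or.inl rfl)) q hq))
      (fun q hq => D_up (t3 tau (Or.inr (Or.inr rfl)) q hq))
  set E1 := three E2 E2 E4 with hE1
  have b1 : ∀ q ∈ E1, 4 ≤ ssize q := big_three b2 b2 b4
  have s1 : E1 ⊆ D (.node cherry (.node .leaf (.node (chain 2 .leaf) Y))) :=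
    three_sub (fun q hq => join_mem_node (lam_mem _) (s2 hq))
      (fun q hq => join_mem_node chi_mem_cherry (s2 hq))
      (fun q hq => D_up (D_up (t3 tau (Or.inr (Or.inr rfl)) q hq)))
  have s0 : three E1 E2 E4 ⊆ large (blk Y) := by
    intro q hq
    refine mem_large.2 ⟨?_, big_three b1 b2 b4 q hq⟩
    refine three_sub (s := D (blk Y)) (fun q hq => join_mem_node (lam_mem _) (s1 hq))
      (fun q hq => D_up (join_mem_node chi_mem_cherry (s2 hq)))
      (fun q hq => D_up (D_up (D_up (t3 tau (Or.inr (Or.inr rfl)) q hq)))) hq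
  refine le_trans (le_of_eq ?_) (mass_mono hz s0)
  rw [mass_three z b1 b2, hE1, mass_three z b2 b2, hE2, mass_three z b3 b4, hE3,
    mass_three z b4 b4]
  ring

theorem alt_mass {z : ℝ} (hz : 0 ≤ z) (Y : BT) :
    (z ^ 3 + 2 * z ^ 2) * mass z (large Y) ≤ mass z (large (.node .leaf (.node cherry Y))) := by
  set E := large Y with hE
  have b : ∀ q ∈ E, 4 ≤ ssize q := large_big Y
  have s : ∀ q ∈ E, q ∈ D Y := fun _ h => (mem_large.1 h).1
  have b' : ∀ q ∈ (∅ : Finset Shape), 4 ≤ ssize q := fun q hq => absurd hq (Finset.notMem_empty q)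
  set E1 := three E E ∅ with hE1
  have b1 : ∀ q ∈ E1, 4 ≤ ssize q := big_three b b b'
  have s1 : E1 ⊆ D (.node cherry Y) :=
    three_sub (fun q hq => join_mem_node (lam_mem _) (s q hq))
      (fun q hq => join_mem_node chi_mem_cherry (s q hq))
      (fun q hq => absurd hq (Finset.notMem_empty q))
  have s0 : three E1 E ∅ ⊆ large (.node .leaf (.node cherry Y)) := by
    intro q hq
    refine mem_large.2 ⟨?_, big_three b1 b b' q hq⟩
    refine three_sub (s := D (.node .leaf (.node cherry Y)))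
      (fun q hq => join_mem_node (lam_mem _) (s1 hq))
      (fun q hq => D_up (join_mem_node chi_mem_cherry (s q hq)))
      (fun q hq => absurd hq (Finset.notMem_empty q)) hq
  refine le_trans (le_of_eq ?_) (mass_mono hz s0)
  have h0 : mass z ∅ = 0 := Finset.sum_empty
  rw [mass_three z b1 b, hE1, mass_three z b b, h0]
  ring

theorem start_mass {z : ℝ} (hz : 0 ≤ z) : z ^ 4 ≤ mass z (large (chain 3 .leaf)) := by
  have h1 : (chain 3 .leaf).shape ∈ large (chain 3 .leaf) := by
    refine mem_large.2 ⟨?_, le_of_eq rfl⟩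
    have h2 : (chain 2 .leaf).shape ∈ D (chain 2 .leaf) := mem_cat (Or.inr (Or.inr rfl))
    exact join_mem_node (lam_mem .leaf) h2
  have h3 : ({(chain 3 .leaf).shape} : Finset Shape) ⊆ large (chain 3 .leaf) := by
    intro q hq
    rw [Finset.mem_singleton.1 hq]
    exact h1
  refine le_trans (le_of_eq ?_) (mass_mono hz h3)
  rw [mass_singleton]
  rfl

theorem large_le_V {z : ℝ} (hz : 0 ≤ z) (T : BT) : mass z (large T) ≤ V z T :=
  mass_mono hz fun _ h => (mem_large.1 h).1

theorem exists_blk (q : ℕ) : ∃ T : BT, T.size = 7 * q + 4 ∧ ∀ z : ℝ, 0 ≤ z →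
    (z ^ 3 + 5 * z ^ 4 + 6 * z ^ 5 + 4 * z ^ 6 + z ^ 7) ^ q * z ^ 4 ≤ V z T := by
  suffices h : ∃ T : BT, T.size = 7 * q + 4 ∧ ∀ z : ℝ, 0 ≤ z →
      (z ^ 3 + 5 * z ^ 4 + 6 * z ^ 5 + 4 * z ^ 6 + z ^ 7) ^ q * z ^ 4 ≤ mass z (large T) by
    obtain ⟨T, h1, h2⟩ := h
    exact ⟨T, h1, fun z hz => (h2 z hz).trans (large_le_V hz T)⟩
  induction q with
  | zero =>
    refine ⟨chain 3 .leaf, rfl, fun z hz => ?_⟩
    rw [pow_zero, one_mul]
    exact start_mass hz
  | succ q ih =>
    obtain ⟨T, h1, h2⟩ := ih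
    refine ⟨blk T, ?_, fun z hz => ?_⟩
    · show 1 + (2 + (1 + (3 + T.size))) = _
      rw [h1]
      ring
    · refine le_trans (le_of_eq ?_) ((mul_le_mul_of_nonneg_left (h2 z hz) ?_).trans
        (blk_mass hz T))
      · ring
      · positivity

theorem exists_altp (q : ℕ) : ∃ T : BT, T.size = 3 * q + 4 ∧ ∀ z : ℝ, 0 ≤ z →
    (z ^ 3 + 2 * z ^ 2) ^ q * z ^ 4 ≤ V z T := by
  suffices h : ∃ T : BT, T.size = 3 * q + 4 ∧ ∀ z : ℝ, 0 ≤ z →
      (z ^ 3 + 2 * z ^ 2) ^ q * z ^ 4 ≤ mass z (large T) by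
    obtain ⟨T, h1, h2⟩ := h
    exact ⟨T, h1, fun z hz => (h2 z hz).trans (large_le_V hz T)⟩
  induction q with
  | zero =>
    refine ⟨chain 3 .leaf, rfl, fun z hz => ?_⟩
    rw [pow_zero, one_mul]
    exact start_mass hz
  | succ q ih =>
    obtain ⟨T, h1, h2⟩ := ih
    refine ⟨.node .leaf (.node cherry T), ?_, fun z hz => ?_⟩
    · show 1 + (2 + T.size) = _
      rw [h1]
      ring
    · refine le_trans (le_of_eq ?_) ((mul_le_mul_of_nonneg_left (h2 z hz) ?_).trans
        (alt_mass hz T))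
      · ring
      · positivity

end Pool.Agent.DeckB
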