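import Pool.Agent.DeckB.Sharp
import Pool.Agent.DeckB.FairB
import Pool.Agent.DeckB.Phase

/-!
# The total weight of all decks below the threshold
-/

set_option autoImplicit false

namespace Pool.Agent.DeckB

open scoped Classical in
/-- The classes with a root subtree with three leaves and a large one. -/
noncomputable def tauD (T : BT) : Finset Shape :=
  (D T).filter fun q => ∃ x, q = join tau x ∧ 3 ≤ ssize x

open scoped Classical in
/-- The classes with two root subtrees with at least four leaves. -/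
noncomputable def hugeD (T : BT) : Finset Shape :=
  (D T).filter fun q => ∃ a b, q = join a b ∧ 4 ≤ ssize a ∧ 4 ≤ ssize b

theorem mem_tauD {T : BT} {q : Shape} :
    q ∈ tauD T ↔ q ∈ D T ∧ ∃ x, q = join tau x ∧ 3 ≤ ssize x := by
  classical
  unfold tauD
  simp only [Finset.mem_filter]

theorem mem_hugeD {T : BT} {q : Shape} :
    q ∈ hugeD T ↔ q ∈ D T ∧ ∃ a b, q = join a b ∧ 4 ≤ ssize a ∧ 4 ≤ ssize b := by
  classical
  unfold hugeD
  simp only [Finset.mem_filter]

theorem tauD_big (T : BT) : tauD T ⊆ bigD T := by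
  intro q hq
  obtain ⟨h1, x, rfl, h2⟩ := mem_tauD.1 hq
  exact mem_bigD.2 ⟨h1, tau, x, rfl, le_of_eq ssize_tau.symm, h2⟩

theorem hugeD_big (T : BT) : hugeD T ⊆ bigD T := by
  intro q hq
  obtain ⟨h1, a, b, rfl, h2, h3⟩ := mem_hugeD.1 hq
  exact mem_bigD.2 ⟨h1, a, b, rfl, by omega, by omega⟩

theorem tauD_of {T U : BT} {q : Shape} (h : q ∈ tauD T) (h' : q ∈ D U) : q ∈ tauD U :=
  mem_tauD.2 ⟨h', (mem_tauD.1 h).2⟩

theorem hugeD_of {T U : BT} {q : Shape} (h : q ∈ hugeD T) (h' : q ∈ D U) : q ∈ hugeD U :=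
  mem_hugeD.2 ⟨h', (mem_hugeD.1 h).2⟩

theorem tau_huge {x a b : Shape} (h : join tau x = join a b) (ha : 4 ≤ ssize a)
    (hb : 4 ≤ ssize b) : False := by
  rcases join_eq h with ⟨h1, -⟩ | ⟨h1, -⟩
  · rw [← h1, ssize_tau] at ha
    omega
  · rw [← h1, ssize_tau] at hb
    omega

theorem tauD_chain (k : ℕ) (u : BT) : tauD (chain k u) ⊆ tauD u := fun _ hq =>
  tauD_of hq (bigD_subset u (bigD_chain k u (tauD_big _ hq)))

theorem hugeD_chain (k : ℕ) (u : BT) : hugeD (chain k u) ⊆ hugeD u := fun _ hq =>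
  hugeD_of hq (bigD_subset u (bigD_chain k u (hugeD_big _ hq)))

theorem tauD_cherry_node (v : BT) : tauD (.node cherry v) ⊆ tauD v := fun _ hq =>
  tauD_of hq (bigD_subset v (bigD_cherry_node v (tauD_big _ hq)))

theorem hugeD_cherry_node (v : BT) : hugeD (.node cherry v) ⊆ hugeD v := fun _ hq =>
  hugeD_of hq (bigD_subset v (bigD_cherry_node v (hugeD_big _ hq)))

/-- The weight of the classes with a root subtree with three leaves and a large one. -/
noncomputable def Tw (z : ℝ) (T : BT) : ℝ := mass z (tauD T)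

/-- The weight of the classes with two root subtrees with at least four leaves. -/
noncomputable def Hw (z : ℝ) (T : BT) : ℝ := mass z (hugeD T)

section

variable {z ω κ t : ℝ}

theorem Tw_nonneg (hz : 0 ≤ z) (T : BT) : 0 ≤ Tw z T := mass_nonneg hz _

theorem Hw_nonneg (hz : 0 ≤ z) (T : BT) : 0 ≤ Hw z T := mass_nonneg hz _

theorem Tw_iso {T U : BT} (h : Iso T U) : Tw z T = Tw z U := by
  unfold Tw tauD
  rw [D_iso h]

theorem Hw_iso {T U : BT} (h : Iso T U) : Hw z T = Hw z U := by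
  unfold Hw hugeD
  rw [D_iso h]

theorem B_split (hz : 0 ≤ z) (T : BT) : B z T ≤ Tw z T + Hw z T := by
  have h1 : bigD T ⊆ tauD T ∪ hugeD T := by
    intro q hq
    obtain ⟨h1, a, b, rfl, ha, hb⟩ := mem_bigD.1 hq
    rw [Finset.mem_union]
    by_cases ha3 : ssize a = 3
    · exact Or.inl (mem_tauD.2 ⟨h1, b, by rw [eq_tau ha3], hb⟩)
    by_cases hb3 : ssize b = 3
    · exact Or.inl (mem_tauD.2 ⟨h1, a, by rw [eq_tau hb3, join_comm], ha⟩)
    · exact Or.inr (mem_hugeD.2 ⟨h1, a, b, rfl, by omega, by omega⟩)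
  have h2 := mass_mono hz h1
  have h3 := mass_union_le hz (tauD T) (hugeD T)
  unfold B Tw Hw
  linarith

theorem split_le_V (hz : 0 ≤ z) (T : BT) : Tw z T + Hw z T ≤ V z T := by
  have h1 : Disjoint (tauD T) (hugeD T) := by
    rw [Finset.disjoint_left]
    intro q h1 h2
    obtain ⟨-, x, rfl, -⟩ := mem_tauD.1 h1
    obtain ⟨-, a, b, h3, ha, hb⟩ := mem_hugeD.1 h2
    exact tau_huge h3 ha hb
  have h2 : tauD T ∪ hugeD T ⊆ D T := Finset.union_subset
    (fun q h => (mem_tauD.1 h).1) (fun q h => (mem_hugeD.1 h).1)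
  have h3 := mass_mono hz h2
  rw [mass_union z h1] at h3
  exact h3

/-- Leaves and a cherry above `v`. -/
theorem case_aG (hz : 1 ≤ z) (hκ : κ * (z ^ 2 + z - 1) = 1) {v : BT} (hv : 2 ≤ v.size) {b : ℝ}
    (hb : B z v ≤ b) (k : ℕ) : V z (chain k (.node cherry v)) + κ * b ≤
      Fk z k * (V z v + κ * b) - z * (z ^ 2 - 1) * sk z k := by
  have hz0 : 0 ≤ z := by linarith
  have hN := N_cherry_node hz0 v
  have h1 : (1 + κ) * b = (z ^ 2 + z) * (κ * b) := by
    linear_combination (- b) * hκ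
  induction k with
  | zero =>
    show V z (.node cherry v) + κ * b ≤
      (z ^ 2 + z) * (V z v + κ * b) - z * (z ^ 2 - 1) * 1
    have h2 := V_cherry_node hz0 hv
    linarith
  | succ k ih =>
    show _ ≤ (z * Fk z k + z ^ 2) * (V z v + κ * b) - z * (z ^ 2 - 1) * (z * sk z k + 1)
    have h2 := V_chain_succ hz0 k (.node cherry v)
    have h3 : z * (V z (chain k (.node cherry v)) + κ * b) ≤
        z * (Fk z k * (V z v + κ * b) - z * (z ^ 2 - 1) * sk z k) :=
      mul_le_mul_of_nonneg_left ih hz0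
    linarith

theorem three_casesL {l r : BT} (hl : l.size = 3) (hr : 3 ≤ r.size) {q : Shape}
    (hq : q ∈ D (.node l r)) : q = lam ∨ q ∈ (D r).image (join lam) ∨
      q ∈ ((D r).erase lam).image (join chi) ∨
      q ∈ (((D r).erase lam).erase chi).image (join tau) ∨ q ∈ hugeD r := by
  have key : ∀ a b, a ∈ D r → b ∈ D r → (join a b ∈ D r ∨ ssize a ≤ 3) →
      join a b = lam ∨ join a b ∈ (D r).image (join lam) ∨
      join a b ∈ ((D r).erase lam).image (join chi) ∨
      join a b ∈ (((D r).erase lam).erase chi).image (join tau) ∨ join a b ∈ hugeD r := by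
    intro a b ha hb h
    have := ssize_pos a
    have := ssize_pos b
    by_cases ha1 : ssize a = 1
    · exact Or.inr (Or.inl (Finset.mem_image.2 ⟨b, hb, by rw [eq_lam ha1]⟩))
    by_cases hb1 : ssize b = 1
    · exact Or.inr (Or.inl (Finset.mem_image.2 ⟨a, ha, by rw [eq_lam hb1, join_comm]⟩))
    have hal : a ≠ lam := by
      rintro rfl
      exact ha1 rfl
    have hbl : b ≠ lam := by
      rintro rfl
      exact hb1 rfl
    by_cases ha2 : ssize a = 2
    · exact Or.inr (Or.inr (Or.inl (Finset.mem_image.2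
        ⟨b, Finset.mem_erase.2 ⟨hbl, hb⟩, by rw [eq_chi ha2]⟩)))
    by_cases hb2 : ssize b = 2
    · exact Or.inr (Or.inr (Or.inl (Finset.mem_image.2
        ⟨a, Finset.mem_erase.2 ⟨hal, ha⟩, by rw [eq_chi hb2, join_comm]⟩)))
    have hac : a ≠ chi := by
      rintro rfl
      exact ha2 rfl
    have hbc : b ≠ chi := by
      rintro rfl
      exact hb2 rfl
    by_cases ha3 : ssize a = 3
    · exact Or.inr (Or.inr (Or.inr (Or.inl (Finset.mem_image.2
        ⟨b, Finset.mem_erase.2 ⟨hbc, Finset.mem_erase.2 ⟨hbl, hb⟩⟩, by rw [eq_tau ha3]⟩))))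
    by_cases hb3 : ssize b = 3
    · exact Or.inr (Or.inr (Or.inr (Or.inl (Finset.mem_image.2
        ⟨a, Finset.mem_erase.2 ⟨hac, Finset.mem_erase.2 ⟨hal, ha⟩⟩,
          by rw [eq_tau hb3, join_comm]⟩))))
    rcases h with h | h
    · exact Or.inr (Or.inr (Or.inr (Or.inr (mem_hugeD.2 ⟨h, a, b, rfl, by omega, by omega⟩))))
    · omega
  have main : ∀ q ∈ D r, q = lam ∨ q ∈ (D r).image (join lam) ∨
      q ∈ ((D r).erase lam).image (join chi) ∨
      q ∈ (((D r).erase lam).erase chi).image (join tau) ∨ q ∈ hugeD r := by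
    intro q h
    rcases shape_cases q with rfl | ⟨a, b, rfl⟩
    · exact Or.inl rfl
    · exact key a b (D_children h).1 (D_children h).2 (Or.inl h)
  rcases mem_D_node.1 hq with h | h | ⟨a, ha, b, hb, rfl⟩
  · exact main q (three_subset hl hr h)
  · exact main q h
  · exact key a b (three_subset hl hr ha) hb (Or.inr (by
      have := ssize_le ha
      omega))

theorem three_boundsL (hz : 0 ≤ z) {l r : BT} (hl : l.size = 3) (hr : 3 ≤ r.size) :
    V z (.node l r) ≤
        z + z * V z r + z ^ 2 * (V z r - z) + z ^ 3 * (V z r - z - z ^ 2) + Hw z r ∧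
      mass z (N (.node l r)) ≤
        z + z ^ 2 * (V z r - z) + z ^ 3 * (V z r - z - z ^ 2) + Hw z r ∧
      Tw z (.node l r) ≤ z ^ 3 * (V z r - z - z ^ 2) ∧ Hw z (.node l r) ≤ Hw z r := by
  have e1 := mass_join_le hz lam (D r)
  have e2 := mass_join_le hz chi ((D r).erase lam)
  have e3 := mass_join_le hz tau (((D r).erase lam).erase chi)
  have hc : chi ∈ (D r).erase lam :=
    Finset.mem_erase.2 ⟨fun h => lam_ne_join _ _ h.symm, chi_mem (by omega)⟩
  rw [ssize_lam, pow_one] at e1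
  rw [mass_erase (lam_mem r), ssize_chi, ssize_lam, pow_one] at e2
  rw [mass_erase hc, mass_erase (lam_mem r), ssize_tau, ssize_chi, ssize_lam, pow_one] at e3
  set S1 := (D r).image (join lam)
  set S2 := ((D r).erase lam).image (join chi)
  set S3 := (((D r).erase lam).erase chi).image (join tau)
  have u1 := mass_union_le hz {lam} (S1 ∪ (S2 ∪ (S3 ∪ hugeD r)))
  have u2 := mass_union_le hz S1 (S2 ∪ (S3 ∪ hugeD r))
  have u3 := mass_union_le hz S2 (S3 ∪ hugeD r)
  have u4 := mass_union_le hz S3 (hugeD r)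
  have u5 := mass_union_le hz {lam} (S2 ∪ (S3 ∪ hugeD r))
  rw [mass_singleton, ssize_lam, pow_one] at u1 u5
  have s1 : D (.node l r) ⊆ {lam} ∪ (S1 ∪ (S2 ∪ (S3 ∪ hugeD r))) := by
    intro q hq
    simp only [Finset.mem_union, Finset.mem_singleton]
    exact three_casesL hl hr hq
  have s2 : N (.node l r) ⊆ {lam} ∪ (S2 ∪ (S3 ∪ hugeD r)) := by
    intro q hq
    obtain ⟨h1, h2⟩ := mem_N.1 hq
    simp only [Finset.mem_union, Finset.mem_singleton]
    rcases three_casesL hl hr h1 with h | h | h | h | h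
    · exact Or.inl h
    · obtain ⟨x, -, hx⟩ := Finset.mem_image.1 h
      exact absurd hx.symm (h2 x)
    · exact Or.inr (Or.inl h)
    · exact Or.inr (Or.inr (Or.inl h))
    · exact Or.inr (Or.inr (Or.inr h))
  have s3 : tauD (.node l r) ⊆ S3 := by
    intro q hq
    obtain ⟨h1, y, hy, h3⟩ := mem_tauD.1 hq
    rcases three_casesL hl hr h1 with h | h | h | h | h
    · rw [h] at hy
      exact absurd hy (lam_ne_join _ _)
    · obtain ⟨x, -, hx⟩ := Finset.mem_image.1 h
      exact (big_ne (hx.trans hy).symm (le_of_eq ssize_tau.symm) h3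
        (by rw [ssize_lam]; omega)).elim
    · obtain ⟨x, -, hx⟩ := Finset.mem_image.1 h
      exact (big_ne (hx.trans hy).symm (le_of_eq ssize_tau.symm) h3 (by rw [ssize_chi])).elim
    · exact h
    · obtain ⟨-, a, b, h4, ha, hb⟩ := mem_hugeD.1 h
      exact (tau_huge (hy.symm.trans h4) ha hb).elim
  have s4 : hugeD (.node l r) ⊆ hugeD r := by
    intro q hq
    obtain ⟨h1, a, b, hab, ha, hb⟩ := mem_hugeD.1 hq
    rcases three_casesL hl hr h1 with h | h | h | h | h
    · rw [h] at hab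
      exact absurd hab (lam_ne_join _ _)
    · obtain ⟨x, -, hx⟩ := Finset.mem_image.1 h
      exact (big_ne (hx.trans hab).symm (by omega) (by omega) (by rw [ssize_lam]; omega)).elim
    · obtain ⟨x, -, hx⟩ := Finset.mem_image.1 h
      exact (big_ne (hx.trans hab).symm (by omega) (by omega) (by rw [ssize_chi])).elim
    · obtain ⟨x, -, hx⟩ := Finset.mem_image.1 h
      exact (tau_huge (hx.trans hab) ha hb).elim
    · exact h
  have m1 := mass_mono hz s1
  have m2 := mass_mono hz s2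
  have m3 := mass_mono hz s3
  have m4 := mass_mono hz s4
  unfold V Tw Hw
  refine ⟨by linarith, by linarith, by linarith, by linarith⟩

/-- The invariant of the induction. -/
def Inv (z ω κ t : ℝ) (T : BT) : Prop := ∀ i : ℕ,
  (ω ^ 3) ^ i * (V z T + κ * (Tw z T + Hw z T)) - κ * Tw z T ≤
    κ * z ^ 2 * t ^ T.size * (t ^ 3) ^ i + (ω ^ 3) ^ i * (κ * (z * (z ^ 2 - 1)))

/-- The hypotheses on the rate `t`. -/
structure Rate (z ω t : ℝ) : Prop where
  ge : ω ≤ t
  vv : ∀ k : ℕ, vv z k ≤ t ^ (3 * k + 4)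
  up : (z + 1) * t ≤ z * (z + 2)

theorem Inv.zero {T : BT} (h : Inv z ω κ t T) :
    V z T + κ * Hw z T ≤ κ * z ^ 2 * t ^ T.size + κ * (z * (z ^ 2 - 1)) := by
  have h0 := h 0
  simp only [pow_zero, one_mul, mul_one] at h0
  linarith

end

end Pool.Agent.DeckB
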