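import Pool.Agent.DeckB.SharpL

/-!
# The induction below the threshold
-/

set_option autoImplicit false

namespace Pool.Agent.DeckB

section

variable {z ω κ t : ℝ}

theorem Inv_of {T : BT} {a b : ℝ} (hk : 0 ≤ κ) (hW : 1 ≤ ω ^ 3) (h1 : Tw z T ≤ a)
    (h2 : Hw z T ≤ b) (h : ∀ i : ℕ, (ω ^ 3) ^ i * (V z T + κ * (a + b)) - κ * a ≤
      κ * z ^ 2 * t ^ T.size * (t ^ 3) ^ i + (ω ^ 3) ^ i * (κ * (z * (z ^ 2 - 1)))) :
    Inv z ω κ t T := by
  intro i
  refine le_trans ?_ (h i)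
  have h3 : 1 ≤ (ω ^ 3) ^ i := one_le_pow₀ hW
  have h4 : 0 ≤ κ * ((ω ^ 3) ^ i - 1) * (a - Tw z T) :=
    mul_nonneg (mul_nonneg hk (by linarith)) (by linarith)
  have h5 : 0 ≤ κ * (ω ^ 3) ^ i * (b - Hw z T) :=
    mul_nonneg (mul_nonneg hk (by linarith)) (by linarith)
  nlinarith

theorem Fair.cat (G : Fair z ω κ) (k : ℕ) :
    V z (chain (k + 2) .leaf) ≤ κ * z ^ 2 * ω ^ (k + 3) + κ * (z * (z ^ 2 - 1)) := by
  have hz := G.hz
  have hz0 : 0 ≤ z := by linarith
  have h0 := G.h0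
  have hk := G.k_pos
  have hw := G.w
  have hN := N_leaf_le hz0
  have h1 : z + z ^ 2 + z ^ 3 = κ * z ^ 2 * ω ^ 3 + κ * (z * (z ^ 2 - 1)) := by
    rw [G.hω]
    linear_combination (-(z + z ^ 2 + z ^ 3)) * G.hκ
  induction k with
  | zero =>
    have h2 := V_chain_succ hz0 1 .leaf
    have h3 := V_chain_succ hz0 0 .leaf
    have h4 : V z (chain 0 .leaf) = z := V_leaf
    rw [h4] at h3
    have h5 : V z (chain (0 + 1) .leaf) ≤ z * z + z := by linarith
    have h6 : z * V z (chain 1 .leaf) ≤ z * (z * z + z) := mul_le_mul_of_nonneg_left h5 hz0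
    have h7 : V z (chain (0 + 2) .leaf) ≤ z * V z (chain 1 .leaf) + mass z (N .leaf) := h2
    rw [zero_add] at h7 ⊢
    rw [zero_add, ← h1]
    nlinarith
  | succ k ih =>
    have h2 : V z (chain (k + 1 + 2) .leaf) ≤ z * V z (chain (k + 2) .leaf) + mass z (N .leaf) :=
      V_chain_succ hz0 (k + 2) .leaf
    have h3 : z * V z (chain (k + 2) .leaf) ≤
        z * (κ * z ^ 2 * ω ^ (k + 3) + κ * (z * (z ^ 2 - 1))) := mul_le_mul_of_nonneg_left ih hz0
    have h5 : κ * (z * (z ^ 2 - 1)) * (z - 1) + z ≤ κ * z ^ 2 * ω ^ (k + 3) * (ω - z) := by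
      refine G.s1.trans ?_
      refine mul_le_mul_of_nonneg_right ?_ (by linarith)
      refine mul_le_mul_of_nonneg_left ?_ (by positivity)
      exact pow_le_pow_right₀ (by linarith) (by omega)
    have h6 : κ * z ^ 2 * ω ^ (k + 1 + 3) = κ * z ^ 2 * ω ^ (k + 3) * (ω - z) +
        z * (κ * z ^ 2 * ω ^ (k + 3)) := by ring
    linarith

theorem Fair.cc (G : Fair z ω κ) (k : ℕ) : V z (chain k (.node cherry cherry)) ≤
    κ * z ^ 2 * ω ^ (k + 4) + κ * (z * (z ^ 2 - 1)) := by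
  have hz := G.hz
  have hz0 : 0 ≤ z := by linarith
  have h0 := G.h0
  have hk := G.k_pos
  have hw := G.w
  have hN := cherries hz0
  have h4 : V z (chain 0 (.node cherry cherry)) ≤ z + z ^ 2 + z ^ 3 + z ^ 4 := V_four hz0 rfl
  have h1 : z + z ^ 2 + z ^ 3 = κ * z ^ 2 * ω ^ 3 + κ * (z * (z ^ 2 - 1)) := by
    rw [G.hω]
    linear_combination (-(z + z ^ 2 + z ^ 3)) * G.hκ
  have h5 : z + z ^ 2 + z ^ 3 + z ^ 4 ≤ κ * z ^ 2 * ω ^ 4 + κ * (z * (z ^ 2 - 1)) := by
    have h6 := G.s1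
    have h7 : z + z ^ 2 + z ^ 3 + z ^ 4 = z * (z + z ^ 2 + z ^ 3) + z := by ring
    have h8 : κ * z ^ 2 * ω ^ 4 = κ * z ^ 2 * ω ^ 3 * (ω - z) + z * (κ * z ^ 2 * ω ^ 3) := by ring
    rw [h7, h1, h8]
    linarith
  have h10 : V z (chain 1 (.node cherry cherry)) ≤
      κ * z ^ 2 * ω ^ (1 + 4) + κ * (z * (z ^ 2 - 1)) := by
    have h11 := V_chain_succ hz0 0 (.node cherry cherry)
    have h12 := mul_le_mul_of_nonneg_left h4 hz0
    have h13 := G.s2
    have h14 : V z (chain 1 (.node cherry cherry)) ≤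
      z * V z (chain 0 (.node cherry cherry)) + mass z (N (.node cherry cherry)) := h11
    have h15 : κ * z ^ 2 * ω ^ (1 + 4) = κ * z ^ 2 * ω ^ 5 := by ring
    rw [h15]
    linarith
  induction k with
  | zero =>
    rw [zero_add]
    exact h4.trans h5
  | succ k ih =>
    rcases Nat.eq_zero_or_pos k with rfl | hk'
    · exact h10
    · have h2 := V_chain_succ hz0 k (.node cherry cherry)
      have h3 : z * V z (chain k (.node cherry cherry)) ≤
          z * (κ * z ^ 2 * ω ^ (k + 4) + κ * (z * (z ^ 2 - 1))) := mul_le_mul_of_nonneg_left ih hz0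
      have h5 : κ * (z * (z ^ 2 - 1)) * (z - 1) + z + z ^ 4 ≤
          κ * z ^ 2 * ω ^ (k + 4) * (ω - z) := by
        refine G.s3.trans ?_
        refine mul_le_mul_of_nonneg_right ?_ (by linarith)
        refine mul_le_mul_of_nonneg_left ?_ (by positivity)
        exact pow_le_pow_right₀ (by linarith) (by omega)
      have h6 : κ * z ^ 2 * ω ^ (k + 1 + 4) = κ * z ^ 2 * ω ^ (k + 4) * (ω - z) +
          z * (κ * z ^ 2 * ω ^ (k + 4)) := by ring
      linarith

/-- Trees without large classes. -/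
theorem inv_small (G : Fair z ω κ) (R : Rate z ω t) {T : BT} (hB : B z T ≤ 0)
    (h : V z T ≤ κ * z ^ 2 * ω ^ T.size + κ * (z * (z ^ 2 - 1))) : Inv z ω κ t T := by
  have hz := G.hz
  have hz0 : 0 ≤ z := by linarith
  have h0 := G.h0
  have hk := G.k_pos
  have hw := G.w
  have hge := R.ge
  have ht0 : 0 ≤ t := by linarith
  have hW : 1 ≤ ω ^ 3 := one_le_pow₀ (by linarith)
  refine Inv_of (a := 0) (b := 0) hk.le hW ((mass_mono hz0 (tauD_big T)).trans hB)
    ((mass_mono hz0 (hugeD_big T)).trans hB) fun i => ?_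
  have h1 : (ω ^ 3) ^ i ≤ (t ^ 3) ^ i :=
    pow_le_pow_left₀ (by positivity) (pow_le_pow_left₀ h0 hge 3) i
  have h2 : ω ^ T.size ≤ t ^ T.size := pow_le_pow_left₀ h0 hge _
  have h3 : (ω ^ 3) ^ i * V z T ≤
      (ω ^ 3) ^ i * (κ * z ^ 2 * ω ^ T.size + κ * (z * (z ^ 2 - 1))) :=
    mul_le_mul_of_nonneg_left h (by positivity)
  have h4 : (ω ^ 3) ^ i * (κ * z ^ 2 * ω ^ T.size) ≤
      (t ^ 3) ^ i * (κ * z ^ 2 * t ^ T.size) :=
    mul_le_mul h1 (mul_le_mul_of_nonneg_left h2 (by positivity)) (by positivity)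
      (by positivity)
  simp only [add_zero, mul_zero, sub_zero]
  linarith

/-- A cherry above an arbitrary tree. -/
theorem cherryQ (G : Fair z ω κ) (R : Rate z ω t) {v : BT} (hv : 3 ≤ v.size)
    (h : Inv z ω κ t v) (k : ℕ) : ∀ i : ℕ,
    (ω ^ 3) ^ i * (V z (chain k (.node cherry v)) + κ * (Tw z v + Hw z v)) - κ * Tw z v ≤
      κ * z ^ 2 * t ^ (k + (2 + v.size)) * (t ^ 3) ^ i +
        (ω ^ 3) ^ i * (κ * (z * (z ^ 2 - 1))) := by
  have hz := G.hz
  have hz0 : 0 ≤ z := by linarith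
  have h0 := G.h0
  have hk := G.k_pos
  have hw := G.w
  have hω := G.hω
  have hge := R.ge
  have hT := Tw_nonneg hz0 v
  have hH := Hw_nonneg hz0 v
  have hB := B_split hz0 v
  have hS := split_le_V hz0 v
  have hω1 : 1 ≤ ω := by linarith
  have ht1 : 1 ≤ t := by linarith
  have ht0 : 0 ≤ t := by linarith
  have hW : 1 ≤ ω ^ 3 := one_le_pow₀ hω1
  have hWt : ω ^ 3 ≤ t ^ 3 := pow_le_pow_left₀ h0 hge 3
  have e1 : (z ^ 2 + z) * (κ * (z * (z ^ 2 - 1))) - z * (z ^ 2 - 1) =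
      κ * (z * (z ^ 2 - 1)) := by
    linear_combination (z * (z ^ 2 - 1)) * G.hκ
  have e2 : ω ^ 3 * (κ * (z * (z ^ 2 - 1))) - z * (z ^ 2 - 1) * (z + 1) =
      κ * (z * (z ^ 2 - 1)) := by
    rw [hω]
    linear_combination (z * (z ^ 2 - 1) * (z + 1)) * G.hκ
  set η := κ * (z * (z ^ 2 - 1)) with hη
  have hη0 : 0 ≤ η := by
    have : 0 ≤ z ^ 2 - 1 := by nlinarith
    rw [hη]
    positivity
  set m := v.size with hm
  set X := V z v + κ * (Tw z v + Hw z v) with hX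
  have c0 := case_aG (by linarith) G.hκ (by omega) hB 0
  have c1 := case_aG (by linarith) G.hκ (by omega) hB 1
  have f0 : Fk z 0 = z ^ 2 + z := rfl
  have f1 : Fk z 1 = ω ^ 3 := by
    rw [hω]
    show z * (z ^ 2 + z) + z ^ 2 = _
    ring
  have g0 : sk z 0 = 1 := rfl
  have g1 : sk z 1 = z + 1 := by
    show z * 1 + 1 = _
    ring
  rw [f0, g0, ← hX] at c0
  rw [f1, g1, ← hX] at c1
  have key1 : ∀ i : ℕ,
      (ω ^ 3) ^ i * (V z (chain 1 (.node cherry v)) + κ * (Tw z v + Hw z v)) - κ * Tw z v ≤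
      κ * z ^ 2 * t ^ (1 + (2 + m)) * (t ^ 3) ^ i + (ω ^ 3) ^ i * η := by
    intro i
    have hi : 0 ≤ (ω ^ 3) ^ i := by positivity
    have a1 := mul_le_mul_of_nonneg_left c1 hi
    have a2 := h (i + 1)
    rw [← hX, ← hη, ← hm, pow_succ (ω ^ 3) i, pow_succ (t ^ 3) i] at a2
    have a3 : κ * z ^ 2 * t ^ m * ((t ^ 3) ^ i * t ^ 3) =
        κ * z ^ 2 * t ^ (1 + (2 + m)) * (t ^ 3) ^ i := by ring
    have a4 : (ω ^ 3) ^ i * ω ^ 3 * η - (ω ^ 3) ^ i * (z * (z ^ 2 - 1) * (z + 1)) =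
        (ω ^ 3) ^ i * η := by
      linear_combination (ω ^ 3) ^ i * e2
    rw [a3] at a2
    linarith
  rcases Nat.eq_zero_or_pos k with rfl | hk1
  · intro i
    have hi : 0 ≤ (ω ^ 3) ^ i := by positivity
    have a1 := mul_le_mul_of_nonneg_left c0 hi
    have a2 := h (i + 1)
    rw [← hX, ← hη, ← hm, pow_succ (ω ^ 3) i, pow_succ (t ^ 3) i] at a2
    have a3 := mul_le_mul_of_nonneg_left a2 (by positivity : 0 ≤ z ^ 2 + z)
    have a4 : (z ^ 2 + z) * (κ * Tw z v) ≤ ω ^ 3 * (κ * Tw z v) := by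
      refine mul_le_mul_of_nonneg_right ?_ (by positivity)
      rw [hω]
      nlinarith [pow_nonneg hz0 3]
    have a5 : (z ^ 2 + z) * t ≤ ω ^ 3 := by
      have := mul_le_mul_of_nonneg_left R.up hz0
      rw [hω]
      linarith
    have a6 : κ * z ^ 2 * t ^ m * (t ^ 3) ^ i * t ^ 2 * ((z ^ 2 + z) * t) ≤
        κ * z ^ 2 * t ^ m * (t ^ 3) ^ i * t ^ 2 * ω ^ 3 :=
      mul_le_mul_of_nonneg_left a5 (by positivity)
    have a7 : ω ^ 3 * ((ω ^ 3) ^ i * ((z ^ 2 + z) * X) - κ * Tw z v) ≤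
        ω ^ 3 * (κ * z ^ 2 * t ^ (0 + (2 + m)) * (t ^ 3) ^ i +
          (ω ^ 3) ^ i * ((z ^ 2 + z) * η)) := by
      have a8 : κ * z ^ 2 * t ^ (0 + (2 + m)) * (t ^ 3) ^ i =
          κ * z ^ 2 * t ^ m * (t ^ 3) ^ i * t ^ 2 := by ring
      rw [a8]
      linarith
    have a9 := le_of_mul_le_mul_left a7 (by linarith : 0 < ω ^ 3)
    have a10 : (ω ^ 3) ^ i * ((z ^ 2 + z) * η) - (ω ^ 3) ^ i * (z * (z ^ 2 - 1)) =
        (ω ^ 3) ^ i * η := by
      linear_combination (ω ^ 3) ^ i * e1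
    linarith
  · induction k with
    | zero => omega
    | succ k ih =>
      rcases Nat.eq_zero_or_pos k with rfl | hk'
      · exact key1
      · intro i
        have hi : 1 ≤ (ω ^ 3) ^ i := one_le_pow₀ hW
        have b1 := ih hk' i
        have b2 := V_chain_succ hz0 k (.node cherry v)
        have b3 := N_cherry_node hz0 v
        have b4 := h.zero
        rw [← hη, ← hm] at b4
        have b5 : V z v ≤ κ * z ^ 2 * t ^ m + η := by
          have : 0 ≤ κ * Hw z v := by positivity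
          linarith
        have b6 : mass z (N (.node cherry v)) ≤
            (z ^ 2 + 1) * (κ * z ^ 2 * t ^ m + η) - z ^ 3 + z := by
          have b7 := mul_le_mul_of_nonneg_left b5 (by positivity : 0 ≤ z ^ 2 + 1)
          have b8 : B z v ≤ V z v := B_le_V hz0 v
          linarith
        have b7 : (z ^ 2 + 1) * (κ * z ^ 2 * t ^ m) + η ≤
            κ * z ^ 2 * t ^ (k + (2 + m)) * (t - z) := by
          have d1 := G.s10
          rw [← hη] at d1
          set K := κ * z ^ 2 * (ω ^ 3 * (ω - z) - (z ^ 2 + 1)) with hK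
          have d2 : η ≤ ω ^ 3 * K := by
            rw [hK]
            linarith
          have d3 : 0 ≤ K := by
            by_contra hneg
            have := mul_neg_of_pos_of_neg (by linarith : 0 < ω ^ 3) (not_le.1 hneg)
            linarith
          have d4 : ω ^ 3 ≤ t ^ m := hWt.trans (pow_le_pow_right₀ ht1 hv)
          have d5 := mul_le_mul_of_nonneg_right d4 d3
          have d6 : ω ^ 3 * (ω - z) ≤ t ^ (k + 2) * (t - z) :=
            mul_le_mul (hWt.trans (pow_le_pow_right₀ ht1 (by omega))) (by linarith)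
              (by linarith) (by positivity)
          have d7 := mul_le_mul_of_nonneg_left d6 (by positivity : 0 ≤ κ * z ^ 2 * t ^ m)
          have d8 : t ^ m * K = κ * z ^ 2 * t ^ m * (ω ^ 3 * (ω - z)) -
              (z ^ 2 + 1) * (κ * z ^ 2 * t ^ m) := by
            rw [hK]
            ring
          have d9 : κ * z ^ 2 * t ^ m * (t ^ (k + 2) * (t - z)) =
              κ * z ^ 2 * t ^ (k + (2 + m)) * (t - z) := by ring
          linarith
        have b8 : 0 ≤ (z - 1) * (κ * ((ω ^ 3) ^ i - 1) * Tw z v +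
            κ * (ω ^ 3) ^ i * Hw z v) := by
          have : 0 ≤ (ω ^ 3) ^ i - 1 := by linarith
          exact mul_nonneg (by linarith) (by positivity)
        have b9 := mul_le_mul_of_nonneg_left b1 hz0
        have b10 := mul_le_mul_of_nonneg_left b2 (by linarith : 0 ≤ (ω ^ 3) ^ i)
        have b11 := mul_le_mul_of_nonneg_left b6 (by linarith : 0 ≤ (ω ^ 3) ^ i)
        have b12 := mul_le_mul_of_nonneg_left b7 (by linarith : 0 ≤ (ω ^ 3) ^ i)
        have b13 : (ω ^ 3) ^ i * (κ * z ^ 2 * t ^ (k + (2 + m)) * (t - z)) ≤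
            (t ^ 3) ^ i * (κ * z ^ 2 * t ^ (k + (2 + m)) * (t - z)) := by
          refine mul_le_mul_of_nonneg_right
            (pow_le_pow_left₀ (by positivity) hWt i) ?_
          exact mul_nonneg (by positivity) (by linarith)
        have b14 : κ * z ^ 2 * t ^ (k + 1 + (2 + m)) * (t ^ 3) ^ i =
            (t ^ 3) ^ i * (κ * z ^ 2 * t ^ (k + (2 + m)) * (t - z)) +
              z * (κ * z ^ 2 * t ^ (k + (2 + m)) * (t ^ 3) ^ i) := by ring
        have b15 : (ω ^ 3) ^ i * ((z ^ 2 + z) * η - z * (z ^ 2 - 1)) =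
            (ω ^ 3) ^ i * η := by rw [e1]
        rw [b14]
        linarith

end

end Pool.Agent.DeckB
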