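import Pool.Agent.DeckB.Defs

/-!
# The upper bound
-/

set_option autoImplicit false

namespace Pool.Agent.DeckB

/-- The class of a tree which may be empty. -/
def cl (t : Option BT) : Option Shape := t.map BT.shape

/-- `glue` on classes. -/
def glueS : Option Shape → Option Shape → Option Shape
  | none, t => t
  | some s, none => some s
  | some s, some t => some (Quotient.map₂ (sa := isoSetoid) (sb := isoSetoid) (sc := isoSetoid)
      BT.node (fun _ _ h _ _ h' => Iso.node h h') s t)

theorem cl_glue (s t : Option BT) : cl (glue s t) = glueS (cl s) (cl t) := by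
  cases s <;> cases t <;> rfl

theorem glueS_none_left (t : Option Shape) : glueS none t = t := by
  cases t <;> rfl

theorem glueS_none_right (t : Option Shape) : glueS t none = t := by
  cases t <;> rfl

theorem glueS_comm (s t : Option Shape) : glueS s t = glueS t s := by
  cases s with
  | none => rw [glueS_none_left, glueS_none_right]
  | some s =>
    cases t with
    | none => rfl
    | some t =>
      induction s using Quotient.inductionOn with | _ s => ?_
      induction t using Quotient.inductionOn with | _ t => ?_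
      exact congrArg some (Quotient.sound (s := isoSetoid) (Iso.swap (Iso.refl _) (Iso.refl _)))

/-- The number of deleted leaves. -/
noncomputable def dl {T : BT} (S : Leaf T → Bool) : ℕ := ∑ x, if S x then 0 else 1

theorem dl_leaf (S : Leaf .leaf → Bool) : dl S = if S () then 0 else 1 := by
  show (∑ x : Unit, if S x then 0 else 1) = _
  simp

theorem dl_node {l r : BT} (S : Leaf (.node l r) → Bool) :
    dl S = dl (T := l) (fun x => S (Sum.inl x)) + dl (T := r) fun x => S (Sum.inr x) := by
  show (∑ x : Leaf l ⊕ Leaf r, if S x then 0 else 1) = _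
  rw [Fintype.sum_sum_type]
  rfl

theorem card_leaf (T : BT) : Fintype.card (Leaf T) = T.size := by
  induction T with
  | leaf => rfl
  | node l r h h' =>
    show Fintype.card (Leaf l ⊕ Leaf r) = _
    rw [Fintype.card_sum, h, h']
    rfl

theorem dl_add_card {T : BT} (S : Leaf T → Bool) :
    dl S + Nat.card {x // S x = true} = T.size := by
  classical
  rw [← card_leaf, dl, Nat.card_eq_fintype_card, Fintype.card_subtype,
    Finset.card_filter, ← Finset.sum_add_distrib, Fintype.card_eq_sum_ones]
  refine Finset.sum_congr rfl fun x _ => ?_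
  cases S x <;> rfl

/-- The class of every restriction is determined by `ι` numbers whose sum is the number of
deleted leaves. -/
def Det (T : BT) (ι : Type) [Fintype ι] : Prop :=
  ∃ F : (ι → ℕ) → Option Shape, ∀ S : Leaf T → Bool, ∃ v : ι → ℕ,
    ∑ i, v i = dl S ∧ F v = cl (restrict T S)

theorem Det.node {l r : BT} {ι κ : Type} [Fintype ι] [Fintype κ] (h : Det l ι)
    (h' : Det r κ) : Det (.node l r) (ι ⊕ κ) := by
  obtain ⟨F, hF⟩ := h
  obtain ⟨F', hF'⟩ := h'
  refine ⟨fun v => glueS (F fun i => v (Sum.inl i)) (F' fun i => v (Sum.inr i)), fun S => ?_⟩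
  obtain ⟨v, h1, h2⟩ := hF fun x => S (Sum.inl x)
  obtain ⟨v', h3, h4⟩ := hF' fun x => S (Sum.inr x)
  refine ⟨Sum.elim v v', ?_, ?_⟩
  · rw [Fintype.sum_sum_type, dl_node, ← h1, ← h3]
    rfl
  · show glueS (F v) (F' v') = cl (glue _ _)
    rw [h2, h4, cl_glue]

/-- A new root with one leaf above a class. -/
def up (q : Option Shape) : Option Shape := glueS (some BT.leaf.shape) q

theorem chain_size (r : ℕ) (T : BT) : (chain r T).size = r + T.size := by
  induction r with
  | zero => simp [chain]
  | succ r ih =>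
    show 1 + (chain r T).size = _
    rw [ih]
    ring

theorem restrict_leaf_true (S : Leaf .leaf → Bool) (h : S () = true) :
    restrict .leaf S = some .leaf := by
  show (if S () then some BT.leaf else none) = _
  rw [h]
  rfl

theorem restrict_leaf_false (S : Leaf .leaf → Bool) (h : S () = false) :
    restrict .leaf S = none := by
  show (if S () then some BT.leaf else none) = _
  rw [h]
  rfl

theorem chain_restrict (r : ℕ) (T : BT) (S : Leaf (chain r T) → Bool) :
    ∃ k ≤ r, ∃ S' : Leaf T → Bool, dl S = k + dl S' ∧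
      cl (restrict (chain r T) S) = up^[r - k] (cl (restrict T S')) := by
  induction r with
  | zero => exact ⟨0, le_rfl, S, (zero_add _).symm, rfl⟩
  | succ r ih =>
    obtain ⟨k, hk, S', h1, h2⟩ := ih fun x => S (Sum.inr x)
    have h3 := dl_node (l := .leaf) (r := chain r T) S
    have h4 : cl (restrict (chain (r + 1) T) S) =
        glueS (cl (restrict .leaf fun x => S (Sum.inl x)))
          (cl (restrict (chain r T) fun x => S (Sum.inr x))) := cl_glue _ _
    rw [dl_leaf, h1] at h3
    rw [h2] at h4
    cases h5 : S (Sum.inl ()) with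
    | true =>
      refine ⟨k, by omega, S', ?_, ?_⟩
      · refine h3.trans ?_
        simp [h5]
      · rw [h4, restrict_leaf_true _ h5, show r + 1 - k = (r - k) + 1 by omega,
          Function.iterate_succ_apply']
        rfl
    | false =>
      refine ⟨k + 1, by omega, S', ?_, ?_⟩
      · refine h3.trans ?_
        rw [h5]
        simp only [Bool.false_eq_true, if_false]
        omega
      · rw [h4, restrict_leaf_false _ h5, show r + 1 - (k + 1) = r - k by omega]
        exact glueS_none_left _

theorem Det.chain {T : BT} {ι : Type} [Fintype ι] (h : Det T ι) (r : ℕ) :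
    Det (chain r T) (Option ι) := by
  obtain ⟨F, hF⟩ := h
  refine ⟨fun v => up^[r - v none] (F fun i => v (some i)), fun S => ?_⟩
  obtain ⟨k, -, S', h1, h2⟩ := chain_restrict r T S
  obtain ⟨v, h3, h4⟩ := hF S'
  refine ⟨fun i => i.elim k v, ?_, ?_⟩
  · rw [Fintype.sum_option, h1, ← h3]
    rfl
  · rw [h2, ← h4]
    rfl

theorem Det.caterpillar (r : ℕ) : Det (DeckB.chain r .leaf) Unit := by
  refine ⟨fun v => if v () ≤ r then up^[r - v ()] (some BT.leaf.shape) else none, fun S => ?_⟩
  obtain ⟨k, hk, S', h1, h2⟩ := chain_restrict r .leaf S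
  refine ⟨fun _ => dl S, by simp, ?_⟩
  rw [h2, h1, dl_leaf]
  cases h3 : S' () with
  | true =>
    rw [restrict_leaf_true _ h3]
    simp [hk, cl]
  | false =>
    rw [restrict_leaf_false _ h3]
    simp only [Bool.false_eq_true, if_false]
    by_cases h4 : k + 1 ≤ r
    · rw [if_pos h4, show r - k = (r - (k + 1)) + 1 by omega, Function.iterate_succ_apply]
      rfl
    · rw [if_neg h4, show r - k = 0 by omega]
      rfl

theorem iso_restrict {T T' : BT} (h : Iso T T') (S : Leaf T → Bool) :
    ∃ S' : Leaf T' → Bool, dl S' = dl S ∧ cl (restrict T' S') = cl (restrict T S) := by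
  induction h with
  | leaf => exact ⟨S, rfl, rfl⟩
  | @node l r l' r' _ _ ih ih' =>
    obtain ⟨S1, h1, h2⟩ := ih fun x => S (Sum.inl x)
    obtain ⟨S2, h3, h4⟩ := ih' fun x => S (Sum.inr x)
    refine ⟨Sum.elim S1 S2, ?_, ?_⟩
    · rw [dl_node, dl_node, ← h1, ← h3]
      rfl
    · show cl (glue (restrict l' S1) (restrict r' S2)) = cl (glue _ _)
      rw [cl_glue, cl_glue, h2, h4]
  | @swap l r l' r' _ _ ih ih' =>
    obtain ⟨S1, h1, h2⟩ := ih fun x => S (Sum.inl x)
    obtain ⟨S2, h3, h4⟩ := ih' fun x => S (Sum.inr x)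
    refine ⟨Sum.elim S2 S1, ?_, ?_⟩
    · rw [dl_node, dl_node, ← h1, ← h3, add_comm]
      rfl
    · show cl (glue (restrict l' S2) (restrict r' S1)) = cl (glue _ _)
      rw [cl_glue, cl_glue, h2, h4, glueS_comm]

theorem Iso.size_eq {T T' : BT} (h : Iso T T') : T.size = T'.size := by
  induction h with
  | leaf => rfl
  | node _ _ h h' =>
    show _ + _ = _ + _
    rw [h, h']
  | swap _ _ h h' =>
    show _ + _ = _ + _
    rw [h, h', add_comm]

theorem Det.iso {T T' : BT} {ι : Type} [Fintype ι] (h : Det T' ι) (e : Iso T T') :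
    Det T ι := by
  obtain ⟨F, hF⟩ := h
  refine ⟨F, fun S => ?_⟩
  obtain ⟨S', h1, h2⟩ := iso_restrict e S
  obtain ⟨v, h3, h4⟩ := hF S'
  exact ⟨v, h3.trans h1, h4.trans h2⟩

theorem size_pos (T : BT) : 0 < T.size := by
  induction T with
  | leaf => exact Nat.one_pos
  | node l r h _ =>
    show 0 < l.size + r.size
    omega

/-- Every tree is a path with leaves above a leaf or above a vertex both of whose children are
not leaves. -/
theorem exists_chain (T : BT) : ∃ (r : ℕ) (x : BT), Iso T (chain r x) ∧
    (x = .leaf ∨ ∃ l₁ l₂ : BT, x = .node l₁ l₂ ∧ l₁ ≠ .leaf ∧ l₂ ≠ .leaf) := by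
  induction T with
  | leaf => exact ⟨0, .leaf, Iso.refl _, Or.inl rfl⟩
  | node l r ihl ihr =>
    by_cases hl : l = .leaf
    · subst hl
      obtain ⟨s, x, h1, h2⟩ := ihr
      exact ⟨s + 1, x, Iso.node (Iso.refl _) h1, h2⟩
    by_cases hr : r = .leaf
    · subst hr
      obtain ⟨s, x, h1, h2⟩ := ihl
      exact ⟨s + 1, x, Iso.swap h1 (Iso.refl _), h2⟩
    · exact ⟨0, .node l r, Iso.refl _, Or.inr ⟨l, r, rfl, hl, hr⟩⟩

theorem exists_det (N : ℕ) : ∀ T : BT, T.size ≤ N → ∃ (ι : Type) (_ : Fintype ι), Det T ι ∧
    (T = .leaf ∨ 3 * Fintype.card ι + 1 ≤ 2 * T.size) := by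
  induction N with
  | zero =>
    intro T hT
    have := size_pos T
    omega
  | succ N ih =>
    intro T hT
    obtain ⟨r, x, h1, rfl | ⟨l₁, l₂, rfl, h2, h3⟩⟩ := exists_chain T
    · refine ⟨Unit, inferInstance, (Det.caterpillar r).iso h1, ?_⟩
      have h4 := h1.size_eq
      rw [chain_size] at h4
      rcases Nat.eq_zero_or_pos r with hr | hr
      · subst hr
        left
        cases h1
        rfl
      · right
        have h5 : BT.leaf.size = 1 := rfl
        simp only [Fintype.card_unit]
        omega
    · have h4 := h1.size_eq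
      rw [chain_size] at h4
      have h5 : (BT.node l₁ l₂).size = l₁.size + l₂.size := rfl
      have h6 := size_pos l₁
      have h7 := size_pos l₂
      obtain ⟨ι, _, hι, h8⟩ := ih l₁ (by omega)
      obtain ⟨κ, _, hκ, h9⟩ := ih l₂ (by omega)
      have h8 := h8.resolve_left h2
      have h9 := h9.resolve_left h3
      rcases Nat.eq_zero_or_pos r with hr | hr
      · subst hr
        refine ⟨ι ⊕ κ, inferInstance, (hι.node hκ).iso h1, Or.inr ?_⟩
        rw [Fintype.card_sum]
        omega
      · refine ⟨Option (ι ⊕ κ), inferInstance, ((hι.node hκ).chain r).iso h1, Or.inr ?_⟩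
        rw [Fintype.card_option, Fintype.card_sum]
        omega

theorem Det.ncard_le {T : BT} {ι : Type} [Fintype ι] (h : Det T ι) {j : ℕ} (hj : j ≤ T.size) :
    (deck j T).ncard ≤ (Fintype.card ι).multichoose (T.size - j) := by
  classical
  obtain ⟨F, hF⟩ := h
  have h1 : Finite {P : ι → ℕ // ∑ i, P i = T.size - j} :=
    Finite.of_equiv _ (Sym.equivNatSumOfFintype ι (T.size - j))
  have h2 : Nat.card {P : ι → ℕ // ∑ i, P i = T.size - j} =
      (Fintype.card ι).multichoose (T.size - j) := by
    rw [← Nat.card_congr (Sym.equivNatSumOfFintype ι (T.size - j)), Nat.card_eq_fintype_card,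
      Sym.card_sym_eq_multichoose]
  rw [← h2]
  have h3 : (some '' deck j T : Set (Option Shape)) ⊆
      Set.range fun P : {P : ι → ℕ // ∑ i, P i = T.size - j} => F P := by
    rintro _ ⟨q, ⟨S, hS, t, ht, rfl⟩, rfl⟩
    obtain ⟨v, hv, hv'⟩ := hF S
    have h4 := dl_add_card S
    refine ⟨⟨v, by omega⟩, ?_⟩
    show F v = _
    rw [hv', ht]
    rfl
  rw [← Set.ncard_image_of_injective _ (Option.some_injective Shape)]
  refine (Set.ncard_le_ncard h3 (Set.finite_range _)).trans ?_
  rw [← Set.image_univ]
  refine (Set.ncard_image_le Set.finite_univ).trans ?_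
  rw [Set.ncard_univ]

theorem multichoose_mono {a b : ℕ} (h : a ≤ b) (d : ℕ) : a.multichoose d ≤ b.multichoose d := by
  rw [Nat.multichoose_eq, Nat.multichoose_eq]
  exact Nat.choose_le_choose _ (by omega)

/-- The upper bound for one tree. -/
theorem ncard_deck_le {n j : ℕ} (hn : 2 ≤ n) (hj : j ≤ n) {T : BT} (hT : T.size = n) :
    (deck j T).ncard ≤ ((2 * n - 1) / 3).multichoose (n - j) := by
  subst hT
  obtain ⟨ι, _, h1, h2⟩ := exists_det T.size T le_rfl
  have h3 : T ≠ .leaf := by
    rintro rfl
    exact absurd hn (by decide)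
  have h2 := h2.resolve_left h3
  exact (h1.ncard_le hj).trans (multichoose_mono (by omega) _)

end Pool.Agent.DeckB
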