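import Pool.Agent.DeckB.Growth

/-!
# Weights of the decks of all sizes
-/

set_option autoImplicit false

namespace Pool.Agent.DeckB

noncomputable instance shapeDecEq : DecidableEq Shape := Classical.decEq _

/-- The number of leaves of a class. -/
def ssize : Shape → ℕ := Quotient.lift BT.size fun _ _ h => Iso.size_eq h

theorem ssize_shape (T : BT) : ssize T.shape = T.size := rfl

theorem ssize_join (q r : Shape) : ssize (join q r) = ssize q + ssize r := by
  obtain ⟨a, rfl⟩ := exists_shape q
  obtain ⟨b, rfl⟩ := exists_shape r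
  rfl

theorem join_comm (q r : Shape) : join q r = join r q := by
  obtain ⟨a, rfl⟩ := exists_shape q
  obtain ⟨b, rfl⟩ := exists_shape r
  rw [join_shape, join_shape, shape_eq]
  exact Iso.swap (Iso.refl _) (Iso.refl _)

theorem ssize_pos (q : Shape) : 1 ≤ ssize q := by
  obtain ⟨a, rfl⟩ := exists_shape q
  exact size_pos a

/-- One leaf. -/
def lam : Shape := BT.leaf.shape

/-- Two leaves. -/
def chi : Shape := join lam lam

/-- Three leaves. -/
def tau : Shape := join lam chi

theorem ssize_lam : ssize lam = 1 := rfl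

theorem ssize_chi : ssize chi = 2 := rfl

theorem ssize_tau : ssize tau = 3 := rfl

theorem shape_cases (q : Shape) : q = lam ∨ ∃ a b, q = join a b := by
  obtain ⟨T, rfl⟩ := exists_shape q
  cases T with
  | leaf => exact Or.inl rfl
  | node l r => exact Or.inr ⟨l.shape, r.shape, rfl⟩

theorem eq_lam {q : Shape} (h : ssize q = 1) : q = lam := by
  rcases shape_cases q with h1 | ⟨a, b, rfl⟩
  · exact h1
  · rw [ssize_join] at h
    have := ssize_pos a
    have := ssize_pos b
    omega

theorem eq_chi {q : Shape} (h : ssize q = 2) : q = chi := by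
  rcases shape_cases q with rfl | ⟨a, b, rfl⟩
  · rw [ssize_lam] at h
    omega
  · rw [ssize_join] at h
    have := ssize_pos a
    have := ssize_pos b
    rw [eq_lam (q := a) (by omega), eq_lam (q := b) (by omega)]
    rfl

theorem eq_tau {q : Shape} (h : ssize q = 3) : q = tau := by
  rcases shape_cases q with rfl | ⟨a, b, rfl⟩
  · rw [ssize_lam] at h
    omega
  · rw [ssize_join] at h
    have := ssize_pos a
    have := ssize_pos b
    rcases (show ssize a = 1 ∨ ssize a = 2 by omega) with h1 | h1
    · rw [eq_lam h1, eq_chi (q := b) (by omega)]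
      rfl
    · rw [eq_chi h1, eq_lam (q := b) (by omega), join_comm]
      rfl

/-- The classes of all restrictions. -/
noncomputable def D : BT → Finset Shape
  | .leaf => {lam}
  | .node l r => D l ∪ D r ∪ (D l ×ˢ D r).image fun p => join p.1 p.2

theorem mem_D_leaf {q : Shape} : q ∈ D .leaf ↔ q = lam := Finset.mem_singleton

theorem mem_D_node {l r : BT} {q : Shape} :
    q ∈ D (.node l r) ↔ q ∈ D l ∨ q ∈ D r ∨ ∃ a ∈ D l, ∃ b ∈ D r, join a b = q := by
  show q ∈ D l ∪ D r ∪ ((D l ×ˢ D r).image fun p => join p.1 p.2) ↔ _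
  rw [Finset.mem_union, Finset.mem_union, Finset.mem_image, or_assoc]
  refine or_congr Iff.rfl (or_congr Iff.rfl ?_)
  constructor
  · rintro ⟨⟨a, b⟩, h, h'⟩
    rw [Finset.mem_product] at h
    exact ⟨a, h.1, b, h.2, h'⟩
  · rintro ⟨a, ha, b, hb, h⟩
    exact ⟨(a, b), Finset.mem_product.2 ⟨ha, hb⟩, h⟩

theorem restrict_mem {T : BT} {S : Leaf T → Bool} {t : BT} (h : restrict T S = some t) :
    t.shape ∈ D T := by
  induction T generalizing t with
  | leaf =>
    by_cases h1 : S () = true
    · rw [restrict_leaf_true S h1] at h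
      cases h
      exact mem_D_leaf.2 rfl
    · rw [restrict_leaf_false S (by simpa using h1)] at h
      cases h
  | node l r ihl ihr =>
    have h1 : glue (restrict l fun x => S (Sum.inl x)) (restrict r fun x => S (Sum.inr x)) =
      some t := h
    rw [mem_D_node]
    rcases h2 : restrict l fun x => S (Sum.inl x) with _ | s <;>
      rcases h3 : restrict r fun x => S (Sum.inr x) with _ | u
    · rw [h2, h3] at h1
      cases h1
    · rw [h2, h3] at h1
      cases h1
      exact Or.inr (Or.inl (ihr h3))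
    · rw [h2, h3] at h1
      cases h1
      exact Or.inl (ihl h2)
    · rw [h2, h3] at h1
      cases h1
      exact Or.inr (Or.inr ⟨_, ihl h2, _, ihr h3, rfl⟩)

theorem deck_subset_D {T : BT} {j : ℕ} {q : Shape} (h : q ∈ deck j T) :
    q ∈ D T ∧ ssize q = j := by
  obtain ⟨U, hU, rfl⟩ := deck_subset j T h
  obtain ⟨S, -, t, h2, h3⟩ := h
  rw [← h3]
  refine ⟨restrict_mem h2, ?_⟩
  rw [h3, ssize_shape, hU]

theorem D_swap (l r : BT) : D (.node l r) = D (.node r l) := by
  ext q
  rw [mem_D_node, mem_D_node]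
  constructor
  · rintro (h | h | ⟨a, ha, b, hb, h⟩)
    · exact Or.inr (Or.inl h)
    · exact Or.inl h
    · exact Or.inr (Or.inr ⟨b, hb, a, ha, by rw [join_comm, h]⟩)
  · rintro (h | h | ⟨a, ha, b, hb, h⟩)
    · exact Or.inr (Or.inl h)
    · exact Or.inl h
    · exact Or.inr (Or.inr ⟨b, hb, a, ha, by rw [join_comm, h]⟩)

theorem D_node_congr {l r l' r' : BT} (h : D l = D l') (h' : D r = D r') :
    D (.node l r) = D (.node l' r') := by
  ext q
  rw [mem_D_node, mem_D_node, h, h']

theorem D_iso {T U : BT} (h : Iso T U) : D T = D U := by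
  induction h with
  | leaf => rfl
  | node _ _ h1 h2 => exact D_node_congr h1 h2
  | swap _ _ h1 h2 => exact (D_node_congr h1 h2).trans (D_swap _ _)

theorem lam_mem (T : BT) : lam ∈ D T := by
  induction T with
  | leaf => exact mem_D_leaf.2 rfl
  | node l r ihl _ => exact mem_D_node.2 (Or.inl ihl)

theorem ssize_le {T : BT} {q : Shape} (h : q ∈ D T) : ssize q ≤ T.size := by
  induction T generalizing q with
  | leaf =>
    rw [mem_D_leaf.1 h]
    exact le_rfl
  | node l r ihl ihr =>
    show _ ≤ l.size + r.size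
    rcases mem_D_node.1 h with h | h | ⟨a, ha, b, hb, rfl⟩
    · have := ihl h
      omega
    · have := ihr h
      omega
    · have := ihl ha
      have := ihr hb
      rw [ssize_join]
      omega

theorem D_children {T : BT} {a b : Shape} (h : join a b ∈ D T) : a ∈ D T ∧ b ∈ D T := by
  induction T with
  | leaf =>
    have h1 := congrArg ssize (mem_D_leaf.1 h)
    rw [ssize_join, ssize_lam] at h1
    have := ssize_pos a
    have := ssize_pos b
    omega
  | node l r ihl ihr =>
    rcases mem_D_node.1 h with h | h | ⟨a', ha, b', hb, h⟩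
    · exact ⟨mem_D_node.2 (Or.inl (ihl h).1), mem_D_node.2 (Or.inl (ihl h).2)⟩
    · exact ⟨mem_D_node.2 (Or.inr (Or.inl (ihr h).1)),
        mem_D_node.2 (Or.inr (Or.inl (ihr h).2))⟩
    · rcases join_eq h with ⟨rfl, rfl⟩ | ⟨rfl, rfl⟩
      · exact ⟨mem_D_node.2 (Or.inl ha), mem_D_node.2 (Or.inr (Or.inl hb))⟩
      · exact ⟨mem_D_node.2 (Or.inr (Or.inl hb)), mem_D_node.2 (Or.inl ha)⟩

theorem chi_mem {T : BT} (h : 2 ≤ T.size) : chi ∈ D T := by
  cases T with
  | leaf => exact absurd h (by decide)
  | node l r => exact mem_D_node.2 (Or.inr (Or.inr ⟨_, lam_mem l, _, lam_mem r, rfl⟩))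

theorem tau_mem {T : BT} (h : 3 ≤ T.size) : tau ∈ D T := by
  cases T with
  | leaf => exact absurd h (by decide)
  | node l r =>
    have h1 : 3 ≤ l.size + r.size := h
    rcases (show 2 ≤ r.size ∨ 2 ≤ l.size by omega) with h2 | h2
    · exact mem_D_node.2 (Or.inr (Or.inr ⟨_, lam_mem l, _, chi_mem h2, rfl⟩))
    · exact mem_D_node.2 (Or.inr (Or.inr ⟨_, chi_mem h2, _, lam_mem r, join_comm _ _⟩))

/-- The weight of a set of classes. -/
noncomputable def mass (z : ℝ) (s : Finset Shape) : ℝ := ∑ q ∈ s, z ^ ssize q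

section mass

variable {z : ℝ}

theorem mass_nonneg (hz : 0 ≤ z) (s : Finset Shape) : 0 ≤ mass z s :=
  Finset.sum_nonneg fun _ _ => pow_nonneg hz _

theorem mass_mono (hz : 0 ≤ z) {s t : Finset Shape} (h : s ⊆ t) : mass z s ≤ mass z t :=
  Finset.sum_le_sum_of_subset_of_nonneg h fun _ _ _ => pow_nonneg hz _

theorem mass_union_le (hz : 0 ≤ z) (s t : Finset Shape) : mass z (s ∪ t) ≤ mass z s + mass z t := by
  have h := Finset.sum_union_inter (s₁ := s) (s₂ := t) (f := fun q => z ^ ssize q)
  have h1 : 0 ≤ ∑ q ∈ s ∩ t, z ^ ssize q := Finset.sum_nonneg fun _ _ => pow_nonneg hz _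
  unfold mass
  linarith

theorem mass_singleton (q : Shape) : mass z {q} = z ^ ssize q := Finset.sum_singleton _ _

theorem mass_image_le (hz : 0 ≤ z) {α : Type} [DecidableEq α] (s : Finset α) (f : α → Shape) :
    mass z (s.image f) ≤ ∑ x ∈ s, z ^ ssize (f x) := by
  induction s using Finset.induction_on with
  | empty => simp [mass]
  | insert x s hx ih =>
    rw [Finset.image_insert, Finset.sum_insert hx]
    by_cases h : f x ∈ s.image f
    · rw [Finset.insert_eq_of_mem h]
      have : 0 ≤ z ^ ssize (f x) := pow_nonneg hz _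
      linarith
    · unfold mass at ih ⊢
      rw [Finset.sum_insert h]
      linarith

theorem mass_join_le (hz : 0 ≤ z) (a : Shape) (s : Finset Shape) :
    mass z (s.image (join a)) ≤ z ^ ssize a * mass z s := by
  refine (mass_image_le hz s (join a)).trans (le_of_eq ?_)
  unfold mass
  rw [Finset.mul_sum]
  refine Finset.sum_congr rfl fun x _ => ?_
  rw [ssize_join, pow_add]

theorem mass_prod_le (hz : 0 ≤ z) (s t : Finset Shape) :
    mass z ((s ×ˢ t).image fun p => join p.1 p.2) ≤ mass z s * mass z t := by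
  refine (mass_image_le hz (s ×ˢ t) _).trans (le_of_eq ?_)
  unfold mass
  rw [Finset.sum_mul_sum, Finset.sum_product]
  refine Finset.sum_congr rfl fun x _ => Finset.sum_congr rfl fun y _ => ?_
  rw [ssize_join, pow_add]

theorem mass_erase {s : Finset Shape} {q : Shape} (h : q ∈ s) :
    mass z (s.erase q) = mass z s - z ^ ssize q := by
  unfold mass
  rw [← Finset.sum_erase_add _ _ h]
  ring

end mass

/-- The total weight. -/
noncomputable def V (z : ℝ) (T : BT) : ℝ := mass z (D T)

open scoped Classical in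
/-- The classes with two large root subtrees. -/
noncomputable def bigD (T : BT) : Finset Shape :=
  (D T).filter fun q => ∃ a b, q = join a b ∧ 3 ≤ ssize a ∧ 3 ≤ ssize b

open scoped Classical in
/-- The classes without a leaf at the root. -/
noncomputable def N (T : BT) : Finset Shape :=
  (D T).filter fun q => ∀ x, q ≠ join lam x

theorem mem_bigD {T : BT} {q : Shape} :
    q ∈ bigD T ↔ q ∈ D T ∧ ∃ a b, q = join a b ∧ 3 ≤ ssize a ∧ 3 ≤ ssize b := by
  classical
  unfold bigD
  simp only [Finset.mem_filter]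

theorem mem_N {T : BT} {q : Shape} : q ∈ N T ↔ q ∈ D T ∧ ∀ x, q ≠ join lam x := by
  classical
  unfold N
  simp only [Finset.mem_filter]

/-- The weight of the classes with two large root subtrees. -/
noncomputable def B (z : ℝ) (T : BT) : ℝ := mass z (bigD T)

theorem lam_ne_join (a b : Shape) : lam ≠ join a b := by
  intro h
  have h1 := congrArg ssize h
  rw [ssize_join, ssize_lam] at h1
  have := ssize_pos a
  have := ssize_pos b
  omega

theorem N_subset (u : BT) : N u ⊆ D u := fun _ h => (mem_N.1 h).1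

theorem bigD_subset (u : BT) : bigD u ⊆ D u := fun _ h => (mem_bigD.1 h).1

section bounds

variable {z : ℝ}

theorem V_iso {T U : BT} (h : Iso T U) : V z T = V z U := by
  unfold V
  rw [D_iso h]

theorem B_iso {T U : BT} (h : Iso T U) : B z T = B z U := by
  unfold B bigD
  rw [D_iso h]

theorem V_nonneg (hz : 0 ≤ z) (T : BT) : 0 ≤ V z T := mass_nonneg hz _

theorem B_nonneg (hz : 0 ≤ z) (T : BT) : 0 ≤ B z T := mass_nonneg hz _

theorem B_le_V (hz : 0 ≤ z) (T : BT) : B z T ≤ V z T := mass_mono hz (bigD_subset T)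

theorem V_leaf_node (hz : 0 ≤ z) (u : BT) :
    V z (.node .leaf u) ≤ z * V z u + mass z (N u) := by
  have h1 : D (.node .leaf u) ⊆ (D u).image (join lam) ∪ N u := by
    have key : ∀ q ∈ D u, q ∈ (D u).image (join lam) ∪ N u := by
      intro q h
      rw [Finset.mem_union]
      by_cases h1 : ∀ x, q ≠ join lam x
      · exact Or.inr (mem_N.2 ⟨h, h1⟩)
      · push Not at h1
        obtain ⟨x, rfl⟩ := h1
        exact Or.inl (Finset.mem_image.2 ⟨x, (D_children h).2, rfl⟩)
    intro q hq
    rcases mem_D_node.1 hq with h | h | ⟨a, ha, b, hb, rfl⟩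
    · rw [mem_D_leaf.1 h]
      exact key _ (lam_mem u)
    · exact key _ h
    · rw [mem_D_leaf.1 ha]
      exact Finset.mem_union_left _ (Finset.mem_image.2 ⟨b, hb, rfl⟩)
  refine ((mass_mono hz h1).trans (mass_union_le hz _ _)).trans ?_
  have h2 := mass_join_le hz lam (D u)
  rw [ssize_lam, pow_one] at h2
  unfold V
  linarith

theorem N_leaf_node (u : BT) : N (.node .leaf u) ⊆ N u := by
  intro q hq
  obtain ⟨h1, h2⟩ := mem_N.1 hq
  refine mem_N.2 ⟨?_, h2⟩
  rcases mem_D_node.1 h1 with h | h | ⟨a, ha, b, hb, h⟩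
  · rw [mem_D_leaf.1 h]
    exact lam_mem u
  · exact h
  · rw [mem_D_leaf.1 ha] at h
    exact absurd h.symm (h2 b)

theorem N_chain (k : ℕ) (u : BT) : N (chain k u) ⊆ N u := by
  induction k with
  | zero => exact fun _ h => h
  | succ k ih => exact (N_leaf_node _).trans ih

theorem big_ne {a b a' b' : Shape} (h : join a b = join a' b') (ha : 3 ≤ ssize a)
    (hb : 3 ≤ ssize b) (ha' : ssize a' ≤ 2) : False := by
  rcases join_eq h with ⟨rfl, rfl⟩ | ⟨rfl, rfl⟩ <;> omega

theorem bigD_leaf_node (u : BT) : bigD (.node .leaf u) ⊆ bigD u := by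
  intro q hq
  obtain ⟨h1, a, b, rfl, ha, hb⟩ := mem_bigD.1 hq
  refine mem_bigD.2 ⟨?_, a, b, rfl, ha, hb⟩
  rcases mem_D_node.1 h1 with h | h | ⟨a', ha', b', -, h⟩
  · exact absurd (mem_D_leaf.1 h).symm (lam_ne_join _ _)
  · exact h
  · have h3 : ssize a' ≤ 2 := by
      rw [mem_D_leaf.1 ha', ssize_lam]
      omega
    exact (big_ne h.symm ha hb h3).elim

theorem bigD_chain (k : ℕ) (u : BT) : bigD (chain k u) ⊆ bigD u := by
  induction k with
  | zero => exact fun _ h => h
  | succ k ih => exact (bigD_leaf_node _).trans ih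

theorem bigD_cherry_node (v : BT) : bigD (.node cherry v) ⊆ bigD v := by
  intro q hq
  obtain ⟨h1, a, b, rfl, ha, hb⟩ := mem_bigD.1 hq
  refine mem_bigD.2 ⟨?_, a, b, rfl, ha, hb⟩
  rcases mem_D_node.1 h1 with h | h | ⟨a', ha', b', -, h⟩
  · have h2 := ssize_le h
    rw [ssize_join] at h2
    have : cherry.size = 2 := rfl
    omega
  · exact h
  · exact (big_ne h.symm ha hb (ssize_le ha')).elim

theorem V_cherry_node (hz : 0 ≤ z) {v : BT} (hv : 2 ≤ v.size) :
    V z (.node cherry v) ≤ z * V z v + mass z (N (.node cherry v)) := by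
  have small : ∀ x, ssize x ≤ 2 → x ∈ D v := by
    intro x hx
    have := ssize_pos x
    rcases (show ssize x = 1 ∨ ssize x = 2 by omega) with h | h
    · rw [eq_lam h]
      exact lam_mem v
    · rw [eq_chi h]
      exact chi_mem hv
  have h1 : D (.node cherry v) ⊆ (D v).image (join lam) ∪ N (.node cherry v) := by
    intro q hq
    rw [Finset.mem_union]
    by_cases h1 : ∀ x, q ≠ join lam x
    · exact Or.inr (mem_N.2 ⟨hq, h1⟩)
    · push Not at h1
      obtain ⟨x, rfl⟩ := h1
      refine Or.inl (Finset.mem_image.2 ⟨x, ?_, rfl⟩)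
      rcases mem_D_node.1 hq with h | h | ⟨a, ha, b, hb, h⟩
      · have h2 := ssize_le h
        rw [ssize_join] at h2
        have h3 : cherry.size = 2 := rfl
        exact small _ (by omega)
      · exact (D_children h).2
      · rcases join_eq h with ⟨-, rfl⟩ | ⟨rfl, -⟩
        · exact hb
        · exact small _ (ssize_le ha)
  refine ((mass_mono hz h1).trans (mass_union_le hz _ _)).trans ?_
  have h2 := mass_join_le hz lam (D v)
  rw [ssize_lam, pow_one] at h2
  unfold V
  linarith

theorem N_cherry_node (hz : 0 ≤ z) (v : BT) :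
    mass z (N (.node cherry v)) ≤ z ^ 2 * V z v + B z v - z ^ 3 + z := by
  have key : ∀ a b, a ∈ D v → b ∈ D v → (∀ x, join a b ≠ join lam x) → join a b ∈ D v →
      join a b ∈ ((D v).erase lam).image (join chi) ∪ (bigD v ∪ {lam}) := by
    intro a b ha hb h h'
    rw [Finset.mem_union, Finset.mem_union]
    have ha1 : ssize a ≠ 1 := by
      intro h1
      rw [eq_lam h1] at h
      exact h b rfl
    have hb1 : ssize b ≠ 1 := by
      intro h1
      rw [eq_lam h1, join_comm] at h
      exact h a rfl
    have := ssize_pos a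
    have := ssize_pos b
    by_cases ha2 : ssize a = 2
    · refine Or.inl (Finset.mem_image.2 ⟨b, Finset.mem_erase.2 ⟨?_, hb⟩, by rw [eq_chi ha2]⟩)
      rintro rfl
      exact hb1 rfl
    by_cases hb2 : ssize b = 2
    · refine Or.inl (Finset.mem_image.2 ⟨a, Finset.mem_erase.2 ⟨?_, ha⟩, by
        rw [eq_chi hb2, join_comm]⟩)
      rintro rfl
      exact ha1 rfl
    · exact Or.inr (Or.inl (mem_bigD.2 ⟨h', a, b, rfl, by omega, by omega⟩))
  have h1 : N (.node cherry v) ⊆ ((D v).erase lam).image (join chi) ∪ (bigD v ∪ {lam}) := by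
    intro q hq
    obtain ⟨h1, h2⟩ := mem_N.1 hq
    have hl : lam ∈ ((D v).erase lam).image (join chi) ∪ (bigD v ∪ {lam}) :=
      Finset.mem_union_right _ (Finset.mem_union_right _ (Finset.mem_singleton_self _))
    rcases mem_D_node.1 h1 with h | h | ⟨a, ha, b, hb, rfl⟩
    · have h3 := ssize_le h
      have h4 : cherry.size = 2 := rfl
      have h5 := ssize_pos q
      rcases (show ssize q = 1 ∨ ssize q = 2 by omega) with h6 | h6
      · rw [eq_lam h6]
        exact hl
      · exact absurd (eq_chi h6) (h2 lam)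
    · rcases shape_cases q with rfl | ⟨a, b, rfl⟩
      · exact hl
      · exact key a b (D_children h).1 (D_children h).2 h2 h
    · have h3 := ssize_le ha
      have h4 : cherry.size = 2 := rfl
      have h5 := ssize_pos a
      rcases (show ssize a = 1 ∨ ssize a = 2 by omega) with h6 | h6
      · rw [eq_lam h6] at h2
        exact absurd rfl (h2 b)
      · refine Finset.mem_union_left _ (Finset.mem_image.2
          ⟨b, Finset.mem_erase.2 ⟨?_, hb⟩, by rw [eq_chi h6]⟩)
        rintro rfl
        rw [join_comm] at h2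
        exact h2 a rfl
  have h2 := mass_mono hz h1
  have h3 := mass_union_le hz (((D v).erase lam).image (join chi)) (bigD v ∪ {lam})
  have h4 := mass_union_le hz (bigD v) {lam}
  have h5 := mass_join_le hz chi ((D v).erase lam)
  rw [mass_erase (lam_mem v), ssize_chi, ssize_lam] at h5
  rw [mass_singleton, ssize_lam] at h4
  unfold V B
  nlinarith

theorem V_node_le (hz : 0 ≤ z) (l r : BT) :
    V z (.node l r) ≤ V z l + V z r + V z l * V z r := by
  have h1 := mass_union_le hz (D l ∪ D r) ((D l ×ˢ D r).image fun p => join p.1 p.2)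
  have h2 := mass_union_le hz (D l) (D r)
  have h3 := mass_prod_le hz (D l) (D r)
  show mass z (D l ∪ D r ∪ (D l ×ˢ D r).image fun p => join p.1 p.2) ≤ _
  unfold V
  linarith

theorem mem_three {l : BT} (hl : l.size = 3) {q : Shape} (h : q ∈ D l) :
    q = lam ∨ q = chi ∨ q = tau := by
  have h1 := ssize_le h
  have h2 := ssize_pos q
  rcases (show ssize q = 1 ∨ ssize q = 2 ∨ ssize q = 3 by omega) with h3 | h3 | h3
  · exact Or.inl (eq_lam h3)
  · exact Or.inr (Or.inl (eq_chi h3))
  · exact Or.inr (Or.inr (eq_tau h3))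

theorem three_subset {l r : BT} (hl : l.size = 3) (hr : 3 ≤ r.size) : D l ⊆ D r := by
  intro q h
  rcases mem_three hl h with rfl | rfl | rfl
  · exact lam_mem r
  · exact chi_mem (by omega)
  · exact tau_mem hr

theorem V_three (hz : 0 ≤ z) {l r : BT} (hl : l.size = 3) (hr : 3 ≤ r.size) :
    V z (.node l r) ≤ (1 + (z + z ^ 2 + z ^ 3)) * V z r := by
  have h1 : D (.node l r) ⊆
      D r ∪ ((D r).image (join lam) ∪ ((D r).image (join chi) ∪ (D r).image (join tau))) := by
    intro q hq
    simp only [Finset.mem_union]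
    rcases mem_D_node.1 hq with h | h | ⟨a, ha, b, hb, rfl⟩
    · exact Or.inl (three_subset hl hr h)
    · exact Or.inl h
    · rcases mem_three hl ha with rfl | rfl | rfl
      · exact Or.inr (Or.inl (Finset.mem_image.2 ⟨b, hb, rfl⟩))
      · exact Or.inr (Or.inr (Or.inl (Finset.mem_image.2 ⟨b, hb, rfl⟩)))
      · exact Or.inr (Or.inr (Or.inr (Finset.mem_image.2 ⟨b, hb, rfl⟩)))
  have h2 := mass_mono hz h1
  have h3 := mass_union_le hz (D r)
    ((D r).image (join lam) ∪ ((D r).image (join chi) ∪ (D r).image (join tau)))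
  have h4 := mass_union_le hz ((D r).image (join lam))
    ((D r).image (join chi) ∪ (D r).image (join tau))
  have h5 := mass_union_le hz ((D r).image (join chi)) ((D r).image (join tau))
  have h6 := mass_join_le hz lam (D r)
  have h7 := mass_join_le hz chi (D r)
  have h8 := mass_join_le hz tau (D r)
  rw [ssize_lam] at h6
  rw [ssize_chi] at h7
  rw [ssize_tau] at h8
  unfold V
  linarith

theorem B_three (hz : 0 ≤ z) {l r : BT} (hl : l.size = 3) (hr : 3 ≤ r.size) :
    B z (.node l r) ≤ (1 + z ^ 3) * V z r := by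
  have h1 : bigD (.node l r) ⊆ D r ∪ (D r).image (join tau) := by
    intro q hq
    rw [Finset.mem_union]
    obtain ⟨h1, a, b, rfl, ha, hb⟩ := mem_bigD.1 hq
    rcases mem_D_node.1 h1 with h | h | ⟨a', ha', b', hb', h⟩
    · exact Or.inl (three_subset hl hr h)
    · exact Or.inl h
    · rcases mem_three hl ha' with rfl | rfl | rfl
      · exact (big_ne h.symm ha hb (by rw [ssize_lam]; omega)).elim
      · exact (big_ne h.symm ha hb (by rw [ssize_chi])).elim
      · exact Or.inr (Finset.mem_image.2 ⟨b', hb', h⟩)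
  have h2 := mass_mono hz h1
  have h3 := mass_union_le hz (D r) ((D r).image (join tau))
  have h8 := mass_join_le hz tau (D r)
  rw [ssize_tau] at h8
  unfold B V
  linarith

end bounds

end Pool.Agent.DeckB
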